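import Pool.Agent.R709.SM.Stm2

/-! Strongly maximal `c`-matchings from strongly maximal matchings (piece SM-B1, project SM,
problem MP_fc2b6d_co). -/

namespace Pool.Agent.R709.SM

open SimpleGraph

namespace B1

variable {V : Type} {c : ℕ}

/-- vertices of the auxiliary graph: copies `(u, i)` of the vertices and one vertex `d(u, v)`
for each ordered pair. -/
abbrev W2 (V : Type) (c : ℕ) : Type := (V × Fin c) ⊕ (V × V)

def hAdj (G : SimpleGraph V) (c : ℕ) : W2 V c → W2 V c → Prop
  | .inl _, .inl _ => False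
  | .inl (u, _), .inr (u', v) => u' = u ∧ G.Adj u' v
  | .inr (u', v), .inl (u, _) => u' = u ∧ G.Adj u' v
  | .inr (u, v), .inr (u', v') => G.Adj u v ∧ u' = v ∧ v' = u

def Host (G : SimpleGraph V) (c : ℕ) : SimpleGraph (W2 V c) where
  Adj := hAdj G c
  symm := ⟨by
    rintro (⟨u, i⟩ | ⟨u, v⟩) (⟨u', i'⟩ | ⟨u', v'⟩) h
    · exact h
    · exact h
    · exact h
    · obtain ⟨h1, h2, h3⟩ := h
      subst h2 h3
      exact ⟨h1.symm, rfl, rfl⟩⟩
  loopless := ⟨by
    rintro (⟨u, i⟩ | ⟨u, v⟩) h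
    · exact h
    · obtain ⟨h1, h2, h3⟩ := h
      exact h1.ne h2⟩

def mAdj (G : SimpleGraph V) (x : V → V → Option (Fin c)) : W2 V c → W2 V c → Prop
  | .inl _, .inl _ => False
  | .inl (u, i), .inr (u', v) => u' = u ∧ x u' v = some i
  | .inr (u', v), .inl (u, i) => u' = u ∧ x u' v = some i
  | .inr (u, v), .inr (u', v') => G.Adj u v ∧ u' = v ∧ v' = u ∧ x u v = none ∧ x v u = none

/-- the matching given by an assignment of copies to the ordered pairs. -/
def mk (G : SimpleGraph V) (x : V → V → Option (Fin c)) : SimpleGraph (W2 V c) where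
  Adj := mAdj G x
  symm := ⟨by
    rintro (⟨u, i⟩ | ⟨u, v⟩) (⟨u', i'⟩ | ⟨u', v'⟩) h
    · exact h
    · exact h
    · exact h
    · obtain ⟨h1, h2, h3, h4, h5⟩ := h
      subst h2 h3
      exact ⟨h1.symm, rfl, rfl, h5, h4⟩⟩
  loopless := ⟨by
    rintro (⟨u, i⟩ | ⟨u, v⟩) h
    · exact h
    · obtain ⟨h1, h2, h3⟩ := h
      exact h1.ne h2⟩

/-- assignments which give a matching of the auxiliary graph. -/
structure Valid (G : SimpleGraph V) (x : V → V → Option (Fin c)) : Prop where
  adj : ∀ u v i, x u v = some i → G.Adj u v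
  inj : ∀ u v w i, x u v = some i → x u w = some i → v = w

theorem Valid.adj' {G : SimpleGraph V} {x : V → V → Option (Fin c)} (h : Valid G x) {u v : V}
    (hx : x u v ≠ none) : G.Adj u v := by
  obtain ⟨i, hi⟩ := Option.ne_none_iff_exists'.mp hx
  exact h.adj _ _ _ hi

/-- the edges both of whose ends are assigned. -/
def full {G : SimpleGraph V} {x : V → V → Option (Fin c)} (h : Valid G x) : SimpleGraph V where
  Adj u v := x u v ≠ none ∧ x v u ≠ none
  symm := ⟨fun _ _ h => ⟨h.2, h.1⟩⟩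
  loopless := ⟨fun _ hu => (h.adj' hu.1).ne rfl⟩

theorem full_adj {G : SimpleGraph V} {x : V → V → Option (Fin c)} (h : Valid G x) {u v : V} :
    (full h).Adj u v ↔ x u v ≠ none ∧ x v u ≠ none := Iff.rfl

theorem full_le {G : SimpleGraph V} {x : V → V → Option (Fin c)} (h : Valid G x) :
    full h ≤ G := fun _ _ huv => h.adj' huv.1

theorem encard_assigned {G : SimpleGraph V} {x : V → V → Option (Fin c)} (h : Valid G x) (u : V) :
    {v | x u v ≠ none}.encard ≤ c := by
  classical
  have h1 : (Set.univ : Set (Fin c)).encard = c := by simp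
  rw [← h1]
  have hex : ∀ v, x u v ≠ none → ∃ i, x u v = some i := fun v hv =>
    Option.ne_none_iff_exists'.mp hv
  by_cases hne : ∃ v, x u v ≠ none
  · obtain ⟨v0, hv0⟩ := hne
    obtain ⟨i0, -⟩ := hex v0 hv0
    refine Set.encard_le_encard_of_injOn (f := fun v => (x u v).getD i0) (fun _ _ => Set.mem_univ _) ?_
    intro v hv w hw hvw
    obtain ⟨i, hi⟩ := hex v hv
    obtain ⟨j, hj⟩ := hex w hw
    simp only [hi, hj, Option.getD_some] at hvw
    subst hvw
    exact h.inj _ _ _ _ hi hj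
  · push Not at hne
    have : {v | x u v ≠ none} = ∅ := by
      ext v; simp [hne v]
    rw [this]; simp

theorem full_deg {G : SimpleGraph V} {x : V → V → Option (Fin c)} (h : Valid G x) :
    DegLe (full h) c := fun u =>
  le_trans (Set.encard_le_encard (fun _ hv => hv.1)) (encard_assigned h u)

theorem mk_le {G : SimpleGraph V} {x : V → V → Option (Fin c)} (h : Valid G x) :
    mk G x ≤ Host G c := by
  rintro (⟨u, i⟩ | ⟨u, v⟩) (⟨u', i'⟩ | ⟨u', v'⟩) hh
  · exact hh
  · exact ⟨hh.1, h.adj _ _ _ hh.2⟩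
  · exact ⟨hh.1, h.adj _ _ _ hh.2⟩
  · exact ⟨hh.1, hh.2.1, hh.2.2.1⟩

theorem mk_deg {G : SimpleGraph V} {x : V → V → Option (Fin c)} (h : Valid G x) :
    DegLe (mk G x) 1 := by
  intro a
  rw [Nat.cast_one, Set.encard_le_one_iff]
  intro b b' hb hb'
  rcases a with ⟨u, i⟩ | ⟨u, v⟩
  · rcases b with ⟨u1, i1⟩ | ⟨u1, v1⟩
    · exact absurd hb id
    rcases b' with ⟨u2, i2⟩ | ⟨u2, v2⟩
    · exact absurd hb' id
    obtain ⟨rfl, h1⟩ := hb
    obtain ⟨rfl, h2⟩ := hb'
    rw [h.inj _ _ _ _ h1 h2]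
  · rcases b with ⟨u1, i1⟩ | ⟨u1, v1⟩
    · obtain ⟨rfl, h1⟩ := hb
      rcases b' with ⟨u2, i2⟩ | ⟨u2, v2⟩
      · obtain ⟨rfl, h2⟩ := hb'
        rw [h1] at h2
        simp only [Option.some.injEq] at h2
        rw [h2]
      · obtain ⟨-, -, -, h2, -⟩ := hb'
        rw [h1] at h2
        exact absurd h2 (by simp)
    · obtain ⟨-, rfl, rfl, h1, -⟩ := hb
      rcases b' with ⟨u2, i2⟩ | ⟨u2, v2⟩
      · obtain ⟨rfl, h2⟩ := hb'
        rw [h1] at h2
        exact absurd h2 (by simp)
      · obtain ⟨-, rfl, rfl, h2, -⟩ := hb'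
        rfl

/-- the edges of the auxiliary graph which belong to `D`. -/
def U (c : ℕ) (D : Set (Sym2 V)) : Set (Sym2 (W2 V c)) :=
  {f | ∃ p : V × V, s(p.1, p.2) ∈ D ∧ (Sum.inr p : W2 V c) ∈ f}

theorem count_one {G : SimpleGraph V} {x : V → V → Option (Fin c)} (h : Valid G x) (u v : V)
    (huv : G.Adj u v) :
    ((mk G x).edgeSet ∩ U c {s(u, v)}).Finite ∧
    ((mk G x).edgeSet ∩ U c {s(u, v)}).ncard =
      1 + ({s(u, v)} ∩ (full h).edgeSet : Set (Sym2 V)).ncard := by
  classical
  -- edges at `d(u, v)`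
  have key : ∀ f : Sym2 (W2 V c), f ∈ (mk G x).edgeSet ∩ U c {s(u, v)} ↔
      f ∈ (mk G x).edgeSet ∧ ((Sum.inr (u, v) : W2 V c) ∈ f ∨ (Sum.inr (v, u) : W2 V c) ∈ f) := by
    intro f
    constructor
    · rintro ⟨h1, ⟨a, b⟩, h2, h3⟩
      refine ⟨h1, ?_⟩
      simp only [Set.mem_singleton_iff, Sym2.eq_iff] at h2
      rcases h2 with ⟨rfl, rfl⟩ | ⟨rfl, rfl⟩
      · exact Or.inl h3
      · exact Or.inr h3
    · rintro ⟨h1, h2 | h2⟩
      · exact ⟨h1, (u, v), by simp, h2⟩
      · exact ⟨h1, (v, u), by simp [Sym2.eq_swap], h2⟩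
  have at1 : ∀ u v : V, ∀ f : Sym2 (W2 V c), (f ∈ (mk G x).edgeSet ∧ (Sum.inr (u, v) : W2 V c) ∈ f) ↔
      (∃ b, (mk G x).Adj (Sum.inr (u, v)) b ∧ f = s(Sum.inr (u, v), b)) := by
    intro u v f
    constructor
    · rintro ⟨h1, h2⟩
      obtain ⟨b, rfl⟩ := h2
      exact ⟨b, h1, rfl⟩
    · rintro ⟨b, h1, rfl⟩
      exact ⟨h1, Sym2.mem_mk_left _ _⟩
  have hnb : ∀ u v : V, ∀ i, x u v = some i → ∀ b, (mk G x).Adj (Sum.inr (u, v)) b ↔ b = Sum.inl (u, i) := by
    intro u v i hi b
    constructor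
    · intro hb
      have h2 : (mk G x).Adj (Sum.inr (u, v)) (Sum.inl (u, i)) := ⟨rfl, hi⟩
      have h3 := mk_deg h (Sum.inr (u, v))
      rw [Nat.cast_one, Set.encard_le_one_iff] at h3
      exact h3 _ _ hb h2
    · rintro rfl
      exact ⟨rfl, hi⟩
  have hnn : ∀ u v : V, G.Adj u v → x u v = none → x v u = none → ∀ b, (mk G x).Adj (Sum.inr (u, v)) b ↔
      b = Sum.inr (v, u) := by
    intro u v huv h1 h2 b
    constructor
    · intro hb
      have h2 : (mk G x).Adj (Sum.inr (u, v)) (Sum.inr (v, u)) := ⟨huv, rfl, rfl, h1, h2⟩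
      have h3 := mk_deg h (Sum.inr (u, v))
      rw [Nat.cast_one, Set.encard_le_one_iff] at h3
      exact h3 _ _ hb h2
    · rintro rfl
      exact ⟨huv, rfl, rfl, h1, h2⟩
  have hno : ∀ u v : V, ∀ i, x u v = none → x v u = some i → ∀ b, ¬ (mk G x).Adj (Sum.inr (u, v)) b := by
    intro u v i h1 h2 b hb
    rcases b with ⟨u1, i1⟩ | ⟨u1, v1⟩
    · obtain ⟨rfl, h3⟩ := hb
      rw [h1] at h3; exact absurd h3 (by simp)
    · obtain ⟨-, -, -, -, h3⟩ := hb
      rw [h2] at h3; exact absurd h3 (by simp)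
  have hfull : ({s(u, v)} ∩ (full h).edgeSet : Set (Sym2 V)) =
      if x u v ≠ none ∧ x v u ≠ none then {s(u, v)} else ∅ := by
    split_ifs with h1
    · rw [Set.inter_eq_left]
      rintro f rfl
      exact h1
    · ext f
      simp only [Set.mem_inter_iff, Set.mem_singleton_iff, Set.mem_empty_iff_false, iff_false,
        not_and]
      rintro rfl h2
      exact h1 h2
  rcases h1 : x u v with _ | i <;> rcases h2 : x v u with _ | j
  · have : (mk G x).edgeSet ∩ U c {s(u, v)} = {s(Sum.inr (u, v), Sum.inr (v, u))} := by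
      ext f
      rw [key, and_or_left, at1, at1]
      simp only [hnn u v huv h1 h2, hnn v u huv.symm h2 h1, exists_eq_left, Set.mem_singleton_iff]
      rw [Sym2.eq_swap (a := (Sum.inr (v, u) : W2 V c)), or_self]
    rw [this, hfull]
    simp [h1]
  · have : (mk G x).edgeSet ∩ U c {s(u, v)} = {s(Sum.inr (v, u), Sum.inl (v, j))} := by
      ext f
      rw [key, and_or_left, at1, at1]
      simp only [hnb v u j h2, hno u v j h1 h2, exists_eq_left, Set.mem_singleton_iff, false_and,
        exists_false, false_or]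
    rw [this, hfull]
    simp [h1]
  · have : (mk G x).edgeSet ∩ U c {s(u, v)} = {s(Sum.inr (u, v), Sum.inl (u, i))} := by
      ext f
      rw [key, and_or_left, at1, at1]
      simp only [hnb u v i h1, hno v u i h2 h1, exists_eq_left, Set.mem_singleton_iff, false_and,
        exists_false, or_false]
    rw [this, hfull]
    simp [h2]
  · have : (mk G x).edgeSet ∩ U c {s(u, v)} =
        {s(Sum.inr (u, v), Sum.inl (u, i)), s(Sum.inr (v, u), Sum.inl (v, j))} := by
      ext f
      rw [key, and_or_left, at1, at1]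
      simp only [hnb u v i h1, hnb v u j h2, exists_eq_left, Set.mem_insert_iff,
        Set.mem_singleton_iff]
    rw [this, hfull]
    refine ⟨Set.toFinite _, ?_⟩
    rw [Set.ncard_pair]
    · simp [h1, h2]
    · intro he
      rw [Sym2.eq_iff] at he
      simp only [Sum.inr.injEq, Prod.mk.injEq, reduceCtorEq, and_self, or_false, Sum.inl.injEq] at he
      exact huv.ne he.1.1

theorem count {G : SimpleGraph V} {x : V → V → Option (Fin c)} (h : Valid G x)
    (D : Set (Sym2 V)) (hD : D.Finite) (hDG : D ⊆ G.edgeSet) :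
    ((mk G x).edgeSet ∩ U c D).Finite ∧
    ((mk G x).edgeSet ∩ U c D).ncard = D.ncard + (D ∩ (full h).edgeSet).ncard := by
  induction D, hD using Set.Finite.induction_on with
  | empty => simp [U]
  | @insert e D he hfin ih =>
    obtain ⟨ih1, ih2⟩ := ih (fun f hf => hDG (Set.mem_insert_of_mem _ hf))
    have heG : e ∈ G.edgeSet := hDG (Set.mem_insert _ _)
    obtain ⟨u, v⟩ := e
    have huv : G.Adj u v := heG
    obtain ⟨o1, o2⟩ := count_one h u v huv
    have hU : (mk G x).edgeSet ∩ U c (insert s(u, v) D) =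
        ((mk G x).edgeSet ∩ U c {s(u, v)}) ∪ ((mk G x).edgeSet ∩ U c D) := by
      ext f
      constructor
      · rintro ⟨h1, p, h2, h3⟩
        rcases h2 with h2 | h2
        · exact Or.inl ⟨h1, p, h2, h3⟩
        · exact Or.inr ⟨h1, p, h2, h3⟩
      · rintro (⟨h1, p, h2, h3⟩ | ⟨h1, p, h2, h3⟩)
        · exact ⟨h1, p, Or.inl h2, h3⟩
        · exact ⟨h1, p, Or.inr h2, h3⟩
    have hdisj : Disjoint ((mk G x).edgeSet ∩ U c {s(u, v)}) ((mk G x).edgeSet ∩ U c D) := by
      rw [Set.disjoint_left]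
      rintro f ⟨h1, p, h2, h3⟩ ⟨-, q, h4, h5⟩
      have hpq : s(p.1, p.2) = s(q.1, q.2) := by
        obtain ⟨b, rfl⟩ := h3
        rw [Sym2.mem_iff] at h5
        rcases h5 with h5 | h5
        · simp only [Sum.inr.injEq] at h5
          rw [h5]
        · subst h5
          have h6 : (mk G x).Adj (Sum.inr p) (Sum.inr q) := h1
          obtain ⟨-, h7, h8, -⟩ := h6
          rw [h7, h8, Sym2.eq_swap]
      rw [Set.mem_singleton_iff] at h2
      rw [← hpq, h2] at h4
      exact he h4
    refine ⟨by rw [hU]; exact o1.union ih1, ?_⟩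
    rw [hU, Set.ncard_union_eq hdisj o1 ih1, o2, ih2, Set.ncard_insert_of_notMem he hfin]
    have h6 : (insert s(u, v) D) ∩ (full h).edgeSet =
        ({s(u, v)} ∩ (full h).edgeSet) ∪ (D ∩ (full h).edgeSet) := by
      rw [Set.insert_eq, Set.union_inter_distrib_right]
    have h7 : Disjoint ({s(u, v)} ∩ (full h).edgeSet) (D ∩ (full h).edgeSet) := by
      rw [Set.disjoint_left]
      rintro f ⟨h1, -⟩ ⟨h2, -⟩
      rw [Set.mem_singleton_iff] at h1
      subst h1
      exact he h2
    rw [h6, Set.ncard_union_eq h7 ((Set.finite_singleton _).inter_of_left _)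
      (hfin.inter_of_left _)]
    omega

/-- the argument of `SMax.region`. -/
theorem region' {V : Type} {F I : SimpleGraph V}
    (h1 : Cardinal.mk ↥(I.edgeSet \ F.edgeSet) ≤ Cardinal.mk ↥(F.edgeSet \ I.edgeSet))
    (U : Set (Sym2 V)) (hU : ∀ e ∉ U, e ∈ F.edgeSet ↔ e ∈ I.edgeSet)
    (hF : (F.edgeSet ∩ U).Finite) (hIf : (I.edgeSet ∩ U).Finite) :
    (I.edgeSet ∩ U).ncard ≤ (F.edgeSet ∩ U).ncard := by
  have s1 : F.edgeSet \ I.edgeSet = (F.edgeSet ∩ U) \ (I.edgeSet ∩ U) := by
    ext e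
    by_cases he : e ∈ U
    · simp [he]
    · have := hU e he
      simp only [Set.mem_sdiff, Set.mem_inter_iff, he, and_false, not_false_eq_true, and_true]
      tauto
  have s2 : I.edgeSet \ F.edgeSet = (I.edgeSet ∩ U) \ (F.edgeSet ∩ U) := by
    ext e
    by_cases he : e ∈ U
    · simp [he]
    · have := hU e he
      simp only [Set.mem_sdiff, Set.mem_inter_iff, he, and_false, not_false_eq_true, and_true]
      tauto
  have hfin : (F.edgeSet \ I.edgeSet).Finite := by
    rw [s1]; exact hF.subset Set.sdiff_subset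
  have hf2 : (I.edgeSet \ F.edgeSet).Finite := by
    rw [s2]; exact hIf.subset Set.sdiff_subset
  have h2 : (I.edgeSet \ F.edgeSet).ncard ≤ (F.edgeSet \ I.edgeSet).ncard := by
    have e1 : Cardinal.mk ↥(F.edgeSet \ I.edgeSet) =
        ((F.edgeSet \ I.edgeSet).ncard : Cardinal) := by rw [← Set.cast_ncard hfin]
    have e2 : Cardinal.mk ↥(I.edgeSet \ F.edgeSet) =
        ((I.edgeSet \ F.edgeSet).ncard : Cardinal) := by rw [← Set.cast_ncard hf2]
    rw [e1, e2] at h1
    exact_mod_cast h1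
  rw [s1, s2] at h2
  have a1 := Set.ncard_sdiff_add_ncard_of_subset (s := (F.edgeSet ∩ U) ∩ (I.edgeSet ∩ U))
    (t := F.edgeSet ∩ U) Set.inter_subset_left hF
  have a2 := Set.ncard_sdiff_add_ncard_of_subset (s := (F.edgeSet ∩ U) ∩ (I.edgeSet ∩ U))
    (t := I.edgeSet ∩ U) Set.inter_subset_right hIf
  have b1 : (F.edgeSet ∩ U) \ ((F.edgeSet ∩ U) ∩ (I.edgeSet ∩ U)) =
      (F.edgeSet ∩ U) \ (I.edgeSet ∩ U) := by
    ext e; simp only [Set.mem_sdiff, Set.mem_inter_iff]; tauto
  have b2 : (I.edgeSet ∩ U) \ ((F.edgeSet ∩ U) ∩ (I.edgeSet ∩ U)) =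
      (I.edgeSet ∩ U) \ (F.edgeSet ∩ U) := by
    ext e; simp only [Set.mem_sdiff, Set.mem_inter_iff]; tauto
  rw [b1] at a1
  rw [b2] at a2
  omega

theorem exists_x {G : SimpleGraph V} {M : SimpleGraph (W2 V c)} (hM : M ≤ Host G c)
    (hd : DegLe M 1) (hmax : ∀ I : SimpleGraph (W2 V c), I ≤ Host G c → DegLe I 1 →
      Cardinal.mk ↥(I.edgeSet \ M.edgeSet) ≤ Cardinal.mk ↥(M.edgeSet \ I.edgeSet)) :
    ∃ (x : V → V → Option (Fin c)) (_ : Valid G x), M = mk G x := by
  classical
  have hu : ∀ a b b', M.Adj a b → M.Adj a b' → b = b' := by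
    intro a b b' h1 h2
    have h3 := hd a
    rw [Nat.cast_one, Set.encard_le_one_iff] at h3
    exact h3 _ _ h1 h2
  let x : V → V → Option (Fin c) := fun u v =>
    if h : ∃ i, M.Adj (Sum.inl (u, i)) (Sum.inr (u, v)) then some h.choose else none
  have hx1 : ∀ u v i, x u v = some i → M.Adj (Sum.inl (u, i)) (Sum.inr (u, v)) := by
    intro u v i h
    simp only [x] at h
    split_ifs at h with h1
    rw [← Option.some.inj h]
    exact h1.choose_spec
  have hx2 : ∀ u v i, M.Adj (Sum.inl (u, i)) (Sum.inr (u, v)) → x u v = some i := by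
    intro u v i h
    have h1 : ∃ i, M.Adj (Sum.inl (u, i)) (Sum.inr (u, v)) := ⟨i, h⟩
    simp only [x, dif_pos h1]
    have h2 := hu _ _ _ h.symm h1.choose_spec.symm
    simp only [Sum.inl.injEq, Prod.mk.injEq, true_and] at h2
    rw [← h2]
  have hv : Valid G x := ⟨fun u v i h => (hM (hx1 u v i h)).2, fun u v w i h1 h2 => by
    have := hu _ _ _ (hx1 _ _ _ h1) (hx1 _ _ _ h2)
    simpa using this⟩
  have hin : ∀ u v, M.Adj (Sum.inr (u, v)) (Sum.inr (v, u)) → x u v = none := by
    intro u v hh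
    by_contra h2
    obtain ⟨i, hi⟩ := Option.ne_none_iff_exists'.mp h2
    have := hu _ _ _ (hx1 _ _ _ hi).symm hh
    exact absurd this (by simp)
  have hle : M ≤ mk G x := by
    rintro (⟨u, i⟩ | ⟨u, v⟩) (⟨u', i'⟩ | ⟨u', v'⟩) hh
    · exact absurd (hM hh) id
    · obtain ⟨rfl, -⟩ := hM hh
      exact ⟨rfl, hx2 _ _ _ hh⟩
    · obtain ⟨rfl, -⟩ := hM hh
      exact ⟨rfl, hx2 _ _ _ hh.symm⟩
    · obtain ⟨h1, rfl, rfl⟩ := hM hh
      exact ⟨h1, rfl, rfl, hin _ _ hh, hin _ _ hh.symm⟩
  refine ⟨x, hv, le_antisymm hle ?_⟩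
  have h1 := hmax (mk G x) (mk_le hv) (mk_deg hv)
  have h2 : M.edgeSet \ (mk G x).edgeSet = ∅ := by
    rw [Set.sdiff_eq_empty]
    exact edgeSet_subset_edgeSet.mpr hle
  rw [h2] at h1
  have h3 : Cardinal.mk ↥((mk G x).edgeSet \ M.edgeSet) = 0 := by simpa using h1
  rw [Cardinal.mk_eq_zero_iff, Set.isEmpty_coe_sort, Set.sdiff_eq_empty] at h3
  exact edgeSet_subset_edgeSet.mp h3

theorem enc (s : Set V) (hs : s.encard ≤ c) : ∃ g : V → Option (Fin c), (∀ v, g v ≠ none ↔ v ∈ s) ∧
    ∀ v w i, g v = some i → g w = some i → v = w := by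
  classical
  have hfin : s.Finite := Set.finite_of_encard_le_coe hs
  have hcard : s.ncard ≤ c := by
    rw [← hfin.cast_ncard_eq] at hs
    exact_mod_cast hs
  have := hfin.fintype
  have h1 : Fintype.card s ≤ Fintype.card (Fin c) := by
    rw [Fintype.card_fin, ← Nat.card_eq_fintype_card, Nat.card_coe_set_eq]
    exact hcard
  obtain ⟨e⟩ := Function.Embedding.nonempty_of_card_le h1
  refine ⟨fun v => if h : v ∈ s then some (e ⟨v, h⟩) else none, ?_, ?_⟩
  · intro v
    by_cases h : v ∈ s <;> simp [h]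
  · intro v w i hv hw
    by_cases h : v ∈ s
    · by_cases h' : w ∈ s
      · simp only [h, h', dif_pos, Option.some.injEq] at hv hw
        have := e.injective (hv.trans hw.symm)
        simpa using this
      · simp [h'] at hw
    · simp [h] at hv

theorem improve {G F I : SimpleGraph V} (hF : F ≤ G) (hFd : DegLe F c) (hI : I ≤ G)
    (hId : DegLe I c) (hlt : ¬ Cardinal.mk ↥(I.edgeSet \ F.edgeSet) ≤
      Cardinal.mk ↥(F.edgeSet \ I.edgeSet)) :
    ∃ F' : SimpleGraph V, F' ≤ G ∧ DegLe F' c ∧ (F.edgeSet \ F'.edgeSet).Finite ∧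
      (F'.edgeSet \ F.edgeSet).Finite ∧
      (F'.edgeSet \ F.edgeSet).ncard = (F.edgeSet \ F'.edgeSet).ncard + 1 := by
  classical
  by_cases hfin : (F.edgeSet \ I.edgeSet).Finite
  · obtain ⟨B, hB, hBf, hBc⟩ : ∃ B, B ⊆ I.edgeSet \ F.edgeSet ∧ B.Finite ∧
        B.ncard = (F.edgeSet \ I.edgeSet).ncard + 1 := by
      by_cases hi : (I.edgeSet \ F.edgeSet).Finite
      · have h2 : (F.edgeSet \ I.edgeSet).ncard + 1 ≤ (I.edgeSet \ F.edgeSet).ncard := by
          by_contra h3
          apply hlt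
          have e1 : Cardinal.mk ↥(F.edgeSet \ I.edgeSet) =
            ((F.edgeSet \ I.edgeSet).ncard : Cardinal) := by rw [← Set.cast_ncard hfin]
          have e2 : Cardinal.mk ↥(I.edgeSet \ F.edgeSet) =
            ((I.edgeSet \ F.edgeSet).ncard : Cardinal) := by rw [← Set.cast_ncard hi]
          rw [e1, e2]
          exact_mod_cast (by omega :
            (I.edgeSet \ F.edgeSet).ncard ≤ (F.edgeSet \ I.edgeSet).ncard)
        obtain ⟨t, ht, htc⟩ := Set.exists_subset_card_eq h2
        exact ⟨t, ht, hi.subset ht, htc⟩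
      · exact Set.Infinite.exists_subset_ncard_eq hi _
    have hedge : (fromEdgeSet ((F.edgeSet ∩ I.edgeSet) ∪ B)).edgeSet =
        (F.edgeSet ∩ I.edgeSet) ∪ B := by
      rw [edgeSet_fromEdgeSet, sdiff_eq_left, Set.disjoint_left]
      rintro e he hd
      have heI : e ∈ I.edgeSet := by
        rcases he with he | he
        · exact he.2
        · exact (hB he).1
      exact I.not_isDiag_of_mem_edgeSet heI hd
    have hle : fromEdgeSet ((F.edgeSet ∩ I.edgeSet) ∪ B) ≤ I := by
      rw [← edgeSet_subset_edgeSet, hedge]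
      rintro e (he | he)
      · exact he.2
      · exact (hB he).1
    have d1 : F.edgeSet \ ((F.edgeSet ∩ I.edgeSet) ∪ B) = F.edgeSet \ I.edgeSet := by
      ext e
      have := @hB e
      simp only [Set.mem_sdiff, Set.mem_union, Set.mem_inter_iff] at this ⊢
      tauto
    have d2 : ((F.edgeSet ∩ I.edgeSet) ∪ B) \ F.edgeSet = B := by
      ext e
      have := @hB e
      simp only [Set.mem_sdiff, Set.mem_union, Set.mem_inter_iff] at this ⊢
      tauto
    refine ⟨fromEdgeSet ((F.edgeSet ∩ I.edgeSet) ∪ B), hle.trans hI, ?_, ?_, ?_, ?_⟩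
    · intro v
      exact le_trans (Set.encard_le_encard (fun w hw => hle hw)) (hId v)
    · rw [hedge, d1]; exact hfin
    · rw [hedge, d2]; exact hBf
    · rw [hedge, d1, d2]; exact hBc
  · -- infinite case
    have hex : ∃ e ∈ I.edgeSet \ F.edgeSet, ∀ f ∈ F.edgeSet \ I.edgeSet, ∀ w, w ∈ e → w ∉ f := by
      by_contra hcon
      push Not at hcon
      apply hlt
      have hch : ∀ e : ↥(I.edgeSet \ F.edgeSet), ∃ f : ↥(F.edgeSet \ I.edgeSet), ∃ w, w ∈ e.1 ∧
          w ∈ f.1 := by
        rintro ⟨e, he⟩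
        obtain ⟨f, hf, w, h1, h2⟩ := hcon e he
        exact ⟨⟨f, hf⟩, w, h1, h2⟩
      choose g hg using hch
      have hinf : Cardinal.aleph0 ≤ Cardinal.mk ↥(F.edgeSet \ I.edgeSet) := by
        rw [Cardinal.aleph0_le_mk_iff, Set.infinite_coe_iff]
        exact hfin
      rw [← Cardinal.mul_aleph0_eq hinf]
      refine Cardinal.mk_le_mk_mul_of_mk_preimage_le g ?_
      intro f
      have hfin2 : (g ⁻¹' {f}).Finite := by
        have h1 : (Subtype.val '' (g ⁻¹' {f})) ⊆
            ⋃ w ∈ {w | w ∈ f.1}, (fun z => s(w, z)) '' (I.neighborSet w) := by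
          rintro _ ⟨e, he, rfl⟩
          obtain ⟨w, h1, h2⟩ := hg e
          rw [Set.mem_preimage, Set.mem_singleton_iff] at he
          rw [he] at h2
          simp only [Set.mem_iUnion]
          obtain ⟨z, hz⟩ := h1
          refine ⟨w, h2, z, ?_, hz.symm⟩
          have h3 := e.2.1
          rw [hz] at h3
          exact h3
        have h2 : {w | w ∈ f.1}.Finite := by
          obtain ⟨f, -⟩ := f
          induction f using Sym2.ind with
          | _ a b =>
            have : {w | w ∈ s(a, b)} = {a, b} := by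
              ext w; simp
            rw [this]
            exact Set.toFinite _
        have h3 : (⋃ w ∈ {w | w ∈ f.1}, (fun z => s(w, z)) '' (I.neighborSet w)).Finite := by
          refine h2.biUnion fun w _ => Set.Finite.image _ ?_
          exact Set.finite_of_encard_le_coe (hId w)
        exact Set.Finite.of_finite_image (h3.subset h1) Subtype.val_injective.injOn
      exact (Cardinal.lt_aleph0_iff_set_finite.mpr hfin2).le
    obtain ⟨e, ⟨heI, heF⟩, hno⟩ := hex
    induction e using Sym2.ind with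
    | _ u v =>
      have huv : I.Adj u v := heI
      have hedge : (F ⊔ edge u v).edgeSet = F.edgeSet ∪ {s(u, v)} := by
        rw [edgeSet_sup, edgeSet_edge_of_ne huv.ne]
      have d1 : F.edgeSet \ (F.edgeSet ∪ {s(u, v)}) = ∅ := by
        rw [Set.sdiff_eq_empty]; exact Set.subset_union_left
      have d2 : (F.edgeSet ∪ {s(u, v)}) \ F.edgeSet = {s(u, v)} := by
        ext f
        simp only [Set.mem_sdiff, Set.mem_union, Set.mem_singleton_iff]
        constructor
        · rintro ⟨h1 | h1, h2⟩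
          · exact absurd h1 h2
          · exact h1
        · rintro rfl
          exact ⟨Or.inr rfl, heF⟩
      refine ⟨F ⊔ edge u v, ?_, ?_, ?_, ?_, ?_⟩
      · rw [← edgeSet_subset_edgeSet, hedge]
        rintro f (h1 | h1)
        · exact edgeSet_subset_edgeSet.mpr hF h1
        · rw [Set.mem_singleton_iff] at h1
          subst h1
          exact edgeSet_subset_edgeSet.mpr hI heI
      · intro w
        by_cases hw : w ∈ s(u, v)
        · refine le_trans (Set.encard_le_encard (fun z hz => ?_)) (hId w)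
          have h1 : s(w, z) ∈ (F ⊔ edge u v).edgeSet := hz
          rw [hedge] at h1
          rcases h1 with h1 | h1
          · by_contra h2
            exact hno s(w, z) ⟨h1, h2⟩ w hw (Sym2.mem_mk_left _ _)
          · rw [Set.mem_singleton_iff] at h1
            rw [← h1] at heI
            exact heI
        · refine le_trans (Set.encard_le_encard (fun z hz => ?_)) (hFd w)
          have h1 : s(w, z) ∈ (F ⊔ edge u v).edgeSet := hz
          rw [hedge] at h1
          rcases h1 with h1 | h1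
          · exact h1
          · rw [Set.mem_singleton_iff] at h1
            rw [← h1] at hw
            exact absurd (Sym2.mem_mk_left _ _) hw
      · rw [hedge, d1]; exact Set.finite_empty
      · rw [hedge, d2]; exact Set.finite_singleton _
      · rw [hedge, d1, d2]; simp

theorem no_improve {G : SimpleGraph V} {x : V → V → Option (Fin c)} (h : Valid G x)
    (hmax : ∀ I : SimpleGraph (W2 V c), I ≤ Host G c → DegLe I 1 →
      Cardinal.mk ↥(I.edgeSet \ (mk G x).edgeSet) ≤ Cardinal.mk ↥((mk G x).edgeSet \ I.edgeSet))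
    (F' : SimpleGraph V) (hF' : F' ≤ G) (hd' : DegLe F' c)
    (hA : ((full h).edgeSet \ F'.edgeSet).Finite) (hB : (F'.edgeSet \ (full h).edgeSet).Finite)
    (hAB : (F'.edgeSet \ (full h).edgeSet).ncard = ((full h).edgeSet \ F'.edgeSet).ncard + 1) :
    False := by
  classical
  -- the ends of the changed edges
  set S : Set (Sym2 V) := ((full h).edgeSet \ F'.edgeSet) ∪ (F'.edgeSet \ (full h).edgeSet) with hS
  have hSfin : S.Finite := hA.union hB
  set T : Set V := {w | ∃ f ∈ S, w ∈ f} with hT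
  have hTfin : T.Finite := by
    have h1 : T ⊆ ⋃ f ∈ S, {w | w ∈ f} := by
      rintro w ⟨f, hf, hw⟩
      simp only [Set.mem_iUnion]
      exact ⟨f, hf, hw⟩
    refine (hSfin.biUnion fun f _ => ?_).subset h1
    induction f using Sym2.ind with
    | _ a b =>
      have : {w | w ∈ s(a, b)} = {a, b} := by
        ext w; simp
      rw [this]
      exact Set.toFinite _
  have hTno : ∀ u, u ∉ T → ∀ w, (full h).Adj u w ↔ F'.Adj u w := by
    intro u hu w
    have h1 : s(u, w) ∉ S := fun hs => hu ⟨_, hs, Sym2.mem_mk_left _ _⟩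
    simp only [hS, Set.mem_union, Set.mem_sdiff, mem_edgeSet] at h1
    tauto
  have hφ : ∀ u, ∃ g : V → Option (Fin c), (∀ v, g v ≠ none ↔ v ∈ F'.neighborSet u) ∧
      ∀ v w i, g v = some i → g w = some i → v = w := fun u => enc _ (hd' u)
  choose φ hφ1 hφ2 using hφ
  let y : V → V → Option (Fin c) := fun u v => if u ∈ T then φ u v else x u v
  have hy1 : ∀ u ∈ T, ∀ v, y u v = φ u v := fun u hu v => by simp only [y, if_pos hu]
  have hy2 : ∀ u, u ∉ T → ∀ v, y u v = x u v := fun u hu v => by simp only [y, if_neg hu]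
  have hyv : Valid G y := by
    constructor
    · intro u v i hi
      by_cases hu : u ∈ T
      · rw [hy1 u hu] at hi
        exact hF' ((hφ1 u v).mp (by rw [hi]; simp))
      · rw [hy2 u hu] at hi
        exact h.adj _ _ _ hi
    · intro u v w i hi hj
      by_cases hu : u ∈ T
      · rw [hy1 u hu] at hi hj
        exact hφ2 u v w i hi hj
      · rw [hy2 u hu] at hi hj
        exact h.inj _ _ _ _ hi hj
  have hyT : ∀ u ∈ T, ∀ v, y u v ≠ none ↔ F'.Adj u v := fun u hu v => by
    rw [hy1 u hu]; exact hφ1 u v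
  have hfull : full hyv = F' := by
    ext u v
    rw [full_adj]
    constructor
    · rintro ⟨h1, h2⟩
      by_cases hu : u ∈ T
      · exact (hyT u hu v).mp h1
      · by_cases hv : v ∈ T
        · exact ((hyT v hv u).mp h2).symm
        · rw [hy2 u hu] at h1
          rw [hy2 v hv] at h2
          exact (hTno u hu v).mp ⟨h1, h2⟩
    · intro h1
      have hone : ∀ u v, F'.Adj u v → y u v ≠ none := by
        intro u v h1
        by_cases hu : u ∈ T
        · exact (hyT u hu v).mpr h1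
        · rw [hy2 u hu]
          exact ((hTno u hu v).mpr h1).1
      exact ⟨hone u v h1, hone v u h1.symm⟩
  -- the changed trios
  set D : Set (Sym2 V) := {f | ∃ u ∈ T, ∃ w, (F'.Adj u w ∨ x u w ≠ none) ∧ f = s(u, w)} with hD
  have hDfin : D.Finite := by
    have h1 : D ⊆ ⋃ u ∈ T, (fun w => s(u, w)) '' (F'.neighborSet u ∪ {w | x u w ≠ none}) := by
      rintro f ⟨u, hu, w, hw, rfl⟩
      simp only [Set.mem_iUnion]
      exact ⟨u, hu, w, hw, rfl⟩
    refine (hTfin.biUnion fun u _ => Set.Finite.image _ (Set.Finite.union ?_ ?_)).subset h1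
    · exact Set.finite_of_encard_le_coe (hd' u)
    · exact Set.finite_of_encard_le_coe (encard_assigned h u)
  have hDG : D ⊆ G.edgeSet := by
    rintro f ⟨u, hu, w, hw | hw, rfl⟩
    · exact hF' hw
    · exact h.adj' hw
  have hDy : ∀ u v, s(u, v) ∉ D → y u v = x u v := by
    intro u v huv
    by_cases hu : u ∈ T
    · have h1 : ¬ (F'.Adj u v ∨ x u v ≠ none) := fun h1 => huv ⟨u, hu, v, h1, rfl⟩
      push Not at h1
      have h2 : ¬ y u v ≠ none := fun h2 => h1.1 ((hyT u hu v).mp h2)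
      push Not at h2
      rw [h1.2, h2]
    · exact hy2 u hu v
  have hagree : ∀ f ∉ U c D, f ∈ (mk G x).edgeSet ↔ f ∈ (mk G y).edgeSet := by
    intro f hf
    have hf' : ∀ p : V × V, (Sum.inr p : W2 V c) ∈ f → y p.1 p.2 = x p.1 p.2 := by
      intro p hp
      apply hDy
      intro h1
      exact hf ⟨p, h1, hp⟩
    have hf2 : ∀ p : V × V, (Sum.inr p : W2 V c) ∈ f → y p.2 p.1 = x p.2 p.1 := by
      intro p hp
      apply hDy
      intro h1
      rw [Sym2.eq_swap] at h1
      exact hf ⟨p, h1, hp⟩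
    induction f using Sym2.ind with
    | _ a b =>
      rcases a with ⟨u, i⟩ | ⟨u, v⟩
      · rcases b with ⟨u', i'⟩ | ⟨u', v'⟩
        · exact Iff.rfl
        · have h1 := hf' (u', v') (Sym2.mem_mk_right _ _)
          change (u' = u ∧ x u' v' = some i) ↔ (u' = u ∧ y u' v' = some i)
          dsimp only at h1
          rw [h1]
      · rcases b with ⟨u', i'⟩ | ⟨u', v'⟩
        · have h1 := hf' (u, v) (Sym2.mem_mk_left _ _)
          change (u = u' ∧ x u v = some i') ↔ (u = u' ∧ y u v = some i')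
          dsimp only at h1
          rw [h1]
        · have h1 := hf' (u, v) (Sym2.mem_mk_left _ _)
          have h2 := hf2 (u, v) (Sym2.mem_mk_left _ _)
          change (G.Adj u v ∧ u' = v ∧ v' = u ∧ x u v = none ∧ x v u = none) ↔
            (G.Adj u v ∧ u' = v ∧ v' = u ∧ y u v = none ∧ y v u = none)
          dsimp only at h1 h2
          rw [h1, h2]
  obtain ⟨f1, c1⟩ := count h D hDfin hDG
  obtain ⟨f2, c2⟩ := count hyv D hDfin hDG
  have hle := region' (hmax (mk G y) (mk_le hyv) (mk_deg hyv)) (U c D) hagree f1 f2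
  rw [c1, c2, hfull] at hle
  -- count the edges of `F` and `F'` in `D`
  have hSD : S ⊆ D := by
    intro f hf
    induction f using Sym2.ind with
    | _ u v =>
      have hu : u ∈ T := ⟨_, hf, Sym2.mem_mk_left _ _⟩
      refine ⟨u, hu, v, ?_, rfl⟩
      rcases hf with hf | hf
      · exact Or.inr hf.1.1
      · exact Or.inl hf.1
  have g1 : D ∩ F'.edgeSet = (D ∩ ((full h).edgeSet ∩ F'.edgeSet)) ∪ (F'.edgeSet \ (full h).edgeSet) := by
    ext f
    have h1 := @hSD f
    simp only [hS, Set.mem_inter_iff, Set.mem_union, Set.mem_sdiff] at h1 ⊢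
    tauto
  have g2 : D ∩ (full h).edgeSet = (D ∩ ((full h).edgeSet ∩ F'.edgeSet)) ∪ ((full h).edgeSet \ F'.edgeSet) := by
    ext f
    have h1 := @hSD f
    simp only [hS, Set.mem_inter_iff, Set.mem_union, Set.mem_sdiff] at h1 ⊢
    tauto
  rw [g1, g2, Set.ncard_union_eq _ (hDfin.inter_of_left _) hB,
    Set.ncard_union_eq _ (hDfin.inter_of_left _) hA] at hle
  · omega
  · rw [Set.disjoint_left]
    rintro f ⟨-, -, h1⟩ ⟨-, h2⟩
    exact h2 h1
  · rw [Set.disjoint_left]
    rintro f ⟨-, h1, -⟩ ⟨-, h2⟩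
    exact h2 h1

end B1

/-- strongly maximal `c`-matchings exist if strongly maximal matchings do. -/
theorem b1 : StmB1 := by
  intro hgood c V G
  obtain ⟨M, hM, hd, hmax⟩ := hgood (B1.W2 V c) (B1.Host G c)
  obtain ⟨x, hx, rfl⟩ := B1.exists_x hM hd hmax
  refine ⟨B1.full hx, B1.full_le hx, B1.full_deg hx, ?_⟩
  intro I hI hId
  by_contra hlt
  obtain ⟨F', h1, h2, h3, h4, h5⟩ := B1.improve (B1.full_le hx) (B1.full_deg hx) hI hId hlt
  exact B1.no_improve hx hmax F' h1 h2 h3 h4 h5

end Pool.Agent.R709.SM
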