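import Pool.Agent.R709.SM.Stm2

/-! The star direction (project SM, problem MP_fc2b6d_co): stars with isolated vertices from
degree bounds, and degree bound one from the path with two edges. -/

namespace Pool.Agent.R709.SM

open SimpleGraph

/-- finitely many edges: comparison of the differences from comparison of the numbers. -/
theorem mk_diff_le_of_ncard {α : Type} {A B : Set α} (hA : A.Finite) (hB : B.Finite)
    (h : A.ncard ≤ B.ncard) : Cardinal.mk ↥(A \ B) ≤ Cardinal.mk ↥(B \ A) := by
  have hA' : (A \ B).Finite := hA.subset Set.sdiff_subset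
  have hB' : (B \ A).Finite := hB.subset Set.sdiff_subset
  rw [← Set.cast_ncard hA', ← Set.cast_ncard hB']
  have a1 := Set.ncard_sdiff_add_ncard_of_subset (s := A ∩ B) (t := A) Set.inter_subset_left hA
  have a2 := Set.ncard_sdiff_add_ncard_of_subset (s := A ∩ B) (t := B) Set.inter_subset_right hB
  have b1 : A \ (A ∩ B) = A \ B := by
    ext e; simp only [Set.mem_sdiff, Set.mem_inter_iff]; tauto
  have b2 : B \ (A ∩ B) = B \ A := by
    ext e; simp only [Set.mem_sdiff, Set.mem_inter_iff]; tauto
  rw [b1] at a1
  rw [b2] at a2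
  have : (A \ B).ncard ≤ (B \ A).ncard := by omega
  exact_mod_cast this

/-- a star with isolated vertices is contained in an infinite graph with a vertex of large
degree. -/
theorem star_contained {V W : Type} [Finite W] [Infinite V] {H : SimpleGraph W} {c : W}
    (hH : ∀ u v, H.Adj u v → u = c ∨ v = c) {F : SimpleGraph V} {v : V}
    (hv : (H.neighborSet c).encard ≤ (F.neighborSet v).encard) : H ⊑ F := by
  classical
  have hNfin : (H.neighborSet c).Finite := Set.toFinite _
  obtain ⟨S, hS1, hS2⟩ := Set.exists_subset_encard_eq hv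
  have hSfin : S.Finite := by
    rw [← Set.encard_lt_top_iff, hS2, Set.encard_lt_top_iff]
    exact hNfin
  have hcard : Nat.card (H.neighborSet c) = Nat.card S := by
    rw [Nat.card_coe_set_eq, Nat.card_coe_set_eq, Set.ncard_def, Set.ncard_def, hS2]
  haveI : Finite S := hSfin
  haveI : Finite (H.neighborSet c) := hNfin
  obtain ⟨g⟩ : Nonempty (H.neighborSet c ≃ S) := Finite.card_eq.1 hcard
  have hinf : (({v} ∪ S)ᶜ : Set V).Infinite := by
    apply Set.Finite.infinite_compl
    exact (Set.finite_singleton v).union hSfin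
  haveI : Infinite ↥(({v} ∪ S)ᶜ : Set V) := hinf.to_subtype
  obtain ⟨e⟩ : Nonempty (W ↪ ↥(({v} ∪ S)ᶜ : Set V)) := by
    haveI := Fintype.ofFinite W
    exact ⟨(Fintype.equivFin W).toEmbedding.trans
      (Fin.valEmbedding.trans (Infinite.natEmbedding _))⟩
  have hvS : v ∉ S := by
    intro h
    exact (F.loopless.irrefl v) (hS1 h)
  set f : W → V := fun w => if w = c then v else
    if h : w ∈ H.neighborSet c then (g ⟨w, h⟩ : V) else (e w : V) with hf
  have fc : f c = v := by simp [hf]
  have fN : ∀ (w : W) (h : w ∈ H.neighborSet c), f w = (g ⟨w, h⟩ : V) := by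
    intro w h
    have hwc : w ≠ c := by
      rintro rfl
      exact H.loopless.irrefl _ h
    simp only [hf, hwc, if_false, h, dif_pos]
  have fO : ∀ w : W, w ≠ c → w ∉ H.neighborSet c → f w = (e w : V) := by
    intro w h1 h2
    simp only [hf, h1, if_false, h2, dif_neg, not_false_eq_true]
  have mS : ∀ (w : W) (h : w ∈ H.neighborSet c), f w ∈ S := by
    intro w h
    rw [fN w h]
    exact (g ⟨w, h⟩).2
  have mO : ∀ w : W, w ≠ c → w ∉ H.neighborSet c → f w ≠ v ∧ f w ∉ S := by
    intro w h1 h2
    rw [fO w h1 h2]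
    have := (e w).2
    simp only [Set.mem_compl_iff, Set.mem_union, Set.mem_singleton_iff, not_or] at this
    exact this
  have finj : Function.Injective f := by
    intro a b hab
    by_cases ha : a = c
    · subst ha
      by_cases hb : b = a
      · exact hb.symm
      · exfalso
        rw [fc] at hab
        by_cases hbN : b ∈ H.neighborSet a
        · exact hvS (hab ▸ mS b hbN)
        · exact (mO b hb hbN).1 hab.symm
    · by_cases hb : b = c
      · subst hb
        exfalso
        rw [fc] at hab
        by_cases haN : a ∈ H.neighborSet b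
        · exact hvS (hab ▸ mS a haN)
        · exact (mO a ha haN).1 hab
      · by_cases haN : a ∈ H.neighborSet c
        · by_cases hbN : b ∈ H.neighborSet c
          · rw [fN a haN, fN b hbN] at hab
            have h1 := g.injective (Subtype.ext hab)
            exact congrArg Subtype.val h1
          · exact absurd (hab ▸ mS a haN) (mO b hb hbN).2
        · by_cases hbN : b ∈ H.neighborSet c
          · exact absurd (hab.symm ▸ mS b hbN) (mO a ha haN).2
          · rw [fO a ha haN, fO b hb hbN] at hab
            exact e.injective (Subtype.ext hab)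
  refine ⟨⟨⟨f, ?_⟩, finj⟩⟩
  intro a b hab
  rcases hH a b hab with rfl | rfl
  · rw [fc]
    exact hS1 (mS b hab)
  · rw [fc]
    exact (hS1 (mS a hab.symm)).symm

/-- a graph containing a star with isolated vertices has a vertex of large degree. -/
theorem degree_of_contained {V W : Type} {H : SimpleGraph W} {c : W} {F : SimpleGraph V}
    (h : H ⊑ F) : ∃ v, (H.neighborSet c).encard ≤ (F.neighborSet v).encard := by
  obtain ⟨φ⟩ := h
  refine ⟨φ c, ?_⟩
  apply Set.encard_le_encard_of_injOn (f := φ)
  · intro w hw
    exact φ.toHom.map_adj hw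
  · exact φ.injective.injOn

theorem b2 : StmB2 := by
  classical
  intro hB W _ H c hc hH V G
  rcases finite_or_infinite V with hV | hV
  · -- a graph with the maximal number of edges
    have hfin : {F : SimpleGraph V | F ≤ G ∧ ¬ (H ⊑ F)}.Finite := Set.toFinite _
    have hne : {F : SimpleGraph V | F ≤ G ∧ ¬ (H ⊑ F)}.Nonempty := by
      refine ⟨⊥, bot_le, ?_⟩
      rintro ⟨φ⟩
      obtain ⟨v, hv⟩ := hc
      exact (φ.toHom.map_adj hv)
    obtain ⟨F, ⟨hF1, hF2⟩, hmax⟩ := Set.exists_max_image _
      (fun F : SimpleGraph V => F.edgeSet.ncard) hfin hne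
    refine ⟨F, hF1, hF2, fun I hI1 hI2 => ?_⟩
    exact mk_diff_le_of_ncard (Set.toFinite _) (Set.toFinite _) (hmax I ⟨hI1, hI2⟩)
  · obtain ⟨k, hk⟩ : ∃ k : ℕ, (H.neighborSet c).encard = ((k + 1 : ℕ) : ℕ∞) := by
      have hNfin : (H.neighborSet c).Finite := Set.toFinite _
      have h1 : (H.neighborSet c).ncard ≠ 0 := by
        rw [Ne, Set.ncard_eq_zero hNfin]
        obtain ⟨v, hv⟩ := hc
        exact Set.nonempty_iff_ne_empty.1 ⟨v, hv⟩
      obtain ⟨k, hk⟩ := Nat.exists_eq_succ_of_ne_zero h1
      refine ⟨k, ?_⟩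
      rw [← hNfin.cast_ncard_eq, hk]
    have key : ∀ F : SimpleGraph V, ¬ (H ⊑ F) ↔ DegLe F k := by
      intro F
      constructor
      · intro h v
        by_contra hcon
        apply h
        apply star_contained (v := v) hH
        rw [hk]
        push Not at hcon
        rw [Nat.cast_add, Nat.cast_one]
        exact Order.add_one_le_of_lt hcon
      · intro h hcon
        obtain ⟨v, hv⟩ := degree_of_contained (c := c) hcon
        have h2 := hv.trans (h v)
        rw [hk] at h2
        have h3 : k + 1 ≤ k := by exact_mod_cast h2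
        omega
    obtain ⟨F, hF1, hF2, hF3⟩ := hB k V G
    exact ⟨F, hF1, (key F).2 hF2, fun I hI1 hI2 => hF3 I hI1 ((key I).1 hI2)⟩

theorem path_free_iff {V : Type} (F : SimpleGraph V) : ¬ (pathGraph 3 ⊑ F) ↔ DegLe F 1 := by
  constructor
  · intro h v
    rw [Nat.cast_one, Set.encard_le_one_iff]
    intro a b ha hb
    by_contra hab
    apply h
    have hva : F.Adj v a := ha
    have hvb : F.Adj v b := hb
    refine ⟨⟨⟨![a, v, b], ?_⟩, ?_⟩⟩
    · intro x y hxy
      rw [pathGraph_adj] at hxy
      fin_cases x <;> fin_cases y <;> simp at hxy ⊢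
      · exact hva.symm
      · exact hva
      · exact hvb
      · exact hvb.symm
    · intro x y hxy
      change ![a, v, b] x = ![a, v, b] y at hxy
      have h1 := hva.ne
      have h2 := hvb.ne
      fin_cases x <;> fin_cases y <;> simp at hxy ⊢
      · exact h1 hxy.symm
      · exact hab hxy
      · exact h1 hxy
      · exact h2 hxy
      · exact hab hxy.symm
      · exact h2 hxy.symm
  · rintro h ⟨φ⟩
    have h1 := h (φ 1)
    rw [Nat.cast_one, Set.encard_le_one_iff] at h1
    have h2 : F.Adj (φ 1) (φ 0) := φ.toHom.map_adj (by rw [pathGraph_adj]; simp)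
    have h3 : F.Adj (φ 1) (φ 2) := φ.toHom.map_adj (by rw [pathGraph_adj]; simp)
    have h4 := φ.injective (h1 _ _ h2 h3)
    exact absurd h4 (by decide)

theorem b3 : StmB3 := by
  intro h V G
  obtain ⟨F, hF1, hF2, hF3⟩ := h V G
  exact ⟨F, hF1, (path_free_iff F).1 hF2, fun I hI1 hI2 => hF3 I hI1 ((path_free_iff I).2 hI2)⟩

end Pool.Agent.R709.SM
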