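import Pool.Agent.R709.SM.Stm

/-! SM-P: pendant reduction (helper515). -/

namespace Pool.Agent.R709.SM

open SimpleGraph

namespace Pend

theorem contained_iff {V W : Type} {H : SimpleGraph W} {F : SimpleGraph V} :
    H ⊑ F ↔ ∃ f : W → V, Function.Injective f ∧ ∀ a b, H.Adj a b → F.Adj (f a) (f b) := by
  constructor
  · rintro ⟨φ⟩
    exact ⟨φ, φ.injective, fun a b h => φ.toHom.map_adj h⟩
  · rintro ⟨f, hf, hadj⟩
    exact ⟨⟨⟨f, fun {a b} h => hadj a b h⟩, hf⟩⟩

theorem closed_univ {W : Type} {H : SimpleGraph W} (hc : H.Connected) {S : Set W} {w : W}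
    (hw : w ∈ S) (hcl : ∀ a b, H.Adj a b → a ∈ S → b ∈ S) (x : W) : x ∈ S := by
  obtain ⟨p⟩ := hc.preconnected w x
  induction p with
  | nil => exact hw
  | cons h p ih => exact ih (hcl _ _ h hw)

/-- the host: `G` with pendant edges at every vertex -/
def host {V : Type} (G : SimpleGraph V) (Q : Type) : SimpleGraph (V ⊕ (V × Q)) where
  Adj x y := match x, y with
    | Sum.inl a, Sum.inl b => G.Adj a b
    | Sum.inl a, Sum.inr p => a = p.1
    | Sum.inr p, Sum.inl a => a = p.1
    | Sum.inr _, Sum.inr _ => False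
  symm := by
    constructor
    rintro (a | p) (b | q) h
    · exact SimpleGraph.Adj.symm (G := G) h
    · exact h
    · exact h
    · exact h
  loopless := by
    constructor
    rintro (a | p) h
    · exact G.loopless.irrefl a h
    · exact h

theorem host_inr {V Q : Type} {G : SimpleGraph V} {p : V × Q} {y : V ⊕ (V × Q)}
    (h : (host G Q).Adj (Sum.inr p) y) : y = Sum.inl p.1 := by
  rcases y with b | q
  · have : b = p.1 := h
    rw [this]
  · exact absurd h (by intro h; exact h)

theorem step1 {V W : Type} {G : SimpleGraph V} {H : SimpleGraph W} (hc : H.Connected)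
    (hcore : HasCoreEdge H) {Q : Type} (hQ : Cardinal.mk V < Cardinal.mk Q)
    (hQ0 : Cardinal.aleph0 ≤ Cardinal.mk Q) {F' : SimpleGraph (V ⊕ V × Q)}
    (hF' : SMax H (host G Q) F') (v : V) :
    {q : Q | F'.Adj (Sum.inl v) (Sum.inr (v, q))}.Infinite := by
  intro hfin
  let I : SimpleGraph (V ⊕ V × Q) :=
    { Adj := fun x y => (F'.Adj x y ∧ x ≠ Sum.inl v ∧ y ≠ Sum.inl v) ∨
        (∃ q, (x = Sum.inl v ∧ y = Sum.inr (v, q)) ∨ (y = Sum.inl v ∧ x = Sum.inr (v, q)))
      symm := by
        constructor
        rintro x y (⟨h, h1, h2⟩ | ⟨q, h | h⟩)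
        · exact Or.inl ⟨h.symm, h2, h1⟩
        · exact Or.inr ⟨q, Or.inr h⟩
        · exact Or.inr ⟨q, Or.inl h⟩
      loopless := by
        constructor
        rintro x (⟨h, h1, h2⟩ | ⟨q, h | h⟩)
        · exact F'.loopless.irrefl x h
        · rw [h.1] at h; exact absurd h.2 (by simp)
        · rw [h.1] at h; exact absurd h.2 (by simp) }
  have hI : I ≤ host G Q := by
    rintro x y (⟨h, h1, h2⟩ | ⟨q, h | h⟩)
    · exact hF'.1 h
    · rw [h.1, h.2]; exact rfl
    · rw [h.1, h.2]; exact rfl
  have hfree : ¬ (H ⊑ I) := by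
    intro hcon
    obtain ⟨f, hf, hadj⟩ := contained_iff.1 hcon
    by_cases hv : ∃ w, f w = Sum.inl v
    · obtain ⟨w, hw⟩ := hv
      let S : Set W := {x | f x = Sum.inl v ∨ ∃ q, f x = Sum.inr (v, q)}
      have hnbr : ∀ x y q, I.Adj x y → x = Sum.inr (v, q) → y = Sum.inl v := by
        rintro x y q (⟨h, h1, h2⟩ | ⟨q', h | h⟩) hx
        · rw [hx] at h
          exact host_inr (hF'.1 h)
        · rw [h.1] at hx; exact absurd hx (by simp)
        · exact h.1
      have hcl : ∀ a b, H.Adj a b → a ∈ S → b ∈ S := by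
        intro a b hab ha
        have h3 := hadj a b hab
        rcases ha with ha | ⟨q, ha⟩
        · rcases h3 with ⟨h, h1, h2⟩ | ⟨q, h | h⟩
          · exact absurd ha h1
          · exact Or.inr ⟨q, h.2⟩
          · rw [ha] at h; exact absurd h.2 (by simp)
        · exact Or.inl (hnbr _ _ q h3 ha)
      have hall : ∀ x, x ∈ S := fun x => closed_univ hc (w := w) (Or.inl hw) hcl x
      -- a core vertex is mapped to `v`
      have hcv : ∀ x ∈ core H, f x = Sum.inl v := by
        rintro x ⟨a, b, hab, ha, hb⟩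
        rcases hall x with h | ⟨q, h⟩
        · exact h
        · exfalso
          apply hab
          apply hf
          rw [hnbr _ _ q (hadj x a ha) h, hnbr _ _ q (hadj x b hb) h]
      obtain ⟨a, b, ha, hb, hab⟩ := hcore
      exact hab.ne (hf ((hcv a ha).trans (hcv b hb).symm))
    · push Not at hv
      apply hF'.2.1
      refine contained_iff.2 ⟨f, hf, fun a b hab => ?_⟩
      rcases hadj a b hab with ⟨h, -, -⟩ | ⟨q, h | h⟩
      · exact h
      · exact absurd h.1 (hv a)
      · exact absurd h.1 (hv b)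
  have hle := hF'.2.2 I hI hfree
  have h1 : Cardinal.mk Q ≤ Cardinal.mk ↥(I.edgeSet \ F'.edgeSet) := by
    haveI : Infinite Q := Cardinal.infinite_iff.2 hQ0
    set A : Set Q := {q : Q | F'.Adj (Sum.inl v) (Sum.inr (v, q))} with hA
    have h2 : Cardinal.mk ↥(Aᶜ) = Cardinal.mk Q := by
      refine Cardinal.mk_compl_of_infinite A ?_
      exact lt_of_lt_of_le (Cardinal.lt_aleph0_iff_set_finite.2 hfin) hQ0
    rw [← h2]
    refine Cardinal.mk_le_of_injective (f := fun q : ↥(Aᶜ) =>
      (⟨s(Sum.inl v, Sum.inr (v, q.1)), ?_, ?_⟩ : ↥(I.edgeSet \ F'.edgeSet))) ?_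
    · rw [mem_edgeSet]
      exact Or.inr ⟨q.1, Or.inl ⟨rfl, rfl⟩⟩
    · rw [mem_edgeSet]
      exact q.2
    · intro q q' h
      have h3 := congrArg Subtype.val h
      simp only [Sym2.eq_iff] at h3
      rcases h3 with h3 | h3
      · have := h3.2
        simp only [Sum.inr.injEq, Prod.mk.injEq, true_and] at this
        exact Subtype.ext this
      · exact absurd h3.1 (by simp)
  have h2 : Cardinal.mk ↥(F'.edgeSet \ I.edgeSet) ≤ Cardinal.mk V := by
    have h3 : (F'.edgeSet \ I.edgeSet) ⊆ Set.range (fun w : V =>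
        (s(Sum.inl v, Sum.inl w) : Sym2 (V ⊕ V × Q))) := by
      rintro e ⟨h4, h5⟩
      induction e with
      | _ x y =>
      rw [mem_edgeSet] at h4 h5
      have key : ∀ z, F'.Adj (Sum.inl v) z → ¬ I.Adj (Sum.inl v) z → ∃ w, z = Sum.inl w := by
        intro z hz hz'
        rcases z with w | p
        · exact ⟨w, rfl⟩
        · exfalso
          have h6 : v = p.1 := hF'.1 hz
          apply hz'
          refine Or.inr ⟨p.2, Or.inl ⟨rfl, ?_⟩⟩
          rw [h6]
      by_cases hx : x = Sum.inl v
      · subst hx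
        obtain ⟨w, rfl⟩ := key y h4 h5
        exact ⟨w, rfl⟩
      · by_cases hy : y = Sum.inl v
        · subst hy
          obtain ⟨w, rfl⟩ := key x h4.symm (fun h => h5 h.symm)
          exact ⟨w, Sym2.eq_swap⟩
        · exact absurd (Or.inl ⟨h4, hx, hy⟩) h5
    exact (Cardinal.mk_le_mk_of_subset h3).trans Cardinal.mk_range_le
  exact absurd (h1.trans (hle.trans h2)) (not_le.2 hQ)

theorem exists_inj {W Q : Type} [Finite W] (A : W → Set Q) (hA : ∀ w, (A w).Infinite) :
    ∃ q : W → Q, Function.Injective q ∧ ∀ w, q w ∈ A w := by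
  classical
  haveI := Fintype.ofFinite W
  have h1 : ∀ w, ∃ t : Finset Q, (t : Set Q) ⊆ A w ∧ t.card = Fintype.card W :=
    fun w => (hA w).exists_subset_card_eq _
  choose t ht1 ht2 using h1
  have h2 : ∀ s : Finset W, s.card ≤ (s.biUnion t).card := by
    intro s
    rcases s.eq_empty_or_nonempty with rfl | ⟨w, hw⟩
    · simp
    · calc s.card ≤ Fintype.card W := s.card_le_univ
        _ = (t w).card := (ht2 w).symm
        _ ≤ (s.biUnion t).card := Finset.card_le_card (Finset.subset_biUnion_of_mem t hw)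
  obtain ⟨q, hq, hqt⟩ := (Finset.all_card_le_biUnion_card_iff_exists_injective t).1 h2
  exact ⟨q, hq, fun w => ht1 w (hqt w)⟩

theorem nbr {W : Type} {H : SimpleGraph W} (hc : H.Connected) (hcore : HasCoreEdge H) {w : W}
    (hw : w ∉ core H) : ∃ p ∈ core H, H.Adj w p ∧ ∀ x, H.Adj w x → x = p := by
  obtain ⟨a, b, ha, hb, hab⟩ := hcore
  have hex : ∃ p, H.Adj w p := by
    by_contra hcon
    push Not at hcon
    have := closed_univ hc (S := {w}) (w := w) rfl (fun c d hcd hc' => by
      rw [Set.mem_singleton_iff] at hc'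
      subst hc'
      exact absurd hcd (hcon d)) a
    rw [Set.mem_singleton_iff] at this
    exact hw (this ▸ ha)
  obtain ⟨p, hp⟩ := hex
  have huniq : ∀ x, H.Adj w x → x = p := by
    intro x hx
    by_contra hne
    exact hw ⟨x, p, hne, hx, hp⟩
  refine ⟨p, ?_, hp, huniq⟩
  by_contra hpc
  have huniq' : ∀ x, H.Adj p x → x = w := by
    intro x hx
    by_contra hne
    exact hpc ⟨x, w, hne, hx, hp.symm⟩
  have := closed_univ hc (S := {w, p}) (w := w) (by simp) (fun c d hcd hc' => by
    rcases hc' with rfl | hc'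
    · exact Or.inr (huniq d hcd)
    · rw [Set.mem_singleton_iff] at hc'
      subst hc'
      exact Or.inl (huniq' d hcd)) a
  rcases this with h | h
  · exact hw (h ▸ ha)
  · rw [Set.mem_singleton_iff] at h
    exact hpc (h ▸ ha)

end Pend

open Pend

theorem pendant : StmPendant := by
  classical
  intro W _ H hc hcore hbad hgood
  apply hbad
  intro V G
  let Q : Type := Set (V ⊕ ℕ)
  have hQ1 : Cardinal.mk (V ⊕ ℕ) < Cardinal.mk Q := by
    rw [Cardinal.mk_set]; exact Cardinal.cantor _
  have hQ : Cardinal.mk V < Cardinal.mk Q :=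
    lt_of_le_of_lt (Cardinal.mk_le_of_injective (Sum.inl_injective (β := ℕ))) hQ1
  have hQ0 : Cardinal.aleph0 ≤ Cardinal.mk Q := by
    refine le_trans ?_ hQ1.le
    rw [← Cardinal.mk_nat]
    exact Cardinal.mk_le_of_injective (Sum.inr_injective (α := V))
  obtain ⟨F', hF'⟩ := hgood _ (host G Q)
  have hinf := step1 hc hcore hQ hQ0 hF'
  refine ⟨F'.comap Sum.inl, ?_, ?_, ?_⟩
  · intro a b hab
    exact hF'.1 hab
  · intro hcon
    obtain ⟨ψ, hψ, hψa⟩ := contained_iff.1 hcon
    apply hF'.2.1
    have hn : ∀ w : W, ∃ p ∈ core H, w ∉ core H → H.Adj w p ∧ ∀ x, H.Adj w x → x = p := by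
      intro w
      by_cases hw : w ∈ core H
      · exact ⟨w, hw, fun h => absurd hw h⟩
      · obtain ⟨p, hp, h⟩ := nbr hc hcore hw
        exact ⟨p, hp, fun _ => h⟩
    choose p hp hpn using hn
    obtain ⟨q, hq, hqA⟩ := exists_inj (fun w : W =>
      {q : Q | F'.Adj (Sum.inl (ψ ⟨p w, hp w⟩)) (Sum.inr (ψ ⟨p w, hp w⟩, q))})
      (fun w => hinf _)
    refine contained_iff.2 ⟨fun w => if h : w ∈ core H then Sum.inl (ψ ⟨w, h⟩)
      else Sum.inr (ψ ⟨p w, hp w⟩, q w), ?_, ?_⟩
    · intro a b hab
      simp only at hab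
      split_ifs at hab with h1 h2 h2
      · have := hψ (Sum.inl_injective hab)
        exact congrArg Subtype.val this
      · have := (Prod.mk.injEq _ _ _ _).mp (Sum.inr_injective hab)
        exact hq this.2
    · intro a b hab
      simp only
      split_ifs with h1 h2 h2
      · exact hψa ⟨a, h1⟩ ⟨b, h2⟩ hab
      · have h3 : a = p b := (hpn b h2).2 a hab.symm
        have h4 := hqA b
        have h5 : (⟨a, h1⟩ : core H) = ⟨p b, hp b⟩ := Subtype.ext h3
        rw [h5]
        exact h4
      · have h3 : b = p a := (hpn a h1).2 b hab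
        have h4 := hqA a
        have h5 : (⟨b, h2⟩ : core H) = ⟨p a, hp a⟩ := Subtype.ext h3
        rw [h5]
        exact h4.symm
      · exfalso
        have h3 : b = p a := (hpn a h1).2 b hab
        exact h2 (h3 ▸ hp a)
  · intro J hJ hJfree
    let I : SimpleGraph (V ⊕ V × Q) :=
      { Adj := fun x y => match x, y with
          | Sum.inl a, Sum.inl b => J.Adj a b
          | Sum.inl a, Sum.inr p => F'.Adj (Sum.inl a) (Sum.inr p)
          | Sum.inr p, Sum.inl a => F'.Adj (Sum.inr p) (Sum.inl a)
          | Sum.inr _, Sum.inr _ => False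
        symm := by
          constructor
          rintro (a | p) (b | q) h
          · exact SimpleGraph.Adj.symm (G := J) h
          · exact SimpleGraph.Adj.symm (G := F') h
          · exact SimpleGraph.Adj.symm (G := F') h
          · exact h
        loopless := by
          constructor
          rintro (a | p) h
          · exact J.loopless.irrefl a h
          · exact h }
    have hI : I ≤ host G Q := by
      rintro (a | p) (b | q) h
      · exact hJ h
      · exact hF'.1 h
      · exact hF'.1 h
      · exact absurd h (by intro h; exact h)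
    have hIfree : ¬ (H ⊑ I) := by
      intro hcon
      obtain ⟨f, hf, hadj⟩ := contained_iff.1 hcon
      apply hJfree
      have h1 : ∀ w : core H, ∃ v : V, f w = Sum.inl v := by
        rintro ⟨w, a, b, hab, ha, hb⟩
        rcases hfw : f w with v | p
        · exact ⟨v, rfl⟩
        · exfalso
          have h2 := hI (hadj w a ha)
          have h3 := hI (hadj w b hb)
          rw [hfw] at h2 h3
          exact hab (hf ((host_inr h2).trans (host_inr h3).symm))
      choose ψ hψ using h1
      refine contained_iff.2 ⟨ψ, ?_, ?_⟩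
      · intro a b hab
        have : f a = f b := by rw [hψ, hψ, hab]
        exact Subtype.ext (hf this)
      · intro a b hab
        have h4 := hadj a b hab
        rw [hψ, hψ] at h4
        exact h4
    have hle := hF'.2.2 I hI hIfree
    have e1 : I.edgeSet \ F'.edgeSet =
        Sym2.map Sum.inl '' (J.edgeSet \ (F'.comap Sum.inl).edgeSet) := by
      ext e
      constructor
      · rintro ⟨h1, h2⟩
        induction e with
        | _ x y =>
        rw [mem_edgeSet] at h1 h2
        rcases x with a | p <;> rcases y with b | q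
        · exact ⟨s(a, b), ⟨h1, h2⟩, rfl⟩
        · exact absurd h1 h2
        · exact absurd h1 h2
        · exact absurd h1 (by intro h; exact h)
      · rintro ⟨e', ⟨h1, h2⟩, rfl⟩
        induction e' with
        | _ a b =>
        exact ⟨h1, h2⟩
    have e2 : F'.edgeSet \ I.edgeSet =
        Sym2.map Sum.inl '' ((F'.comap Sum.inl).edgeSet \ J.edgeSet) := by
      ext e
      constructor
      · rintro ⟨h1, h2⟩
        induction e with
        | _ x y =>
        rw [mem_edgeSet] at h1 h2
        rcases x with a | p <;> rcases y with b | q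
        · exact ⟨s(a, b), ⟨h1, h2⟩, rfl⟩
        · exact absurd h1 h2
        · exact absurd h1 h2
        · exact absurd (hF'.1 h1) (by intro h; exact h)
      · rintro ⟨e', ⟨h1, h2⟩, rfl⟩
        induction e' with
        | _ a b =>
        exact ⟨h1, h2⟩
    rw [e1, e2, Cardinal.mk_image_eq (Sym2.map.injective Sum.inl_injective),
      Cardinal.mk_image_eq (Sym2.map.injective Sum.inl_injective)] at hle
    exact hle

end Pool.Agent.R709.SM
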