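import Pool.Agent.R709.SM.Stm5
import Pool.Agent.R709.SM.Pendant

/-! SM-BL (helper293): blocks which occur only once, `StmBlock`. -/

namespace Pool.Agent.R709.SM

open SimpleGraph

namespace Blk

open Pend (contained_iff closed_univ)

/-- `J` on `V` together with all gadgets. -/
def jb {V W : Type} (H : SimpleGraph W) (A : Set W) (at' : W → W) (Q : Type)
    (J : SimpleGraph V) : SimpleGraph (V ⊕ (V × Q × (Aᶜ : Set W))) where
  Adj x y := match x, y with
    | Sum.inl a, Sum.inl b => J.Adj a b
    | Sum.inl a, Sum.inr p => a = p.1 ∧ H.Adj (at' p.2.2) p.2.2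
    | Sum.inr p, Sum.inl a => a = p.1 ∧ H.Adj (at' p.2.2) p.2.2
    | Sum.inr p, Sum.inr r => p.1 = r.1 ∧ p.2.1 = r.2.1 ∧ H.Adj p.2.2 r.2.2
  symm := by
    constructor
    rintro (a | p) (b | r) h
    · exact SimpleGraph.Adj.symm (G := J) h
    · exact h
    · exact h
    · obtain ⟨h2, h3, h4⟩ := h
      exact ⟨h2.symm, h3.symm, h4.symm⟩
  loopless := by
    constructor
    rintro (a | p) h
    · exact J.loopless.irrefl a h
    · exact H.loopless.irrefl _ h.2.2

theorem jb_mono {V W Q : Type} {H : SimpleGraph W} {A : Set W} {at' : W → W}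
    {J J' : SimpleGraph V} (h : J ≤ J') : jb H A at' Q J ≤ jb H A at' Q J' := by
  rintro (a | p) (b | r) hab
  · exact h hab
  · exact hab
  · exact hab
  · exact hab

theorem jb_any {V W Q : Type} {H : SimpleGraph W} {A : Set W} {at' : W → W}
    (J J' : SimpleGraph V) {p : V × Q × (Aᶜ : Set W)} {y : V ⊕ (V × Q × (Aᶜ : Set W))}
    (h : (jb H A at' Q J).Adj (Sum.inr p) y) : (jb H A at' Q J').Adj (Sum.inr p) y := by
  rcases y with a | r
  · exact h
  · exact h

/-- the main lemma (L). -/
theorem lemL {V W Q : Type} {H : SimpleGraph W} {A : Set W} {at' : W → W}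
    (hcon : (H.induce A).Connected)
    (hcon2 : ∀ v ∈ A, (H.induce (A \ {v})).Connected)
    (hat : ∀ w, at' w ∈ A)
    (hat1 : ∀ w w', w ∉ A → w' ∉ A → H.Adj w w' → at' w = at' w')
    (hfree : ∀ a ∈ A, ¬ ((H.induce A) ⊑ (H.induce (insert a Aᶜ))))
    (J : SimpleGraph V) (hJ : ¬ (H.induce A) ⊑ J) : ¬ (H.induce A) ⊑ jb H A at' Q J := by
  classical
  intro hc
  obtain ⟨f, hf, hadj⟩ := contained_iff.1 hc
  by_cases hall : ∀ w, ∃ v, f w = Sum.inl v
  · choose g hg using hall
    apply hJ
    refine contained_iff.2 ⟨fun x => g x, ?_, ?_⟩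
    · intro x y hxy
      apply hf
      rw [hg, hg]
      exact congrArg Sum.inl hxy
    · intro x y hxy
      have h7 := hadj x y hxy
      rw [hg, hg] at h7
      exact h7
  · push Not at hall
    obtain ⟨a0, ha0⟩ := hall
    obtain ⟨⟨u, q, w0⟩, hp⟩ : ∃ p, f a0 = Sum.inr p := by
      rcases h : f a0 with v | p
      · exact absurd h (ha0 v)
      · exact ⟨p, rfl⟩
    -- the neighbours of `T`
    have hnb : ∀ (w : (Aᶜ : Set W)) (y : V ⊕ (V × Q × (Aᶜ : Set W))),
        at' w = at' w0 → (jb H A at' Q J).Adj (Sum.inr (u, q, w)) y →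
        y = Sum.inl u ∨ ∃ w' : (Aᶜ : Set W), at' w' = at' w0 ∧ y = Sum.inr (u, q, w') := by
      intro w y hw hy
      rcases y with b | ⟨u', q', w'⟩
      · have hb : b = u := hy.1
        exact Or.inl (by rw [hb])
      · obtain ⟨h1, h2, h3⟩ := hy
        have h1' : u = u' := h1
        have h2' : q = q' := h2
        have h3' : H.Adj w w' := h3
        subst h1'
        subst h2'
        refine Or.inr ⟨w', ?_, rfl⟩
        rw [← hat1 w w' w.2 w'.2 h3']
        exact hw
    have hall2 : ∀ x : A, f x = Sum.inl u ∨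
        ∃ w' : (Aᶜ : Set W), at' w' = at' w0 ∧ f x = Sum.inr (u, q, w') := by
      by_cases hu : ∃ x, f x = Sum.inl u
      · obtain ⟨xs, hxs⟩ := hu
        intro x
        by_cases hx : x = xs
        · left; rw [hx]; exact hxs
        · right
          have hx' : (x : W) ∈ A \ {(xs : W)} :=
            ⟨x.2, fun h => hx (Subtype.ext h)⟩
          have ha0' : (a0 : W) ∈ A \ {(xs : W)} := by
            refine ⟨a0.2, fun h => ?_⟩
            have h' : a0 = xs := Subtype.ext h
            rw [h', hxs] at hp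
            exact absurd hp (by simp)
          have key := closed_univ (hcon2 xs xs.2)
            (S := {z : (A \ {(xs : W)} : Set W) | ∃ w' : (Aᶜ : Set W), at' w' = at' w0 ∧
              f ⟨z, z.2.1⟩ = Sum.inr (u, q, w')}) (w := ⟨a0, ha0'⟩) ⟨w0, rfl, hp⟩ ?_ ⟨x, hx'⟩
          · exact key
          · rintro z z' hzz ⟨w, hw1, hw2⟩
            have h1 := hadj ⟨z, z.2.1⟩ ⟨z', z'.2.1⟩ hzz
            rw [hw2] at h1
            rcases hnb w _ hw1 h1 with h2 | ⟨w', h2, h3⟩
            · exfalso
              rw [← hxs] at h2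
              exact z'.2.2 (congrArg Subtype.val (hf h2))
            · exact ⟨w', h2, h3⟩
      · push Not at hu
        intro x
        right
        have key := closed_univ hcon
            (S := {z : A | ∃ w' : (Aᶜ : Set W), at' w' = at' w0 ∧
              f z = Sum.inr (u, q, w')}) (w := a0) ⟨w0, rfl, hp⟩ ?_ x
        · exact key
        · rintro z z' hzz ⟨w, hw1, hw2⟩
          have h1 := hadj z z' hzz
          rw [hw2] at h1
          rcases hnb w _ hw1 h1 with h2 | ⟨w', h2, h3⟩
          · exact absurd h2 (hu z')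
          · exact ⟨w', h2, h3⟩
    -- the copy in `H.induce (insert a Aᶜ)`
    apply hfree (at' w0) (hat w0)
    have hg : ∀ x : A, ∃ z : (insert (at' w0) Aᶜ : Set W),
        (f x = Sum.inl u ∧ (z : W) = at' w0) ∨
        ∃ w' : (Aᶜ : Set W), at' w' = at' w0 ∧ f x = Sum.inr (u, q, w') ∧ (z : W) = w' := by
      intro x
      rcases hall2 x with h | ⟨w', h1, h2⟩
      · exact ⟨⟨at' w0, Set.mem_insert _ _⟩, Or.inl ⟨h, rfl⟩⟩
      · exact ⟨⟨w', Set.mem_insert_of_mem _ w'.2⟩, Or.inr ⟨w', h1, h2, rfl⟩⟩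
    choose g hg using hg
    refine contained_iff.2 ⟨g, ?_, ?_⟩
    · intro x y hxy
      have hxy' : (g x : W) = g y := congrArg Subtype.val hxy
      apply hf
      rcases hg x with ⟨h1, h2⟩ | ⟨w1, h1, h2, h3⟩ <;>
        rcases hg y with ⟨k1, k2⟩ | ⟨w2, k1, k2, k3⟩
      · rw [h1, k1]
      · exfalso
        rw [h2, k3] at hxy'
        exact w2.2 (hxy' ▸ hat w0)
      · exfalso
        rw [k2, h3] at hxy'
        exact w1.2 (hxy'.symm ▸ hat w0)
      · rw [h2, k2]
        rw [h3, k3] at hxy'
        rw [Subtype.ext hxy']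
    · intro x y hxy
      have hh := hadj x y hxy
      show H.Adj (g x : W) (g y : W)
      rcases hg x with ⟨h1, h2⟩ | ⟨w1, h1, h2, h3⟩ <;>
        rcases hg y with ⟨k1, k2⟩ | ⟨w2, k1, k2, k3⟩
      · rw [h1, k1] at hh
        exact absurd hh (J.loopless.irrefl u)
      · rw [h1, k2] at hh
        rw [h2, k3, ← k1]
        exact hh.2
      · rw [h2, k1] at hh
        rw [h3, k2, ← h1]
        exact SimpleGraph.Adj.symm hh.2
      · rw [h2, k2] at hh
        rw [h3, k3]
        exact hh.2.2

end Blk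

open Blk Pend in
theorem block : StmBlock := by
  classical
  intro W _ H A hUB hbad hgood
  obtain ⟨⟨x1, x2, x3, hx1, hx2, hx3, hx12, hx13, hx23⟩, hcon, hcon2,
    ⟨at', hat, hat1, hat2⟩, hfree⟩ := hUB
  apply hbad
  intro V G
  let Q : Type := Set (V ⊕ ℕ)
  have hQ1 : Cardinal.mk (V ⊕ ℕ) < Cardinal.mk Q := by
    rw [Cardinal.mk_set]; exact Cardinal.cantor _
  have hinfin : Cardinal.aleph0 ≤ Cardinal.mk (V ⊕ ℕ) := by
    rw [← Cardinal.mk_nat]
    exact Cardinal.mk_le_of_injective (Sum.inr_injective (α := V))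
  have hVV : Cardinal.mk (V × V) < Cardinal.mk Q := by
    refine lt_of_le_of_lt ?_ hQ1
    calc Cardinal.mk (V × V) ≤ Cardinal.mk ((V ⊕ ℕ) × (V ⊕ ℕ)) :=
          Cardinal.mk_le_of_injective (f := Prod.map Sum.inl Sum.inl)
            (Function.Injective.prodMap Sum.inl_injective Sum.inl_injective)
      _ = Cardinal.mk (V ⊕ ℕ) * Cardinal.mk (V ⊕ ℕ) := by rw [Cardinal.mk_prod]; simp
      _ = Cardinal.mk (V ⊕ ℕ) := Cardinal.mul_eq_self hinfin
  obtain ⟨F', hF'⟩ := hgood _ (jb H A at' Q G)
  have hBH : ∀ {X : Type} (K : SimpleGraph X), H ⊑ K → (H.induce A) ⊑ K := by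
    intro X K hK
    obtain ⟨f, hf, hadj⟩ := contained_iff.1 hK
    exact contained_iff.2 ⟨fun x => f x, fun x y hxy => Subtype.ext (hf hxy),
      fun x y hxy => hadj x y hxy⟩
  have L : ∀ J : SimpleGraph V, ¬ (H.induce A) ⊑ J → ¬ H ⊑ jb H A at' Q J := fun J hJ h =>
    lemL hcon hcon2 hat hat1 hfree J hJ (hBH _ h)
  have hedge : ∃ u v, (H.induce A).Adj u v := by
    by_contra hno
    push Not at hno
    have := closed_univ hcon (S := {(⟨x1, hx1⟩ : A)}) (w := ⟨x1, hx1⟩) rfl
      (fun c d hcd _ => absurd hcd (hno c d)) ⟨x2, hx2⟩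
    rw [Set.mem_singleton_iff] at this
    exact hx12 (congrArg Subtype.val this).symm
  -- complete gadgets
  have comp : ∀ u : V, ∃ q : Q, ∀ c (hc : c ∉ A) y,
      (jb H A at' Q G).Adj (Sum.inr (u, q, ⟨c, hc⟩)) y → F'.Adj (Sum.inr (u, q, ⟨c, hc⟩)) y := by
    intro u
    by_contra hcc
    push Not at hcc
    choose c hc y hy hy' using hcc
    have hbot : ¬ (H.induce A) ⊑ (⊥ : SimpleGraph V) := by
      intro hb
      obtain ⟨ψ, _, hψa⟩ := contained_iff.1 hb
      obtain ⟨u, v, huv⟩ := hedge
      exact hψa u v huv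
    have hI : jb H A at' Q (⊥ : SimpleGraph V) ≤ jb H A at' Q G := jb_mono bot_le
    have hle := hF'.2.2 _ hI (L _ hbot)
    have a1 : Cardinal.mk Q ≤ Cardinal.mk
        ↥((jb H A at' Q (⊥ : SimpleGraph V)).edgeSet \ F'.edgeSet) := by
      refine Cardinal.mk_le_of_injective (f := fun q : Q =>
        (⟨s(Sum.inr (u, q, ⟨c q, hc q⟩), y q), ?_, ?_⟩ :
          ↥((jb H A at' Q (⊥ : SimpleGraph V)).edgeSet \ F'.edgeSet))) ?_
      · rw [mem_edgeSet]
        exact jb_any _ _ (hy q)
      · rw [mem_edgeSet]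
        exact hy' q
      · intro q q' hqq
        have h7 := congrArg Subtype.val hqq
        simp only [Sym2.eq_iff] at h7
        rcases h7 with h7 | h7
        · have h8 := Sum.inr_injective h7.1
          simp only [Prod.mk.injEq, true_and] at h8
          exact h8.1
        · have h8 := hy q
          rw [h7.2] at h8
          exact h8.2.1
    have a2 : Cardinal.mk ↥(F'.edgeSet \ (jb H A at' Q (⊥ : SimpleGraph V)).edgeSet) ≤
        Cardinal.mk (V × V) := by
      have h7 : (F'.edgeSet \ (jb H A at' Q (⊥ : SimpleGraph V)).edgeSet) ⊆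
          Set.range (fun p : V × V =>
            (s(Sum.inl p.1, Sum.inl p.2) : Sym2 (V ⊕ (V × Q × (Aᶜ : Set W))))) := by
        rintro x ⟨h8, h9⟩
        induction x with
        | _ x y =>
        rw [mem_edgeSet] at h8 h9
        have h10 := hF'.1 h8
        rcases x with a | p <;> rcases y with b | r
        · exact ⟨(a, b), rfl⟩
        · exact absurd h10 h9
        · exact absurd h10 h9
        · exact absurd h10 h9
      exact (Cardinal.mk_le_mk_of_subset h7).trans Cardinal.mk_range_le
    exact absurd (a1.trans (hle.trans a2)) (not_le.2 hVV)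
  choose qq hqq using comp
  refine ⟨F'.comap Sum.inl, ?_, ?_, ?_⟩
  · intro a b hab
    exact hF'.1 hab
  · intro hc
    obtain ⟨ψ, hψ, hψa⟩ := contained_iff.1 hc
    apply hF'.2.1
    let e : W → V ⊕ (V × Q × (Aᶜ : Set W)) := fun w =>
      if h : w ∈ A then Sum.inl (ψ ⟨w, h⟩)
      else Sum.inr (ψ ⟨at' w, hat w⟩, qq (ψ ⟨at' w, hat w⟩), ⟨w, h⟩)
    have e_in : ∀ w (h : w ∈ A), e w = Sum.inl (ψ ⟨w, h⟩) := fun w h => dif_pos h
    have e_out : ∀ w (h : w ∉ A), e w =
      Sum.inr (ψ ⟨at' w, hat w⟩, qq (ψ ⟨at' w, hat w⟩), ⟨w, h⟩) := fun w h => dif_neg h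
    have e_inj : Function.Injective e := by
      intro a b hab
      by_cases ha : a ∈ A <;> by_cases hb : b ∈ A
      · rw [e_in a ha, e_in b hb] at hab
        exact congrArg Subtype.val (hψ (Sum.inl_injective hab))
      · rw [e_in a ha, e_out b hb] at hab
        exact absurd hab (by simp)
      · rw [e_out a ha, e_in b hb] at hab
        exact absurd hab (by simp)
      · rw [e_out a ha, e_out b hb] at hab
        have h1 := Sum.inr_injective hab
        have h2 := congrArg (fun p : V × Q × (Aᶜ : Set W) => p.2.2) h1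
        exact congrArg Subtype.val h2
    have key : ∀ a b, a ∉ A → H.Adj a b → F'.Adj (e a) (e b) := by
      intro a b ha hab
      rw [e_out a ha]
      apply hqq
      by_cases hb : b ∈ A
      · rw [e_in b hb]
        have h1 : b = at' a := hat2 a b ha hb hab
        refine ⟨?_, ?_⟩
        · exact congrArg ψ (Subtype.ext h1)
        · show H.Adj (at' a) a
          rw [← h1]
          exact hab.symm
      · rw [e_out b hb]
        have h1 : (⟨at' a, hat a⟩ : A) = ⟨at' b, hat b⟩ := Subtype.ext (hat1 a b ha hb hab)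
        refine ⟨?_, ?_, hab⟩
        · show ψ ⟨at' a, hat a⟩ = ψ ⟨at' b, hat b⟩
          rw [h1]
        · show qq (ψ ⟨at' a, hat a⟩) = qq (ψ ⟨at' b, hat b⟩)
          rw [h1]
    refine contained_iff.2 ⟨e, e_inj, fun a b hab => ?_⟩
    by_cases ha : a ∈ A
    · by_cases hb : b ∈ A
      · rw [e_in a ha, e_in b hb]
        exact hψa ⟨a, ha⟩ ⟨b, hb⟩ hab
      · exact (key b a hb hab.symm).symm
    · exact key a b ha hab
  · intro J hJ hJfree
    let I : SimpleGraph (V ⊕ (V × Q × (Aᶜ : Set W))) :=
      { Adj := fun x y => match x, y with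
          | Sum.inl a, Sum.inl b => J.Adj a b
          | Sum.inl a, Sum.inr p => F'.Adj (Sum.inl a) (Sum.inr p)
          | Sum.inr p, Sum.inl a => F'.Adj (Sum.inr p) (Sum.inl a)
          | Sum.inr p, Sum.inr r => F'.Adj (Sum.inr p) (Sum.inr r)
        symm := by
          constructor
          rintro (a | p) (b | q) h
          · exact SimpleGraph.Adj.symm (G := J) h
          · exact SimpleGraph.Adj.symm (G := F') h
          · exact SimpleGraph.Adj.symm (G := F') h
          · exact SimpleGraph.Adj.symm (G := F') h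
        loopless := by
          constructor
          rintro (a | p) h
          · exact J.loopless.irrefl a h
          · exact F'.loopless.irrefl _ h }
    have hIJ : I ≤ jb H A at' Q J := by
      rintro (a | p) (b | r) h
      · exact h
      · exact hF'.1 h
      · exact hF'.1 h
      · exact hF'.1 h
    have hI : I ≤ jb H A at' Q G := hIJ.trans (jb_mono hJ)
    have hIfree : ¬ (H ⊑ I) := by
      intro hcon
      apply L J hJfree
      obtain ⟨f, hf, hadj⟩ := contained_iff.1 hcon
      exact contained_iff.2 ⟨f, hf, fun a b hab => hIJ (hadj a b hab)⟩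
    have hle := hF'.2.2 I hI hIfree
    have e1 : I.edgeSet \ F'.edgeSet =
        Sym2.map Sum.inl '' (J.edgeSet \ (F'.comap Sum.inl).edgeSet) := by
      ext x
      constructor
      · rintro ⟨h7, h8⟩
        induction x with
        | _ x y =>
        rw [mem_edgeSet] at h7 h8
        rcases x with a | p <;> rcases y with b | q
        · exact ⟨s(a, b), ⟨h7, h8⟩, rfl⟩
        · exact absurd h7 h8
        · exact absurd h7 h8
        · exact absurd h7 h8
      · rintro ⟨x', ⟨h7, h8⟩, rfl⟩
        induction x' with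
        | _ a b =>
        exact ⟨h7, h8⟩
    have e2 : F'.edgeSet \ I.edgeSet =
        Sym2.map Sum.inl '' ((F'.comap Sum.inl).edgeSet \ J.edgeSet) := by
      ext x
      constructor
      · rintro ⟨h7, h8⟩
        induction x with
        | _ x y =>
        rw [mem_edgeSet] at h7 h8
        rcases x with a | p <;> rcases y with b | q
        · exact ⟨s(a, b), ⟨h7, h8⟩, rfl⟩
        · exact absurd h7 h8
        · exact absurd h7 h8
        · exact absurd h7 h8
      · rintro ⟨x', ⟨h7, h8⟩, rfl⟩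
        induction x' with
        | _ a b =>
        exact ⟨h7, h8⟩
    rw [e1, e2, Cardinal.mk_image_eq (Sym2.map.injective Sum.inl_injective),
      Cardinal.mk_image_eq (Sym2.map.injective Sum.inl_injective)] at hle
    exact hle

end Pool.Agent.R709.SM
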