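import Pool.Agent.R709.SM.RegMain
import Pool.Agent.R709.SM.Block
import Pool.Agent.Results.MP_fc2b6d_co.WithCycles

/-! Unique blocks: consequences (project SM, problem MP_fc2b6d_co). -/

namespace Pool.Agent.R709.SM

open SimpleGraph

namespace BM

/-- a graph without strongly maximal sets in the sense of the starting files is not good. -/
theorem not_good_of {W : Type} {H : SimpleGraph W}
    (h : ∃ (V : Type) (G : SimpleGraph V), ¬ ∃ F : Set (Sym2 V),
      Pool.Agent.Results.MP_fc2b6d_co.WithCycles.IsStronglyMaximal H G F) : ¬ Good H := by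
  intro hg
  obtain ⟨V, G, hG⟩ := h
  obtain ⟨F, hFG, hfree, hmax⟩ := hg V G
  apply hG
  refine ⟨F.edgeSet, ⟨edgeSet_mono hFG, ?_⟩, ?_⟩
  · rw [fromEdgeSet_edgeSet]
    exact hfree
  · rintro I ⟨hI, hIfree⟩
    have hle : fromEdgeSet I ≤ G := by
      intro a b hab
      rw [fromEdgeSet_adj] at hab
      exact hI hab.1
    have hedge : (fromEdgeSet I).edgeSet = I := by
      rw [edgeSet_fromEdgeSet]
      ext e
      constructor
      · exact fun he => he.1
      · exact fun he => ⟨he, fun hd => G.not_isDiag_of_mem_edgeSet (hI he) hd⟩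
    have h1 := hmax (fromEdgeSet I) hle hIfree
    rw [hedge] at h1
    exact h1

/-- 2-connected graphs without separating pairs of adjacent vertices are not good. -/
theorem block_bad {W : Type} [Finite W] {H : SimpleGraph W}
    (h3 : ∃ a b c : W, a ≠ b ∧ a ≠ c ∧ b ≠ c) (hc : H.Connected)
    (hcut : ∀ v : W, (H.induce {v}ᶜ).Connected)
    (hsep : ∀ a b : W, H.Adj a b → (H.induce {a, b}ᶜ).Preconnected) : ¬ Good H := by
  classical
  obtain ⟨x, y, z, hxy, hxz, hyz⟩ := h3
  -- a vertex with two neighbours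
  have hnb : ∃ v0 p q, p ≠ q ∧ H.Adj v0 p ∧ H.Adj v0 q := by
    have hex : ∀ v : W, ∃ p, H.Adj v p := by
      intro v
      obtain ⟨u, hu⟩ : ∃ u, u ≠ v := by
        by_cases h : x = v
        · exact ⟨y, fun h' => hxy (h.trans h'.symm)⟩
        · exact ⟨x, h⟩
      obtain ⟨p⟩ := hc.preconnected v u
      cases p with
      | nil => exact absurd rfl hu
      | cons h _ => exact ⟨_, h⟩
    obtain ⟨p, hp⟩ := hex x
    by_contra hno
    push Not at hno
    -- then the neighbour `p` of `x` has another neighbour, as `H - x` is connected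
    obtain ⟨w, hwx, hwp⟩ : ∃ w, w ≠ x ∧ w ≠ p := by
      by_cases h : y = p
      · exact ⟨z, hxz.symm, fun h' => hyz (h.trans h'.symm)⟩
      · exact ⟨y, hxy.symm, h⟩
    have hpx : p ∈ ({x}ᶜ : Set W) := hp.ne'
    have hwx' : w ∈ ({x}ᶜ : Set W) := hwx
    obtain ⟨r⟩ := (hcut x).preconnected ⟨p, hpx⟩ ⟨w, hwx'⟩
    cases r with
    | nil => exact hwp rfl
    | @cons _ s _ h _ =>
      exact hno p x s.1 (fun h' => s.2 h'.symm) hp.symm h
  obtain ⟨v0, p, q, hpq, hp, hq⟩ := hnb
  apply not_good_of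
  exact Pool.Agent.Results.MP_fc2b6d_co.WithCycles.result H
    (.block H ⟨⟨x, y, z, hxy, hxz, hyz⟩, hc, hcut⟩ v0 p q hpq hp hq
      (fun a b hab hno => absurd (hsep a b hab) hno))

end BM

end Pool.Agent.R709.SM
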