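import Pool.Agent.R709.SM.Stm

/-! # SM-C (helper451): cycles of length at least four are bad -/

namespace Pool.Agent.R709.SM

open SimpleGraph

namespace Cyc

/-- the ends of the light edges: the `k`-th part has `k + 1` elements -/
abbrev U : Type := (k : ℕ) × Fin (k + 1)

/-- the vertices of the host -/
inductive Vt : Type
  | hub : Vt
  | base (u : U) : Vt
  | inner (u u' : U) (i : ℕ) : Vt

open Vt

/-- the `i`-th vertex of the path from `u` to `u'` -/
def pt (L : ℕ) (u u' : U) (i : ℕ) : Vt :=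
  if i = 0 then base u else if i = L then base u' else inner u u' i

def R (L : ℕ) (A : U → Prop) (Q : U → U → ℕ → Prop) (x y : Vt) : Prop :=
  (∃ u, A u ∧ x = hub ∧ y = base u) ∨
    ∃ u u' i, u.1 < u'.1 ∧ i < L ∧ Q u u' i ∧ x = pt L u u' i ∧ y = pt L u u' (i + 1)

def Gr (L : ℕ) (A : U → Prop) (Q : U → U → ℕ → Prop) : SimpleGraph Vt := fromRel (R L A Q)

lemma pt_inner {L : ℕ} {u u' v v' : U} {i j : ℕ} :
    pt L u u' i = inner v v' j ↔ i ≠ 0 ∧ i ≠ L ∧ u = v ∧ u' = v' ∧ i = j := by
  unfold pt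
  split_ifs with h1 h2
  · simp [h1]
  · simp [h2]
  · simp [h1, h2]

lemma pt_base {L : ℕ} {u u' x : U} {i : ℕ} :
    pt L u u' i = base x ↔ (i = 0 ∧ u = x) ∨ (i ≠ 0 ∧ i = L ∧ u' = x) := by
  unfold pt
  split_ifs with h1 h2
  · simp [h1]
  · subst h2
    simp [h1]
  · simp [h1, h2]

lemma pt_hub {L : ℕ} {u u' : U} {i : ℕ} : pt L u u' i ≠ hub := by
  unfold pt
  split_ifs <;> simp

lemma pt_mid {L : ℕ} {u u' : U} {i : ℕ} (h0 : i ≠ 0) (h1 : i ≠ L) :
    pt L u u' i = inner u u' i := by
  unfold pt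
  rw [if_neg h0, if_neg h1]

lemma pt_inj {L : ℕ} {u u' : U} (h : u.1 < u'.1) {i j : ℕ}
    (hij : pt L u u' i = pt L u u' j) : i = j := by
  have hne : u ≠ u' := fun e => by rw [e] at h; omega
  by_cases h1 : j = 0
  · subst h1
    have h2 : pt L u u' 0 = base u := rfl
    rw [h2, pt_base] at hij
    rcases hij with h3 | h3
    · exact h3.1
    · exact absurd h3.2.2.symm hne
  · by_cases h2 : j = L
    · have h3 : pt L u u' j = base u' := by
        rw [pt_base]
        exact Or.inr ⟨h1, h2, rfl⟩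
      rw [h3, pt_base] at hij
      rcases hij with h3 | h3
      · exact absurd h3.2 hne
      · rw [h3.2.1, h2]
    · rw [pt_mid h1 h2, pt_inner] at hij
      exact hij.2.2.2.2

lemma adj_inner {L : ℕ} {A : U → Prop} {Q : U → U → ℕ → Prop} {u u' : U} {i : ℕ} {y : Vt}
    (h : (Gr L A Q).Adj (inner u u' i) y) :
    u.1 < u'.1 ∧ 0 < i ∧ i < L ∧ (y = pt L u u' (i - 1) ∨ y = pt L u u' (i + 1)) := by
  rw [Gr, fromRel_adj] at h
  rcases h.2 with (⟨w, -, h1, -⟩ | ⟨v, v', j, h1, h2, -, h3, h4⟩) |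
    (⟨w, -, -, h1⟩ | ⟨v, v', j, h1, h2, -, h3, h4⟩)
  · exact absurd h1 (by simp)
  · obtain ⟨h5, h6, rfl, rfl, rfl⟩ := pt_inner.1 h3.symm
    exact ⟨h1, by omega, h2, Or.inr h4⟩
  · exact absurd h1 (by simp)
  · obtain ⟨h5, h6, rfl, rfl, rfl⟩ := pt_inner.1 h4.symm
    exact ⟨h1, by omega, by omega, Or.inl h3⟩

lemma adj_hub {L : ℕ} {A : U → Prop} {Q : U → U → ℕ → Prop} {y : Vt}
    (h : (Gr L A Q).Adj hub y) : ∃ u, A u ∧ y = base u := by
  rw [Gr, fromRel_adj] at h
  rcases h.2 with (⟨w, h1, -, h2⟩ | ⟨v, v', j, h1, h2, -, h3, h4⟩) |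
    (⟨w, -, -, h1⟩ | ⟨v, v', j, h1, h2, -, h3, h4⟩)
  · exact ⟨w, h1, h2⟩
  · exact absurd h3.symm pt_hub
  · exact absurd h1 (by simp)
  · exact absurd h4.symm pt_hub

lemma adj_light {L : ℕ} {A : U → Prop} {Q : U → U → ℕ → Prop} {u : U} :
    (Gr L A Q).Adj hub (base u) ↔ A u := by
  constructor
  · intro h
    obtain ⟨w, h1, h2⟩ := adj_hub h
    cases h2
    exact h1
  · intro h
    rw [Gr, fromRel_adj]
    exact ⟨by simp, Or.inl (Or.inl ⟨u, h, rfl, rfl⟩)⟩

lemma not_adj_base {L : ℕ} (hL : 2 ≤ L) {A : U → Prop} {Q : U → U → ℕ → Prop} {x y : U} :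
    ¬ (Gr L A Q).Adj (base x) (base y) := by
  have key : ∀ x y : U, ¬ R L A Q (base x) (base y) := by
    rintro x y (⟨w, -, h1, -⟩ | ⟨v, v', j, h1, h2, -, h3, h4⟩)
    · exact absurd h1 (by simp)
    · rcases pt_base.1 h3.symm with h5 | h5
      · rcases pt_base.1 h4.symm with h6 | h6
        · omega
        · omega
      · omega
  intro h
  rw [Gr, fromRel_adj] at h
  rcases h.2 with h1 | h1
  · exact key _ _ h1
  · exact key _ _ h1

lemma adj_path {L : ℕ} (hL : 2 ≤ L) {A : U → Prop} {Q : U → U → ℕ → Prop} {u u' : U} {i : ℕ}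
    (hu : u.1 < u'.1) (hi : i < L) :
    (Gr L A Q).Adj (pt L u u' i) (pt L u u' (i + 1)) ↔ Q u u' i := by
  constructor
  · intro h
    rw [Gr, fromRel_adj] at h
    rcases h.2 with (⟨w, -, h1, -⟩ | ⟨v, v', j, h1, h2, h5, h3, h4⟩) |
      (⟨w, -, h1, -⟩ | ⟨v, v', j, h1, h2, h5, h3, h4⟩)
    · exact absurd h1 pt_hub
    · by_cases h0 : i = 0
      · rw [pt_mid (by omega) (by omega)] at h4
        obtain ⟨-, -, rfl, rfl, h6⟩ := pt_inner.1 h4.symm
        have : j = i := by omega
        rw [← this]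
        exact h5
      · rw [pt_mid h0 (by omega)] at h3
        obtain ⟨-, -, rfl, rfl, h6⟩ := pt_inner.1 h3.symm
        rw [← h6]
        exact h5
    · exact absurd h1 pt_hub
    · exfalso
      by_cases h0 : i = 0
      · rw [pt_mid (by omega) (by omega)] at h3
        obtain ⟨-, -, rfl, rfl, h6⟩ := pt_inner.1 h3.symm
        have := pt_inj hu h4
        omega
      · rw [pt_mid h0 (by omega)] at h4
        obtain ⟨-, -, rfl, rfl, h6⟩ := pt_inner.1 h4.symm
        have := pt_inj hu h3
        omega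
  · intro h
    rw [Gr, fromRel_adj]
    refine ⟨fun e => ?_, Or.inl (Or.inr ⟨u, u', i, hu, hi, h, rfl, rfl⟩)⟩
    have := pt_inj hu e
    omega

lemma Gr_mono {L : ℕ} {A A' : U → Prop} {Q Q' : U → U → ℕ → Prop} (hA : ∀ u, A u → A' u)
    (hQ : ∀ u u' i, Q u u' i → Q' u u' i) : Gr L A Q ≤ Gr L A' Q' := by
  have key : ∀ x y, R L A Q x y → R L A' Q' x y := by
    rintro x y (⟨w, h0, h1, h2⟩ | ⟨v, v', j, h1, h2, h5, h3, h4⟩)
    · exact Or.inl ⟨w, hA w h0, h1, h2⟩
    · exact Or.inr ⟨v, v', j, h1, h2, hQ _ _ _ h5, h3, h4⟩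
  intro x y h
  rw [Gr, fromRel_adj] at h ⊢
  exact ⟨h.1, h.2.imp (key _ _) (key _ _)⟩

/-- the host -/
def G (L : ℕ) : SimpleGraph Vt := Gr L (fun _ => True) fun _ _ _ => True

/-- the full cycle through the path from `u` to `u'` -/
def Full (L : ℕ) (K : SimpleGraph Vt) (u u' : U) : Prop :=
  u.1 < u'.1 ∧ K.Adj hub (base u) ∧ K.Adj hub (base u') ∧
    ∀ i < L, K.Adj (pt L u u' i) (pt L u u' (i + 1))

lemma oriented {L : ℕ} (hL : 2 ≤ L) {K : SimpleGraph Vt} (hK : K ≤ G L) {c : ℤ → Vt}
    (hc : ∀ t, K.Adj (c t) (c (t + 1)))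
    (hinj : ∀ s t, c s = c t ↔ ((L + 2 : ℕ) : ℤ) ∣ s - t) {u u' : U} (hu : u.1 < u'.1) {t : ℤ}
    (h0 : c t = pt L u u' 0) (h1 : c (t + 1) = pt L u u' 1) : Full L K u u' := by
  have hne2 : ∀ s, c s ≠ c (s + 2) := by
    intro s h
    rw [hinj] at h
    have h2 : s - (s + 2) = -2 := by ring
    rw [h2, dvd_neg] at h
    have := Int.le_of_dvd (by norm_num) h
    push_cast at this
    omega
  have key : ∀ j : ℕ, j + 1 ≤ L → c (t + j) = pt L u u' j ∧ c (t + j + 1) = pt L u u' (j + 1) := by
    intro j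
    induction j with
    | zero =>
      intro _
      simpa using ⟨h0, h1⟩
    | succ j ih =>
      intro hj
      obtain ⟨ih1, ih2⟩ := ih (by omega)
      have e1 : t + ((j + 1 : ℕ) : ℤ) = t + j + 1 := by push_cast; ring
      rw [e1]
      refine ⟨ih2, ?_⟩
      have h3 := hK (hc (t + j + 1))
      rw [ih2, pt_mid (by omega) (by omega)] at h3
      obtain ⟨-, -, -, h4⟩ := adj_inner h3
      rcases h4 with h4 | h4
      · exfalso
        apply hne2 (t + j)
        have e2 : t + (j : ℤ) + 2 = t + j + 1 + 1 := by ring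
        rw [e2, h4, ih1, Nat.add_sub_cancel]
      · exact h4
  have hall : ∀ j : ℕ, j ≤ L → c (t + j) = pt L u u' j := by
    intro j hj
    rcases Nat.eq_or_lt_of_le hj with h2 | h2
    · have h3 := (key (L - 1) (by omega)).2
      have e1 : ((L - 1 : ℕ) : ℤ) = (L : ℤ) - 1 := by
        rw [Nat.cast_sub (by omega)]
        simp
      rw [h2]
      rw [e1] at h3
      have e2 : t + ((L : ℤ) - 1) + 1 = t + L := by ring
      rw [e2] at h3
      rw [h3]
      congr 1
      omega
    · exact (key j (by omega)).1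
  have hb' : pt L u u' L = base u' := by
    rw [pt_base]
    exact Or.inr ⟨by omega, rfl, rfl⟩
  have hb : pt L u u' 0 = base u := rfl
  have hlast := hall L le_rfl
  rw [hb'] at hlast
  have a1 := hc (t + L)
  rw [hlast] at a1
  have a2 := hc (t + L + 1)
  have hper : c (t + L + 1 + 1) = c t := by
    rw [hinj]
    refine ⟨1, ?_⟩
    push_cast
    ring
  rw [hper, h0, hb] at a2
  -- the last vertex
  have hw : c (t + L + 1) = hub := by
    cases hcw : c (t + L + 1) with
    | hub => rfl
    | base x =>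
      rw [hcw] at a2
      exact absurd (hK a2) (not_adj_base hL)
    | inner v v' j =>
      exfalso
      rw [hcw] at a1 a2
      obtain ⟨b1, b2, b3, b4⟩ := adj_inner (hK a2)
      obtain ⟨-, -, -, b5⟩ := adj_inner (hK a1.symm)
      have hne : u ≠ u' := fun e => by rw [e] at hu; omega
      have c1 : (j = 1 ∧ v = u) ∨ (j + 1 = L ∧ v' = u) := by
        rcases b4 with h | h
        · rcases pt_base.1 h.symm with h | h
          · exact Or.inl ⟨by omega, h.2⟩
          · omega
        · rcases pt_base.1 h.symm with h | h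
          · omega
          · exact Or.inr ⟨h.2.1, h.2.2⟩
      have c2 : (j = 1 ∧ v = u') ∨ (j + 1 = L ∧ v' = u') := by
        rcases b5 with h | h
        · rcases pt_base.1 h.symm with h | h
          · exact Or.inl ⟨by omega, h.2⟩
          · omega
        · rcases pt_base.1 h.symm with h | h
          · omega
          · exact Or.inr ⟨h.2.1, h.2.2⟩
      rcases c1 with ⟨d1, d2⟩ | ⟨d1, d2⟩
      · rcases c2 with ⟨d3, d4⟩ | ⟨d3, d4⟩
        · exact hne (d2.symm.trans d4)
        · -- the inner vertex of the path itself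
          have h5 : c (t + L + 1) = c (t + 1) := by
            rw [hcw, h1, pt_mid (by omega) (by omega), d1, d2, d4]
          rw [hinj] at h5
          have h6 : t + L + 1 - (t + 1) = (L : ℤ) := by ring
          rw [h6] at h5
          have := Int.le_of_dvd (by omega) h5
          push_cast at this
          omega
      · rcases c2 with ⟨d3, d4⟩ | ⟨d3, d4⟩
        · rw [d2, d4] at b1
          omega
        · exact hne (d2.symm.trans d4)
  rw [hw] at a1 a2
  refine ⟨hu, a2, a1.symm, fun i hi => ?_⟩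
  have h7 := hc (t + i)
  rw [hall i hi.le] at h7
  have h8 := hall (i + 1) hi
  have e3 : t + ((i + 1 : ℕ) : ℤ) = t + i + 1 := by push_cast; ring
  rw [e3] at h8
  rw [h8] at h7
  exact h7

lemma closed_walk {L : ℕ} (hL : 2 ≤ L) {K : SimpleGraph Vt} (hK : K ≤ G L) {c : ℤ → Vt}
    (hc : ∀ t, K.Adj (c t) (c (t + 1)))
    (hinj : ∀ s t, c s = c t ↔ ((L + 2 : ℕ) : ℤ) ∣ s - t) : ∃ u u', Full L K u u' := by
  have hne2 : ∀ s, c s ≠ c (s + 2) := by
    intro s h
    rw [hinj] at h
    have h2 : s - (s + 2) = -2 := by ring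
    rw [h2, dvd_neg] at h
    have := Int.le_of_dvd (by norm_num) h
    push_cast at this
    omega
  -- there is an inner vertex
  have hinner : ∃ t u u' i, c t = inner u u' i := by
    by_contra hcon
    push Not at hcon
    have hstep : ∀ t u, c t = base u → c (t + 1) = hub := by
      intro t u h
      have h1 := hK (hc t)
      rw [h] at h1
      cases h2 : c (t + 1) with
      | hub => rfl
      | base x => rw [h2] at h1; exact absurd h1 (not_adj_base hL)
      | inner v v' j => exact absurd h2 (hcon _ _ _ _)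
    have hstep2 : ∀ t, c t = hub → ∃ u, c (t + 1) = base u := by
      intro t h
      have h1 := hK (hc t)
      rw [h] at h1
      obtain ⟨u, -, hu⟩ := adj_hub h1
      exact ⟨u, hu⟩
    have hub2 : ∀ t, c t = hub → False := by
      intro t h
      obtain ⟨u, hu⟩ := hstep2 t h
      have h1 := hstep _ _ hu
      apply hne2 t
      have e : t + 1 + 1 = t + 2 := by ring
      rw [e] at h1
      rw [h, h1]
    cases h0 : c 0 with
    | hub => exact hub2 0 h0
    | base x => exact hub2 _ (hstep _ _ h0)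
    | inner v v' j => exact hcon _ _ _ _ h0
  obtain ⟨t0, u, u', i0, h0⟩ := hinner
  classical
  have hex : ∃ i, ∃ t, c t = inner u u' i := ⟨i0, t0, h0⟩
  obtain ⟨t, ht⟩ := Nat.find_spec hex
  have hmin := fun j (hj : j < Nat.find hex) => Nat.find_min hex hj
  set i := Nat.find hex with hi
  have a1 := hK (hc t)
  rw [ht] at a1
  have a2 := hK (hc (t - 1))
  have e1 : t - 1 + 1 = t := by ring
  rw [e1, ht] at a2
  obtain ⟨hu, hi0, hiL, b1⟩ := adj_inner a1
  obtain ⟨-, -, -, b2⟩ := adj_inner a2.symm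
  have hne : c (t - 1) ≠ c (t + 1) := by
    have := hne2 (t - 1)
    have e2 : t - 1 + 2 = t + 1 := by ring
    rwa [e2] at this
  have hi1 : (c (t - 1) = pt L u u' (i - 1) ∨ c (t + 1) = pt L u u' (i - 1)) → i = 1 := by
    intro h
    by_contra hcon
    have h3 : pt L u u' (i - 1) = inner u u' (i - 1) := pt_mid (by omega) (by omega)
    rw [h3] at h
    rcases h with h | h
    · exact hmin (i - 1) (by omega) ⟨_, h⟩
    · exact hmin (i - 1) (by omega) ⟨_, h⟩
  rcases b2 with b2 | b2
  · have h4 := hi1 (Or.inl b2)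
    refine ⟨u, u', oriented hL hK hc hinj hu (t := t - 1) ?_ ?_⟩
    · rw [b2, h4]
    · rw [e1, ht, h4, pt_mid (by omega) (by omega)]
  · rcases b1 with b1 | b1
    · have h4 := hi1 (Or.inr b1)
      have e5 : -(-(t + 1) + 1) = t := by ring
      refine ⟨u, u', oriented hL hK (c := fun s => c (-s)) ?_ ?_ hu (t := -(t + 1)) ?_ ?_⟩
      · intro s
        have h5 := (hc (-(s + 1))).symm
        have e4 : -(s + 1) + 1 = -s := by ring
        rw [e4] at h5
        exact h5
      · intro s s'
        rw [hinj]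
        have e6 : -s - -s' = -(s - s') := by ring
        rw [e6, dvd_neg]
      · simp only [neg_neg]
        rw [b1, h4]
      · rw [e5, ht, h4, pt_mid (by omega) (by omega)]
    · exact absurd (b2.trans b1.symm) hne

/-- a copy of the cycle is one of the expected ones -/
lemma of_contained {L : ℕ} (hL : 2 ≤ L) {K : SimpleGraph Vt} (hK : K ≤ G L)
    (h : cycleGraph (L + 2) ⊑ K) : ∃ u u', Full L K u u' := by
  obtain ⟨φ⟩ := h
  let c : ℤ → Vt := fun t => φ (((t : ZMod (L + 2)) : ZMod (L + 2)) : Fin (L + 2))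
  refine closed_walk hL hK (c := c) ?_ ?_
  · intro t
    apply φ.toHom.map_adj
    have h1 : (((t + 1 : ℤ) : ZMod (L + 2)) - (t : ZMod (L + 2)) : ZMod (L + 2)) = 1 := by
      push_cast
      ring
    exact (cycleGraph_adj (n := L) (u := ((t : ZMod (L + 2)) : Fin (L + 2)))
      (v := (((t + 1 : ℤ) : ZMod (L + 2)) : Fin (L + 2)))).2 (Or.inr h1)
  · intro s t
    have h1 : c s = c t ↔ ((s : ZMod (L + 2)) = (t : ZMod (L + 2))) :=
      ⟨fun h => φ.injective h, fun h => by simp only [c, h]⟩
    rw [h1, ZMod.intCast_eq_intCast_iff_dvd_sub]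
    rw [← dvd_neg]
    have : -(t - s) = s - t := by ring
    rw [this]

/-- the expected cycles are copies -/
lemma contained {L : ℕ} (hL : 2 ≤ L) {K : SimpleGraph Vt} {u u' : U} (h : Full L K u u') :
    cycleGraph (L + 2) ⊑ K := by
  obtain ⟨hu, h1, h2, h3⟩ := h
  let f : Fin (L + 2) → Vt := fun j => if (j : ℕ) = 0 then hub else pt L u u' (j - 1)
  have hb' : pt L u u' L = base u' := by
    rw [pt_base]
    exact Or.inr ⟨by omega, rfl, rfl⟩
  have hb : pt L u u' 0 = base u := rfl
  have hstep : ∀ i : Fin (L + 2), K.Adj (f i) (f (i + 1)) := by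
    intro i
    by_cases hi : i = Fin.last (L + 1)
    · have e1 : i + 1 = 0 := by rw [hi]; exact Fin.last_add_one _
      have e2 : f i = base u' := by
        simp only [f, hi, Fin.val_last]
        rw [if_neg (by omega), Nat.add_sub_cancel, hb']
      rw [e1, e2]
      have e3 : f 0 = hub := by simp [f]
      rw [e3]
      exact h2.symm
    · have hv : ((i + 1 : Fin (L + 2)) : ℕ) = i + 1 := by
        rw [Fin.val_add_one, if_neg hi]
      have hlt : (i : ℕ) < L + 1 := by
        have := i.2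
        have h4 : (i : ℕ) ≠ L + 1 := fun e => hi (Fin.ext e)
        omega
      have e1 : f (i + 1) = pt L u u' i := by
        simp only [f, hv]
        rw [if_neg (by omega), Nat.add_sub_cancel]
      rw [e1]
      by_cases h0 : (i : ℕ) = 0
      · have e2 : f i = hub := if_pos h0
        rw [e2, h0, hb]
        exact h1
      · have e2 : f i = pt L u u' (i - 1) := if_neg h0
        rw [e2]
        have h5 := h3 (i - 1) (by omega)
        have e3 : (i : ℕ) - 1 + 1 = i := by omega
        rw [e3] at h5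
        exact h5
  refine ⟨⟨⟨f, ?_⟩, ?_⟩⟩
  · intro a b hab
    rw [cycleGraph_adj] at hab
    rcases hab with h4 | h4
    · have : a = b + 1 := sub_eq_iff_eq_add'.1 h4
      rw [this]
      exact (hstep b).symm
    · have : b = a + 1 := sub_eq_iff_eq_add'.1 h4
      rw [this]
      exact hstep a
  · intro a b hab
    change f a = f b at hab
    simp only [f] at hab
    by_cases ha : (a : ℕ) = 0
    · by_cases hb : (b : ℕ) = 0
      · exact Fin.ext (ha.trans hb.symm)
      · rw [if_pos ha, if_neg hb] at hab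
        exact absurd hab.symm pt_hub
    · by_cases hb : (b : ℕ) = 0
      · rw [if_neg ha, if_pos hb] at hab
        exact absurd hab pt_hub
      · rw [if_neg ha, if_neg hb] at hab
        have := pt_inj hu hab
        apply Fin.ext
        omega

/-- an edge of the host is light or belongs to a path -/
lemma edge_cases {L : ℕ} {x y : Vt} (h : (G L).Adj x y) :
    (∃ u, s(x, y) = s(hub, base u)) ∨
      ∃ u u' i, u.1 < u'.1 ∧ i < L ∧ s(x, y) = s(pt L u u' i, pt L u u' (i + 1)) := by
  rw [G, Gr, fromRel_adj] at h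
  rcases h.2 with (⟨w, -, h1, h2⟩ | ⟨v, v', j, h1, h2, h5, h3, h4⟩) |
    (⟨w, -, h1, h2⟩ | ⟨v, v', j, h1, h2, h5, h3, h4⟩)
  · exact Or.inl ⟨w, by rw [h1, h2]⟩
  · exact Or.inr ⟨v, v', j, h1, h2, by rw [h3, h4]⟩
  · exact Or.inl ⟨w, by rw [h1, h2, Sym2.eq_swap]⟩
  · exact Or.inr ⟨v, v', j, h1, h2, by rw [h3, h4, Sym2.eq_swap]⟩

/-- the elements of `U` which occur in an inner vertex -/
def tr : Vt → Set U
  | .hub => ∅
  | .base _ => ∅
  | .inner u u' _ => {u, u'}

lemma tr_fin (x : Vt) : (tr x).Finite := by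
  cases x with
  | hub => exact Set.finite_empty
  | base _ => exact Set.finite_empty
  | inner u u' i => exact (Set.finite_singleton u').insert u

def trE (e : Sym2 Vt) : Set U := {w | ∃ x ∈ e, w ∈ tr x}

lemma trE_fin (e : Sym2 Vt) : (trE e).Finite := by
  induction e with
  | _ x y =>
    refine ((tr_fin x).union (tr_fin y)).subset ?_
    rintro w ⟨z, hz, hw⟩
    rcases Sym2.mem_iff.1 hz with rfl | rfl
    · exact Or.inl hw
    · exact Or.inr hw

lemma mem_trE {L : ℕ} (hL : 2 ≤ L) {u u' : U} {i : ℕ} (hi : i < L) :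
    u ∈ trE s(pt L u u' i, pt L u u' (i + 1)) ∧ u' ∈ trE s(pt L u u' i, pt L u u' (i + 1)) := by
  by_cases h0 : i = 0
  · have h1 : pt L u u' (i + 1) = inner u u' (i + 1) := pt_mid (by omega) (by omega)
    exact ⟨⟨pt L u u' (i + 1), by simp, by rw [h1]; simp [tr]⟩,
      ⟨pt L u u' (i + 1), by simp, by rw [h1]; simp [tr]⟩⟩
  · have h1 : pt L u u' i = inner u u' i := pt_mid h0 (by omega)
    exact ⟨⟨pt L u u' i, by simp, by rw [h1]; simp [tr]⟩,
      ⟨pt L u u' i, by simp, by rw [h1]; simp [tr]⟩⟩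

lemma part_finite (k : ℕ) : {u : U | u.1 = k}.Finite := by
  have h : {u : U | u.1 = k} ⊆ Set.range fun j : Fin (k + 1) => (⟨k, j⟩ : U) := by
    rintro ⟨k', j⟩ hk
    simp only [Set.mem_ofPred_eq] at hk
    subst hk
    exact ⟨j, rfl⟩
  exact (Set.finite_range _).subset h

lemma part_ncard (k : ℕ) : {u : U | u.1 = k}.ncard = k + 1 := by
  have h : {u : U | u.1 = k} = Set.range fun j : Fin (k + 1) => (⟨k, j⟩ : U) := by
    ext ⟨k', j⟩
    constructor
    · intro hk
      simp only [Set.mem_ofPred_eq] at hk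
      subst hk
      exact ⟨j, rfl⟩
    · rintro ⟨j', hj'⟩
      cases hj'
      rfl
  rw [h, ← Set.image_univ, Set.ncard_image_of_injective _ ?_, Set.ncard_univ, Nat.card_fin]
  intro a b hab
  simpa using hab

end Cyc

open Cyc Cyc.Vt in
/-- cycles of length at least four are bad -/
theorem cycle : StmCycle := by
  intro n hn hgood
  obtain ⟨L, rfl⟩ : ∃ L, n = L + 2 := ⟨n - 2, by omega⟩
  have hL : 2 ≤ L := by omega
  obtain ⟨F, hF⟩ := hgood Vt (G L)
  have hFG := hF.1
  set X : Set U := {u | F.Adj hub (base u)} with hX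
  by_cases hfin : X.Finite
  · -- the light edges of a big part
    set k := X.ncard with hk
    set P : Set U := {u : U | u.1 = k} with hP
    set I := Gr L (fun u => u.1 = k) fun _ _ _ => True with hI
    have hIG : I ≤ G L := Gr_mono (fun _ _ => trivial) fun _ _ _ _ => trivial
    have hfree : ¬ (cycleGraph (L + 2) ⊑ I) := by
      intro h
      obtain ⟨u, u', h1, h2, h3, -⟩ := of_contained hL hIG h
      rw [hI, adj_light] at h2 h3
      omega
    let g : U → Sym2 Vt := fun u => s(hub, base u)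
    have hg : Function.Injective g := by
      intro u u' h
      simp only [g, Sym2.eq_iff] at h
      rcases h with ⟨-, h⟩ | ⟨h, -⟩
      · simpa using h
      · exact absurd h (by simp)
    have s1 : F.edgeSet \ I.edgeSet ⊆ g '' (X \ P) := by
      intro e he
      induction e with
      | _ x y =>
        obtain ⟨h1, h2⟩ := he
        rw [mem_edgeSet] at h1 h2
        rcases edge_cases (hFG h1) with ⟨u, h3⟩ | ⟨u, u', i, h3, h4, h5⟩
        · rw [h3]
          refine ⟨u, ⟨?_, fun h6 => ?_⟩, rfl⟩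
          · rw [← mem_edgeSet, h3, mem_edgeSet] at h1
            exact h1
          · apply h2
            rw [← mem_edgeSet, h3, mem_edgeSet, hI, adj_light]
            exact h6
        · exfalso
          apply h2
          rw [← mem_edgeSet, h5, mem_edgeSet, hI, adj_path hL h3 h4]
          trivial
    have s2 : g '' (P \ X) ⊆ I.edgeSet \ F.edgeSet := by
      rintro e ⟨u, ⟨h1, h2⟩, rfl⟩
      refine ⟨?_, fun h3 => h2 h3⟩
      change s(hub, base u) ∈ I.edgeSet
      rw [mem_edgeSet, hI, adj_light]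
      exact h1
    have hfin1 : (g '' (X \ P)).Finite := (hfin.subset Set.sdiff_subset).image g
    obtain ⟨h3, h4⟩ := hF.no_gain hIG hfree (hfin1.subset s1)
    have h5 := Set.ncard_le_ncard s1 hfin1
    have h6 := Set.ncard_le_ncard s2 h3
    rw [Set.ncard_image_of_injective _ hg] at h5 h6
    have hPf : P.Finite := part_finite k
    have h7 := Set.ncard_inter_add_ncard_sdiff_eq_ncard X P hfin
    have h8 := Set.ncard_inter_add_ncard_sdiff_eq_ncard P X hPf
    have h9 : P.ncard = k + 1 := part_ncard k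
    rw [Set.inter_comm] at h8
    omega
  · -- move one light edge
    have hinf : X.Infinite := hfin
    obtain ⟨u0, hu0⟩ := hinf.nonempty
    set I := Gr L (fun u => F.Adj hub (base u) ∧ u ≠ u0)
      (fun u u' i => F.Adj (pt L u u' i) (pt L u u' (i + 1)) ∨ u = u0 ∨ u' = u0) with hI
    have hIG : I ≤ G L := Gr_mono (fun _ _ => trivial) fun _ _ _ _ => trivial
    have hfree : ¬ (cycleGraph (L + 2) ⊑ I) := by
      intro h
      obtain ⟨u, u', h1, h2, h3, h4⟩ := of_contained hL hIG h
      rw [hI, adj_light] at h2 h3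
      apply hF.2.1
      refine contained hL (u := u) (u' := u') ⟨h1, h2.1, h3.1, fun i hi => ?_⟩
      have h5 := h4 i hi
      rw [hI, adj_path hL h1 hi] at h5
      rcases h5 with h5 | h5 | h5
      · exact h5
      · exact absurd h5 h2.2
      · exact absurd h5 h3.2
    have s1 : F.edgeSet \ I.edgeSet ⊆ {s(hub, base u0)} := by
      intro e he
      induction e with
      | _ x y =>
        obtain ⟨h1, h2⟩ := he
        rw [mem_edgeSet] at h1 h2
        rcases edge_cases (hFG h1) with ⟨u, h3⟩ | ⟨u, u', i, h3, h4, h5⟩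
        · rw [h3]
          rw [← mem_edgeSet, h3, mem_edgeSet] at h1 h2
          rw [hI, adj_light] at h2
          have : u = u0 := by
            by_contra hne
            exact h2 ⟨h1, hne⟩
          rw [this]
          rfl
        · exfalso
          rw [← mem_edgeSet, h5, mem_edgeSet] at h1 h2
          apply h2
          rw [hI, adj_path hL h3 h4]
          exact Or.inl h1
    obtain ⟨h3, -⟩ := hF.no_gain hIG hfree ((Set.finite_singleton _).subset s1)
    have h4 : (⋃ e ∈ I.edgeSet \ F.edgeSet, trE e).Finite := h3.biUnion fun e _ => trE_fin e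
    have h5 : (X \ {u : U | u.1 = u0.1}).Infinite := hinf.sdiff (part_finite _)
    apply h5
    refine h4.subset ?_
    rintro u ⟨hu1, hu2⟩
    have hne : u.1 ≠ u0.1 := hu2
    -- a missing edge of the path between `u0` and `u`
    have key : ∀ v v' : U, v.1 < v'.1 → F.Adj hub (base v) → F.Adj hub (base v') →
        (v = u0 ∨ v' = u0) → v ∈ (⋃ e ∈ I.edgeSet \ F.edgeSet, trE e) ∧
          v' ∈ (⋃ e ∈ I.edgeSet \ F.edgeSet, trE e) := by
      intro v v' hv h6 h7 h8
      have h9 : ∃ i < L, ¬ F.Adj (pt L v v' i) (pt L v v' (i + 1)) := by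
        by_contra hcon
        push Not at hcon
        exact hF.2.1 (contained hL ⟨hv, h6, h7, hcon⟩)
      obtain ⟨i, hi, h10⟩ := h9
      have h11 : s(pt L v v' i, pt L v v' (i + 1)) ∈ I.edgeSet \ F.edgeSet := by
        refine ⟨?_, fun h => h10 h⟩
        rw [mem_edgeSet, hI, adj_path hL hv hi]
        exact Or.inr h8
      obtain ⟨h12, h13⟩ := mem_trE hL (u := v) (u' := v') hi
      exact ⟨Set.mem_biUnion h11 h12, Set.mem_biUnion h11 h13⟩
    rcases Nat.lt_or_gt_of_ne hne with h | h
    · exact (key u u0 h hu1 hu0 (Or.inr rfl)).1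
    · exact (key u0 u h hu0 hu1 (Or.inl rfl)).2

end Pool.Agent.R709.SM
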