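import Mathlib

/-! Strongly maximal `H`-free edge sets (problem MP_fc2b6d_co).  Edge sets `F ⊆ E(G)` are
spanning subgraphs `F ≤ G`. -/

namespace Pool.Agent.R709.SM

open SimpleGraph

/-- `F` is a strongly maximal `H`-free edge set of `G`. -/
def SMax {V W : Type} (H : SimpleGraph W) (G F : SimpleGraph V) : Prop :=
  F ≤ G ∧ ¬ (H ⊑ F) ∧ ∀ I : SimpleGraph V, I ≤ G → ¬ (H ⊑ I) →
    Cardinal.mk ↥(I.edgeSet \ F.edgeSet) ≤ Cardinal.mk ↥(F.edgeSet \ I.edgeSet)

/-- every graph `G` has a strongly maximal `H`-free edge set. -/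
def Good {W : Type} (H : SimpleGraph W) : Prop :=
  ∀ (V : Type) (G : SimpleGraph V), ∃ F : SimpleGraph V, SMax H G F

/-- the vertices of the tree with centre `none`, neighbours `some ⟨b, none⟩` (`b < D`) of the
centre, and `ℓ b` leaves `some ⟨b, some j⟩` attached to the `b`-th neighbour. -/
abbrev SpV (D : ℕ) (ℓ : Fin D → ℕ) : Type := Option ((b : Fin D) × Option (Fin (ℓ b)))

inductive SpRel (D : ℕ) (ℓ : Fin D → ℕ) : SpV D ℓ → SpV D ℓ → Prop
  | cb (b : Fin D) : SpRel D ℓ none (some ⟨b, none⟩)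
  | bl (b : Fin D) (j : Fin (ℓ b)) : SpRel D ℓ (some ⟨b, none⟩) (some ⟨b, some j⟩)

/-- the tree with centre of degree `D` whose `b`-th neighbour carries `ℓ b` leaves. -/
def Sp (D : ℕ) (ℓ : Fin D → ℕ) : SimpleGraph (SpV D ℓ) := SimpleGraph.fromRel (SpRel D ℓ)

theorem sp_adj_cb {D : ℕ} {ℓ : Fin D → ℕ} (b : Fin D) : (Sp D ℓ).Adj none (some ⟨b, none⟩) := by
  rw [Sp, fromRel_adj]
  exact ⟨by simp, Or.inl (SpRel.cb b)⟩

theorem sp_adj_bl {D : ℕ} {ℓ : Fin D → ℕ} (b : Fin D) (j : Fin (ℓ b)) :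
    (Sp D ℓ).Adj (some ⟨b, none⟩) (some ⟨b, some j⟩) := by
  rw [Sp, fromRel_adj]
  refine ⟨by simp, Or.inl (SpRel.bl b j)⟩

/-- a copy of `Sp D ℓ` with centre at `c`. -/
structure SpAt {V : Type} (D : ℕ) (ℓ : Fin D → ℕ) (F : SimpleGraph V) (c : V)
    (br : Fin D → V) (lf : ((b : Fin D) × Fin (ℓ b)) → V) : Prop where
  br_inj : Function.Injective br
  lf_inj : Function.Injective lf
  lf_ne_c : ∀ x, lf x ≠ c
  lf_ne_br : ∀ x b, lf x ≠ br b
  adj_cb : ∀ b, F.Adj c (br b)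
  adj_bl : ∀ b j, F.Adj (br b) (lf ⟨b, j⟩)

theorem SpAt.contained {V : Type} {D : ℕ} {ℓ : Fin D → ℕ} {F : SimpleGraph V} {c : V}
    {br : Fin D → V} {lf : ((b : Fin D) × Fin (ℓ b)) → V} (h : SpAt D ℓ F c br lf) :
    Sp D ℓ ⊑ F := by
  let f : SpV D ℓ → V := fun v => match v with
    | none => c
    | some ⟨b, none⟩ => br b
    | some ⟨b, some j⟩ => lf ⟨b, j⟩
  have hrel : ∀ u v, SpRel D ℓ u v → F.Adj (f u) (f v) := by
    rintro u v (⟨b⟩ | ⟨b, j⟩)
    · exact h.adj_cb b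
    · exact h.adj_bl b j
  refine ⟨⟨⟨f, ?_⟩, ?_⟩⟩
  · intro u v huv
    rw [Sp, fromRel_adj] at huv
    rcases huv.2 with h1 | h1
    · exact hrel _ _ h1
    · exact (hrel _ _ h1).symm
  · intro u v huv
    change f u = f v at huv
    rcases u with _ | ⟨b, _ | j⟩ <;> rcases v with _ | ⟨b', _ | j'⟩
    · rfl
    · exact absurd huv (h.adj_cb b').ne
    · exact absurd huv.symm (h.lf_ne_c _)
    · exact absurd huv.symm (h.adj_cb b).ne
    · have : b = b' := h.br_inj huv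
      subst this; rfl
    · exact absurd huv.symm (h.lf_ne_br _ _)
    · exact absurd huv (h.lf_ne_c _)
    · exact absurd huv (h.lf_ne_br _ _)
    · have := h.lf_inj huv
      cases this; rfl

theorem exists_spAt {V : Type} {D : ℕ} {ℓ : Fin D → ℕ} {F : SimpleGraph V}
    (h : Sp D ℓ ⊑ F) : ∃ c br lf, SpAt D ℓ F c br lf := by
  obtain ⟨φ⟩ := h
  refine ⟨φ none, fun b => φ (some ⟨b, none⟩), fun x => φ (some ⟨x.1, some x.2⟩), ?_⟩
  refine ⟨?_, ?_, ?_, ?_, ?_, ?_⟩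
  · intro b b' hb
    have := φ.injective hb
    simp only [Option.some.injEq, Sigma.mk.injEq] at this
    exact this.1
  · rintro ⟨b, j⟩ ⟨b', j'⟩ hb
    have := φ.injective hb
    simp only [Option.some.injEq, Sigma.mk.injEq] at this
    obtain ⟨rfl, h2⟩ := this
    simpa using h2
  · intro x hx
    have := φ.injective hx
    simp at this
  · intro x b hx
    have := φ.injective hx
    simp only [Option.some.injEq, Sigma.mk.injEq] at this
    obtain ⟨rfl, h2⟩ := this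
    simp at h2
  · intro b
    exact φ.toHom.map_adj (sp_adj_cb b)
  · intro b j
    exact φ.toHom.map_adj (sp_adj_bl b j)

/-- finite changes never gain. -/
theorem SMax.no_gain {V W : Type} {H : SimpleGraph W} {G F : SimpleGraph V} (h : SMax H G F)
    {I : SimpleGraph V} (hI : I ≤ G) (hfree : ¬ (H ⊑ I))
    (hfin : (F.edgeSet \ I.edgeSet).Finite) :
    (I.edgeSet \ F.edgeSet).Finite ∧
      (I.edgeSet \ F.edgeSet).ncard ≤ (F.edgeSet \ I.edgeSet).ncard := by
  have h1 := h.2.2 I hI hfree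
  have hf : Cardinal.mk ↥(F.edgeSet \ I.edgeSet) < Cardinal.aleph0 := by
    rw [Cardinal.lt_aleph0_iff_set_finite]; exact hfin
  have hg : Cardinal.mk ↥(I.edgeSet \ F.edgeSet) < Cardinal.aleph0 := lt_of_le_of_lt h1 hf
  rw [Cardinal.lt_aleph0_iff_set_finite] at hg
  refine ⟨hg, ?_⟩
  have e1 : Cardinal.mk ↥(F.edgeSet \ I.edgeSet) = ((F.edgeSet \ I.edgeSet).ncard : Cardinal) := by
    rw [← Set.cast_ncard hfin]
  have e2 : Cardinal.mk ↥(I.edgeSet \ F.edgeSet) = ((I.edgeSet \ F.edgeSet).ncard : Cardinal) := by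
    rw [← Set.cast_ncard hg]
  rw [e1, e2] at h1
  exact_mod_cast h1

/-- if `I` and `F` agree outside a region `U` of edges in which both are finite, then `F` has
at least as many edges in `U`. -/
theorem SMax.region {V W : Type} {H : SimpleGraph W} {G F : SimpleGraph V} (h : SMax H G F)
    {I : SimpleGraph V} (hI : I ≤ G) (hfree : ¬ (H ⊑ I)) (U : Set (Sym2 V))
    (hU : ∀ e ∉ U, e ∈ F.edgeSet ↔ e ∈ I.edgeSet)
    (hF : (F.edgeSet ∩ U).Finite) (hIf : (I.edgeSet ∩ U).Finite) :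
    (I.edgeSet ∩ U).ncard ≤ (F.edgeSet ∩ U).ncard := by
  have s1 : F.edgeSet \ I.edgeSet = (F.edgeSet ∩ U) \ (I.edgeSet ∩ U) := by
    ext e
    by_cases he : e ∈ U
    · simp [he]
    · have := hU e he
      simp only [Set.mem_sdiff, Set.mem_inter_iff, he, and_false, not_false_eq_true, and_true]
      tauto
  have s2 : I.edgeSet \ F.edgeSet = (I.edgeSet ∩ U) \ (F.edgeSet ∩ U) := by
    ext e
    by_cases he : e ∈ U
    · simp [he]
    · have := hU e he
      simp only [Set.mem_sdiff, Set.mem_inter_iff, he, and_false, not_false_eq_true, and_true]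
      tauto
  have hfin : (F.edgeSet \ I.edgeSet).Finite := by
    rw [s1]; exact hF.subset Set.sdiff_subset
  have h2 := (h.no_gain hI hfree hfin).2
  rw [s1, s2] at h2
  have a1 := Set.ncard_sdiff_add_ncard_of_subset (s := (F.edgeSet ∩ U) ∩ (I.edgeSet ∩ U)) (t := F.edgeSet ∩ U)
    Set.inter_subset_left hF
  have a2 := Set.ncard_sdiff_add_ncard_of_subset (s := (F.edgeSet ∩ U) ∩ (I.edgeSet ∩ U)) (t := I.edgeSet ∩ U)
    Set.inter_subset_right hIf
  have b1 : (F.edgeSet ∩ U) \ ((F.edgeSet ∩ U) ∩ (I.edgeSet ∩ U)) =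
      (F.edgeSet ∩ U) \ (I.edgeSet ∩ U) := by
    ext e; simp only [Set.mem_sdiff, Set.mem_inter_iff]; tauto
  have b2 : (I.edgeSet ∩ U) \ ((F.edgeSet ∩ U) ∩ (I.edgeSet ∩ U)) =
      (I.edgeSet ∩ U) \ (F.edgeSet ∩ U) := by
    ext e; simp only [Set.mem_sdiff, Set.mem_inter_iff]; tauto
  rw [b1] at a1
  rw [b2] at a2
  omega

end Pool.Agent.R709.SM
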