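import Pool.Agent.R709.SM.Stm

/-! Piece SM-D: reduction of a disconnected graph to one component. -/

namespace Pool.Agent.R709.SM

open SimpleGraph

namespace DiscAux

/-- disjoint sum -/
def su {α β : Type} (X : SimpleGraph α) (Y : SimpleGraph β) : SimpleGraph (α ⊕ β) where
  Adj x y := match x, y with
    | Sum.inl a, Sum.inl b => X.Adj a b
    | Sum.inr a, Sum.inr b => Y.Adj a b
    | _, _ => False
  symm := ⟨by
    rintro (a | a) (b | b) h
    · exact (show X.Adj a b from h).symm
    · exact h
    · exact h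
    · exact (show Y.Adj a b from h).symm⟩
  loopless := ⟨by
    rintro (a | a) h
    · exact X.ne_of_adj h rfl
    · exact Y.ne_of_adj h rfl⟩

variable {α β : Type}

theorem su_mono {X X' : SimpleGraph α} {Y Y' : SimpleGraph β} (h1 : X ≤ X') (h2 : Y ≤ Y') :
    su X Y ≤ su X' Y' := by
  rintro (a | a) (b | b) h
  · exact h1 h
  · exact h
  · exact h
  · exact h2 h

theorem eq_su {F : SimpleGraph (α ⊕ β)} {X : SimpleGraph α} {Y : SimpleGraph β}
    (h : F ≤ su X Y) : ∃ X' Y', X' ≤ X ∧ Y' ≤ Y ∧ F = su X' Y' := by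
  refine ⟨F.comap Sum.inl, F.comap Sum.inr, fun a b hab => h hab, fun a b hab => h hab, ?_⟩
  ext x y
  rcases x with a | a <;> rcases y with b | b
  · exact Iff.rfl
  · exact ⟨fun h' => h h', fun h' => h'.elim⟩
  · exact ⟨fun h' => h h', fun h' => h'.elim⟩
  · exact Iff.rfl

theorem mem_inl {S : Set (Sym2 α)} {x y : α} :
    s(Sum.inl x, Sum.inl y) ∈ Sym2.map (Sum.inl : α → α ⊕ β) '' S ↔ s(x, y) ∈ S := by
  show Sym2.map Sum.inl s(x, y) ∈ _ ↔ _
  exact (Sym2.map.injective Sum.inl_injective).mem_set_image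

theorem mem_inr {S : Set (Sym2 β)} {x y : β} :
    s(Sum.inr x, Sum.inr y) ∈ Sym2.map (Sum.inr : β → α ⊕ β) '' S ↔ s(x, y) ∈ S := by
  show Sym2.map Sum.inr s(x, y) ∈ _ ↔ _
  exact (Sym2.map.injective Sum.inr_injective).mem_set_image

theorem not_mem_inl {S : Set (Sym2 α)} {x : α ⊕ β} {y : β} :
    s(x, Sum.inr y) ∉ Sym2.map (Sum.inl : α → α ⊕ β) '' S := by
  rintro ⟨e, -, he⟩
  induction e using Sym2.ind with
  | _ u w =>
    have : s((Sum.inl u : α ⊕ β), Sum.inl w) = s(x, Sum.inr y) := he
    rw [Sym2.eq_iff] at this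
    simp at this

theorem not_mem_inr {S : Set (Sym2 β)} {x : α ⊕ β} {y : α} :
    s(Sum.inl y, x) ∉ Sym2.map (Sum.inr : β → α ⊕ β) '' S := by
  rintro ⟨e, -, he⟩
  induction e using Sym2.ind with
  | _ u w =>
    have : s((Sum.inr u : α ⊕ β), Sum.inr w) = s(Sum.inl y, x) := he
    rw [Sym2.eq_iff] at this
    simp at this

theorem edge_diff (X X' : SimpleGraph α) (Y Y' : SimpleGraph β) :
    Cardinal.mk ↥((su X Y).edgeSet \ (su X' Y').edgeSet) =
      Cardinal.mk ↥(X.edgeSet \ X'.edgeSet) + Cardinal.mk ↥(Y.edgeSet \ Y'.edgeSet) := by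
  have h : (su X Y).edgeSet \ (su X' Y').edgeSet =
      (Sym2.map Sum.inl '' (X.edgeSet \ X'.edgeSet)) ∪
        (Sym2.map Sum.inr '' (Y.edgeSet \ Y'.edgeSet)) := by
    ext e
    induction e using Sym2.ind with
    | _ x y =>
      rcases x with x | x <;> rcases y with y | y
      · rw [Set.mem_union, mem_inl]
        constructor
        · intro h; exact Or.inl h
        · rintro (h | h)
          · exact h
          · exact absurd h not_mem_inr
      · constructor
        · intro h; exact h.1.elim
        · rintro (h | h)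
          · exact absurd h not_mem_inl
          · exact absurd h not_mem_inr
      · rw [Sym2.eq_swap]
        constructor
        · intro h; exact h.1.elim
        · rintro (h | h)
          · exact absurd h not_mem_inl
          · exact absurd h not_mem_inr
      · rw [Set.mem_union, mem_inr]
        constructor
        · intro h; exact Or.inr h
        · rintro (h | h)
          · exact absurd h not_mem_inl
          · exact h
  have hdis : Disjoint (Sym2.map (Sum.inl : α → α ⊕ β) '' (X.edgeSet \ X'.edgeSet))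
      (Sym2.map (Sum.inr : β → α ⊕ β) '' (Y.edgeSet \ Y'.edgeSet)) := by
    rw [Set.disjoint_left]
    intro e h1 h2
    induction e using Sym2.ind with
    | _ x y =>
      rcases x with x | x
      · exact not_mem_inr h2
      · rw [Sym2.eq_swap] at h1
        exact not_mem_inl h1
  rw [h, Cardinal.mk_union_of_disjoint hdis,
    Cardinal.mk_image_eq (Sym2.map.injective Sum.inl_injective),
    Cardinal.mk_image_eq (Sym2.map.injective Sum.inr_injective)]

theorem const_of_conn {M : SimpleGraph α} (hM : M.Connected) (c : α → β)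
    (h : ∀ a b, M.Adj a b → c a = c b) (a b : α) : c a = c b := by
  obtain ⟨w⟩ := hM.preconnected a b
  induction w with
  | nil => rfl
  | cons hadj _ ih => exact (h _ _ hadj).trans ih

theorem sym2_le (α : Type) [Infinite α] : Cardinal.mk (Sym2 α) ≤ Cardinal.mk α := by
  have h1 : Cardinal.mk (Sym2 α) ≤ Cardinal.mk (α × α) := by
    apply Cardinal.mk_le_of_surjective (f := fun p : α × α => s(p.1, p.2))
    intro e
    induction e using Sym2.ind with
    | _ x y => exact ⟨(x, y), rfl⟩
  rw [Cardinal.mk_prod, Cardinal.lift_id,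
    Cardinal.mul_eq_self (Cardinal.aleph0_le_mk α)] at h1
  exact h1

variable {W : Type} {H : SimpleGraph W}

def Iso (C C' : H.ConnectedComponent) : Prop :=
  Nonempty ((H.induce C'.supp) ≃g (H.induce C.supp))

abbrev I0 (C : H.ConnectedComponent) : Type := {C' : H.ConnectedComponent // Iso C C'}

abbrev RW (C : H.ConnectedComponent) : Type := {w : W // ¬ Iso C (H.connectedComponentMk w)}

/-- copies of the rest -/
def Rn (K' : Type) (C : H.ConnectedComponent) : SimpleGraph (K' × RW C) where
  Adj p q := p.1 = q.1 ∧ H.Adj p.2.1 q.2.1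
  symm := ⟨fun _ _ h => ⟨h.1.symm, h.2.symm⟩⟩
  loopless := ⟨fun _ h => H.ne_of_adj h.2 rfl⟩

theorem assemble {C : H.ConnectedComponent} {K' : Type} {X : SimpleGraph α}
    {D : SimpleGraph (K' × RW C)} (k' : K')
    (hk : ∀ r r' : RW C, H.Adj r.1 r'.1 → D.Adj (k', r) (k', r'))
    (f : I0 C → C.supp → α) (hinj : ∀ i i' a a', f i a = f i' a' → i = i' ∧ a = a')
    (hadj : ∀ i a b, (H.induce C.supp).Adj a b → X.Adj (f i a) (f i b)) :
    H ⊑ su X D := by
  classical
  let e : ∀ i : I0 C, (H.induce i.1.supp) ≃g (H.induce C.supp) := fun i => i.2.some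
  let g : W → α ⊕ (K' × RW C) := fun w =>
    if h : Iso C (H.connectedComponentMk w) then
      Sum.inl (f ⟨H.connectedComponentMk w, h⟩ (e ⟨_, h⟩ ⟨w, rfl⟩))
    else Sum.inr (k', ⟨w, h⟩)
  have g1 : ∀ (i : I0 C) (w : W) (hw : w ∈ i.1.supp), g w = Sum.inl (f i (e i ⟨w, hw⟩)) := by
    rintro ⟨C', hC'⟩ w hw
    have h : H.connectedComponentMk w = C' := hw
    subst h
    exact dif_pos hC'
  have g2 : ∀ w (h : ¬ Iso C (H.connectedComponentMk w)), g w = Sum.inr (k', ⟨w, h⟩) :=
    fun w h => dif_neg h
  refine ⟨⟨⟨g, ?_⟩, ?_⟩⟩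
  · intro w w' hww
    have hc : H.connectedComponentMk w' = H.connectedComponentMk w :=
      ConnectedComponent.sound hww.symm.reachable
    by_cases h : Iso C (H.connectedComponentMk w)
    · rw [g1 ⟨_, h⟩ w rfl, g1 ⟨_, h⟩ w' hc]
      exact hadj _ _ _ ((e ⟨_, h⟩).map_adj_iff.2 hww)
    · have h' : ¬ Iso C (H.connectedComponentMk w') := by rw [hc]; exact h
      rw [g2 w h, g2 w' h']
      exact hk _ _ hww
  · intro w w' hww
    change g w = g w' at hww
    by_cases h : Iso C (H.connectedComponentMk w)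
    · by_cases h' : Iso C (H.connectedComponentMk w')
      · rw [g1 ⟨_, h⟩ w rfl, g1 ⟨_, h'⟩ w' rfl, Sum.inl.injEq] at hww
        obtain ⟨h1, h2⟩ := hinj _ _ _ _ hww
        have h3 : H.connectedComponentMk w' = H.connectedComponentMk w :=
          (congrArg Subtype.val h1).symm
        have h4 := g1 ⟨_, h⟩ w' h3
        rw [g1 ⟨_, h'⟩ w' rfl, Sum.inl.injEq] at h4
        have h5 := (hinj _ _ _ _ (hww.trans h4)).2
        have h6 := (e ⟨_, h⟩).injective h5
        exact congrArg Subtype.val h6
      · rw [g1 ⟨_, h⟩ w rfl, g2 w' h'] at hww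
        exact absurd hww Sum.inl_ne_inr
    · by_cases h' : Iso C (H.connectedComponentMk w')
      · rw [g1 ⟨_, h'⟩ w' rfl, g2 w h] at hww
        exact absurd hww Sum.inr_ne_inl
      · rw [g2 w h, g2 w' h', Sum.inr.injEq, Prod.mk.injEq] at hww
        exact congrArg Subtype.val hww.2

theorem extract {C : H.ConnectedComponent} {K' : Type}
    (hmax : ∀ C' : H.ConnectedComponent, (H.induce C.supp) ⊑ (H.induce C'.supp) → Iso C C')
    {A : SimpleGraph α} {B : SimpleGraph β} {D : SimpleGraph (K' × RW C)} (hD : D ≤ Rn K' C)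
    (h : H ⊑ su (su A B) D) :
    ∃ f : I0 C → C.supp → α ⊕ β, (∀ i i' a a', f i a = f i' a' → i = i' ∧ a = a') ∧
      (∀ i a b, (H.induce C.supp).Adj a b → (su A B).Adj (f i a) (f i b)) ∧
      ∀ i, (∀ a, ∃ x, f i a = Sum.inl x) ∨ (∀ a, ∃ y, f i a = Sum.inr y) := by
  classical
  obtain ⟨φ⟩ := h
  have hconn : (H.induce C.supp).Connected := C.connected_toSimpleGraph
  obtain ⟨a0⟩ := hconn.nonempty
  let e : ∀ i : I0 C, (H.induce i.1.supp) ≃g (H.induce C.supp) := fun i => i.2.some
  let g : I0 C → C.supp → (α ⊕ β) ⊕ (K' × RW C) := fun i a => φ ((e i).symm a).1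
  have ginj : ∀ i i' a a', g i a = g i' a' → i = i' ∧ a = a' := by
    intro i i' a a' hg
    have h1 : ((e i).symm a).1 = ((e i').symm a').1 := φ.injective hg
    have h2 : i = i' := by
      apply Subtype.ext
      have e1 : H.connectedComponentMk ((e i).symm a).1 = i.1 := ((e i).symm a).2
      have e2 : H.connectedComponentMk ((e i').symm a').1 = i'.1 := ((e i').symm a').2
      rw [← e1, ← e2, h1]
    subst h2
    exact ⟨rfl, (e i).symm.injective (Subtype.ext h1)⟩
  have gadj : ∀ i a b, (H.induce C.supp).Adj a b → (su (su A B) D).Adj (g i a) (g i b) := by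
    intro i a b hab
    have h1 : (H.induce i.1.supp).Adj ((e i).symm a) ((e i).symm b) :=
      (e i).symm.map_adj_iff.2 hab
    exact φ.toHom.map_adj h1
  -- no copy in the rest
  have hleft : ∀ i a, ∃ x, g i a = Sum.inl x := by
    intro i
    let c1 : (α ⊕ β) ⊕ (K' × RW C) → Option K' := fun t => match t with
      | Sum.inl _ => none
      | Sum.inr (k, _) => some k
    have hc1 : ∀ s t, (su (su A B) D).Adj s t → c1 s = c1 t := by
      rintro (s | ⟨s, r⟩) (t | ⟨t, r'⟩) hst
      · rfl
      · exact hst.elim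
      · exact hst.elim
      · have := (hD hst).1
        exact congrArg some this
    have hconst : ∀ a b, c1 (g i a) = c1 (g i b) :=
      const_of_conn hconn (fun a => c1 (g i a)) fun a b hab => hc1 _ _ (gadj i a b hab)
    by_contra hcon
    push Not at hcon
    obtain ⟨a1, ha1⟩ := hcon
    have hr : ∀ a, ∃ k r, g i a = Sum.inr (k, r) := by
      intro a
      rcases h2 : g i a with x | ⟨k, r⟩
      · exfalso
        rcases h3 : g i a1 with y | ⟨k, r⟩
        · exact ha1 y h3
        · have := hconst a a1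
          rw [h2, h3] at this
          exact absurd this (by simp [c1])
      · exact ⟨k, r, rfl⟩
    choose kk rr hkr using hr
    have hradj : ∀ a b, (H.induce C.supp).Adj a b → H.Adj (rr a).1 (rr b).1 := by
      intro a b hab
      have := gadj i a b hab
      rw [hkr a, hkr b] at this
      exact (hD this).2
    have hkc : ∀ a b, kk a = kk b := by
      intro a b
      have := hconst a b
      rw [hkr a, hkr b] at this
      simpa [c1] using this
    have hcomp : ∀ a b, H.connectedComponentMk (rr a).1 = H.connectedComponentMk (rr b).1 :=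
      const_of_conn hconn (fun a => H.connectedComponentMk (rr a).1) fun a b hab =>
        ConnectedComponent.sound (hradj a b hab).reachable
    apply (rr a0).2
    apply hmax
    refine ⟨⟨⟨fun a => ⟨(rr a).1, hcomp a a0⟩, ?_⟩, ?_⟩⟩
    · intro a b hab
      exact hradj a b hab
    · intro a b hab
      have h4 : (rr a).1 = (rr b).1 :=
        congrArg (fun z : ((H.connectedComponentMk (rr a0).1).supp) => (z : W)) hab
      have h5 : rr a = rr b := Subtype.ext h4
      have h6 : g i a = g i b := by rw [hkr a, hkr b, hkc a b, h5]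
      exact (ginj i i a b h6).2
  choose f hf using hleft
  refine ⟨f, ?_, ?_, ?_⟩
  · intro i i' a a' h1
    apply ginj
    rw [hf, hf, h1]
  · intro i a b hab
    have := gadj i a b hab
    rw [hf, hf] at this
    exact this
  · intro i
    let c2 : α ⊕ β → Bool := fun t => t.isLeft
    have hconst : ∀ a b, c2 (f i a) = c2 (f i b) := by
      refine const_of_conn hconn (fun a => c2 (f i a)) fun a b hab => ?_
      have := gadj i a b hab
      rw [hf, hf] at this
      rcases h1 : f i a with x | x <;> rcases h2 : f i b with y | y <;> rw [h1, h2] at this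
      · rfl
      · exact this.elim
      · exact this.elim
      · rfl
    rcases h0 : f i a0 with x0 | x0
    · left
      intro a
      have := hconst a a0
      rcases h1 : f i a with x | x
      · exact ⟨x, rfl⟩
      · rw [h0, h1] at this
        exact absurd this (by simp [c2])
    · right
      intro a
      have := hconst a a0
      rcases h1 : f i a with x | x
      · rw [h0, h1] at this
        exact absurd this (by simp [c2])
      · exact ⟨x, rfl⟩

theorem clique {K : Type} [Infinite K] (B : SimpleGraph K)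
    (h : ∀ t : K, Cardinal.mk ↥{b | b ≠ t ∧ ¬ B.Adj t b} < Cardinal.mk K) (n : ℕ) :
    ∃ s : Finset K, s.card = n ∧ ∀ a ∈ s, ∀ b ∈ s, a ≠ b → B.Adj a b := by
  classical
  have hU : ∀ s : Finset K, Cardinal.mk ↥{b | ∃ a ∈ s, b = a ∨ ¬ B.Adj a b} < Cardinal.mk K := by
    intro s
    induction s using Finset.induction_on with
    | empty =>
      have : {b : K | ∃ a ∈ (∅ : Finset K), b = a ∨ ¬ B.Adj a b} = ∅ := by
        ext b; simp
      rw [this, Cardinal.mk_emptyCollection]
      exact Cardinal.aleph0_pos.trans_le (Cardinal.aleph0_le_mk K)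
    | insert a s ha ih =>
      have hsub : {b | ∃ a' ∈ insert a s, b = a' ∨ ¬ B.Adj a' b} ⊆
          ({a} ∪ {b | b ≠ a ∧ ¬ B.Adj a b}) ∪ {b | ∃ a ∈ s, b = a ∨ ¬ B.Adj a b} := by
        rintro b ⟨a', ha', hb⟩
        rw [Finset.mem_insert] at ha'
        rcases ha' with rfl | ha'
        · left
          by_cases hba : b = a'
          · exact Or.inl hba
          · right
            rcases hb with hb | hb
            · exact absurd hb hba
            · exact ⟨hba, hb⟩
        · exact Or.inr ⟨a', ha', hb⟩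
      refine lt_of_le_of_lt ((Cardinal.mk_le_mk_of_subset hsub).trans
        (Cardinal.mk_union_le _ _)) ?_
      refine Cardinal.add_lt_of_lt (Cardinal.aleph0_le_mk K)
        (lt_of_le_of_lt (Cardinal.mk_union_le _ _)
          (Cardinal.add_lt_of_lt (Cardinal.aleph0_le_mk K) ?_ (h a))) ih
      rw [Cardinal.mk_singleton]
      exact Cardinal.one_lt_aleph0.trans_le (Cardinal.aleph0_le_mk K)
  induction n with
  | zero => exact ⟨∅, rfl, by simp⟩
  | succ n ih =>
    obtain ⟨s, hs, hcl⟩ := ih
    have hne : {b | ∃ a ∈ s, b = a ∨ ¬ B.Adj a b} ≠ Set.univ := by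
      intro h1
      have h2 := hU s
      rw [h1, Cardinal.mk_univ] at h2
      exact lt_irrefl _ h2
    rw [Set.ne_univ_iff_exists_notMem] at hne
    obtain ⟨b, hb⟩ := hne
    have hb' : ∀ a ∈ s, b ≠ a ∧ B.Adj a b := by
      intro a ha
      by_contra hcon
      apply hb
      refine ⟨a, ha, ?_⟩
      by_cases hba : b = a
      · exact Or.inl hba
      · exact Or.inr fun h3 => hcon ⟨hba, h3⟩
    refine ⟨insert b s, ?_, ?_⟩
    · rw [Finset.card_insert_of_notMem, hs]
      intro hbs
      exact (hb' b hbs).1 rfl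
    · intro x hx y hy hxy
      rw [Finset.mem_insert] at hx hy
      rcases hx with rfl | hx <;> rcases hy with rfl | hy
      · exact absurd rfl hxy
      · exact (hb' y hy).2.symm
      · exact (hb' x hx).2
      · exact hcl x hx y hy hxy

/-- all edges at `t` -/
def star {K : Type} (t : K) : SimpleGraph K where
  Adj a b := a ≠ b ∧ (a = t ∨ b = t)
  symm := ⟨fun _ _ h => ⟨h.1.symm, h.2.symm⟩⟩
  loopless := ⟨fun _ h => h.1 rfl⟩

end DiscAux

open DiscAux in
theorem disc : StmDisc := by
  intro W _ H C hedge hmax hbad hgood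
  obtain ⟨u0, v0, hu0, huv0⟩ := hedge
  apply hbad
  intro V G
  have hv0 : v0 ∈ C.supp := by
    have h1 : H.connectedComponentMk u0 = C := hu0
    have h2 : H.connectedComponentMk v0 = H.connectedComponentMk u0 :=
      ConnectedComponent.sound huv0.symm.reachable
    exact h2.trans h1
  obtain ⟨ea, eb, heab⟩ : ∃ a b : C.supp, (H.induce C.supp).Adj a b :=
    ⟨⟨u0, hu0⟩, ⟨v0, hv0⟩, huv0⟩
  obtain ⟨K, hKinf, hVK⟩ : ∃ K : Type, Infinite K ∧ Cardinal.mk (V ⊕ ℕ) < Cardinal.mk K :=
    ⟨Set (V ⊕ ℕ), inferInstance, by rw [Cardinal.mk_set]; exact Cardinal.cantor _⟩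
  obtain ⟨K', hKK'⟩ : ∃ K' : Type, Cardinal.mk K < Cardinal.mk K' :=
    ⟨Set K, by rw [Cardinal.mk_set]; exact Cardinal.cantor _⟩
  obtain ⟨F', hF'G, hF'free, hF'max⟩ := hgood _ (su (su G (⊤ : SimpleGraph K)) (Rn K' C))
  obtain ⟨X', D0, hX', hD0, rfl⟩ := eq_su hF'G
  obtain ⟨A0, B0, hA0, -, rfl⟩ := eq_su hX'
  have hmx : ∀ (A : SimpleGraph V) (B : SimpleGraph K) (D : SimpleGraph (K' × RW C)),
      A ≤ G → D ≤ Rn K' C → ¬ (H ⊑ su (su A B) D) →
      Cardinal.mk ↥(A.edgeSet \ A0.edgeSet) + Cardinal.mk ↥(B.edgeSet \ B0.edgeSet) +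
        Cardinal.mk ↥(D.edgeSet \ D0.edgeSet) ≤
      Cardinal.mk ↥(A0.edgeSet \ A.edgeSet) + Cardinal.mk ↥(B0.edgeSet \ B.edgeSet) +
        Cardinal.mk ↥(D0.edgeSet \ D.edgeSet) := by
    intro A B D hA hD hfree
    have := hF'max (su (su A B) D) (su_mono (su_mono hA le_top) hD) hfree
    rw [edge_diff, edge_diff, edge_diff, edge_diff] at this
    exact this
  have hVe : ∀ S : Set (Sym2 V), Cardinal.mk ↥S ≤ Cardinal.mk (V ⊕ ℕ) := fun S =>
    (Cardinal.mk_set_le S).trans ((Cardinal.mk_le_of_injective
      (Sym2.map.injective (Sum.inl_injective (α := V) (β := ℕ)))).trans (sym2_le (V ⊕ ℕ)))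
  have hKe : ∀ S : Set (Sym2 K), Cardinal.mk ↥S ≤ Cardinal.mk K := fun S =>
    (Cardinal.mk_set_le S).trans (sym2_le K)
  have hz : ∀ {γ : Type} (P Q : SimpleGraph γ), P ≤ Q →
      Cardinal.mk ↥(P.edgeSet \ Q.edgeSet) = 0 := by
    intro γ P Q hPQ
    have : P.edgeSet \ Q.edgeSet = ∅ := by
      rw [Set.sdiff_eq_empty]
      exact SimpleGraph.edgeSet_mono hPQ
    rw [this, Cardinal.mk_emptyCollection]
  let C0 : I0 C := ⟨C, ⟨SimpleGraph.Iso.refl⟩⟩
  -- a complete copy of the rest
  obtain ⟨k', hk'⟩ : ∃ k' : K', ∀ r r' : RW C, H.Adj r.1 r'.1 → D0.Adj (k', r) (k', r') := by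
    by_contra hcon
    push Not at hcon
    choose r r' hr hr' using hcon
    have hfree : ¬ H ⊑ su (su (⊥ : SimpleGraph V) (⊥ : SimpleGraph K)) (Rn K' C) := by
      intro h
      obtain ⟨f, -, hadj, -⟩ := extract hmax le_rfl h
      have := hadj C0 ea eb heab
      rcases h1 : f C0 ea with x | x <;> rcases h2 : f C0 eb with y | y <;>
        rw [h1, h2] at this <;> exact this
    have h1 := hmx ⊥ ⊥ (Rn K' C) bot_le le_rfl hfree
    have h2 : Cardinal.mk K' ≤ Cardinal.mk ↥((Rn K' C).edgeSet \ D0.edgeSet) := by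
      apply Cardinal.mk_le_of_injective (f := fun k =>
        (⟨s((k, r k), (k, r' k)), ⟨⟨rfl, hr k⟩, hr' k⟩⟩ :
          ↥((Rn K' C).edgeSet \ D0.edgeSet)))
      intro a b hab
      have h3 : s((a, r a), (a, r' a)) = s((b, r b), (b, r' b)) := congrArg Subtype.val hab
      rw [Sym2.eq_iff] at h3
      rcases h3 with ⟨h3, -⟩ | ⟨h3, -⟩
      · exact congrArg Prod.fst h3
      · exact congrArg Prod.fst h3
    have h3 : Cardinal.mk ↥(A0.edgeSet \ (⊥ : SimpleGraph V).edgeSet) +
        Cardinal.mk ↥(B0.edgeSet \ (⊥ : SimpleGraph K).edgeSet) +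
        Cardinal.mk ↥(D0.edgeSet \ (Rn K' C).edgeSet) ≤ Cardinal.mk K := by
      rw [hz D0 _ hD0, add_zero]
      refine (add_le_add ((hVe _).trans hVK.le) (hKe _)).trans ?_
      rw [Cardinal.add_eq_self (Cardinal.aleph0_le_mk K)]
    have h4 : Cardinal.mk K' ≤ Cardinal.mk K :=
      (h2.trans le_add_self).trans (h1.trans h3)
    exact absurd hKK' (not_lt.2 h4)
  have hno : ∀ f : I0 C → C.supp → V ⊕ K,
      (∀ i i' a a', f i a = f i' a' → i = i' ∧ a = a') →
      ¬ ∀ i a b, (H.induce C.supp).Adj a b → (su A0 B0).Adj (f i a) (f i b) :=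
    fun f h1 h2 => hF'free (assemble k' hk' f h1 h2)
  have hnoK : ∀ f : I0 C → C.supp → K,
      (∀ i i' a a', f i a = f i' a' → i = i' ∧ a = a') →
      ¬ ∀ i a b, (H.induce C.supp).Adj a b → B0.Adj (f i a) (f i b) := by
    intro f h1 h2
    exact hno (fun i a => Sum.inr (f i a)) (fun i i' a a' h => h1 i i' a a' (Sum.inr_injective h))
      h2
  -- a packing of all but one of the copies
  have hpack : ∃ f : {i : I0 C // i ≠ C0} → C.supp → K,
      (∀ i i' a a', f i a = f i' a' → i = i' ∧ a = a') ∧
      ∀ i a b, (H.induce C.supp).Adj a b → B0.Adj (f i a) (f i b) := by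
    by_contra hcon
    have hstar : ∀ t : K, Cardinal.mk ↥{b | b ≠ t ∧ ¬ B0.Adj t b} < Cardinal.mk K := by
      intro t
      have hfree : ¬ H ⊑ su (su (⊥ : SimpleGraph V) (B0 ⊔ star t)) D0 := by
        intro h
        obtain ⟨f, hinj, hadj, hcl⟩ := extract hmax hD0 h
        have hK : ∀ i a, ∃ y, f i a = Sum.inr y := by
          intro i
          rcases hcl i with h1 | h1
          · exfalso
            obtain ⟨x, hx⟩ := h1 ea
            obtain ⟨y, hy⟩ := h1 eb
            have := hadj i ea eb heab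
            rw [hx, hy] at this
            exact this
          · exact h1
        choose g hg using hK
        have ginj : ∀ i i' a a', g i a = g i' a' → i = i' ∧ a = a' := by
          intro i i' a a' h1
          apply hinj
          rw [hg, hg, h1]
        have gadj : ∀ i a b, (H.induce C.supp).Adj a b → (B0 ⊔ star t).Adj (g i a) (g i b) := by
          intro i a b hab
          have := hadj i a b hab
          rw [hg, hg] at this
          exact this
        obtain ⟨i0, hi0⟩ : ∃ i0 : I0 C, ∀ i, i ≠ i0 → ∀ a, g i a ≠ t := by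
          by_cases h1 : ∃ i a, g i a = t
          · obtain ⟨i, a, hia⟩ := h1
            exact ⟨i, fun i' hi' a' h' => hi' (ginj _ _ _ _ (h'.trans hia.symm)).1⟩
          · push Not at h1
            exact ⟨C0, fun i _ a => h1 i a⟩
        apply hcon
        classical
        refine ⟨fun i a => g (Equiv.swap i0 C0 i.1) a, ?_, ?_⟩
        · intro i i' a a' h1
          have h2 := ginj _ _ _ _ h1
          exact ⟨Subtype.ext ((Equiv.swap i0 C0).injective h2.1), h2.2⟩
        · intro i a b hab
          have hne : Equiv.swap i0 C0 i.1 ≠ i0 := by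
            intro h1
            apply i.2
            have h2 : Equiv.swap i0 C0 i.1 = Equiv.swap i0 C0 C0 := by
              rw [h1, Equiv.swap_apply_right]
            exact (Equiv.swap i0 C0).injective h2
          rcases gadj _ a b hab with h1 | ⟨-, h1 | h1⟩
          · exact h1
          · exact absurd h1 (hi0 _ hne a)
          · exact absurd h1 (hi0 _ hne b)
      have h1 := hmx ⊥ (B0 ⊔ star t) D0 bot_le hD0 hfree
      rw [hz D0 D0 le_rfl, hz B0 (B0 ⊔ star t) le_sup_left, hz ⊥ A0 bot_le, zero_add, add_zero,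
        add_zero, add_zero] at h1
      have h2 : Cardinal.mk ↥{b | b ≠ t ∧ ¬ B0.Adj t b} ≤
          Cardinal.mk ↥((B0 ⊔ star t).edgeSet \ B0.edgeSet) := by
        apply Cardinal.mk_le_of_injective (f := fun b : ↥{b | b ≠ t ∧ ¬ B0.Adj t b} =>
          (⟨s(t, b.1), ⟨Or.inr ⟨b.2.1.symm, Or.inl rfl⟩, b.2.2⟩⟩ :
            ↥((B0 ⊔ star t).edgeSet \ B0.edgeSet)))
        intro a b hab
        have h3 : s(t, a.1) = s(t, b.1) := congrArg Subtype.val hab
        rw [Sym2.eq_iff] at h3
        rcases h3 with ⟨-, h3⟩ | ⟨h3, h4⟩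
        · exact Subtype.ext h3
        · exact absurd h4 a.2.1
      exact lt_of_le_of_lt ((h2.trans h1).trans (hVe _)) hVK
    haveI : Finite H.ConnectedComponent := Quot.finite _
    haveI : Finite (I0 C) := Subtype.finite
    obtain ⟨s, hs, hcl⟩ := clique B0 hstar (Nat.card (I0 C × C.supp))
    have hcard : Nat.card (I0 C × C.supp) = Nat.card s := by
      rw [Nat.card_eq_fintype_card (α := s), Fintype.card_coe, hs]
    obtain ⟨φ⟩ := Finite.card_eq.1 hcard
    refine hnoK (fun i a => (φ (i, a)).1) ?_ ?_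
    · intro i i' a a' h1
      have h2 := φ.injective (Subtype.ext h1)
      rw [Prod.mk.injEq] at h2
      exact h2
    · intro i a b hab
      refine hcl _ (φ (i, a)).2 _ (φ (i, b)).2 ?_
      intro h1
      have h2 := φ.injective (Subtype.ext h1)
      rw [Prod.mk.injEq] at h2
      exact (H.induce C.supp).ne_of_adj hab h2.2
  obtain ⟨p, hpinj, hpadj⟩ := hpack
  refine ⟨A0, hA0, ?_, ?_⟩
  · rintro ⟨φ⟩
    classical
    refine hno (fun i a => if h : i = C0 then Sum.inl (φ a) else Sum.inr (p ⟨i, h⟩ a)) ?_ ?_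
    · intro i i' a a' h1
      by_cases h : i = C0
      · by_cases h' : i' = C0
        · simp only [dif_pos h, dif_pos h', Sum.inl.injEq] at h1
          exact ⟨h.trans h'.symm, φ.injective h1⟩
        · simp only [dif_pos h, dif_neg h'] at h1
          exact absurd h1 Sum.inl_ne_inr
      · by_cases h' : i' = C0
        · simp only [dif_neg h, dif_pos h'] at h1
          exact absurd h1 Sum.inr_ne_inl
        · simp only [dif_neg h, dif_neg h', Sum.inr.injEq] at h1
          have h2 := hpinj _ _ _ _ h1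
          exact ⟨congrArg Subtype.val h2.1, h2.2⟩
    · intro i a b hab
      by_cases h : i = C0
      · simp only [dif_pos h]
        exact φ.toHom.map_adj hab
      · simp only [dif_neg h]
        exact hpadj _ a b hab
  · intro J hJ hJfree
    have hfree : ¬ H ⊑ su (su J B0) D0 := by
      intro h
      obtain ⟨f, hinj, hadj, hcl⟩ := extract hmax hD0 h
      have hK : ∀ i a, ∃ y, f i a = Sum.inr y := by
        intro i
        rcases hcl i with h1 | h1
        · exfalso
          choose g hg using h1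
          apply hJfree
          refine ⟨⟨⟨g, ?_⟩, ?_⟩⟩
          · intro a b hab
            have := hadj i a b hab
            rw [hg, hg] at this
            exact this
          · intro a b hab
            have h2 : f i a = f i b := by
              rw [hg, hg]
              exact congrArg Sum.inl hab
            exact (hinj _ _ _ _ h2).2
        · exact h1
      choose g hg using hK
      refine hnoK g ?_ ?_
      · intro i i' a a' h1
        apply hinj
        rw [hg, hg, h1]
      · intro i a b hab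
        have := hadj i a b hab
        rw [hg, hg] at this
        exact this
    have h1 := hmx J B0 D0 hJ hD0 hfree
    rw [hz B0 B0 le_rfl, hz D0 D0 le_rfl, add_zero, add_zero, add_zero, add_zero] at h1
    exact h1

end Pool.Agent.R709.SM
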