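import Pool.Agent.R709.SM.Stm4

/-! SM-R2: an edge whose ends do not separate (project SM, problem MP_fc2b6d_co). -/

namespace Pool.Agent.R709.SM

open SimpleGraph

namespace Ed

/-- adding an adjacent vertex to a connected set -/
theorem insert_conn {W : Type} {H : SimpleGraph W} {M : Set W} (hM : (H.induce M).Connected)
    {x m : W} (hm : m ∈ M) (hx : H.Adj x m) : (H.induce (insert x M)).Connected := by
  have h1 : (H.induce (insert x M)).Preconnected := by
    have key : ∀ (a : W) (ha : a ∈ insert x M), (H.induce (insert x M)).Reachable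
        ⟨a, ha⟩ ⟨m, Set.mem_insert_of_mem _ hm⟩ := by
      intro a ha
      rcases ha with rfl | ha'
      · exact Adj.reachable hx
      · have h2 := hM.preconnected ⟨a, ha'⟩ ⟨m, hm⟩
        exact h2.map (induceHomOfLE H (Set.subset_insert x M)).toHom
    rintro ⟨a, ha⟩ ⟨b, hb⟩
    exact (key a ha).trans (key b hb).symm
  have : Nonempty ↥(insert x M) := ⟨⟨x, Set.mem_insert _ _⟩⟩
  exact ⟨h1⟩

/-- a proper nonempty set has an edge leaving it -/
theorem exists_cross {W : Type} {H : SimpleGraph W} (hH : H.Connected) {M : Set W} {m x : W}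
    (hm : m ∈ M) (hx : x ∉ M) : ∃ a b, a ∈ M ∧ b ∉ M ∧ H.Adj a b := by
  by_contra hno
  push Not at hno
  have key : ∀ (a b : W), H.Walk a b → a ∈ M → b ∈ M := by
    intro a b p
    induction p with
    | nil => exact id
    | @cons u v w h q ih =>
      intro hu
      apply ih
      by_contra hv
      exact hno u v hu hv h
  obtain ⟨p⟩ := hH.preconnected m x
  exact hx (key m x p hm)

end Ed

theorem edge : StmEdge := by
  classical
  intro W _ H hH hdeg
  have hfin : Finite (Set W) := inferInstance
  let P : Set (W × W × Set W) := {t | H.Adj t.1 t.2.1 ∧ t.1 ∉ t.2.2 ∧ t.2.1 ∉ t.2.2 ∧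
    (H.induce t.2.2).Connected}
  have two : ∀ w, ∃ a b, a ≠ b ∧ H.Adj w a ∧ H.Adj w b := by
    intro w
    have h1 : 1 < (H.neighborSet w).ncard := by have := hdeg w; omega
    obtain ⟨a, ha, b, hb, hab⟩ := (Set.one_lt_ncard_iff_nontrivial.1 h1)
    exact ⟨a, b, hab, ha, hb⟩
  have hne : P.Nonempty := by
    obtain ⟨w⟩ := hH.nonempty
    obtain ⟨a, b, hab, ha, hb⟩ := two w
    refine ⟨(w, a, {b}), ha, ?_, ?_, ?_⟩
    · exact fun h => hb.ne h
    · exact fun h => hab h
    · have : Nonempty ↥({b} : Set W) := ⟨⟨b, rfl⟩⟩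
      refine ⟨?_⟩
      rintro ⟨x, hx⟩ ⟨y, hy⟩
      have hx' : x = b := hx
      have hy' : y = b := hy
      subst hx'
      subst hy'
      exact Reachable.refl _
  obtain ⟨⟨u, v, M⟩, ⟨huv, huM, hvM, hM⟩, hmax⟩ := Set.exists_max_image P
    (fun t => t.2.2.ncard) (Set.toFinite _) hne
  dsimp only at huv huM hvM hM
  -- the symmetric form of the maximality
  have hmax' : ∀ a b N, H.Adj a b → a ∉ N → b ∉ N → (H.induce N).Connected →
      N.ncard ≤ M.ncard := fun a b N h1 h2 h3 h4 => hmax (a, b, N) ⟨h1, h2, h3, h4⟩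
  by_cases hall : ∀ x, x ∉ M → x = u ∨ x = v
  · have : M = ({u, v} : Set W)ᶜ := by
      ext x
      simp only [Set.mem_compl_iff, Set.mem_insert_iff, Set.mem_singleton_iff]
      constructor
      · rintro hx (rfl | rfl)
        · exact huM hx
        · exact hvM hx
      · intro hx
        by_contra hxM
        exact hx (hall x hxM)
    exact ⟨u, v, huv, this ▸ hM⟩
  exfalso
  push Not at hall
  obtain ⟨x, hxM, hxu, hxv⟩ := hall
  obtain ⟨⟨m, hm⟩⟩ := hM.nonempty
  -- no vertex outside is adjacent to `M`
  have hout : ∀ y, y ∉ M → y ≠ u → y ≠ v → ∀ m ∈ M, ¬ H.Adj y m := by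
    intro y hyM hyu hyv m hm hym
    have h1 := hmax' u v (insert y M) huv ?_ ?_ (Ed.insert_conn hM hm hym)
    · rw [Set.ncard_insert_of_notMem hyM] at h1
      omega
    · rintro (h | h)
      · exact hyu h.symm
      · exact huM h
    · rintro (h | h)
      · exact hyv h.symm
      · exact hvM h
  -- the main argument, symmetric in `u`, `v`
  have main : ∀ u v, H.Adj u v → u ∉ M → v ∉ M → x ≠ u → x ≠ v →
      (∀ y, y ∉ M → y ≠ u → y ≠ v → ∀ m ∈ M, ¬ H.Adj y m) → (∃ m ∈ M, H.Adj u m) → False := by
    intro u v huv huM hvM hxu hxv hout ⟨m, hm, hum⟩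
    by_cases hy : ∃ y, H.Adj x y ∧ y ≠ u ∧ y ≠ v
    · obtain ⟨y, hxy, hyu, hyv⟩ := hy
      have hyM : y ∉ M := fun h => hout x hxM hxu hxv y h hxy
      have c1 := Ed.insert_conn hM hm hum
      have c2 := Ed.insert_conn c1 (Set.mem_insert u M) huv.symm
      have h1 := hmax' x y _ hxy ?_ ?_ c2
      · rw [Set.ncard_insert_of_notMem, Set.ncard_insert_of_notMem huM] at h1
        · omega
        · rintro (h | h)
          · exact huv.ne h.symm
          · exact hvM h
      · rintro (h | h | h)
        · exact hxv h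
        · exact hxu h
        · exact hxM h
      · rintro (h | h | h)
        · exact hyv h
        · exact hyu h
        · exact hyM h
    · push Not at hy
      obtain ⟨a, b, hab, ha, hb⟩ := two x
      have hxv' : H.Adj x v := by
        by_cases h1 : a = v
        · exact h1 ▸ ha
        by_cases h2 : b = v
        · exact h2 ▸ hb
        exfalso
        have h3 : a = u := by
          by_contra h
          exact h1 (hy a ha h)
        have h4 : b = u := by
          by_contra h
          exact h2 (hy b hb h)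
        exact hab (h3.trans h4.symm)
      have c1 := Ed.insert_conn hM hm hum
      have h1 := hmax' x v _ hxv' ?_ ?_ c1
      · rw [Set.ncard_insert_of_notMem huM] at h1
        omega
      · rintro (h | h)
        · exact hxu h
        · exact hxM h
      · rintro (h | h)
        · exact huv.ne h.symm
        · exact hvM h
  obtain ⟨a, b, ha, hb, hab⟩ := Ed.exists_cross hH hm hxM
  by_cases hbu : b = u
  · subst hbu
    exact main b v huv huM hvM hxu hxv hout ⟨a, ha, hab.symm⟩
  · by_cases hbv : b = v
    · subst hbv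
      exact main b u huv.symm hvM huM hxv hxu (fun y h1 h2 h3 => hout y h1 h3 h2) ⟨a, ha, hab.symm⟩
    · exact hout b hb hbu hbv a ha hab.symm

end Pool.Agent.R709.SM
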