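import Pool.Agent.R709.SM.Stm4

/-! A small set with connected complement in a connected regular graph (piece SM-R3, project SM,
problem MP_fc2b6d_co). -/

namespace Pool.Agent.R709.SM

open SimpleGraph

namespace Find

variable {W : Type}

theorem transfer {H : SimpleGraph W} {X : Set W} {Y : Set X} {Z : Set W}
    (hZ : ∀ w, w ∈ Z ↔ ∃ h : w ∈ X, (⟨w, h⟩ : X) ∈ Y)
    (hc : ((H.induce X).induce Y).Connected) : (H.induce Z).Connected := by
  let e : Y ≃ Z :=
    { toFun := fun y => ⟨y.1.1, (hZ _).2 ⟨y.1.2, y.2⟩⟩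
      invFun := fun z => ⟨⟨z.1, ((hZ _).1 z.2).1⟩, ((hZ _).1 z.2).2⟩
      left_inv := fun y => rfl
      right_inv := fun z => rfl }
  let f : ((H.induce X).induce Y) ≃g H.induce Z := { toEquiv := e, map_rel_iff' := Iff.rfl }
  exact f.connected_iff.1 hc

theorem ncard_induce (H : SimpleGraph W) (X : Set W) (x : X) :
    ((H.induce X).neighborSet x).ncard = (H.neighborSet x.1 ∩ X).ncard := by
  rw [← Set.ncard_image_of_injective _ Subtype.val_injective]
  congr 1
  ext w
  constructor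
  · rintro ⟨y, hy, rfl⟩
    exact ⟨hy, y.2⟩
  · rintro ⟨hw, hX⟩
    exact ⟨⟨w, hX⟩, hw, rfl⟩

theorem ncard_three_le (x y w : W) : ({x, y, w} : Set W).ncard ≤ 3 := by
  refine (Set.ncard_insert_le _ _).trans ?_
  have := Set.ncard_insert_le y ({w} : Set W)
  rw [Set.ncard_singleton] at this
  omega

theorem ncard_three {x y w : W} (h1 : x ≠ y) (h2 : x ≠ w) (h3 : y ≠ w) :
    ({x, y, w} : Set W).ncard = 3 := by
  rw [Set.ncard_insert_of_notMem, Set.ncard_pair h3]
  simp [h1, h2]

variable [Finite W] {H : SimpleGraph W} {d : ℕ}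

theorem tri (hd : 3 ≤ d) (hconn : H.Connected) (hreg : ∀ w, (H.neighborSet w).ncard = d)
    {x y w z : W} (hxy : H.Adj x y) (hxw : H.Adj x w) (hyw : H.Adj y w)
    (hzx : z ≠ x) (hzy : z ≠ y) (hzw : z ≠ w)
    (hc : (H.induce ({x, y, w, z} : Set W)ᶜ).Connected) :
    ∃ S : Set W, Small H S ∧ (H.induce Sᶜ).Connected := by
  by_cases hout : ∃ v, H.Adj z v ∧ v ∉ ({x, y, w, z} : Set W)
  · obtain ⟨v, hv, hv'⟩ := hout
    refine ⟨{x, y, w}, Or.inl ⟨x, y, w, rfl, hxy, hxw, hyw⟩, ?_⟩
    have h1 := induce_union_connected hc.preconnected (induce_pair_connected_of_adj hv).preconnected ⟨v, hv', by simp⟩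
    have h2 : ({x, y, w, z} : Set W)ᶜ ∪ {z, v} = ({x, y, w} : Set W)ᶜ := by
      simp only [Set.mem_insert_iff, Set.mem_singleton_iff, not_or] at hv'
      ext a
      simp only [Set.mem_union, Set.mem_compl_iff, Set.mem_insert_iff, Set.mem_singleton_iff, not_or]
      constructor
      · rintro (h | rfl | rfl)
        · exact ⟨h.1, h.2.1, h.2.2.1⟩
        · exact ⟨hzx, hzy, hzw⟩
        · exact ⟨hv'.1, hv'.2.1, hv'.2.2.1⟩
      · rintro ⟨g1, g2, g3⟩
        by_cases haz : a = z
        · exact Or.inr (Or.inl haz)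
        · exact Or.inl ⟨g1, g2, g3, haz⟩
    rw [h2] at h1
    exact h1
  · exfalso
    push Not at hout
    have hNz : H.neighborSet z ⊆ {x, y, w} := by
      intro v hv
      have h1 := hout v hv
      have hvz : v ≠ z := (show H.Adj z v from hv).ne'
      simp only [Set.mem_insert_iff, Set.mem_singleton_iff] at h1 ⊢
      tauto
    have h3 := ncard_three_le x y w
    have hN : H.neighborSet z = {x, y, w} :=
      Set.eq_of_subset_of_ncard_le hNz (by rw [hreg]; omega) (Set.toFinite _)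
    have hd3 : d ≤ 3 := by
      rw [← hreg z, hN]
      exact h3
    have hzx' : H.Adj z x := by
      have : x ∈ H.neighborSet z := by rw [hN]; simp
      exact this
    have hzy' : H.Adj z y := by
      have : y ∈ H.neighborSet z := by rw [hN]; simp
      exact this
    have hzw' : H.Adj z w := by
      have : w ∈ H.neighborSet z := by rw [hN]; simp
      exact this
    have key : ∀ a b c e : W, H.Adj a b → H.Adj a c → H.Adj a e → b ≠ c → b ≠ e → c ≠ e →
        ∀ v, H.Adj a v → v = b ∨ v = c ∨ v = e := by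
      intro a b c e h1 h2 h3 h4 h5 h6 v hv
      have h7 : ({b, c, e} : Set W) ⊆ H.neighborSet a := by
        intro q hq
        simp only [Set.mem_insert_iff, Set.mem_singleton_iff] at hq
        rcases hq with rfl | rfl | rfl
        · exact h1
        · exact h2
        · exact h3
      have h8 : ({b, c, e} : Set W) = H.neighborSet a :=
        Set.eq_of_subset_of_ncard_le h7 (by rw [hreg, ncard_three h4 h5 h6]; omega) (Set.toFinite _)
      have h9 : v ∈ ({b, c, e} : Set W) := by rw [h8]; exact hv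
      simpa using h9
    obtain ⟨⟨o, ho⟩⟩ := hc.nonempty
    obtain ⟨p⟩ := hconn.preconnected x o
    obtain ⟨dd, -, hd1, hd2⟩ := p.exists_boundary_dart ({x, y, w, z} : Set W) (by simp) ho
    apply hd2
    have hadj := dd.adj
    simp only [Set.mem_insert_iff, Set.mem_singleton_iff] at hd1 ⊢
    rcases hd1 with h | h | h | h
    · rw [h] at hadj
      have := key x y w z hxy hxw hzx'.symm hyw.ne hzy.symm hzw.symm _ hadj
      tauto
    · rw [h] at hadj
      have := key y x w z hxy.symm hyw hzy'.symm hxw.ne hzx.symm hzw.symm _ hadj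
      tauto
    · rw [h] at hadj
      have := key w x y z hxw.symm hyw.symm hzw'.symm hxy.ne hzx.symm hzy.symm _ hadj
      tauto
    · rw [h] at hadj
      have := key z x y w hzx' hzy' hzw' hxy.ne hxw.ne hyw.ne _ hadj
      tauto

theorem four (hd : 3 ≤ d) (hconn : H.Connected) (hreg : ∀ w, (H.neighborSet w).ncard = d)
    {a b c e : W} (hab : H.Adj a b) (hce : H.Adj c e) (hac : a ≠ c) (hae : a ≠ e) (hbc : b ≠ c)
    (hbe : b ≠ e) (hc2 : (H.induce ({a, b, c, e} : Set W)ᶜ).Connected) :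
    ∃ S : Set W, Small H S ∧ (H.induce Sᶜ).Connected := by
  have s1 : ({a, b, e, c} : Set W) = {a, b, c, e} := by
    ext v; simp only [Set.mem_insert_iff, Set.mem_singleton_iff]; tauto
  have s2 : ({c, e, a, b} : Set W) = {a, b, c, e} := by
    ext v; simp only [Set.mem_insert_iff, Set.mem_singleton_iff]; tauto
  have s3 : ({c, e, b, a} : Set W) = {a, b, c, e} := by
    ext v; simp only [Set.mem_insert_iff, Set.mem_singleton_iff]; tauto
  by_cases t1 : H.Adj a c ∧ H.Adj b c
  · exact tri hd hconn hreg hab t1.1 t1.2 hae.symm hbe.symm hce.ne' hc2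
  by_cases t2 : H.Adj a e ∧ H.Adj b e
  · exact tri hd hconn hreg hab t2.1 t2.2 hac.symm hbc.symm hce.ne (by rw [s1]; exact hc2)
  by_cases t3 : H.Adj a c ∧ H.Adj a e
  · exact tri hd hconn hreg hce t3.1.symm t3.2.symm hbc hbe hab.ne' (by rw [s2]; exact hc2)
  by_cases t4 : H.Adj b c ∧ H.Adj b e
  · exact tri hd hconn hreg hce t4.1.symm t4.2.symm hac hae hab.ne (by rw [s3]; exact hc2)
  by_cases h5 : ¬ H.Adj a e ∧ ¬ H.Adj b c
  · exact ⟨{a, b, c, e}, Or.inr ⟨a, b, c, e, rfl, hac, hae, hbc, hbe, hab, hce, h5.1, h5.2⟩, hc2⟩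
  · refine ⟨{a, b, e, c}, Or.inr ⟨a, b, e, c, rfl, hae, hac, hbe, hbc, hab, hce.symm, ?_, ?_⟩, ?_⟩
    · tauto
    · tauto
    · rw [s1]; exact hc2

end Find

theorem find : StmFind := by
  classical
  intro hE W _ H d hd hconn hreg _
  have := Fintype.ofFinite W
  obtain ⟨l, u, hlu, h1⟩ := hE W H hconn (fun w => by rw [hreg]; omega)
  by_cases hA : ∃ c : ↥({l, u} : Set W)ᶜ, ((H.induce ({l, u} : Set W)ᶜ).neighborSet c).ncard < 2
  · obtain ⟨c, hc⟩ := hA
    have hc' := hc
    rw [Find.ncard_induce] at hc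
    have hsum := Set.ncard_inter_add_ncard_sdiff_eq_ncard (H.neighborSet c.1) ({l, u} : Set W)
      (Set.toFinite _)
    rw [hreg, Set.sdiff_eq] at hsum
    have hpair : ({l, u} : Set W).ncard = 2 := Set.ncard_pair hlu.ne
    have hle : (H.neighborSet c.1 ∩ {l, u}).ncard ≤ 2 := by
      rw [← hpair]
      exact Set.ncard_le_ncard Set.inter_subset_right (Set.toFinite _)
    have heq : H.neighborSet c.1 ∩ {l, u} = {l, u} :=
      Set.eq_of_subset_of_ncard_le Set.inter_subset_right (by rw [hpair]; omega) (Set.toFinite _)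
    rw [Set.inter_eq_right] at heq
    have hcl : H.Adj c.1 l := heq (by simp)
    have hcu : H.Adj c.1 u := heq (by simp)
    refine ⟨{l, u, c.1}, Or.inl ⟨l, u, c.1, rfl, hlu, hcl.symm, hcu.symm⟩, ?_⟩
    have hdeg : (H.induce ({l, u} : Set W)ᶜ).degree c = 1 := by
      rw [← SimpleGraph.card_neighborSet_eq_degree, ← Nat.card_eq_fintype_card, Nat.card_coe_set_eq,
        Find.ncard_induce]
      omega
    refine Find.transfer (X := ({l, u} : Set W)ᶜ) (Y := {c}ᶜ) ?_
      (h1.induce_compl_singleton_of_degree_eq_one hdeg)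
    intro w
    simp only [Set.mem_compl_iff, Set.mem_insert_iff, Set.mem_singleton_iff, not_or]
    constructor
    · rintro ⟨g1, g2, g3⟩
      exact ⟨⟨g1, g2⟩, fun h => g3 (congrArg Subtype.val h)⟩
    · rintro ⟨⟨g1, g2⟩, g3⟩
      exact ⟨g1, g2, fun h => g3 (Subtype.ext h)⟩
  · push Not at hA
    obtain ⟨l', u', h', h2⟩ := hE _ _ h1 hA
    have h3 : (H.induce ({l, u, l'.1, u'.1} : Set W)ᶜ).Connected := by
      refine Find.transfer (X := ({l, u} : Set W)ᶜ) (Y := ({l', u'} : Set ↥({l, u} : Set W)ᶜ)ᶜ) ?_ h2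
      intro w
      simp only [Set.mem_compl_iff, Set.mem_insert_iff, Set.mem_singleton_iff, not_or]
      constructor
      · rintro ⟨g1, g2, g3, g4⟩
        exact ⟨⟨g1, g2⟩, fun h => g3 (congrArg Subtype.val h), fun h => g4 (congrArg Subtype.val h)⟩
      · rintro ⟨⟨g1, g2⟩, g3, g4⟩
        exact ⟨g1, g2, fun h => g3 (Subtype.ext h), fun h => g4 (Subtype.ext h)⟩
    have e1 := l'.2
    have e2 := u'.2
    simp only [Set.mem_compl_iff, Set.mem_insert_iff, Set.mem_singleton_iff, not_or] at e1 e2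
    exact Find.four hd hconn hreg hlu (show H.Adj l'.1 u'.1 from h') (Ne.symm e1.1) (Ne.symm e2.1)
      (Ne.symm e1.2) (Ne.symm e2.2) h3

end Pool.Agent.R709.SM
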