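import Pool.Agent.R709.SM.Stm

/-! SM-K3: the triangle is bad. -/

set_option autoImplicit false

namespace Pool.Agent.R709.SM

open SimpleGraph

namespace T3

/-- vertices of the host graph -/
inductive HV : Type
  | v
  | p (i a : ℕ)
  | q (i a : ℕ)
  | y (i b : ℕ)
  deriving DecidableEq

open HV

/-- the edges in one orientation -/
def R : HV → HV → Prop
  | v, p i a => a < 2 * (i + 1)
  | v, q i a => a < 2 * (i + 1)
  | v, y i b => b < 3 * (i + 1)
  | y i b, p i' a => i = i' ∧ a < 2 * (i + 1) ∧ b < 3 * (i + 1)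
  | y i b, q i' a => i = i' ∧ a < 2 * (i + 1) ∧ b < 3 * (i + 1)
  | p i a, q j b => i < j ∧ a < 2 * (i + 1) ∧ b < 2 * (j + 1)
  | _, _ => False

/-- the host graph -/
def G : SimpleGraph HV := SimpleGraph.fromRel R

lemma tri {a b c : HV} (h1 : G.Adj a b) (h2 : G.Adj b c) (h3 : G.Adj a c) :
    a = v ∨ b = v ∨ c = v := by
  rw [G, fromRel_adj] at h1 h2 h3
  cases a <;> cases b <;> cases c <;> simp [R] at h1 h2 h3 ⊢ <;> omega

/-- no triangle contains `v` -/
def TF (F : SimpleGraph HV) : Prop := ∀ x x', F.Adj v x → F.Adj v x' → F.Adj x x' → False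

lemma free_of {I : SimpleGraph HV} (hI : I ≤ G) (h : TF I) :
    ¬ ((⊤ : SimpleGraph (Fin 3)) ⊑ I) := by
  rintro ⟨φ⟩
  have h01 : I.Adj (φ 0) (φ 1) := φ.toHom.map_adj (by simp)
  have h12 : I.Adj (φ 1) (φ 2) := φ.toHom.map_adj (by simp)
  have h02 : I.Adj (φ 0) (φ 2) := φ.toHom.map_adj (by simp)
  rcases tri (hI h01) (hI h12) (hI h02) with e | e | e
  · rw [e] at h01 h02
    exact h _ _ h01 h02 h12
  · rw [e] at h01 h12
    exact h _ _ h01.symm h12 h02
  · rw [e] at h02 h12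
    exact h _ _ h02.symm h12.symm h01

lemma TF_of {F : SimpleGraph HV} (h : ¬ ((⊤ : SimpleGraph (Fin 3)) ⊑ F)) : TF F := by
  intro x x' h1 h2 h3
  refine h ⟨⟨⟨![v, x, x'], ?_⟩, ?_⟩⟩
  · intro a b hab
    fin_cases a <;> fin_cases b
    · exact absurd rfl hab.ne
    · exact h1
    · exact h2
    · exact h1.symm
    · exact absurd rfl hab.ne
    · exact h3
    · exact h2.symm
    · exact h3.symm
    · exact absurd rfl hab.ne
  · intro a b hab
    change (![v, x, x'] : Fin 3 → HV) a = ![v, x, x'] b at hab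
    fin_cases a <;> fin_cases b
    · rfl
    · exact absurd hab h1.ne
    · exact absurd hab h2.ne
    · exact absurd hab h1.ne'
    · rfl
    · exact absurd hab h3.ne
    · exact absurd hab h2.ne'
    · exact absurd hab h3.ne'
    · rfl

lemma gain {F I : SimpleGraph HV} (h : SMax (⊤ : SimpleGraph (Fin 3)) G F) (hI : I ≤ G)
    (hfree : ¬ ((⊤ : SimpleGraph (Fin 3)) ⊑ I)) (A S : Finset (Sym2 HV))
    (hR : F.edgeSet \ I.edgeSet ⊆ (A : Set (Sym2 HV)))
    (hS : (S : Set (Sym2 HV)) ⊆ I.edgeSet \ F.edgeSet) : S.card ≤ A.card := by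
  have hfin : (F.edgeSet \ I.edgeSet).Finite := A.finite_toSet.subset hR
  obtain ⟨h1, h2⟩ := h.no_gain hI hfree hfin
  have h3 : S.card ≤ (I.edgeSet \ F.edgeSet).ncard := by
    rw [← Set.ncard_coe_finset]
    exact Set.ncard_le_ncard hS h1
  have h4 : (F.edgeSet \ I.edgeSet).ncard ≤ A.card := by
    rw [← Set.ncard_coe_finset]
    exact Set.ncard_le_ncard hR A.finite_toSet
  omega

/-- remove the edges `v x` with `D x`, add the edges `v x` with `N x`, and the edges of `E` -/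
def mkI (F : SimpleGraph HV) (D N : HV → Prop) (E : HV → HV → Prop) : SimpleGraph HV where
  Adj x x' := (x = v ∧ x' ≠ v ∧ ((F.Adj v x' ∧ ¬ D x') ∨ N x')) ∨
    (x' = v ∧ x ≠ v ∧ ((F.Adj v x ∧ ¬ D x) ∨ N x)) ∨
    (x ≠ v ∧ x' ≠ v ∧ x ≠ x' ∧ (F.Adj x x' ∨ E x x' ∨ E x' x))
  symm := ⟨by
    rintro x x' (h | h | ⟨h1, h2, h3, (h | h | h)⟩)
    · exact Or.inr (Or.inl h)
    · exact Or.inl h
    · exact Or.inr (Or.inr ⟨h2, h1, h3.symm, Or.inl h.symm⟩)
    · exact Or.inr (Or.inr ⟨h2, h1, h3.symm, Or.inr (Or.inr h)⟩)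
    · exact Or.inr (Or.inr ⟨h2, h1, h3.symm, Or.inr (Or.inl h)⟩)⟩
  loopless := ⟨by
    rintro x (h | h | h)
    · exact h.2.1 h.1
    · exact h.2.1 h.1
    · exact h.2.2.1 rfl⟩

section
variable {F : SimpleGraph HV} {D N : HV → Prop} {E : HV → HV → Prop}

lemma mk_le (hF : F ≤ G) (h1 : ∀ x, N x → G.Adj v x) (h2 : ∀ x x', E x x' → G.Adj x x') :
    mkI F D N E ≤ G := by
  rintro x x' (⟨rfl, -, (h | h)⟩ | ⟨rfl, -, (h | h)⟩ | ⟨-, -, -, (h | h | h)⟩)
  · exact hF h.1
  · exact h1 _ h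
  · exact (hF h.1).symm
  · exact (h1 _ h).symm
  · exact hF h
  · exact h2 _ _ h
  · exact (h2 _ _ h).symm

lemma mk_free (hF : F ≤ G) (hT : TF F) (h1 : ∀ x, N x → G.Adj v x)
    (h2 : ∀ x x', E x x' → G.Adj x x')
    (h3 : ∀ x x', N x → ((F.Adj v x' ∧ ¬ D x') ∨ N x') → x' ≠ v → G.Adj x x' → F.Adj x x' → False)
    (h4 : ∀ x x', ((F.Adj v x ∧ ¬ D x) ∨ N x) → ((F.Adj v x' ∧ ¬ D x') ∨ N x') → E x x' → False) :
    ¬ ((⊤ : SimpleGraph (Fin 3)) ⊑ mkI F D N E) := by
  refine free_of (mk_le hF h1 h2) ?_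
  intro x x' k1 k2 k3
  have hx : x ≠ v := k1.ne'
  have hx' : x' ≠ v := k2.ne'
  have n1 : (F.Adj v x ∧ ¬ D x) ∨ N x := by
    rcases k1 with h | h | h
    · exact h.2.2
    · exact absurd h.1 hx
    · exact absurd rfl h.1
  have n2 : (F.Adj v x' ∧ ¬ D x') ∨ N x' := by
    rcases k2 with h | h | h
    · exact h.2.2
    · exact absurd h.1 hx'
    · exact absurd rfl h.1
  rcases k3 with h | h | ⟨-, -, -, (h | h | h)⟩
  · exact hx h.1
  · exact hx' h.1
  · rcases n1 with m1 | m1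
    · rcases n2 with m2 | m2
      · exact hT _ _ m1.1 m2.1 h
      · exact h3 x' x m2 (Or.inl m1) hx (hF h).symm h.symm
    · exact h3 x x' m1 n2 hx' (hF h) h
  · exact h4 _ _ n1 n2 h
  · exact h4 _ _ n2 n1 h

lemma mk_sdiff {A : Finset (Sym2 HV)} (h : ∀ x, F.Adj v x → D x → s(v, x) ∈ A) :
    F.edgeSet \ (mkI F D N E).edgeSet ⊆ (A : Set (Sym2 HV)) := by
  intro e
  induction e using Sym2.ind with
  | _ x x' =>
    rintro ⟨h1, h2⟩
    rw [mem_edgeSet] at h1 h2
    by_cases hx : x = v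
    · subst hx
      refine h _ h1 ?_
      by_contra hD
      exact h2 (Or.inl ⟨rfl, h1.ne', Or.inl ⟨h1, hD⟩⟩)
    · by_cases hx' : x' = v
      · subst hx'
        have h3 : s(v, x) ∈ A := by
          refine h _ h1.symm ?_
          by_contra hD
          exact h2 (Or.inr (Or.inl ⟨rfl, h1.ne, Or.inl ⟨h1.symm, hD⟩⟩))
        rw [Sym2.eq_swap]
        exact h3
      · exact absurd (Or.inr (Or.inr ⟨hx, hx', h1.ne, Or.inl h1⟩)) h2

lemma mk_v {x : HV} (h : N x) (hx : x ≠ v) : (mkI F D N E).Adj v x :=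
  Or.inl ⟨rfl, hx, Or.inr h⟩

lemma mk_e {x x' : HV} (h : E x x') (hx : x ≠ v) (hx' : x' ≠ v) (hne : x ≠ x') :
    (mkI F D N E).Adj x x' := Or.inr (Or.inr ⟨hx, hx', hne, Or.inr (Or.inl h)⟩)

end

/-- vertices of block `i` adjacent to `v` -/
def PQi (i : ℕ) (x : HV) : Prop := (∃ a, x = p i a) ∨ ∃ a, x = q i a

/-- the new neighbours of `v` in block `i` -/
def Yi (i : ℕ) (x : HV) : Prop := ∃ b, b < 3 * (i + 1) ∧ x = y i b

/-- the other `Y`-edges of block `i` -/
def YE (i : ℕ) (x x' : HV) : Prop := (∃ b, x = y i b) ∧ x' ≠ v ∧ G.Adj x x'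

lemma y_adj {i b : ℕ} {x : HV} (h : G.Adj (y i b) x) (hx : x ≠ v) : PQi i x := by
  rw [G, fromRel_adj] at h
  cases x with
  | v => exact absurd rfl hx
  | p j a =>
    simp [R] at h
    exact Or.inl ⟨a, by rw [h.1]⟩
  | q j a =>
    simp [R] at h
    exact Or.inr ⟨a, by rw [h.1]⟩
  | y j a => simp [R] at h

lemma Yi_adj {i : ℕ} {x : HV} (h : Yi i x) : G.Adj v x := by
  obtain ⟨b, hb, rfl⟩ := h
  rw [G, fromRel_adj]
  exact ⟨by simp, Or.inl hb⟩

/-- missing `Y`-edges -/
lemma missY {F : SimpleGraph HV} (hF : F ≤ G) (hT : TF F) (i : ℕ) (x0 : HV) (hx0 : PQi i x0)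
    (h0 : F.Adj v x0) : ∃ S : Finset (Sym2 HV), S.card = 3 * (i + 1) ∧
      (∀ e ∈ S, e ∉ F.edgeSet ∧ ∃ b, b < 3 * (i + 1) ∧ (e = s(v, y i b) ∨ e = s(y i b, x0))) := by
  classical
  set f : ℕ → Sym2 HV := fun b => if F.Adj v (y i b) then s(y i b, x0) else s(v, y i b) with hf
  have hxy : ∀ b, x0 ≠ y i b := by
    intro b
    rcases hx0 with ⟨a, rfl⟩ | ⟨a, rfl⟩ <;> simp
  have hinj : Function.Injective f := by
    intro b b' h
    have hmem : y i b ∈ f b := by
      simp only [hf]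
      split_ifs <;> simp
    rw [h] at hmem
    simp only [hf] at hmem
    split_ifs at hmem with h1
    · rw [Sym2.mem_iff] at hmem
      rcases hmem with e | e
      · simpa using e
      · exact absurd e.symm (hxy b)
    · rw [Sym2.mem_iff] at hmem
      rcases hmem with e | e
      · simp at e
      · simpa using e
  refine ⟨(Finset.range (3 * (i + 1))).image f, ?_, ?_⟩
  · rw [Finset.card_image_of_injective _ hinj, Finset.card_range]
  · intro e he
    rw [Finset.mem_image] at he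
    obtain ⟨b, hb, rfl⟩ := he
    rw [Finset.mem_range] at hb
    refine ⟨?_, b, hb, ?_⟩
    · simp only [hf]
      split_ifs with h1
      · rw [mem_edgeSet]
        intro h2
        exact hT _ _ h1 h0 h2
      · rw [mem_edgeSet]
        exact h1
    · simp only [hf]
      split_ifs
      · exact Or.inr rfl
      · exact Or.inl rfl

open Classical in
/-- the `p`-neighbours of `v` in block `i` -/
noncomputable def XP (F : SimpleGraph HV) (i : ℕ) : Finset ℕ :=
  (Finset.range (2 * (i + 1))).filter fun a => F.Adj v (p i a)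

open Classical in
/-- the `q`-neighbours of `v` in block `i` -/
noncomputable def XQ (F : SimpleGraph HV) (i : ℕ) : Finset ℕ :=
  (Finset.range (2 * (i + 1))).filter fun a => F.Adj v (q i a)

lemma XP_card (F : SimpleGraph HV) (i : ℕ) : (XP F i).card ≤ 2 * (i + 1) := by
  classical
  refine (Finset.card_filter_le _ _).trans ?_
  rw [Finset.card_range]

lemma XQ_card (F : SimpleGraph HV) (i : ℕ) : (XQ F i).card ≤ 2 * (i + 1) := by
  classical
  refine (Finset.card_filter_le _ _).trans ?_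
  rw [Finset.card_range]

lemma mem_XP {F : SimpleGraph HV} (hF : F ≤ G) {i a : ℕ} (h : F.Adj v (p i a)) : a ∈ XP F i := by
  classical
  rw [XP, Finset.mem_filter, Finset.mem_range]
  refine ⟨?_, h⟩
  have h1 := hF h
  rw [G, fromRel_adj] at h1
  simpa [R] using h1

lemma mem_XQ {F : SimpleGraph HV} (hF : F ≤ G) {i a : ℕ} (h : F.Adj v (q i a)) : a ∈ XQ F i := by
  classical
  rw [XQ, Finset.mem_filter, Finset.mem_range]
  refine ⟨?_, h⟩
  have h1 := hF h
  rw [G, fromRel_adj] at h1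
  simpa [R] using h1

/-- the removed edges at block `i` -/
noncomputable def Rem (F : SimpleGraph HV) (i : ℕ) : Finset (Sym2 HV) :=
  (XP F i).image (fun a => s(v, p i a)) ∪ (XQ F i).image (fun a => s(v, q i a))

lemma Rem_card (F : SimpleGraph HV) (i : ℕ) :
    (Rem F i).card ≤ (XP F i).card + (XQ F i).card :=
  (Finset.card_union_le _ _).trans (add_le_add Finset.card_image_le Finset.card_image_le)

lemma mem_Rem {F : SimpleGraph HV} (hF : F ≤ G) {i : ℕ} {x : HV} (h : F.Adj v x)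
    (hx : PQi i x) : s(v, x) ∈ Rem F i := by
  rw [Rem, Finset.mem_union]
  rcases hx with ⟨a, rfl⟩ | ⟨a, rfl⟩
  · exact Or.inl (Finset.mem_image.2 ⟨a, mem_XP hF h, rfl⟩)
  · exact Or.inr (Finset.mem_image.2 ⟨a, mem_XQ hF h, rfl⟩)

lemma step12 {F : SimpleGraph HV} (h : SMax (⊤ : SimpleGraph (Fin 3)) G F) (i j : ℕ)
    (W : Finset (ℕ × ℕ)) (hij : i < j)
    (hW : ∀ w ∈ W, F.Adj v (p i w.1) ∧ F.Adj v (q j w.2)) (x0 : HV) (hx0 : PQi i x0)
    (h0 : F.Adj v x0) : 3 * (i + 1) + W.card ≤ (XP F i).card + (XQ F i).card := by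
  classical
  have hF : F ≤ G := h.1
  have hT : TF F := TF_of h.2.1
  set E : HV → HV → Prop := fun x x' => YE i x x' ∨ ∃ w ∈ W, x = p i w.1 ∧ x' = q j w.2 with hE
  have g1 : ∀ x, Yi i x → G.Adj v x := fun x hx => Yi_adj hx
  have g2 : ∀ x x', E x x' → G.Adj x x' := by
    rintro x x' (hx | ⟨w, hw, rfl, rfl⟩)
    · exact hx.2.2
    · obtain ⟨k1, k2⟩ := hW w hw
      have k3 := hF k1
      have k4 := hF k2
      rw [G, fromRel_adj] at k3 k4
      rw [G, fromRel_adj]
      simp [R] at k3 k4 ⊢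
      exact ⟨hij, k3, k4⟩
  have hNP : ∀ x, ((F.Adj v x ∧ ¬ PQi i x) ∨ Yi i x) → ¬ PQi i x := by
    rintro x (hx | ⟨b, -, rfl⟩)
    · exact hx.2
    · rintro (⟨a, ha⟩ | ⟨a, ha⟩) <;> simp at ha
  have hfree := mk_free (F := F) (D := PQi i) (N := Yi i) (E := E) hF hT g1 g2
    (by
      rintro x x' ⟨b, -, rfl⟩ hx' hne hadj -
      exact hNP x' hx' (y_adj hadj hne))
    (by
      rintro x x' hx hx' (⟨⟨b, rfl⟩, hne, hadj⟩ | ⟨w, hw, rfl, rfl⟩)
      · exact hNP x' hx' (y_adj hadj hne)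
      · exact hNP _ hx (Or.inl ⟨_, rfl⟩))
  obtain ⟨S, hS, hSm⟩ := missY hF hT i x0 hx0 h0
  set T : Finset (Sym2 HV) := W.image fun w => s(p i w.1, q j w.2) with hTd
  have hTc : T.card = W.card := by
    refine Finset.card_image_of_injective _ ?_
    rintro ⟨a, b⟩ ⟨a', b'⟩ hab
    simpa [Sym2.eq_iff] using hab
  have hx0v : x0 ≠ v := h0.ne'
  have hdis : Disjoint S T := by
    rw [Finset.disjoint_left]
    intro e he1 he2
    obtain ⟨-, b, -, hb⟩ := hSm e he1
    rw [hTd, Finset.mem_image] at he2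
    obtain ⟨w, -, rfl⟩ := he2
    rcases hb with hb | hb <;> simp [Sym2.eq_iff] at hb
  have key := gain h (mk_le (D := PQi i) hF g1 g2) hfree (Rem F i) (S ∪ T)
    (mk_sdiff fun x hx hD => mem_Rem hF hx hD) (by
      intro e he
      rw [Finset.mem_coe, Finset.mem_union] at he
      rcases he with he | he
      · obtain ⟨h1, b, hb, hb2⟩ := hSm e he
        refine ⟨?_, h1⟩
        rcases hb2 with rfl | rfl
        · exact mk_v ⟨b, hb, rfl⟩ (by simp)
        · have hne : y i b ≠ x0 := by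
            rcases hx0 with ⟨a, rfl⟩ | ⟨a, rfl⟩ <;> simp
          refine mk_e (Or.inl ⟨⟨b, rfl⟩, hx0v, ?_⟩) (by simp) hx0v hne
          have k1 := hF h0
          rw [G, fromRel_adj] at k1 ⊢
          rcases hx0 with ⟨a, rfl⟩ | ⟨a, rfl⟩
          · simp [R] at k1 ⊢
            exact ⟨k1, hb⟩
          · simp [R] at k1 ⊢
            exact ⟨k1, hb⟩
      · rw [hTd, Finset.mem_image] at he
        obtain ⟨w, hw, rfl⟩ := he
        refine ⟨mk_e (Or.inr ⟨w, hw, rfl, rfl⟩) (by simp) (by simp) (by simp), ?_⟩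
        rw [mem_edgeSet]
        obtain ⟨k1, k2⟩ := hW w hw
        intro k3
        exact hT _ _ k1 k2 k3)
  rw [Finset.card_union_of_disjoint hdis, hS, hTc] at key
  exact key.trans (Rem_card F i)

/-- block `i` is active -/
def Act (F : SimpleGraph HV) (i : ℕ) : Prop := ∃ x, PQi i x ∧ F.Adj v x

lemma act1 {F : SimpleGraph HV} (h : SMax (⊤ : SimpleGraph (Fin 3)) G F) (i : ℕ)
    (hi : Act F i) : 3 * (i + 1) ≤ (XP F i).card + (XQ F i).card := by
  obtain ⟨x, hx, h0⟩ := hi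
  have := step12 h i (i + 1) ∅ (Nat.lt_succ_self i) (by simp) x hx h0
  simpa using this

lemma act2 {F : SimpleGraph HV} (h : SMax (⊤ : SimpleGraph (Fin 3)) G F) {i j : ℕ} (hij : i < j)
    (hi : Act F i) (hj : Act F j) : False := by
  classical
  have a1 := act1 h i hi
  have a2 := act1 h j hj
  obtain ⟨x, hx, h0⟩ := hi
  have a3 := step12 h i j (XP F i ×ˢ XQ F j) hij (by
    rintro ⟨a, b⟩ hw
    rw [Finset.mem_product] at hw
    exact ⟨(Finset.mem_filter.1 hw.1).2, (Finset.mem_filter.1 hw.2).2⟩) x hx h0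
  rw [Finset.card_product] at a3
  have b1 := XP_card F i
  have b2 := XQ_card F i
  have b3 := XP_card F j
  have b4 := XQ_card F j
  have b5 : 2 ≤ (XQ F j).card := by omega
  have b6 : (XP F i).card * 2 ≤ (XP F i).card * (XQ F j).card := Nat.mul_le_mul_left _ b5
  omega

lemma step3 {F : SimpleGraph HV} (h : SMax (⊤ : SimpleGraph (Fin 3)) G F) (m : ℕ)
    (hm : ∀ j, j ≠ m → ¬ Act F j) : False := by
  classical
  have hF : F ≤ G := h.1
  have hT : TF F := TF_of h.2.1
  set n := m + 1 with hn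
  set D : HV → Prop := fun x => PQi m x ∨ ∃ b, x = y n b with hD
  set N : HV → Prop := fun x => Yi m x ∨ (PQi n x ∧ G.Adj v x) with hN
  have g1 : ∀ x, N x → G.Adj v x := by
    rintro x (hx | hx)
    · exact Yi_adj hx
    · exact hx.2
  have g2 : ∀ x x', YE m x x' → G.Adj x x' := fun x x' hx => hx.2.2
  have hNP : ∀ x, ((F.Adj v x ∧ ¬ D x) ∨ N x) → ¬ PQi m x ∧ ∀ b, x ≠ y n b := by
    rintro x (hx | (⟨b, -, rfl⟩ | ⟨(⟨a, rfl⟩ | ⟨a, rfl⟩), -⟩))
    · exact ⟨fun h1 => hx.2 (Or.inl h1), fun b hb => hx.2 (Or.inr ⟨b, hb⟩)⟩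
    · refine ⟨?_, fun b' hb' => ?_⟩
      · rintro (⟨a, ha⟩ | ⟨a, ha⟩) <;> simp at ha
      · simp [hn] at hb'
    · refine ⟨?_, fun b' hb' => ?_⟩
      · rintro (⟨a, ha⟩ | ⟨a, ha⟩) <;> simp [hn] at ha
      · simp at hb'
    · refine ⟨?_, fun b' hb' => ?_⟩
      · rintro (⟨a, ha⟩ | ⟨a, ha⟩) <;> simp [hn] at ha
      · simp at hb'
  have hfree := mk_free (F := F) (D := D) (N := N) (E := YE m) hF hT g1 g2
    (by
      rintro x x' (⟨b, -, rfl⟩ | ⟨(⟨a, rfl⟩ | ⟨a, rfl⟩), -⟩) hx' hne hadj -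
      · exact (hNP x' hx').1 (y_adj hadj hne)
      · rw [G, fromRel_adj] at hadj
        cases x' with
        | v => exact hne rfl
        | p j a' => simp [R] at hadj
        | q j a' =>
          simp [R] at hadj
          rcases hx' with hx' | (⟨b, -, hb⟩ | ⟨(⟨a, hb⟩ | ⟨a, hb⟩), -⟩)
          · exact hm j (by omega) ⟨_, Or.inr ⟨_, rfl⟩, hx'.1⟩
          · simp at hb
          · simp at hb
          · simp at hb
            omega
        | y j a' =>
          simp [R] at hadj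
          exact (hNP _ hx').2 a' (by rw [hadj.1])
      · rw [G, fromRel_adj] at hadj
        cases x' with
        | v => exact hne rfl
        | p j a' =>
          simp [R] at hadj
          rcases hx' with hx' | (⟨b, -, hb⟩ | ⟨(⟨a, hb⟩ | ⟨a, hb⟩), -⟩)
          · by_cases hjm : j = m
            · subst hjm
              exact hx'.2 (Or.inl (Or.inl ⟨_, rfl⟩))
            · exact hm j hjm ⟨_, Or.inl ⟨_, rfl⟩, hx'.1⟩
          · simp at hb
          · simp at hb
            omega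
          · simp at hb
        | q j a' => simp [R] at hadj
        | y j a' =>
          simp [R] at hadj
          exact (hNP _ hx').2 a' (by rw [hadj.1]))
    (by
      rintro x x' hx hx' ⟨⟨b, rfl⟩, hne, hadj⟩
      exact (hNP x' hx').1 (y_adj hadj hne))
  -- the new edges at block n
  set S2 : Finset (Sym2 HV) := (Finset.range (2 * (n + 1))).image (fun a => s(v, p n a)) with hS2
  set S3 : Finset (Sym2 HV) := (Finset.range (2 * (n + 1))).image (fun a => s(v, q n a)) with hS3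
  set A2 : Finset (Sym2 HV) := (Finset.range (3 * (n + 1))).image (fun b => s(v, y n b)) with hA2
  have c2 : S2.card = 2 * (n + 1) := by
    rw [hS2, Finset.card_image_of_injective, Finset.card_range]
    intro a b hab
    simpa [Sym2.eq_iff] using hab
  have c3 : S3.card = 2 * (n + 1) := by
    rw [hS3, Finset.card_image_of_injective, Finset.card_range]
    intro a b hab
    simpa [Sym2.eq_iff] using hab
  have cA : A2.card ≤ 3 * (n + 1) := by
    refine Finset.card_image_le.trans ?_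
    rw [Finset.card_range]
  have d23 : Disjoint S2 S3 := by
    rw [Finset.disjoint_left]
    intro e h1 h2
    rw [hS2, Finset.mem_image] at h1
    rw [hS3, Finset.mem_image] at h2
    obtain ⟨a, -, rfl⟩ := h1
    obtain ⟨b, -, hb⟩ := h2
    simp [Sym2.eq_iff] at hb
  have hA : F.edgeSet \ (mkI F D N (YE m)).edgeSet ⊆ (↑(Rem F m ∪ A2) : Set (Sym2 HV)) := by
    refine mk_sdiff fun x hx hDx => ?_
    rw [Finset.mem_union]
    rcases hDx with hDx | ⟨b, rfl⟩
    · exact Or.inl (mem_Rem hF hx hDx)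
    · refine Or.inr (Finset.mem_image.2 ⟨b, ?_, rfl⟩)
      have h1 := hF hx
      rw [G, fromRel_adj] at h1
      rw [Finset.mem_range]
      simpa [R] using h1
  have cA' : (Rem F m ∪ A2).card ≤ (XP F m).card + (XQ F m).card + 3 * (n + 1) :=
    (Finset.card_union_le _ _).trans (add_le_add (Rem_card F m) cA)
  have hS23 : ∀ e ∈ S2 ∪ S3, e ∈ (mkI F D N (YE m)).edgeSet \ F.edgeSet := by
    intro e he
    rw [Finset.mem_union] at he
    have hnact : ¬ Act F n := hm n (by omega)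
    rcases he with he | he
    · rw [hS2, Finset.mem_image] at he
      obtain ⟨a, ha, rfl⟩ := he
      rw [Finset.mem_range] at ha
      refine ⟨?_, ?_⟩
      · rw [mem_edgeSet]
        refine mk_v (Or.inr ⟨Or.inl ⟨a, rfl⟩, ?_⟩) (by simp)
        rw [G, fromRel_adj]
        exact ⟨by simp, Or.inl ha⟩
      · rw [mem_edgeSet]
        exact fun h1 => hnact ⟨_, Or.inl ⟨a, rfl⟩, h1⟩
    · rw [hS3, Finset.mem_image] at he
      obtain ⟨a, ha, rfl⟩ := he
      rw [Finset.mem_range] at ha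
      refine ⟨?_, ?_⟩
      · rw [mem_edgeSet]
        refine mk_v (Or.inr ⟨Or.inr ⟨a, rfl⟩, ?_⟩) (by simp)
        rw [G, fromRel_adj]
        exact ⟨by simp, Or.inl ha⟩
      · rw [mem_edgeSet]
        exact fun h1 => hnact ⟨_, Or.inr ⟨a, rfl⟩, h1⟩
  have b1 := XP_card F m
  have b2 := XQ_card F m
  by_cases hact : Act F m
  · obtain ⟨x0, hx0, h0⟩ := hact
    obtain ⟨S, hS, hSm⟩ := missY hF hT m x0 hx0 h0
    have hx0v : x0 ≠ v := h0.ne'
    have hdis : Disjoint S (S2 ∪ S3) := by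
      rw [Finset.disjoint_left]
      intro e he1 he2
      obtain ⟨-, b, -, hb⟩ := hSm e he1
      rw [Finset.mem_union, hS2, hS3, Finset.mem_image, Finset.mem_image] at he2
      rcases he2 with ⟨a, -, rfl⟩ | ⟨a, -, rfl⟩ <;> rcases hb with hb | hb <;>
        simp [Sym2.eq_iff] at hb
    have key := gain h (mk_le (D := D) (E := YE m) hF g1 g2) hfree (Rem F m ∪ A2) (S ∪ (S2 ∪ S3))
      hA (by
        intro e he
        rw [Finset.mem_coe, Finset.mem_union] at he
        rcases he with he | he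
        · obtain ⟨h1, b, hb, hb2⟩ := hSm e he
          refine ⟨?_, h1⟩
          rcases hb2 with rfl | rfl
          · exact mk_v (Or.inl ⟨b, hb, rfl⟩) (by simp)
          · have hne : y m b ≠ x0 := by
              rcases hx0 with ⟨a, rfl⟩ | ⟨a, rfl⟩ <;> simp
            refine mk_e ⟨⟨b, rfl⟩, hx0v, ?_⟩ (by simp) hx0v hne
            have k1 := hF h0
            rw [G, fromRel_adj] at k1 ⊢
            rcases hx0 with ⟨a, rfl⟩ | ⟨a, rfl⟩
            · simp [R] at k1 ⊢
              exact ⟨k1, hb⟩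
            · simp [R] at k1 ⊢
              exact ⟨k1, hb⟩
        · exact hS23 e he)
    rw [Finset.card_union_of_disjoint hdis, Finset.card_union_of_disjoint d23, hS, c2, c3] at key
    omega
  · have e1 : (XP F m).card = 0 := by
      rw [Finset.card_eq_zero, Finset.eq_empty_iff_forall_notMem]
      intro a ha
      exact hact ⟨_, Or.inl ⟨a, rfl⟩, (Finset.mem_filter.1 ha).2⟩
    have e2 : (XQ F m).card = 0 := by
      rw [Finset.card_eq_zero, Finset.eq_empty_iff_forall_notMem]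
      intro a ha
      exact hact ⟨_, Or.inr ⟨a, rfl⟩, (Finset.mem_filter.1 ha).2⟩
    have key := gain h (mk_le (D := D) (E := YE m) hF g1 g2) hfree (Rem F m ∪ A2) (S2 ∪ S3) hA
      (fun e he => hS23 e he)
    rw [Finset.card_union_of_disjoint d23, c2, c3] at key
    omega

end T3

open T3 in
theorem k3 : StmK3 := by
  intro hgood
  obtain ⟨F, h⟩ := hgood HV G
  by_cases hex : ∃ m, Act F m
  · obtain ⟨m, hm⟩ := hex
    refine step3 h m fun j hj hact => ?_
    rcases lt_or_gt_of_ne hj with hlt | hlt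
    · exact act2 h hlt hact hm
    · exact act2 h hlt hm hact
  · push Not at hex
    exact step3 h 0 fun j _ => hex j

end Pool.Agent.R709.SM
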