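import Pool.Agent.R709.SM.Stm

/-! SM-Kn: if `K_n` is bad then `K_(n+1)` is bad. -/

namespace Pool.Agent.R709.SM

open SimpleGraph

namespace KStep

lemma top_cont {n : ℕ} {V : Type} {F : SimpleGraph V} :
    ((⊤ : SimpleGraph (Fin n)) ⊑ F) ↔ ∃ f : Fin n → V, ∀ i j, i ≠ j → F.Adj (f i) (f j) := by
  constructor
  · rintro ⟨φ⟩
    exact ⟨φ, fun i j hij => φ.toHom.map_adj ((top_adj i j).2 hij)⟩
  · rintro ⟨f, hf⟩
    refine ⟨⟨⟨f, ?_⟩, ?_⟩⟩
    · intro i j hij
      exact hf i j ((top_adj i j).1 hij)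
    · intro i j hij
      by_contra hne
      have h1 := hf i j hne
      change f i = f j at hij
      rw [hij] at h1
      exact h1.ne rfl

/-- `G` on `V`, and hubs `q` adjacent to the `v` with `P v q` -/
def hubG {V Q : Type} (G : SimpleGraph V) (P : V → Q → Prop) : SimpleGraph (V ⊕ Q) where
  Adj := fun x y => match x, y with
    | Sum.inl a, Sum.inl b => G.Adj a b
    | Sum.inl a, Sum.inr q => P a q
    | Sum.inr q, Sum.inl a => P a q
    | Sum.inr _, Sum.inr _ => False
  symm := by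
    constructor
    rintro (a | q) (b | r) h
    · exact SimpleGraph.Adj.symm (G := G) h
    · exact h
    · exact h
    · exact h
  loopless := by
    constructor
    rintro (a | q) h
    · exact G.loopless.irrefl a h
    · exact h

lemma hub_free {V Q : Type} {n : ℕ} (J : SimpleGraph V) (P : V → Q → Prop)
    (hJ : ¬ ((⊤ : SimpleGraph (Fin n)) ⊑ J)) :
    ¬ ((⊤ : SimpleGraph (Fin (n + 1))) ⊑ hubG J P) := by
  intro h
  obtain ⟨f, hf⟩ := top_cont.1 h
  have h1 : ∃ i₀ : Fin (n + 1), ∀ j, j ≠ i₀ → ∃ a, f j = Sum.inl a := by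
    by_cases h2 : ∃ i q, f i = Sum.inr q
    · obtain ⟨i, q, hi⟩ := h2
      refine ⟨i, fun j hj => ?_⟩
      rcases hfj : f j with a | r
      · exact ⟨a, rfl⟩
      · have := hf j i hj
        rw [hi, hfj] at this
        exact this.elim
    · refine ⟨0, fun j _ => ?_⟩
      rcases hfj : f j with a | r
      · exact ⟨a, rfl⟩
      · exact (h2 ⟨j, r, hfj⟩).elim
  obtain ⟨i₀, hi₀⟩ := h1
  have h3 : ∀ k : Fin n, ∃ a, f (i₀.succAbove k) = Sum.inl a := fun k =>
    hi₀ _ (Fin.succAbove_ne i₀ k)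
  choose g hg using h3
  apply hJ
  rw [top_cont]
  refine ⟨g, fun i j hij => ?_⟩
  have := hf (i₀.succAbove i) (i₀.succAbove j) (fun h => hij (Fin.succAbove_right_injective h))
  rw [hg, hg] at this
  exact this

lemma sdiff_image {V Q : Type} {J F : SimpleGraph V} {F₁ F₂ : SimpleGraph (V ⊕ Q)}
    (h1 : ∀ a b, F₁.Adj (Sum.inl a) (Sum.inl b) ↔ J.Adj a b)
    (h2 : ∀ a b, F₂.Adj (Sum.inl a) (Sum.inl b) ↔ F.Adj a b)
    (h3 : ∀ a q, F₁.Adj (Sum.inl a) (Sum.inr q) ↔ F₂.Adj (Sum.inl a) (Sum.inr q))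
    (h4 : ∀ q r, ¬ F₁.Adj (Sum.inr q) (Sum.inr r)) :
    F₁.edgeSet \ F₂.edgeSet = Sym2.map Sum.inl '' (J.edgeSet \ F.edgeSet) := by
  have hinj : Function.Injective (Sym2.map (Sum.inl : V → V ⊕ Q)) :=
    Sym2.map.injective Sum.inl_injective
  have hno : ∀ (x : V ⊕ Q) (q : Q), s(x, Sum.inr q) ∉ Sym2.map Sum.inl '' (J.edgeSet \ F.edgeSet) := by
    rintro x q ⟨e, -, he⟩
    have h5 : Sum.inr q ∈ Sym2.map (Sum.inl : V → V ⊕ Q) e := by
      rw [he]; exact Sym2.mem_mk_right _ _
    rw [Sym2.mem_map] at h5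
    obtain ⟨a, -, ha⟩ := h5
    cases ha
  ext e
  induction e using Sym2.ind with
  | _ x y =>
    rcases x with a | q <;> rcases y with b | r
    · have : s((Sum.inl a : V ⊕ Q), Sum.inl b) = Sym2.map Sum.inl s(a, b) := rfl
      rw [this, hinj.mem_set_image, ← this]
      simp only [Set.mem_sdiff, mem_edgeSet, h1, h2]
    · simp only [Set.mem_sdiff, mem_edgeSet, h3, and_not_self, false_iff]
      exact hno _ _
    · rw [Sym2.eq_swap]
      simp only [Set.mem_sdiff, mem_edgeSet, h3, and_not_self, false_iff]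
      exact hno _ _
    · constructor
      · rintro ⟨h, -⟩
        exact (h4 _ _ h).elim
      · intro h
        exact (hno _ _ h).elim

end KStep

open KStep in
theorem kstep : StmKStep := by
  intro n hn hbad hgood
  apply hbad
  intro V G
  obtain ⟨F', hF'⟩ := hgood (V ⊕ Set (V ⊕ ℕ)) (hubG G (fun _ _ => True))
  have hle := hF'.1
  -- some hub has all its edges
  have hub : ∃ q : Set (V ⊕ ℕ), ∀ v : V, F'.Adj (Sum.inl v) (Sum.inr q) := by
    by_contra hcon
    push Not at hcon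
    choose w hw using hcon
    have hI : hubG (Q := Set (V ⊕ ℕ)) (⊥ : SimpleGraph V) (fun _ _ => True) ≤
        hubG G (fun _ _ => True) := by
      rintro (a | q) (b | r) h
      · exact (h : (⊥ : SimpleGraph V).Adj a b).elim
      · exact h
      · exact h
      · exact h
    have hfree : ¬ ((⊤ : SimpleGraph (Fin (n + 1))) ⊑
        hubG (Q := Set (V ⊕ ℕ)) (⊥ : SimpleGraph V) (fun _ _ => True)) := by
      apply hub_free
      intro h
      obtain ⟨f, hf⟩ := top_cont.1 h
      exact hf ⟨0, by omega⟩ ⟨1, by omega⟩ (by simp)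
    have h1 := hF'.2.2 _ hI hfree
    have h2 : Cardinal.mk (Set (V ⊕ ℕ)) ≤
        Cardinal.mk ↥((hubG (Q := Set (V ⊕ ℕ)) (⊥ : SimpleGraph V)
          (fun _ _ => True)).edgeSet \ F'.edgeSet) := by
      refine Cardinal.mk_le_of_injective (f := fun q => ⟨s(Sum.inl (w q), Sum.inr q), ?_⟩) ?_
      · refine ⟨?_, ?_⟩
        · rw [mem_edgeSet]
          trivial
        · rw [mem_edgeSet]
          exact hw q
      · intro q r hqr
        have hqr' := congrArg Subtype.val hqr
        change s((Sum.inl (w q) : V ⊕ Set (V ⊕ ℕ)), Sum.inr q) = s(Sum.inl (w r), Sum.inr r)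
          at hqr'
        rcases Sym2.eq_iff.1 hqr' with ⟨-, h⟩ | ⟨h, -⟩
        · exact Sum.inr_injective h
        · cases h
    have h3 : Cardinal.mk ↥(F'.edgeSet \ (hubG (Q := Set (V ⊕ ℕ)) (⊥ : SimpleGraph V)
          (fun _ _ => True)).edgeSet) ≤ Cardinal.mk (V × V) := by
      have h4 : F'.edgeSet \ (hubG (Q := Set (V ⊕ ℕ)) (⊥ : SimpleGraph V)
          (fun _ _ => True)).edgeSet ⊆
          Set.range (fun p : V × V => s((Sum.inl p.1 : V ⊕ Set (V ⊕ ℕ)), Sum.inl p.2)) := by
        intro e he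
        induction e using Sym2.ind with
        | _ x y =>
          obtain ⟨he1, he2⟩ := he
          rw [mem_edgeSet] at he1 he2
          rcases x with a | q <;> rcases y with b | r
          · exact ⟨(a, b), rfl⟩
          · exact (he2 trivial).elim
          · exact (he2 trivial).elim
          · exact (hle he1).elim
      exact (Cardinal.mk_le_mk_of_subset h4).trans Cardinal.mk_range_le
    have h5 : Cardinal.mk (V × V) < Cardinal.mk (Set (V ⊕ ℕ)) := by
      have h6 : Cardinal.mk (V × V) ≤ Cardinal.mk ((V ⊕ ℕ) × (V ⊕ ℕ)) :=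
        Cardinal.mk_le_of_injective (f := fun p => (Sum.inl p.1, Sum.inl p.2)) (by
          rintro ⟨a, b⟩ ⟨c, d⟩ h
          simpa using h)
      have h7 : Cardinal.mk ((V ⊕ ℕ) × (V ⊕ ℕ)) = Cardinal.mk (V ⊕ ℕ) := by
        rw [Cardinal.mk_prod, Cardinal.lift_id, Cardinal.mul_eq_self]
        exact Cardinal.infinite_iff.1 inferInstance
      rw [h7] at h6
      refine lt_of_le_of_lt h6 ?_
      rw [Cardinal.mk_set]
      exact Cardinal.cantor _
    exact absurd (h2.trans (h1.trans h3)) (not_le.2 h5)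
  obtain ⟨q₀, hq₀⟩ := hub
  refine ⟨F'.comap Sum.inl, ?_, ?_, ?_⟩
  · intro a b hab
    exact hle hab
  · intro h
    obtain ⟨f, hf⟩ := top_cont.1 h
    apply hF'.2.1
    rw [top_cont]
    refine ⟨Fin.cons (Sum.inr q₀) (fun i => Sum.inl (f i)), fun i j hij => ?_⟩
    rcases Fin.eq_zero_or_eq_succ i with rfl | ⟨i, rfl⟩ <;>
      rcases Fin.eq_zero_or_eq_succ j with rfl | ⟨j, rfl⟩
    · exact (hij rfl).elim
    · rw [Fin.cons_zero, Fin.cons_succ]
      exact (hq₀ _).symm
    · rw [Fin.cons_zero, Fin.cons_succ]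
      exact hq₀ _
    · rw [Fin.cons_succ, Fin.cons_succ]
      exact hf i j (fun h => hij (by rw [h]))
  · intro J hJG hJfree
    set I : SimpleGraph (V ⊕ Set (V ⊕ ℕ)) :=
      hubG J (fun a q => F'.Adj (Sum.inl a) (Sum.inr q)) with hI
    have hIle : I ≤ hubG G (fun _ _ => True) := by
      rintro (a | q) (b | r) h
      · exact hJG h
      · trivial
      · trivial
      · exact h
    have h1 := hF'.2.2 I hIle (hub_free J _ hJfree)
    have hinj : Function.Injective (Sym2.map (Sum.inl : V → V ⊕ Set (V ⊕ ℕ))) :=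
      Sym2.map.injective Sum.inl_injective
    rw [sdiff_image (J := J) (F := F'.comap Sum.inl) (F₁ := I) (F₂ := F')
        (fun a b => Iff.rfl) (fun a b => Iff.rfl) (fun a q => Iff.rfl) (fun q r h => h),
      sdiff_image (J := F'.comap Sum.inl) (F := J) (F₁ := F') (F₂ := I)
        (fun a b => Iff.rfl) (fun a b => Iff.rfl) (fun a q => Iff.rfl)
        (fun q r h => (hle h).elim),
      Cardinal.mk_image_eq hinj, Cardinal.mk_image_eq hinj] at h1
    exact h1

end Pool.Agent.R709.SM
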