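import Pool.Agent.R709.SM.Stm

/-!
# SM-S (helper139): disconnected star forests are bad
-/

namespace Pool.Agent.R709.SM

open SimpleGraph

namespace Stars

/-- leaves of star `n`. -/
def L (n : ℕ) : Type := (Cardinal.aleph (n : Ordinal.{0})).out

theorem mk_L (n : ℕ) : Cardinal.mk (L n) = Cardinal.aleph (n : Ordinal.{0}) := Cardinal.mk_out _

/-- vertices of the host. -/
abbrev VV : Type := (n : ℕ) × Option (L n)

def ctr (n : ℕ) : VV := ⟨n, none⟩

def lf (n : ℕ) (l : L n) : VV := ⟨n, some l⟩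

theorem ctr_ne_lf (n m : ℕ) (l : L m) : ctr n ≠ lf m l := by
  intro h
  unfold ctr lf at h
  by_cases hnm : n = m
  · subst hnm
    simp at h
  · exact hnm (congrArg Sigma.fst h)

theorem ctr_inj {n m : ℕ} (h : ctr n = ctr m) : n = m := congrArg Sigma.fst h

theorem lf_fst {n m : ℕ} {l : L n} {l' : L m} (h : lf n l = lf m l') : n = m :=
  congrArg Sigma.fst h

theorem lf_inj {n : ℕ} {l l' : L n} (h : lf n l = lf n l') : l = l' := by
  unfold lf at h
  simpa using h

/-- the host. -/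
def GG : SimpleGraph VV where
  Adj x y := ∃ n, ∃ l : L n, (x = ctr n ∧ y = lf n l) ∨ (y = ctr n ∧ x = lf n l)
  symm := ⟨fun _ _ ⟨n, l, h⟩ => ⟨n, l, h.symm⟩⟩
  loopless := ⟨by
    rintro x ⟨n, l, ⟨h1, h2⟩ | ⟨h1, h2⟩⟩
    · exact ctr_ne_lf n n l (h1.symm.trans h2)
    · exact ctr_ne_lf n n l (h1.symm.trans h2)⟩

/-- a single star. -/
def St (m : ℕ) : SimpleGraph VV where
  Adj x y := ∃ l : L m, (x = ctr m ∧ y = lf m l) ∨ (y = ctr m ∧ x = lf m l)
  symm := ⟨fun _ _ ⟨l, h⟩ => ⟨l, h.symm⟩⟩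
  loopless := ⟨by
    rintro x ⟨l, ⟨h1, h2⟩ | ⟨h1, h2⟩⟩
    · exact ctr_ne_lf m m l (h1.symm.trans h2)
    · exact ctr_ne_lf m m l (h1.symm.trans h2)⟩

theorem St_le (m : ℕ) : St m ≤ GG := by
  rintro x y ⟨l, h⟩
  exact ⟨m, l, h⟩

theorem St_ctr {m : ℕ} {x y : VV} (h : (St m).Adj x y) : x = ctr m ∨ y = ctr m := by
  obtain ⟨l, ⟨h, _⟩ | ⟨h, _⟩⟩ := h
  · exact Or.inl h
  · exact Or.inr h

/-- the leaves of star `n` joined to its centre in `F`. -/
def lv (F : SimpleGraph VV) (n : ℕ) : Set (L n) := {l | F.Adj (ctr n) (lf n l)}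

theorem embed {W : Type} [Finite W] (H : SimpleGraph W) (hH : ¬ HasCoreEdge H)
    (F : SimpleGraph VV) (β : W → ℕ) (hβ : Function.Injective β)
    (ι : (n : ℕ) → W → L n) (hι : ∀ w, Function.Injective (ι (β w)))
    (hF : ∀ w w', F.Adj (ctr (β w)) (lf (β w) (ι (β w) w'))) : H ⊑ F := by
  classical
  obtain ⟨N, ⟨en⟩⟩ := Finite.exists_equiv_fin W
  -- centres
  set Z : Set W := {w | w ∈ core H ∨ ∀ w', H.Adj w w' → w' ∉ core H ∧ en w < en w'} with hZ
  have uniq : ∀ w, w ∉ core H → ∀ a b, H.Adj w a → H.Adj w b → a = b := by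
    intro w hw a b ha hb
    by_contra hab
    exact hw ⟨a, b, hab, ha, hb⟩
  have hcore : ∀ w w', H.Adj w w' → w ∈ core H → w' ∉ core H := fun w w' h h1 h2 =>
    hH ⟨w, w', h1, h2, h⟩
  have hx : ∀ w w', H.Adj w w' → w ∈ Z → w' ∉ Z := by
    intro w w' h hw hw'
    rcases hw with hw | hw
    · rcases hw' with hw' | hw'
      · exact hcore _ _ h hw hw'
      · exact (hw' w h.symm).1 hw
    · rcases hw' with hw' | hw'
      · exact (hw w' h).1 hw'
      · exact absurd ((hw w' h).2.trans (hw' w h.symm).2) (lt_irrefl _)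
  have ho : ∀ w w', H.Adj w w' → w ∉ Z → w' ∈ Z := by
    intro w w' h hw
    by_contra hw'
    have h1 : w ∉ core H := fun h => hw (Or.inl h)
    have h2 : w' ∉ core H := fun h => hw' (Or.inl h)
    have h3 : ¬ en w < en w' := by
      intro hlt
      apply hw
      right
      intro a ha
      rw [uniq w h1 a w' ha h]
      exact ⟨h2, hlt⟩
    have h4 : ¬ en w' < en w := by
      intro hlt
      apply hw'
      right
      intro a ha
      rw [uniq w' h2 a w ha h.symm]
      exact ⟨h1, hlt⟩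
    exact h.ne (en.injective (le_antisymm (not_lt.1 h4) (not_lt.1 h3)))
  have hn : ∀ w, w ∉ Z → ∃ w', H.Adj w w' := by
    intro w hw
    by_contra h
    push Not at h
    exact hw (Or.inr fun w' hw' => absurd hw' (h w'))
  choose! c hc using hn
  let f : W → VV := fun w => if w ∈ Z then ctr (β w) else lf (β (c w)) (ι (β (c w)) w)
  have f1 : ∀ w, w ∈ Z → f w = ctr (β w) := fun w hw => if_pos hw
  have f2 : ∀ w, w ∉ Z → f w = lf (β (c w)) (ι (β (c w)) w) := fun w hw => if_neg hw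
  have hcu : ∀ w w', H.Adj w w' → w ∈ Z → c w' = w := by
    intro w w' h hw
    have hw' := hx w w' h hw
    exact uniq w' (fun h => hw' (Or.inl h)) _ _ (hc w' hw') h.symm
  have hadj : ∀ w w', H.Adj w w' → w ∈ Z → F.Adj (f w) (f w') := by
    intro w w' h hw
    have hw' := hx w w' h hw
    rw [f1 w hw, f2 w' hw', hcu w w' h hw]
    exact hF w w'
  refine ⟨⟨⟨f, ?_⟩, ?_⟩⟩
  · intro w w' h
    by_cases hw : w ∈ Z
    · exact hadj w w' h hw
    · exact (hadj w' w h.symm (ho w w' h hw)).symm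
  · intro w w' h
    change f w = f w' at h
    by_cases hw : w ∈ Z <;> by_cases hw' : w' ∈ Z
    · rw [f1 w hw, f1 w' hw'] at h
      exact hβ (ctr_inj h)
    · rw [f1 w hw, f2 w' hw'] at h
      exact absurd h (ctr_ne_lf _ _ _)
    · rw [f2 w hw, f1 w' hw'] at h
      exact absurd h.symm (ctr_ne_lf _ _ _)
    · rw [f2 w hw, f2 w' hw'] at h
      have e : c w = c w' := hβ (lf_fst h)
      rw [e] at h
      exact hι (c w') (lf_inj h)

/-- the edge map. -/
def ed (x : (n : ℕ) × L n) : Sym2 VV := s(ctr x.1, lf x.1 x.2)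

theorem edge_form {F : SimpleGraph VV} (hF : F ≤ GG) {e : Sym2 VV} (he : e ∈ F.edgeSet) :
    ∃ n, ∃ l ∈ lv F n, e = s(ctr n, lf n l) := by
  induction e using Sym2.ind with
  | _ x y =>
    rw [mem_edgeSet] at he
    obtain ⟨n, l, ⟨rfl, rfl⟩ | ⟨rfl, rfl⟩⟩ := hF he
    · exact ⟨n, l, he, rfl⟩
    · exact ⟨n, l, he.symm, Sym2.eq_swap⟩

end Stars

open Stars in
theorem stars : StmStars := by
  classical
  intro W _ H hH h2 hgood
  obtain ⟨F, hFG, hFH, hFm⟩ := hgood VV GG
  set N : ℕ := Nat.card W with hN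
  -- the big stars
  set Big : Set ℕ := {n | (N : Cardinal) ≤ Cardinal.mk (lv F n)} with hBig
  have hBfin : Big.Finite := by
    by_contra hinf
    have hinf' : Big.Infinite := hinf
    apply hFH
    haveI : Infinite Big := hinf'.to_subtype
    obtain ⟨N', ⟨en⟩⟩ := Finite.exists_equiv_fin W
    let β' : ℕ ↪ Big := Infinite.natEmbedding Big
    let β : W → ℕ := fun w => (β' (en w : ℕ) : ℕ)
    have hβ : Function.Injective β := by
      intro w w' h
      have h1 : β' (en w : ℕ) = β' (en w' : ℕ) := Subtype.ext h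
      exact en.injective (Fin.ext (β'.injective h1))
    have hι : ∀ n, ∃ g : W → L n, n ∈ Big → Function.Injective g ∧ ∀ w, g w ∈ lv F n := by
      intro n
      by_cases hn : n ∈ Big
      · have h1 : Cardinal.mk W ≤ Cardinal.mk (lv F n) := by
          have : Cardinal.mk W = (N : Cardinal) := by
            rw [hN]
            exact (Nat.cast_card (α := W)).symm
          rw [this]
          exact hn
        obtain ⟨g⟩ := h1
        exact ⟨fun w => (g w : L n), fun _ => ⟨fun a b h => g.injective (Subtype.ext h),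
          fun w => (g w).2⟩⟩
      · have : Nonempty (L n) := by
          rw [← Cardinal.mk_ne_zero_iff, mk_L]
          exact (Cardinal.aleph_pos _).ne'
        exact ⟨fun _ => Classical.arbitrary _, fun h => absurd h hn⟩
    choose ι hι using hι
    exact embed H hH F β hβ ι (fun w => (hι _ (β' _).2).1) (fun w w' => (hι _ (β' _).2).2 w')
  obtain ⟨n0, hn0⟩ := hBfin.bddAbove
  have hlv : ∀ n, Cardinal.mk (lv F n) ≤ Cardinal.aleph (n0 : Ordinal.{0}) := by
    intro n
    by_cases hn : n ∈ Big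
    · refine (Cardinal.mk_set_le _).trans ?_
      rw [mk_L, Cardinal.aleph_le_aleph]
      exact_mod_cast hn0 hn
    · rw [hBig, Set.mem_setOf_eq, not_le] at hn
      exact (hn.le.trans (Cardinal.natCast_lt_aleph0 (n := N)).le).trans (Cardinal.aleph0_le_aleph _)
  have hFc : Cardinal.mk F.edgeSet ≤ Cardinal.aleph (n0 : Ordinal.{0}) := by
    have h1 : F.edgeSet ⊆ Set.range (fun x : (n : ℕ) × (lv F n) => s(ctr x.1, lf x.1 x.2)) := by
      intro e he
      obtain ⟨n, l, hl, rfl⟩ := edge_form hFG he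
      exact ⟨⟨n, ⟨l, hl⟩⟩, rfl⟩
    refine (Cardinal.mk_le_mk_of_subset h1).trans (Cardinal.mk_range_le.trans ?_)
    rw [Cardinal.mk_sigma]
    refine (Cardinal.sum_le_sum _ _ hlv).trans ?_
    rw [Cardinal.sum_const', Cardinal.mk_nat]
    exact (Cardinal.aleph0_mul_aleph _).le
  set m : ℕ := n0 + 1 with hm
  have hfree : ¬ (H ⊑ St m) := by
    rintro ⟨φ⟩
    obtain ⟨a, b, c, d, hab, hcd, hac, had, hbc, hbd⟩ := h2
    have h1 := St_ctr (φ.toHom.map_adj hab)
    have h3 := St_ctr (φ.toHom.map_adj hcd)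
    rcases h1 with h1 | h1 <;> rcases h3 with h3 | h3
    · exact hac (φ.injective (h1.trans h3.symm))
    · exact had (φ.injective (h1.trans h3.symm))
    · exact hbc (φ.injective (h1.trans h3.symm))
    · exact hbd (φ.injective (h1.trans h3.symm))
  have h3 := hFm (St m) (St_le m) hfree
  have h4 : Cardinal.mk ↥((St m).edgeSet \ F.edgeSet) ≤ Cardinal.aleph (n0 : Ordinal.{0}) :=
    h3.trans ((Cardinal.mk_le_mk_of_subset Set.sdiff_subset).trans hFc)
  have h5 : Cardinal.mk (St m).edgeSet ≤ Cardinal.aleph (n0 : Ordinal.{0}) := by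
    have h6 : (St m).edgeSet ⊆ ((St m).edgeSet \ F.edgeSet) ∪ F.edgeSet := by
      intro e he
      by_cases h : e ∈ F.edgeSet
      · exact Or.inr h
      · exact Or.inl ⟨he, h⟩
    refine (Cardinal.mk_le_mk_of_subset h6).trans ((Cardinal.mk_union_le _ _).trans ?_)
    refine (add_le_add h4 hFc).trans ?_
    rw [Cardinal.add_eq_self (Cardinal.aleph0_le_aleph _)]
  have h7 : Cardinal.mk (L m) ≤ Cardinal.mk (St m).edgeSet := by
    refine Cardinal.mk_le_of_injective
      (f := fun l : L m => (⟨s(ctr m, lf m l), ?_⟩ : (St m).edgeSet)) ?_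
    · rw [mem_edgeSet]
      exact ⟨l, Or.inl ⟨rfl, rfl⟩⟩
    · intro l l' h
      have h8 : s(ctr m, lf m l) = s(ctr m, lf m l') := congrArg Subtype.val h
      rw [Sym2.eq_iff] at h8
      rcases h8 with h8 | h8
      · exact lf_inj h8.2
      · exact absurd h8.1 (ctr_ne_lf _ _ _)
  have h8 := h7.trans h5
  rw [mk_L, Cardinal.aleph_le_aleph] at h8
  have h9 : m ≤ n0 := by exact_mod_cast h8
  omega

end Pool.Agent.R709.SM
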