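import Pool.Agent.R709.SM.Stm

/-! SM-T: trees of diameter 3 or 4 -/

set_option autoImplicit false

namespace Pool.Agent.R709.SM

open SimpleGraph

namespace Treeaux

variable {W : Type}

structure Ctr (H : SimpleGraph W) (c : W) : Prop where
  tf : ∀ x y, H.Adj c x → H.Adj c y → ¬ H.Adj x y
  lf : ∀ w, w ≠ c → ¬ H.Adj c w → ∃ x, H.Adj c x ∧ H.Adj x w ∧ ∀ y, H.Adj w y → y = x

lemma Ctr.uniq {H : SimpleGraph W} {c : W} (h : Ctr H c) {x y w : W} (hx : H.Adj c x)
    (hxw : H.Adj x w) (hw : w ≠ c) (hy : H.Adj w y) : y = x := by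
  have h1 : ¬ H.Adj c w := fun h2 => h.tf x w hx h2 hxw
  obtain ⟨z, _, _, hz⟩ := h.lf w hw h1
  rw [hz y hy, hz x hxw.symm]

lemma iso_of_ctr [Finite W] (H : SimpleGraph W) (c : W) (h : Ctr H c) :
    ∃ (D : ℕ) (ℓ : Fin D → ℕ) (e : {x // H.Adj c x} ≃ Fin D), Nonempty (H ≃g Sp D ℓ) ∧
      ∀ b w, H.Adj (e.symm b : W) w → w ≠ c → 1 ≤ ℓ b := by
  classical
  obtain ⟨D, ⟨e⟩⟩ := Finite.exists_equiv_fin {x // H.Adj c x}
  let L : Fin D → Type := fun b => {w // H.Adj (e.symm b : W) w ∧ w ≠ c}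
  let ℓ : Fin D → ℕ := fun b => Nat.card (L b)
  let E : ∀ b, L b ≃ Fin (ℓ b) := fun b => Finite.equivFin (L b)
  let f : SpV D ℓ → W := fun v => match v with
    | none => c
    | some ⟨b, none⟩ => (e.symm b : W)
    | some ⟨b, some j⟩ => ((E b).symm j : W)
  have hc : ∀ b, H.Adj c (e.symm b : W) := fun b => (e.symm b).2
  have hl : ∀ b j, H.Adj (e.symm b : W) ((E b).symm j : W) := fun b j => ((E b).symm j).2.1
  have hlc : ∀ b j, ((E b).symm j : W) ≠ c := fun b j => ((E b).symm j).2.2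
  have hnc : ∀ b j, ¬ H.Adj c ((E b).symm j : W) := fun b j h2 =>
    h.tf _ _ (hc b) h2 (hl b j)
  have hu : ∀ b j y, H.Adj ((E b).symm j : W) y → y = (e.symm b : W) := fun b j y hy =>
    h.uniq (hc b) (hl b j) (hlc b j) hy
  have einj : ∀ b b', (e.symm b : W) = (e.symm b' : W) → b = b' := fun b b' hb =>
    e.symm.injective (Subtype.ext hb)
  have finj : Function.Injective f := by
    intro u v huv
    change f u = f v at huv
    rcases u with _ | ⟨b, _ | j⟩ <;> rcases v with _ | ⟨b', _ | j'⟩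
    · rfl
    · exact absurd huv (hc b').ne
    · exact absurd huv.symm (hlc b' j')
    · exact absurd huv.symm (hc b).ne
    · have := einj b b' huv
      subst this; rfl
    · exfalso
      have h1 : (e.symm b : W) = ((E b').symm j' : W) := huv
      exact hnc b' j' (h1 ▸ hc b)
    · exact absurd huv (hlc b j)
    · exfalso
      have h1 : ((E b).symm j : W) = (e.symm b' : W) := huv
      exact hnc b j (h1 ▸ hc b')
    · have h1 : ((E b).symm j : W) = ((E b').symm j' : W) := huv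
      have h2 : (e.symm b' : W) = (e.symm b : W) := hu b j _ (h1 ▸ (hl b' j').symm)
      have h3 := einj _ _ h2
      subst h3
      have h4 : j = j' := (E b').symm.injective (Subtype.ext h1)
      subst h4; rfl
  have fsurj : Function.Surjective f := by
    intro w
    by_cases h1 : w = c
    · exact ⟨none, h1.symm⟩
    · by_cases h2 : H.Adj c w
      · refine ⟨some ⟨e ⟨w, h2⟩, none⟩, ?_⟩
        change ((e.symm (e ⟨w, h2⟩) : {x // H.Adj c x}) : W) = w
        rw [e.symm_apply_apply]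
      · obtain ⟨x, hx, hxw, _⟩ := h.lf w h1 h2
        have h3 : (e.symm (e ⟨x, hx⟩) : W) = x := by rw [e.symm_apply_apply]
        refine ⟨some ⟨e ⟨x, hx⟩, some (E _ ⟨w, by rw [h3]; exact ⟨hxw, h1⟩⟩)⟩, ?_⟩
        exact congrArg Subtype.val ((E (e ⟨x, hx⟩)).symm_apply_apply
          ⟨w, by rw [h3]; exact ⟨hxw, h1⟩⟩)
  have hrel : ∀ u v, SpRel D ℓ u v → H.Adj (f u) (f v) := by
    rintro u v (⟨b⟩ | ⟨b, j⟩)
    · exact hc b
    · exact hl b j
  refine ⟨D, ℓ, e, ⟨⟨(Equiv.ofBijective f ⟨finj, fsurj⟩).symm, ?_⟩⟩, ?_⟩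
  · intro x y
    obtain ⟨u, rfl⟩ := fsurj x
    obtain ⟨v, rfl⟩ := fsurj y
    have e1 : ∀ u, (Equiv.ofBijective f ⟨finj, fsurj⟩).symm (f u) = u := fun u =>
      (Equiv.ofBijective f ⟨finj, fsurj⟩).symm_apply_apply u
    rw [e1, e1]
    constructor
    · intro huv
      rw [Sp, fromRel_adj] at huv
      rcases huv.2 with h1 | h1
      · exact hrel _ _ h1
      · exact (hrel _ _ h1).symm
    · intro huv
      rcases u with _ | ⟨b, _ | j⟩ <;> rcases v with _ | ⟨b', _ | j'⟩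
      · exact absurd rfl huv.ne
      · exact sp_adj_cb b'
      · exact absurd huv (hnc b' j')
      · exact (sp_adj_cb b).symm
      · exact absurd huv (h.tf _ _ (hc b) (hc b'))
      · have h2 : (e.symm b : W) = (e.symm b' : W) := hu b' j' _ huv.symm
        have h3 := einj _ _ h2
        subst h3
        exact sp_adj_bl _ j'
      · exact absurd huv.symm (hnc b j)
      · have h2 : (e.symm b' : W) = (e.symm b : W) := hu b j _ huv
        have h3 := einj _ _ h2
        subst h3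
        exact (sp_adj_bl _ j).symm
      · exfalso
        have h2 : ((E b').symm j' : W) = (e.symm b : W) := hu b j _ huv
        exact hnc b' j' (h2 ▸ hc b)
  · intro b w hw hwc
    have : Nonempty (L b) := ⟨⟨w, hw, hwc⟩⟩
    exact Nat.card_pos

lemma card_eq [Finite W] {H : SimpleGraph W} {D : ℕ} {ℓ : Fin D → ℕ} (φ : H ≃g Sp D ℓ) :
    Nat.card W = 1 + D + ∑ b, ℓ b := by
  rw [Nat.card_congr φ.toEquiv, Nat.card_eq_fintype_card, Fintype.card_option,
    Fintype.card_sigma]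
  simp only [Fintype.card_option, Fintype.card_fin]
  rw [Finset.sum_add_distrib]
  simp
  ring

/-- degrees of adjacent vertices in a triangle free graph -/
lemma deg_add [Finite W] {H : SimpleGraph W} {c c' : W} (hc : Ctr H c) (h : H.Adj c c')
    {D D' : ℕ} (e : {x // H.Adj c x} ≃ Fin D) (e' : {x // H.Adj c' x} ≃ Fin D') :
    D + D' ≤ Nat.card W := by
  have h1 : Nat.card {x // H.Adj c x} = D := by rw [Nat.card_congr e]; simp
  have h2 : Nat.card {x // H.Adj c' x} = D' := by rw [Nat.card_congr e']; simp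
  rw [← h1, ← h2, ← Nat.card_sum]
  refine Nat.card_le_card_of_injective (fun s : {x // H.Adj c x} ⊕ {x // H.Adj c' x} =>
    match s with
    | .inl x => (x : W)
    | .inr x => (x : W)) ?_
  rintro (x | x) (y | y) hxy
  · exact congrArg Sum.inl (Subtype.ext hxy)
  · exfalso
    have h3 : (x : W) = y := hxy
    exact hc.tf x c' x.2 h (h3 ▸ y.2.symm)
  · exfalso
    have h3 : (x : W) = y := hxy
    exact hc.tf y c' y.2 h (h3 ▸ x.2.symm)
  · exact congrArg Sum.inr (Subtype.ext hxy)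

lemma no_tri {H : SimpleGraph W} (hA : H.IsAcyclic) {x y z : W} (hxy : H.Adj x y)
    (hxz : H.Adj x z) (hyz : H.Adj y z) : False := by
  have q1 : (Walk.cons hyz Walk.nil : H.Walk y z).IsPath := by
    simp [hyz.ne]
  have q2 : (Walk.cons hxy.symm (Walk.cons hxz Walk.nil) : H.Walk y z).IsPath := by
    simp [hyz.ne, hxz.ne, hxy.ne.symm]
  have h1 := hA.path_unique ⟨_, q1⟩ ⟨_, q2⟩
  have h2 := congrArg (fun p : H.Path y z => p.1.length) h1
  simp at h2

lemma two_le [Finite W] {H : SimpleGraph W} {c : W} (hc : c ∈ core H) {D : ℕ}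
    (e : {x // H.Adj c x} ≃ Fin D) : 2 ≤ D := by
  obtain ⟨a, b, hab, ha, hb⟩ := hc
  by_contra hlt
  have h1 : (e ⟨a, ha⟩).1 < D := (e ⟨a, ha⟩).2
  have h2 : (e ⟨b, hb⟩).1 < D := (e ⟨b, hb⟩).2
  have h3 : e ⟨a, ha⟩ = e ⟨b, hb⟩ := Fin.ext (by omega)
  have h4 := e.injective h3
  exact hab (congrArg Subtype.val h4)

end Treeaux

open Treeaux in
theorem tree : StmTree := by
  intro W _ H hT hcore hnc
  have hK : ∀ x y : W, x ∈ core H → y ∈ core H → H.Adj x y →
      (∃ a, a ∈ core H ∧ a ≠ y ∧ H.Adj x a) → (∃ b, b ∈ core H ∧ b ≠ x ∧ H.Adj y b) → False := by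
    rintro x y hx hy hxy ⟨a, ha, hay, hxa⟩ ⟨b, hb, hbx, hyb⟩
    apply hnc
    refine ⟨⟨x, hx⟩, ⟨y, hy⟩, ⟨⟨y, hy⟩, ⟨a, ha⟩, ?_, hxy, hxa⟩,
      ⟨⟨x, hx⟩, ⟨b, hb⟩, ?_, hxy.symm, hyb⟩, hxy⟩
    · intro h; exact hay (congrArg Subtype.val h).symm
    · intro h; exact hbx (congrArg Subtype.val h).symm
  obtain ⟨c, d, hc, hd, hcd, hdc⟩ : ∃ c d, c ∈ core H ∧ d ∈ core H ∧ H.Adj c d ∧
      ¬ ∃ b, b ∈ core H ∧ b ≠ c ∧ H.Adj d b := by
    obtain ⟨u, v, hu, hv, huv⟩ := hcore
    by_cases h : ∃ b, b ∈ core H ∧ b ≠ u ∧ H.Adj v b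
    · exact ⟨v, u, hv, hu, huv.symm, fun h' => hK u v hu hv huv h' h⟩
    · exact ⟨u, v, hu, hv, huv, h⟩
  have hcw : ∀ w ∈ core H, w ≠ c → H.Adj c w := by
    intro w hw hwc
    obtain ⟨p, hp⟩ := hT.1.exists_isPath c w
    cases p with
    | nil => exact absurd rfl hwc
    | @cons _ x₁ _ h q =>
      cases q with
      | nil => exact h
      | @cons _ x₂ _ h' q' =>
        exfalso
        rw [Walk.cons_isPath_iff] at hp
        obtain ⟨hp1, hp2⟩ := hp
        rw [Walk.cons_isPath_iff] at hp1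
        have hcx2 : c ≠ x₂ := by
          rintro rfl
          apply hp2
          simp
        have hx1 : x₁ ∈ core H := ⟨c, x₂, hcx2, h.symm, h'⟩
        have hx2 : x₂ ∈ core H := by
          cases q' with
          | nil => exact hw
          | @cons _ x₃ _ h'' q'' =>
            refine ⟨x₁, x₃, ?_, h'.symm, h''⟩
            rintro rfl
            apply hp1.2
            simp
        have hdx : d ≠ x₁ := by
          rintro rfl
          exact hdc ⟨x₂, hx2, hcx2.symm, h'⟩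
        exact hK c x₁ hc hx1 h ⟨d, hd, hdx, hcd⟩ ⟨x₂, hx2, hcx2.symm, h'⟩
  have hCtr : Ctr H c := by
    refine ⟨fun x y hx hy hxy => no_tri hT.2 hx hy hxy, ?_⟩
    intro w hwc hw
    have hwn : w ∉ core H := fun h => hw (hcw w h hwc)
    have huniq : ∀ a b, H.Adj w a → H.Adj w b → b = a := by
      intro a b ha hb
      by_contra hne
      exact hwn ⟨b, a, hne, hb, ha⟩
    obtain ⟨p, hp⟩ := hT.1.exists_isPath w c
    cases p with
    | nil => exact absurd rfl hwc
    | @cons _ x _ h q =>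
      refine ⟨x, ?_, h.symm, fun y hy => huniq x y h hy⟩
      cases q with
      | nil => exact absurd h.symm hw
      | @cons _ x₂ _ h' q' =>
        rw [Walk.cons_isPath_iff] at hp
        have hwx2 : w ≠ x₂ := by
          rintro rfl
          apply hp.2
          simp
        have hx : x ∈ core H := ⟨w, x₂, hwx2, h.symm, h'⟩
        have hxc : x ≠ c := by
          rintro rfl
          exact hw h.symm
        exact hcw x hx hxc
  obtain ⟨D, ℓ, e, ⟨φ⟩, hℓ⟩ := iso_of_ctr H c hCtr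
  have hD := two_le hc e
  have hcard := card_eq φ
  by_cases h1 : 2 * D ≤ Nat.card W
  · exact ⟨D, ℓ, ⟨φ⟩, Or.inl ⟨hD, by omega⟩⟩
  by_cases h2 : ∃ b b' : Fin D, b ≠ b' ∧ 1 ≤ ℓ b ∧ 1 ≤ ℓ b'
  · exact ⟨D, ℓ, ⟨φ⟩, Or.inr ⟨h2, by omega⟩⟩
  have hpos : ∀ x (hx : H.Adj c x) w, H.Adj x w → w ≠ c → 1 ≤ ℓ (e ⟨x, hx⟩) := by
    intro x hx w hxw hwc
    exact hℓ (e ⟨x, hx⟩) w (by rw [e.symm_apply_apply]; exact hxw) hwc
  have hdpos : 1 ≤ ℓ (e ⟨d, hcd⟩) := by
    obtain ⟨a, b, hab, ha, hb⟩ := hd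
    by_cases hac : a = c
    · exact hpos d hcd b hb (fun h => hab (hac.trans h.symm))
    · exact hpos d hcd a ha hac
  have hno : ∀ x, H.Adj c x → x ≠ d → ∀ w, H.Adj x w → w = c := by
    intro x hx hxd w hxw
    by_contra hwc
    refine h2 ⟨e ⟨x, hx⟩, e ⟨d, hcd⟩, ?_, hpos x hx w hxw hwc, hdpos⟩
    intro h
    exact hxd (congrArg Subtype.val (e.injective h))
  have hCtr' : Ctr H d := by
    refine ⟨fun x y hx hy hxy => no_tri hT.2 hx hy hxy, ?_⟩
    intro w hwd hw
    have hwc : w ≠ c := by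
      rintro rfl
      exact hw hcd.symm
    have hcw' : H.Adj c w := by
      by_contra hcw'
      obtain ⟨x, hx, hxw, _⟩ := hCtr.lf w hwc hcw'
      have hxd : x ≠ d := by
        rintro rfl
        exact hw hxw
      exact hwc (hno x hx hxd w hxw)
    exact ⟨c, hcd.symm, hcw', fun y hy => hno w hcw' hwd y hy⟩
  obtain ⟨D', ℓ', e', ⟨φ'⟩, _⟩ := iso_of_ctr H d hCtr'
  have hD' := two_le hd e'
  have hcard' := card_eq φ'
  have hadd := deg_add hCtr hcd e e'
  exact ⟨D', ℓ', ⟨φ'⟩, Or.inl ⟨hD', by omega⟩⟩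

end Pool.Agent.R709.SM
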