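import Pool.Agent.R709.SM.Stm

/-! Spider-type trees with many leaves at the centre are bad (project SM, problem MP_fc2b6d_co). -/

set_option autoImplicit false
set_option linter.unusedSimpArgs false

namespace Pool.Agent.R709.SM
namespace T2

open SimpleGraph

inductive Vt (q : ℕ) : Type
  | a (i : ℕ) : Vt q
  | x (n : ℕ) : Vt q
  | y (n : ℕ) (j : Fin q) : Vt q
  | z (n : ℕ) (j : Fin q) (t : ℕ) : Vt q

inductive Ed (q : ℕ) : Type
  | ax (i n : ℕ) : Ed q
  | xy (n : ℕ) (j : Fin q) : Ed q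
  | yz (n : ℕ) (j : Fin q) (t : ℕ) : Ed q

open Vt Ed

variable {q : ℕ}

def ed : Ed q → Sym2 (Vt q)
  | .ax i n => s(.a i, .x n)
  | .xy n j => s(.x n, .y n j)
  | .yz n j t => s(.y n j, .z n j t)

theorem ed_inj : Function.Injective (ed : Ed q → Sym2 (Vt q)) := by
  intro e e' h
  cases e <;> cases e' <;> simp [ed] at h ⊢ <;> tauto

def gr (S : Set (Ed q)) : SimpleGraph (Vt q) := SimpleGraph.fromEdgeSet (ed '' S)

theorem edgeSet_gr (S : Set (Ed q)) : (gr S).edgeSet = ed '' S := by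
  unfold gr
  rw [edgeSet_fromEdgeSet]
  ext e
  constructor
  · exact fun h => h.1
  · intro h
    refine ⟨h, ?_⟩
    obtain ⟨e', _, rfl⟩ := h
    cases e' <;> simp [ed]

theorem adj_a (S : Set (Ed q)) (i : ℕ) (v : Vt q) :
    (gr S).Adj (a i) v ↔ ∃ n, v = x n ∧ ax i n ∈ S := by
  rw [← mem_edgeSet, edgeSet_gr]
  constructor
  · rintro ⟨e, he, h⟩
    cases e with
    | ax i' n =>
      simp [ed, Sym2.eq_iff] at h
      obtain ⟨rfl, rfl⟩ := h
      exact ⟨n, rfl, he⟩
    | xy n j => simp [ed, Sym2.eq_iff] at h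
    | yz n j t => simp [ed, Sym2.eq_iff] at h
  · rintro ⟨n, rfl, h⟩
    exact ⟨_, h, rfl⟩

theorem adj_x (S : Set (Ed q)) (n : ℕ) (v : Vt q) :
    (gr S).Adj (x n) v ↔ (∃ i, v = a i ∧ ax i n ∈ S) ∨ ∃ j, v = y n j ∧ xy n j ∈ S := by
  rw [← mem_edgeSet, edgeSet_gr]
  constructor
  · rintro ⟨e, he, h⟩
    cases e with
    | ax i n' =>
      simp [ed, Sym2.eq_iff] at h
      obtain ⟨rfl, rfl⟩ := h
      exact Or.inl ⟨i, rfl, he⟩
    | xy n' j =>
      simp [ed, Sym2.eq_iff] at h
      obtain ⟨rfl, rfl⟩ := h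
      exact Or.inr ⟨j, rfl, he⟩
    | yz n j t => simp [ed, Sym2.eq_iff] at h
  · rintro (⟨i, rfl, h⟩ | ⟨j, rfl, h⟩)
    · exact ⟨_, h, by simp [ed, Sym2.eq_swap]⟩
    · exact ⟨_, h, rfl⟩

theorem adj_y (S : Set (Ed q)) (n : ℕ) (j : Fin q) (v : Vt q) :
    (gr S).Adj (y n j) v ↔ (v = x n ∧ xy n j ∈ S) ∨ ∃ t, v = z n j t ∧ yz n j t ∈ S := by
  rw [← mem_edgeSet, edgeSet_gr]
  constructor
  · rintro ⟨e, he, h⟩
    cases e with
    | ax i n' => simp [ed, Sym2.eq_iff] at h
    | xy n' j' =>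
      simp [ed, Sym2.eq_iff] at h
      obtain ⟨rfl, rfl, rfl⟩ := h
      exact Or.inl ⟨rfl, he⟩
    | yz n' j' t =>
      simp [ed, Sym2.eq_iff] at h
      obtain ⟨⟨rfl, rfl⟩, rfl⟩ := h
      exact Or.inr ⟨t, rfl, he⟩
  · rintro (⟨rfl, h⟩ | ⟨t, rfl, h⟩)
    · exact ⟨_, h, by simp [ed, Sym2.eq_swap]⟩
    · exact ⟨_, h, rfl⟩

theorem adj_z (S : Set (Ed q)) (n : ℕ) (j : Fin q) (t : ℕ) (v : Vt q) :
    (gr S).Adj (z n j t) v ↔ v = y n j ∧ yz n j t ∈ S := by
  rw [← mem_edgeSet, edgeSet_gr]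
  constructor
  · rintro ⟨e, he, h⟩
    cases e with
    | ax i n' => simp [ed, Sym2.eq_iff] at h
    | xy n' j' => simp [ed, Sym2.eq_iff] at h
    | yz n' j' t' =>
      simp [ed, Sym2.eq_iff] at h
      obtain ⟨rfl, rfl, rfl, rfl⟩ := h
      exact ⟨rfl, he⟩
  · rintro ⟨rfl, h⟩
    exact ⟨_, h, by simp [ed, Sym2.eq_swap]⟩

theorem gr_mono {S S' : Set (Ed q)} (h : S ⊆ S') : gr S ≤ gr S' := by
  rw [← edgeSet_subset_edgeSet, edgeSet_gr, edgeSet_gr]
  exact Set.image_mono h

theorem eq_gr {S : Set (Ed q)} {F : SimpleGraph (Vt q)} (h : F ≤ gr S) :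
    F = gr {e | ed e ∈ F.edgeSet} ∧ {e | ed e ∈ F.edgeSet} ⊆ S := by
  have h1 : F.edgeSet ⊆ ed '' S := by
    rw [← edgeSet_gr]; exact edgeSet_subset_edgeSet.2 h
  constructor
  · rw [← edgeSet_inj, edgeSet_gr]
    ext e
    constructor
    · intro he
      obtain ⟨e', _, rfl⟩ := h1 he
      exact ⟨e', he, rfl⟩
    · rintro ⟨e', he, rfl⟩
      exact he
  · intro e he
    obtain ⟨e', he', h2⟩ := h1 he
    rwa [← ed_inj h2]

section

variable {W : Type} {H : SimpleGraph W} {Gs F : Set (Ed q)}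

theorem nogain (h : SMax H (gr Gs) (gr F)) {I : Set (Ed q)} (hI : I ⊆ Gs)
    (hf : ¬ (H ⊑ gr I)) (hfin : (F \ I).Finite) :
    (I \ F).Finite ∧ (I \ F).ncard ≤ (F \ I).ncard := by
  have h1 := h.no_gain (gr_mono hI) hf
  rw [edgeSet_gr, edgeSet_gr, ← Set.image_sdiff ed_inj, ← Set.image_sdiff ed_inj] at h1
  obtain ⟨h2, h3⟩ := h1 (hfin.image _)
  rw [Set.ncard_image_of_injective _ ed_inj, Set.ncard_image_of_injective _ ed_inj] at h3
  exact ⟨(Set.finite_image_iff ed_inj.injOn).1 h2, h3⟩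

theorem region (h : SMax H (gr Gs) (gr F)) {I : Set (Ed q)} (hI : I ⊆ Gs)
    (hf : ¬ (H ⊑ gr I)) (U : Set (Ed q)) (hU : ∀ e ∉ U, e ∈ F ↔ e ∈ I)
    (hF : (F ∩ U).Finite) (hIf : (I ∩ U).Finite) : (I ∩ U).ncard ≤ (F ∩ U).ncard := by
  have h1 := h.region (gr_mono hI) hf (ed '' U)
  rw [edgeSet_gr, edgeSet_gr, ← Set.image_inter ed_inj, ← Set.image_inter ed_inj] at h1
  have h2 := h1 (by
    intro e he
    constructor
    · rintro ⟨e', h3, rfl⟩
      exact ⟨e', (hU e' fun h4 => he ⟨e', h4, rfl⟩).1 h3, rfl⟩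
    · rintro ⟨e', h3, rfl⟩
      exact ⟨e', (hU e' fun h4 => he ⟨e', h4, rfl⟩).2 h3, rfl⟩) (hF.image _) (hIf.image _)
  rwa [Set.ncard_image_of_injective _ ed_inj, Set.ncard_image_of_injective _ ed_inj] at h2

end

/-! ### copies -/

section

variable {D : ℕ} {ℓ : Fin D → ℕ} {I F : Set (Ed q)}

/-- two different branches carry leaves -/
theorem centre (h2 : ∃ b b' : Fin D, b ≠ b' ∧ 1 ≤ ℓ b ∧ 1 ≤ ℓ b') {c : Vt q} {br : Fin D → Vt q}
    {lf : ((b : Fin D) × Fin (ℓ b)) → Vt q} (h : SpAt D ℓ (gr I) c br lf) :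
    (∃ i, c = a i) ∨ ∃ n, c = x n := by
  obtain ⟨b, b', hbb, hb, hb'⟩ := h2
  cases c with
  | a i => exact Or.inl ⟨i, rfl⟩
  | x n => exact Or.inr ⟨n, rfl⟩
  | y n j =>
    exfalso
    have key : ∀ b : Fin D, 1 ≤ ℓ b → br b = x n := by
      intro b hb
      rcases (adj_y I n j (br b)).1 (h.adj_cb b) with h1 | ⟨t, h1, _⟩
      · exact h1.1
      · exfalso
        have h3 := h.adj_bl b ⟨0, hb⟩
        rw [h1, adj_z] at h3
        exact h.lf_ne_c _ h3.1
    exact hbb (h.br_inj ((key b hb).trans (key b' hb').symm))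
  | z n j t =>
    exfalso
    have h1 := (adj_z I n j t _).1 (h.adj_cb b)
    have h3 := (adj_z I n j t _).1 (h.adj_cb b')
    exact hbb (h.br_inj (h1.1.trans h3.1.symm))

theorem lift_a {i : ℕ} {br : Fin D → Vt q} {lf : ((b : Fin D) × Fin (ℓ b)) → Vt q}
    (h : SpAt D ℓ (gr I) (a i) br lf)
    (h1 : ∀ n, ax i n ∈ I → (∀ i', ax i' n ∈ I → ax i' n ∈ F) ∧ ∀ j, xy n j ∈ I → xy n j ∈ F) :
    SpAt D ℓ (gr F) (a i) br lf := by
  refine ⟨h.br_inj, h.lf_inj, h.lf_ne_c, h.lf_ne_br, ?_, ?_⟩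
  · intro b
    obtain ⟨n, hn, h2⟩ := (adj_a I i _).1 (h.adj_cb b)
    exact (adj_a F i _).2 ⟨n, hn, (h1 n h2).1 i h2⟩
  · intro b j
    obtain ⟨n, hn, h2⟩ := (adj_a I i _).1 (h.adj_cb b)
    have h3 := h.adj_bl b j
    rw [hn] at h3 ⊢
    rcases (adj_x I n _).1 h3 with ⟨i', h4, h5⟩ | ⟨j', h4, h5⟩
    · exact (adj_x F n _).2 (Or.inl ⟨i', h4, (h1 n h2).1 i' h5⟩)
    · exact (adj_x F n _).2 (Or.inr ⟨j', h4, (h1 n h2).2 j' h5⟩)

theorem lift_x {n : ℕ} {br : Fin D → Vt q} {lf : ((b : Fin D) × Fin (ℓ b)) → Vt q}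
    (h : SpAt D ℓ (gr I) (x n) br lf)
    (h1 : ∀ i, ax i n ∈ I → ∀ n', ax i n' ∈ I → ax i n' ∈ F)
    (h2 : ∀ j, xy n j ∈ I → xy n j ∈ F ∧ ∀ t, yz n j t ∈ I → yz n j t ∈ F) :
    SpAt D ℓ (gr F) (x n) br lf := by
  refine ⟨h.br_inj, h.lf_inj, h.lf_ne_c, h.lf_ne_br, ?_, ?_⟩
  · intro b
    rcases (adj_x I n _).1 (h.adj_cb b) with ⟨i, h4, h5⟩ | ⟨j, h4, h5⟩
    · exact (adj_x F n _).2 (Or.inl ⟨i, h4, h1 i h5 n h5⟩)
    · exact (adj_x F n _).2 (Or.inr ⟨j, h4, (h2 j h5).1⟩)
  · intro b k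
    have h3 := h.adj_bl b k
    rcases (adj_x I n _).1 (h.adj_cb b) with ⟨i, h4, h5⟩ | ⟨j, h4, h5⟩
    · rw [h4] at h3 ⊢
      obtain ⟨n', h6, h7⟩ := (adj_a I i _).1 h3
      exact (adj_a F i _).2 ⟨n', h6, h1 i h5 n' h7⟩
    · rw [h4] at h3 ⊢
      rcases (adj_y I n j _).1 h3 with ⟨h6, _⟩ | ⟨t, h6, h7⟩
      · exact absurd h6 (h.lf_ne_c _)
      · exact (adj_y F n j _).2 (Or.inr ⟨t, h6, (h2 j h5).2 t h7⟩)

theorem deg_a {i : ℕ} {br : Fin D → Vt q} {lf : ((b : Fin D) × Fin (ℓ b)) → Vt q}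
    (h : SpAt D ℓ (gr I) (a i) br lf) :
    ∃ f : Fin D → ℕ, Function.Injective f ∧ ∀ b, ax i (f b) ∈ I := by
  have h1 : ∀ b, ∃ n, br b = x n ∧ ax i n ∈ I := fun b => (adj_a I i _).1 (h.adj_cb b)
  choose f hf using h1
  refine ⟨f, fun b b' hb => h.br_inj ?_, fun b => (hf b).2⟩
  rw [(hf b).1, (hf b').1, hb]

theorem deg_x {n : ℕ} {br : Fin D → Vt q} {lf : ((b : Fin D) × Fin (ℓ b)) → Vt q}
    (h : SpAt D ℓ (gr I) (x n) br lf) (h0 : ∀ i, ax i n ∉ I) : D ≤ q := by
  have h1 : ∀ b, ∃ j, br b = y n j ∧ xy n j ∈ I := fun b => by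
    rcases (adj_x I n _).1 (h.adj_cb b) with ⟨i, _, h5⟩ | h4
    · exact absurd h5 (h0 i)
    · exact h4
  choose f hf using h1
  have hi : Function.Injective f := fun b b' hb => h.br_inj (by rw [(hf b).1, (hf b').1, hb])
  simpa using Fintype.card_le_of_injective f hi

end

/-! ### choosing -/

theorem exists_fin {α : Type} (s : Set α) (k : ℕ) (h : ¬ (s.Finite ∧ s.ncard < k)) :
    ∃ t : Finset α, (↑t : Set α) ⊆ s ∧ t.card = k := by
  by_cases hs : s.Finite
  · have h1 : k ≤ s.ncard := by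
      by_contra h2
      exact h ⟨hs, by omega⟩
    obtain ⟨t, ht, h2⟩ := Set.exists_subset_card_eq h1
    have hf : t.Finite := hs.subset ht
    refine ⟨hf.toFinset, by simpa using ht, ?_⟩
    rw [← Set.ncard_eq_toFinset_card t hf, h2]
  · obtain ⟨t, ht, h2⟩ := Set.Infinite.exists_subset_card_eq hs k
    exact ⟨t, ht, h2⟩

theorem exists_inj {α : Type} (s : Set α) (k : ℕ) (h : ¬ (s.Finite ∧ s.ncard < k)) :
    ∃ f : Fin k → α, Function.Injective f ∧ ∀ b, f b ∈ s := by
  obtain ⟨t, ht, h2⟩ := exists_fin s k h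
  refine ⟨fun b => ((t.equivFinOfCardEq h2).symm b : α), fun b b' hb => ?_, fun b => ht ?_⟩
  · exact (t.equivFinOfCardEq h2).symm.injective (Subtype.ext hb)
  · exact ((t.equivFinOfCardEq h2).symm b).2

theorem choose_inj {ι α : Type} [Fintype ι] (t : ι → Set α)
    (h : ∀ x, ¬ ((t x).Finite ∧ (t x).ncard < Fintype.card ι)) :
    ∃ f : ι → α, Function.Injective f ∧ ∀ x, f x ∈ t x := by
  classical
  choose t' ht' hc using fun x => exists_fin (t x) _ (h x)
  have h1 : ∀ s : Finset ι, s.card ≤ (s.biUnion t').card := by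
    intro s
    rcases s.eq_empty_or_nonempty with rfl | ⟨x, hx⟩
    · simp
    · calc s.card ≤ Fintype.card ι := Finset.card_le_univ s
        _ = (t' x).card := (hc x).symm
        _ ≤ _ := Finset.card_le_card (Finset.subset_biUnion_of_mem t' hx)
  obtain ⟨f, hf, h2⟩ := (Finset.all_card_le_biUnion_card_iff_exists_injective t').1 h1
  exact ⟨f, hf, fun x => ht' x (h2 x)⟩

/-! ### the host -/

/-- all edges of the host -/
def Gs (q : ℕ) : Set (Ed q) := {e | ∀ i n, e = ax i n → i ≤ n}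

noncomputable def mm (F : Set (Ed q)) (n : ℕ) : ℕ := {j : Fin q | xy n j ∈ F}.ncard
noncomputable def TT (F : Set (Ed q)) (n : ℕ) : ℕ := {i : ℕ | ax i n ∈ F}.ncard
noncomputable def att (F : Set (Ed q)) (i : ℕ) : ℕ := {n : ℕ | ax i n ∈ F}.ncard

structure Ctx (D : ℕ) (ℓ : Fin D → ℕ) (F : Set (Ed q)) : Prop where
  hq : q + 1 = D
  hs : (∑ b, ℓ b) + 2 ≤ D
  h2 : ∃ b b' : Fin D, b ≠ b' ∧ 1 ≤ ℓ b ∧ 1 ≤ ℓ b'
  hS : SMax (Sp D ℓ) (gr (Gs q)) (gr F)
  hF : F ⊆ Gs q

section

variable {D : ℕ} {ℓ : Fin D → ℕ} {F : Set (Ed q)}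

theorem Ctx.nosp (h : Ctx D ℓ F) {c : Vt q} {br : Fin D → Vt q}
    {lf : ((b : Fin D) × Fin (ℓ b)) → Vt q} (h' : SpAt D ℓ (gr F) c br lf) : False :=
  h.hS.2.1 h'.contained

theorem Ctx.le (h : Ctx D ℓ F) {i n : ℕ} (h1 : ax i n ∈ F) : i ≤ n := h.hF h1 i n rfl

theorem Ctx.Tfin (h : Ctx D ℓ F) (n : ℕ) : {i : ℕ | ax i n ∈ F}.Finite :=
  (Set.finite_le_nat n).subset fun _ hi => h.le hi

theorem Ctx.free (h : Ctx D ℓ F) {I : Set (Ed q)}
    (ha : ∀ i br lf, ¬ SpAt D ℓ (gr I) (a i) br lf)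
    (hx : ∀ n br lf, ¬ SpAt D ℓ (gr I) (x n) br lf) : ¬ (Sp D ℓ ⊑ gr I) := by
  intro hc
  obtain ⟨c, br, lf, h'⟩ := exists_spAt hc
  rcases centre h.h2 h' with ⟨i, rfl⟩ | ⟨n, rfl⟩
  · exact ha _ _ _ h'
  · exact hx _ _ _ h'

theorem F1 (h : Ctx D ℓ F) (n : ℕ) (j : Fin q) : {t | yz n j t ∈ F}.Infinite := by
  by_contra hfin
  rw [Set.not_infinite] at hfin
  obtain ⟨I, hI⟩ : ∃ I : Set (Ed q), I = {e | (e ∈ F ∧ e ≠ xy n j) ∨ ∃ t, e = yz n j t} := ⟨_, rfl⟩
  have iax : ∀ i n', ax i n' ∈ I → ax i n' ∈ F := by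
    intro i n' h1
    simp only [hI, Set.mem_ofPred_eq, reduceCtorEq, exists_false, or_false] at h1
    exact h1.1
  have ixy : ∀ n' j', xy n' j' ∈ I → xy n' j' ∈ F ∧ ¬ (n' = n ∧ j' = j) := by
    intro n' j' h1
    simp only [hI, Set.mem_ofPred_eq, reduceCtorEq, exists_false, or_false] at h1
    exact ⟨h1.1, fun h3 => h1.2 (by rw [h3.1, h3.2])⟩
  have iyz : ∀ n' j' t, yz n' j' t ∈ I → yz n' j' t ∈ F ∨ (n' = n ∧ j' = j) := by
    intro n' j' t h1
    simp only [hI, Set.mem_ofPred_eq] at h1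
    rcases h1 with h1 | ⟨t', h1⟩
    · exact Or.inl h1.1
    · simp only [Ed.yz.injEq] at h1
      exact Or.inr ⟨h1.1, h1.2.1⟩
  have hfree : ¬ (Sp D ℓ ⊑ gr I) := by
    refine h.free (fun i br lf h' => h.nosp (lift_a h' ?_)) fun m br lf h' => h.nosp (lift_x h' ?_ ?_)
    · exact fun n' _ => ⟨fun i' h1 => iax _ _ h1, fun j' h1 => (ixy _ _ h1).1⟩
    · exact fun i _ n' h1 => iax _ _ h1
    · intro j' h1
      refine ⟨(ixy _ _ h1).1, fun t h3 => ?_⟩
      rcases iyz _ _ _ h3 with h4 | h4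
      · exact h4
      · exact absurd h4 (ixy _ _ h1).2
  have hIG : I ⊆ Gs q := by
    rw [hI]
    rintro e (he | ⟨t, rfl⟩)
    · exact h.hF he.1
    · intro i n' h1
      simp at h1
  have hd : (F \ I).Finite := by
    refine (Set.finite_singleton (xy n j)).subset ?_
    rintro e ⟨h1, h3⟩
    by_contra h4
    exact h3 (by rw [hI]; exact Or.inl ⟨h1, h4⟩)
  have h1 := (nogain h.hS hIG hfree hd).1
  have h3 : (yz n j '' {t | yz n j t ∈ F}ᶜ) ⊆ I \ F := by
    rintro e ⟨t, ht, rfl⟩
    exact ⟨by rw [hI]; exact Or.inr ⟨t, rfl⟩, ht⟩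
  have h4 : (yz n j '' {t | yz n j t ∈ F}ᶜ).Infinite :=
    hfin.infinite_compl.image (fun t _ t' _ ht => by simpa using ht)
  exact h4 (h1.subset h3)

theorem F2 (h : Ctx D ℓ F) (n : ℕ) : D ≤ mm F n + TT F n + 1 := by
  obtain ⟨I, hI⟩ : ∃ I : Set (Ed q), I = {e | (e ∈ F ∧ ∀ i, e ≠ ax i n) ∨ ∃ j, e = xy n j} :=
    ⟨_, rfl⟩
  have iax : ∀ i n', ax i n' ∈ I → ax i n' ∈ F ∧ n' ≠ n := by
    intro i n' h1
    simp only [hI, Set.mem_ofPred_eq, reduceCtorEq, exists_false, or_false] at h1
    exact ⟨h1.1, fun h3 => h1.2 i (by rw [h3])⟩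
  have ixy : ∀ n' j', n' ≠ n → xy n' j' ∈ I → xy n' j' ∈ F := by
    intro n' j' hn h1
    simp only [hI, Set.mem_ofPred_eq] at h1
    rcases h1 with h1 | ⟨j, h1⟩
    · exact h1.1
    · simp only [Ed.xy.injEq] at h1
      exact absurd h1.1 hn
  have iyz : ∀ n' j' t, yz n' j' t ∈ I → yz n' j' t ∈ F := by
    intro n' j' t h1
    simp only [hI, Set.mem_ofPred_eq, reduceCtorEq, exists_false, or_false] at h1
    exact h1.1
  have hfree : ¬ (Sp D ℓ ⊑ gr I) := by
    refine h.free (fun i br lf h' => h.nosp (lift_a h' ?_)) fun m br lf h' => ?_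
    · exact fun n' h1 => ⟨fun i' h3 => (iax _ _ h3).1, fun j' h3 => ixy _ _ (iax _ _ h1).2 h3⟩
    · by_cases hm : m = n
      · subst hm
        have := deg_x h' fun i hi => (iax _ _ hi).2 rfl
        have := h.hq
        omega
      · refine h.nosp (lift_x h' ?_ ?_)
        · exact fun i _ n' h1 => (iax _ _ h1).1
        · exact fun j' h1 => ⟨ixy _ _ hm h1, fun t h3 => iyz _ _ _ h3⟩
  have hIG : I ⊆ Gs q := by
    rw [hI]
    rintro e (he | ⟨t, rfl⟩)
    · exact h.hF he.1
    · intro i n' h1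
      simp at h1
  have e1 : F \ I = (fun i => ax i n) '' {i : ℕ | ax i n ∈ F} := by
    ext e
    constructor
    · rintro ⟨h1, h3⟩
      by_contra h4
      refine h3 (by
        rw [hI]
        refine Or.inl ⟨h1, fun i hi => h4 ⟨i, ?_, hi.symm⟩⟩
        rw [hi] at h1
        exact h1)
    · rintro ⟨i, hi, rfl⟩
      exact ⟨hi, fun h3 => (iax _ _ h3).2 rfl⟩
  have e2 : I \ F = xy n '' {j : Fin q | xy n j ∈ F}ᶜ := by
    ext e
    constructor
    · rintro ⟨h1, h3⟩
      rw [hI] at h1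
      rcases h1 with h1 | ⟨j, rfl⟩
      · exact absurd h1.1 h3
      · exact ⟨j, h3, rfl⟩
    · rintro ⟨j, hj, rfl⟩
      exact ⟨by rw [hI]; exact Or.inr ⟨j, rfl⟩, hj⟩
  have hd : (F \ I).Finite := by
    rw [e1]; exact (h.Tfin n).image _
  have h1 := (nogain h.hS hIG hfree hd).2
  rw [e1, e2, Set.ncard_image_of_injective _ (fun i i' hi => by simpa using hi),
    Set.ncard_image_of_injective _ (fun i i' hi => by simpa using hi)] at h1
  have h3 := Set.ncard_add_ncard_compl {j : Fin q | xy n j ∈ F} (Set.toFinite _) (Set.toFinite _)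
  rw [Nat.card_eq_fintype_card, Fintype.card_fin] at h3
  have := h.hq
  unfold mm TT
  omega

theorem F3 (h : Ctx D ℓ F) (i : ℕ) : {n | ax i n ∈ F}.Finite ∧ att F i < D := by
  by_contra hcon
  obtain ⟨f, hf, hf2⟩ := exists_inj _ _ hcon
  let nb : ℕ → Set (Vt q) := fun n => (a '' ({i' | ax i' n ∈ F} \ {i})) ∪ (y n '' {j | xy n j ∈ F})
  have hnb : ∀ n, ax i n ∈ F → (∑ b, ℓ b) ≤ (nb n).ncard ∧ (nb n).Finite := by
    intro n hn
    have d : Disjoint (a '' ({i' | ax i' n ∈ F} \ {i}) : Set (Vt q)) (y n '' {j | xy n j ∈ F}) := by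
      rw [Set.disjoint_left]
      rintro v ⟨i', _, rfl⟩ ⟨j, _, h1⟩
      simp at h1
    have f1 : (a '' ({i' | ax i' n ∈ F} \ {i}) : Set (Vt q)).Finite :=
      ((h.Tfin n).subset Set.sdiff_subset).image _
    have f2 : (y n '' {j | xy n j ∈ F} : Set (Vt q)).Finite := Set.toFinite _
    refine ⟨?_, f1.union f2⟩
    have h1 := Set.ncard_union_eq d f1 f2
    rw [Set.ncard_image_of_injective _ (fun i i' hi => by simpa using hi),
      Set.ncard_image_of_injective _ (fun i i' hi => by simpa using hi)] at h1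
    have h3 := Set.ncard_sdiff_singleton_add_one (a := i) (s := {i' | ax i' n ∈ F}) hn (h.Tfin n)
    have h4 := F2 h n
    have h5 := h.hs
    unfold mm TT at h4
    show _ ≤ (_ ∪ _ : Set (Vt q)).ncard
    omega
  have h1 : ∀ p : (b : Fin D) × Fin (ℓ b), ¬ ((nb (f p.1)).Finite ∧
      (nb (f p.1)).ncard < Fintype.card ((b : Fin D) × Fin (ℓ b))) := by
    intro p h3
    have h4 := (hnb _ (hf2 p.1)).1
    rw [Fintype.card_sigma] at h3
    simp only [Fintype.card_fin] at h3
    omega
  obtain ⟨lf, hl, hl2⟩ := choose_inj (fun p : (b : Fin D) × Fin (ℓ b) => nb (f p.1)) h1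
  refine h.nosp (c := a i) (br := fun b => x (f b)) (lf := lf) ⟨?_, hl, ?_, ?_, ?_, ?_⟩
  · intro b b' hb
    exact hf (by simpa using hb)
  · intro p hp
    rcases hl2 p with ⟨i', h3, h4⟩ | ⟨j, h3, h4⟩
    · rw [hp] at h4
      simp only [Vt.a.injEq] at h4
      exact h3.2 h4
    · rw [hp] at h4
      simp at h4
  · intro p b hp
    rcases hl2 p with ⟨i', h3, h4⟩ | ⟨j, h3, h4⟩
    · rw [hp] at h4
      simp at h4
    · rw [hp] at h4
      simp at h4
  · intro b
    exact (adj_a F i _).2 ⟨f b, rfl, hf2 b⟩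
  · intro b k
    rcases hl2 ⟨b, k⟩ with ⟨i', h3, h4⟩ | ⟨j, h3, h4⟩
    · exact (adj_x F _ _).2 (Or.inl ⟨i', h4.symm, h3.1⟩)
    · exact (adj_x F _ _).2 (Or.inr ⟨j, h4.symm, h3⟩)

theorem F4 (h : Ctx D ℓ F) {i n : ℕ} (hi : ax i n ∈ F) : ∃ j, xy n j ∉ F := by
  by_contra hcon
  push Not at hcon
  obtain ⟨b0, hb0⟩ : ∃ b0, ℓ b0 = 0 := by
    by_contra h0
    push Not at h0
    have h1 : ∑ _b : Fin D, 1 ≤ ∑ b, ℓ b :=
      Finset.sum_le_sum fun b _ => Nat.one_le_iff_ne_zero.2 (h0 b)
    simp at h1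
    have := h.hs
    omega
  have hcard : Fintype.card {b : Fin D // b ≠ b0} = q := by
    have h1 := h.hq
    rw [Fintype.card_subtype_compl, Fintype.card_fin, Fintype.card_subtype_eq]
    omega
  obtain ⟨e⟩ : Nonempty ({b : Fin D // b ≠ b0} ≃ Fin q) := ⟨Fintype.equivFinOfCardEq hcard⟩
  have no_b0 : ∀ p : (b : Fin D) × Fin (ℓ b), p.1 ≠ b0 := by
    rintro ⟨b, k⟩ hp
    simp only at hp
    subst hp
    have := k.2
    omega
  have hg : ∀ j : Fin q, ∃ g : ℕ → ℕ, Function.Injective g ∧ ∀ k, yz n j (g k) ∈ F := by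
    intro j
    refine ⟨fun k => ((F1 h n j).natEmbedding _ k : ℕ), fun k k' hk => ?_, fun k => ?_⟩
    · exact ((F1 h n j).natEmbedding _).injective (Subtype.ext hk)
    · exact ((F1 h n j).natEmbedding _ k).2
  choose g hg1 hg2 using hg
  refine h.nosp (c := x n) (br := fun b => if hb : b = b0 then a i else y n (e ⟨b, hb⟩))
    (lf := fun p => z n (e ⟨p.1, no_b0 p⟩) (g (e ⟨p.1, no_b0 p⟩) p.2)) ⟨?_, ?_, ?_, ?_, ?_, ?_⟩
  · intro b b' hbb
    by_cases hb : b = b0 <;> by_cases hb' : b' = b0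
    · rw [hb, hb']
    · simp [hb, hb'] at hbb
    · simp [hb, hb'] at hbb
    · simp only [hb, hb', dite_false, Vt.y.injEq, true_and] at hbb
      have := e.injective hbb
      simpa using this
  · rintro ⟨b, k⟩ ⟨b', k'⟩ hbb
    simp only [Vt.z.injEq, true_and] at hbb
    obtain ⟨h1, h3⟩ := hbb
    have h4 := e.injective h1
    simp only [Subtype.mk.injEq] at h4
    subst h4
    have := hg1 _ h3
    simp only [Sigma.mk.injEq, heq_eq_eq, true_and]
    exact Fin.ext this
  · intro p hp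
    simp at hp
  · intro p b hp
    by_cases hb : b = b0
    · simp [hb] at hp
    · simp [hb] at hp
  · intro b
    by_cases hb : b = b0
    · simp only [hb, dite_true]
      exact (adj_x F n _).2 (Or.inl ⟨i, rfl, hi⟩)
    · simp only [hb, dite_false]
      exact (adj_x F n _).2 (Or.inr ⟨_, rfl, hcon _⟩)
  · intro b k
    have hb : b ≠ b0 := no_b0 ⟨b, k⟩
    simp only [hb, dite_false]
    exact (adj_y F n _ _).2 (Or.inr ⟨_, rfl, hg2 _ _⟩)

theorem adj_lift {I : Set (Ed q)} {n : ℕ} {br : Fin D → Vt q}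
    {lf : ((b : Fin D) × Fin (ℓ b)) → Vt q} (h : SpAt D ℓ (gr I) (x n) br lf) (b : Fin D)
    (h1 : ∀ i, br b = a i → ax i n ∈ I → ∀ n', ax i n' ∈ I → ax i n' ∈ F)
    (h2 : ∀ j, br b = y n j → xy n j ∈ I → xy n j ∈ F ∧ ∀ t, yz n j t ∈ I → yz n j t ∈ F) :
    (gr F).Adj (x n) (br b) ∧ ∀ k, (gr F).Adj (br b) (lf ⟨b, k⟩) := by
  rcases (adj_x I n _).1 (h.adj_cb b) with ⟨i, h4, h5⟩ | ⟨j, h4, h5⟩
  · refine ⟨(adj_x F n _).2 (Or.inl ⟨i, h4, h1 i h4 h5 n h5⟩), fun k => ?_⟩
    have h3 := h.adj_bl b k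
    rw [h4] at h3 ⊢
    obtain ⟨n', h6, h7⟩ := (adj_a I i _).1 h3
    exact (adj_a F i _).2 ⟨n', h6, h1 i h4 h5 n' h7⟩
  · refine ⟨(adj_x F n _).2 (Or.inr ⟨j, h4, (h2 j h4 h5).1⟩), fun k => ?_⟩
    have h3 := h.adj_bl b k
    rw [h4] at h3 ⊢
    rcases (adj_y I n j _).1 h3 with ⟨h6, _⟩ | ⟨t, h6, h7⟩
    · exact absurd h6 (h.lf_ne_c _)
    · exact (adj_y F n j _).2 (Or.inr ⟨t, h6, (h2 j h4 h5).2 t h7⟩)

theorem leaf_type {I : Set (Ed q)} {n : ℕ} {br : Fin D → Vt q}
    {lf : ((b : Fin D) × Fin (ℓ b)) → Vt q} (h : SpAt D ℓ (gr I) (x n) br lf)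
    (p : (b : Fin D) × Fin (ℓ b)) : (∃ n', lf p = x n') ∨ ∃ j t, lf p = z n j t := by
  have h3 := h.adj_bl p.1 p.2
  rcases (adj_x I n _).1 (h.adj_cb p.1) with ⟨i, h4, h5⟩ | ⟨j, h4, h5⟩
  · rw [h4] at h3
    obtain ⟨n', h6, h7⟩ := (adj_a I i _).1 h3
    exact Or.inl ⟨n', h6⟩
  · rw [h4] at h3
    rcases (adj_y I n j _).1 h3 with ⟨h6, _⟩ | ⟨t, h6, h7⟩
    · exact Or.inl ⟨n, h6⟩
    · exact Or.inr ⟨j, t, h6⟩

theorem inj_le {α : Type} {S : Set α} (hS : S.Finite) {k : ℕ} {f : Fin k → α}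
    (hf : Function.Injective f) (h : ∀ b, f b ∈ S) : k ≤ S.ncard := by
  have h1 : (Set.range f).ncard ≤ S.ncard :=
    Set.ncard_le_ncard (by rintro _ ⟨b, rfl⟩; exact h b) hS
  rw [← Set.image_univ, Set.ncard_image_of_injective _ hf, Set.ncard_univ,
    Nat.card_eq_fintype_card, Fintype.card_fin] at h1
  exact h1

/-! ### counting -/

def nyz : Ed q → Prop
  | .ax _ _ => True
  | .xy _ _ => True
  | .yz _ _ _ => False

def r1 : Ed q → ℕ
  | .ax _ n => n
  | .xy n _ => n
  | .yz _ _ _ => 0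

def r2 : Ed q → ℕ
  | .ax i _ => i
  | .xy n _ => n
  | .yz _ _ _ => 0

theorem ncard_lt {α : Type} (r : α → ℕ) (S : Set α) (k : ℕ) (hfin : ∀ n, {e | e ∈ S ∧ r e = n}.Finite) :
    {e | e ∈ S ∧ r e < k}.Finite ∧
    {e | e ∈ S ∧ r e < k}.ncard = ∑ n ∈ Finset.range k, {e | e ∈ S ∧ r e = n}.ncard := by
  induction k with
  | zero =>
    have h0 : {e | e ∈ S ∧ r e < 0} = (∅ : Set α) := by
      ext e
      constructor
      · rintro ⟨_, h⟩
        exact absurd h (Nat.not_lt_zero _)
      · intro h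
        exact absurd h (Set.notMem_empty _)
    rw [h0]
    exact ⟨Set.finite_empty, by simp⟩
  | succ k ih =>
    have h0 : {e | e ∈ S ∧ r e < k + 1} = {e | e ∈ S ∧ r e < k} ∪ {e | e ∈ S ∧ r e = k} := by
      ext e
      constructor
      · rintro ⟨h1, h2⟩
        rcases Nat.lt_succ_iff_lt_or_eq.1 h2 with h3 | h3
        · exact Or.inl ⟨h1, h3⟩
        · exact Or.inr ⟨h1, h3⟩
      · rintro (⟨h1, h2⟩ | ⟨h1, h2⟩)
        · exact ⟨h1, by omega⟩
        · exact ⟨h1, by omega⟩
    have hd : Disjoint {e | e ∈ S ∧ r e < k} {e | e ∈ S ∧ r e = k} := by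
      rw [Set.disjoint_left]
      rintro e ⟨_, h1⟩ ⟨_, h2⟩
      omega
    rw [h0, Set.ncard_union_eq hd ih.1 (hfin k), Finset.sum_range_succ, ih.2]
    exact ⟨ih.1.union (hfin k), rfl⟩

theorem fib1 (S : Set (Ed q)) (n : ℕ) (hT : {i | ax i n ∈ S}.Finite) :
    {e | (e ∈ S ∧ nyz e) ∧ r1 e = n}.Finite ∧
    {e | (e ∈ S ∧ nyz e) ∧ r1 e = n}.ncard = TT S n + mm S n := by
  have h0 : {e | (e ∈ S ∧ nyz e) ∧ r1 e = n} =
      ((fun i => ax i n) '' {i | ax i n ∈ S}) ∪ (xy n '' {j | xy n j ∈ S}) := by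
    ext e
    constructor
    · rintro ⟨⟨h1, h2⟩, h3⟩
      cases e with
      | ax i m => simp only [r1] at h3; subst h3; exact Or.inl ⟨i, h1, rfl⟩
      | xy m j => simp only [r1] at h3; subst h3; exact Or.inr ⟨j, h1, rfl⟩
      | yz m j t => exact absurd h2 (by simp [nyz])
    · rintro (⟨i, h1, rfl⟩ | ⟨j, h1, rfl⟩)
      · exact ⟨⟨h1, trivial⟩, rfl⟩
      · exact ⟨⟨h1, trivial⟩, rfl⟩
  have hd : Disjoint ((fun i => ax i n) '' {i | ax i n ∈ S} : Set (Ed q))
      (xy n '' {j | xy n j ∈ S}) := by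
    rw [Set.disjoint_left]
    rintro e ⟨i, _, rfl⟩ ⟨j, _, h2⟩
    simp at h2
  rw [h0]
  refine ⟨(hT.image _).union ((Set.toFinite _).image _), ?_⟩
  rw [Set.ncard_union_eq hd (hT.image _) ((Set.toFinite _).image _),
    Set.ncard_image_of_injective _ (fun i i' hi => by simpa using hi),
    Set.ncard_image_of_injective _ (fun i i' hi => by simpa using hi)]
  rfl

theorem fib2 (S : Set (Ed q)) (i : ℕ) (hT : {n | ax i n ∈ S}.Finite) :
    {e | (e ∈ S ∧ nyz e) ∧ r2 e = i}.Finite ∧
    {e | (e ∈ S ∧ nyz e) ∧ r2 e = i}.ncard = att S i + mm S i := by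
  have h0 : {e | (e ∈ S ∧ nyz e) ∧ r2 e = i} =
      ((fun n => ax i n) '' {n | ax i n ∈ S}) ∪ (xy i '' {j | xy i j ∈ S}) := by
    ext e
    constructor
    · rintro ⟨⟨h1, h2⟩, h3⟩
      cases e with
      | ax i m => simp only [r2] at h3; subst h3; exact Or.inl ⟨m, h1, rfl⟩
      | xy m j => simp only [r2] at h3; subst h3; exact Or.inr ⟨j, h1, rfl⟩
      | yz m j t => exact absurd h2 (by simp [nyz])
    · rintro (⟨i, h1, rfl⟩ | ⟨j, h1, rfl⟩)
      · exact ⟨⟨h1, trivial⟩, rfl⟩
      · exact ⟨⟨h1, trivial⟩, rfl⟩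
  have hd : Disjoint ((fun n => ax i n) '' {n | ax i n ∈ S} : Set (Ed q))
      (xy i '' {j | xy i j ∈ S}) := by
    rw [Set.disjoint_left]
    rintro e ⟨i, _, rfl⟩ ⟨j, _, h2⟩
    simp at h2
  rw [h0]
  refine ⟨(hT.image _).union ((Set.toFinite _).image _), ?_⟩
  rw [Set.ncard_union_eq hd (hT.image _) ((Set.toFinite _).image _),
    Set.ncard_image_of_injective _ (fun i i' hi => by simpa using hi),
    Set.ncard_image_of_injective _ (fun i i' hi => by simpa using hi)]
  rfl

def U1 (q B : ℕ) : Set (Ed q) := {e | nyz e ∧ r1 e < B}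
def U2 (q B : ℕ) : Set (Ed q) := {e | nyz e ∧ r2 e < B}

theorem count1 (S : Set (Ed q)) (B : ℕ) (hT : ∀ n, {i | ax i n ∈ S}.Finite) :
    (S ∩ U1 q B).Finite ∧ (S ∩ U1 q B).ncard = ∑ n ∈ Finset.range B, (TT S n + mm S n) := by
  have h0 : S ∩ U1 q B = {e | e ∈ {e | e ∈ S ∧ nyz e} ∧ r1 e < B} := by
    ext e
    exact ⟨fun h => ⟨⟨h.1, h.2.1⟩, h.2.2⟩, fun h => ⟨h.1.1, h.1.2, h.2⟩⟩
  have h1 := ncard_lt r1 {e | e ∈ S ∧ nyz e} B fun n => (fib1 S n (hT n)).1
  rw [h0]
  refine ⟨h1.1, h1.2.trans (Finset.sum_congr rfl fun n _ => (fib1 S n (hT n)).2)⟩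

theorem count2 (S : Set (Ed q)) (B : ℕ) (hT : ∀ i, {n | ax i n ∈ S}.Finite) :
    (S ∩ U2 q B).Finite ∧ (S ∩ U2 q B).ncard = ∑ n ∈ Finset.range B, (att S n + mm S n) := by
  have h0 : S ∩ U2 q B = {e | e ∈ {e | e ∈ S ∧ nyz e} ∧ r2 e < B} := by
    ext e
    exact ⟨fun h => ⟨⟨h.1, h.2.1⟩, h.2.2⟩, fun h => ⟨h.1.1, h.1.2, h.2⟩⟩
  have h1 := ncard_lt r2 {e | e ∈ S ∧ nyz e} B fun n => (fib2 S n (hT n)).1
  rw [h0]
  refine ⟨h1.1, h1.2.trans (Finset.sum_congr rfl fun n _ => (fib2 S n (hT n)).2)⟩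

/-! ### (F5) -/

def P5 (F : Set (Ed q)) (D i B : ℕ) : Ed q → Prop
  | .ax i' n => (ax i' n ∈ F ∧ ¬ (i ≤ n ∧ n < B)) ∨ (n = i + D - 1 ∧ i ≤ i' ∧ i' < i + D)
  | .xy n j => (xy n j ∈ F ∧ ¬ (i ≤ n ∧ n < B)) ∨ (i ≤ n ∧ n < B ∧ n ≠ i + D - 1)
  | .yz n j t => yz n j t ∈ F

theorem F5 (h : Ctx D ℓ F) (i : ℕ) : ∃ n, i ≤ n ∧ D ≤ mm F n + TT F n := by
  by_contra hcon
  push Not at hcon
  have hD : 2 ≤ D := by have := h.hs; omega
  have hdeg : ∀ n, i ≤ n → TT F n + mm F n = q := by
    intro n hn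
    have h1 := hcon n hn
    have h3 := F2 h n
    have h4 := h.hq
    omega
  obtain ⟨B, hBD, hB⟩ : ∃ B, i + D ≤ B ∧ ∀ j, i ≤ j → j < i + D → ∀ n, ax j n ∈ F → n < B := by
    have h1 : (⋃ j ∈ Set.Ico i (i + D), {n | ax j n ∈ F}).Finite :=
      (Set.finite_Ico i (i + D)).biUnion fun j _ => (F3 h j).1
    obtain ⟨B0, hB0⟩ := h1.bddAbove
    refine ⟨max (B0 + 1) (i + D), le_max_right _ _, fun j h3 h4 n h5 => ?_⟩
    have h6 : n ≤ B0 := hB0 (Set.mem_biUnion (show j ∈ Set.Ico i (i + D) from ⟨h3, h4⟩) h5)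
    exact lt_of_lt_of_le (Nat.lt_succ_of_le h6) (le_max_left _ _)
  obtain ⟨I, hI⟩ : ∃ I : Set (Ed q), I = {e | P5 F D i B e} := ⟨_, rfl⟩
  have iax : ∀ i' n, ax i' n ∈ I ↔
      (ax i' n ∈ F ∧ ¬ (i ≤ n ∧ n < B)) ∨ (n = i + D - 1 ∧ i ≤ i' ∧ i' < i + D) := by
    intro i' n; rw [hI]; exact Iff.rfl
  have ixy : ∀ n j, xy n j ∈ I ↔
      (xy n j ∈ F ∧ ¬ (i ≤ n ∧ n < B)) ∨ (i ≤ n ∧ n < B ∧ n ≠ i + D - 1) := by
    intro n j; rw [hI]; exact Iff.rfl
  have iyz : ∀ n j t, yz n j t ∈ I ↔ yz n j t ∈ F := by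
    intro n j t; rw [hI]; exact Iff.rfl
  have hJ : ∀ i' n, i ≤ i' → i' < i + D → ax i' n ∈ I → n = i + D - 1 := by
    intro i' n h1 h3 h4
    rcases (iax _ _).1 h4 with h5 | h5
    · exact absurd ⟨h1.trans (h.le h5.1), hB _ h1 h3 _ h5.1⟩ h5.2
    · exact h5.1
  have hfree : ¬ (Sp D ℓ ⊑ gr I) := by
    refine h.free (fun i' br lf h' => ?_) fun n br lf h' => ?_
    · by_cases hi : i ≤ i' ∧ i' < i + D
      · obtain ⟨f, hf, hf2⟩ := deg_a h'
        obtain ⟨b, b', hbb, _⟩ := h.h2
        exact hbb (hf ((hJ _ _ hi.1 hi.2 (hf2 b)).trans (hJ _ _ hi.1 hi.2 (hf2 b')).symm))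
      · refine h.nosp (lift_a h' fun n h1 => ?_)
        have h3 : ¬ (i ≤ n ∧ n < B) := by
          rcases (iax _ _).1 h1 with h5 | h5
          · exact h5.2
          · exact absurd h5.2 hi
        constructor
        · intro i'' h4
          rcases (iax _ _).1 h4 with h5 | h5
          · exact h5.1
          · exact absurd (by omega) h3
        · intro j h4
          rcases (ixy _ _).1 h4 with h5 | h5
          · exact h5.1
          · exact absurd ⟨h5.1, h5.2.1⟩ h3
    · by_cases hn : n = i + D - 1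
      · obtain ⟨b, _, _, hb, _⟩ := h.h2
        rcases (adj_x I n _).1 (h'.adj_cb b) with ⟨j, h4, h5⟩ | ⟨j, h4, h5⟩
        · have h6 : i ≤ j ∧ j < i + D := by
            rcases (iax _ _).1 h5 with h7 | h7
            · exact absurd (by omega) h7.2
            · exact h7.2
          have h7 := h'.adj_bl b ⟨0, hb⟩
          rw [h4] at h7
          obtain ⟨n', h8, h9⟩ := (adj_a I j _).1 h7
          have h10 := hJ _ _ h6.1 h6.2 h9
          exact h'.lf_ne_c _ (by rw [h8, h10, hn])
        · rcases (ixy _ _).1 h5 with h7 | h7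
          · exact absurd (by omega) h7.2
          · exact h7.2.2 hn
      · by_cases hn2 : i ≤ n ∧ n < B
        · have h1 := deg_x h' fun i' hi' => by
            rcases (iax _ _).1 hi' with h5 | h5
            · exact h5.2 hn2
            · exact hn h5.1
          have := h.hq
          omega
        · refine h.nosp (lift_x h' ?_ ?_)
          · intro j h1 n' h3
            have h4 : ax j n ∈ F := by
              rcases (iax _ _).1 h1 with h5 | h5
              · exact h5.1
              · exact absurd h5.1 hn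
            rcases (iax _ _).1 h3 with h5 | h5
            · exact h5.1
            · exact absurd ⟨h5.2.1.trans (h.le h4), hB _ h5.2.1 h5.2.2 _ h4⟩ hn2
          · intro j h1
            refine ⟨?_, fun t h3 => (iyz _ _ _).1 h3⟩
            rcases (ixy _ _).1 h1 with h5 | h5
            · exact h5.1
            · exact absurd ⟨h5.1, h5.2.1⟩ hn2
  have hIG : I ⊆ Gs q := by
    intro e he i' n h1
    subst h1
    rcases (iax _ _).1 he with h5 | h5
    · exact h.le h5.1
    · omega
  have hU : ∀ e ∉ U1 q B, e ∈ F ↔ e ∈ I := by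
    intro e he
    cases e with
    | ax i' n =>
      have h1 : ¬ n < B := fun h1 => he ⟨trivial, h1⟩
      rw [iax]
      constructor
      · exact fun h3 => Or.inl ⟨h3, fun h4 => h1 h4.2⟩
      · rintro (h3 | h3)
        · exact h3.1
        · exact absurd (by omega) h1
    | xy n j =>
      have h1 : ¬ n < B := fun h1 => he ⟨trivial, h1⟩
      rw [ixy]
      constructor
      · exact fun h3 => Or.inl ⟨h3, fun h4 => h1 h4.2⟩
      · rintro (h3 | h3)
        · exact h3.1
        · exact absurd h3.2.1 h1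
    | yz n j t => exact (iyz _ _ _).symm
  have hIT : ∀ n, {i | ax i n ∈ I}.Finite := fun n =>
    (Set.finite_le_nat n).subset fun i' hi' => hIG hi' i' n rfl
  have cF := count1 F B h.Tfin
  have cI := count1 I B hIT
  have key := region h.hS hIG hfree (U1 q B) hU cF.1 cI.1
  rw [cF.2, cI.2] at key
  refine absurd key (not_le.2 (Finset.sum_lt_sum (fun n hn => ?_) ⟨i + D - 1, ?_, ?_⟩))
  · have hnB := Finset.mem_range.1 hn
    by_cases hin : i ≤ n
    · rw [hdeg n hin]
      by_cases hn1 : n = i + D - 1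
      · have h1 : TT I n = D := by
          have e1 : {i' : ℕ | ax i' n ∈ I} = Set.Ico i (i + D) := by
            ext i'
            constructor
            · intro h3
              rcases (iax _ _).1 h3 with h5 | h5
              · exact absurd ⟨hin, hnB⟩ h5.2
              · exact h5.2
            · intro h3
              exact (iax _ _).2 (Or.inr ⟨hn1, h3.1, h3.2⟩)
          unfold TT
          rw [e1, ← Finset.coe_Ico, Set.ncard_coe_finset, Nat.card_Ico]
          omega
        have := h.hq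
        omega
      · have h1 : mm I n = q := by
          have e1 : {j : Fin q | xy n j ∈ I} = Set.univ := by
            ext j
            exact ⟨fun _ => trivial, fun _ => (ixy _ _).2 (Or.inr ⟨hin, hnB, hn1⟩)⟩
          unfold mm
          rw [e1, Set.ncard_univ, Nat.card_eq_fintype_card, Fintype.card_fin]
        omega
    · have e1 : {i' : ℕ | ax i' n ∈ I} = {i' | ax i' n ∈ F} := by
        ext i'
        constructor
        · intro h3
          rcases (iax _ _).1 h3 with h5 | h5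
          · exact h5.1
          · exact absurd (by omega) hin
        · intro h3
          exact (iax _ _).2 (Or.inl ⟨h3, fun h4 => hin h4.1⟩)
      have e2 : {j : Fin q | xy n j ∈ I} = {j | xy n j ∈ F} := by
        ext j
        constructor
        · intro h3
          rcases (ixy _ _).1 h3 with h5 | h5
          · exact h5.1
          · exact absurd h5.1 hin
        · intro h3
          exact (ixy _ _).2 (Or.inl ⟨h3, fun h4 => hin h4.1⟩)
      unfold TT mm
      rw [e1, e2]
  · rw [Finset.mem_range]; omega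
  · rw [hdeg _ (by omega)]
    have h1 : TT I (i + D - 1) = D := by
      have e1 : {i' : ℕ | ax i' (i + D - 1) ∈ I} = Set.Ico i (i + D) := by
        ext i'
        constructor
        · intro h3
          rcases (iax _ _).1 h3 with h5 | h5
          · exact absurd (by omega) h5.2
          · exact h5.2
        · intro h3
          exact (iax _ _).2 (Or.inr ⟨rfl, h3.1, h3.2⟩)
      unfold TT
      rw [e1, ← Finset.coe_Ico, Set.ncard_coe_finset, Nat.card_Ico]
      omega
    have := h.hq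
    omega

/-! ### (F6) -/

def P6 (F : Set (Ed q)) (i n0 : ℕ) (y' : ℕ → Fin q) : Ed q → Prop
  | .ax i' n => (i' ≠ i ∧ ax i' n ∈ F) ∨ (i' = i ∧ n = n0)
  | .xy n j => xy n j ∈ F ∨ (ax i n ∈ F ∧ j = y' n)
  | .yz n j t => yz n j t ∈ F

theorem F6 (h : Ctx D ℓ F) (i : ℕ) : att F i ≤ ∑ b, ℓ b := by
  by_contra hcon
  push Not at hcon
  have hD : 4 ≤ D := by
    obtain ⟨b, b', hbb, hb, hb'⟩ := h.h2
    have h1 : ℓ b + ℓ b' ≤ ∑ b, ℓ b := by
      rw [← Finset.sum_pair hbb]
      exact Finset.sum_le_sum_of_subset (Finset.subset_univ _)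
    have := h.hs
    omega
  have hyex : ∀ n, ∃ j : Fin q, ax i n ∈ F → xy n j ∉ F := by
    intro n
    by_cases hn : ax i n ∈ F
    · obtain ⟨j, hj⟩ := F4 h hn
      exact ⟨j, fun _ => hj⟩
    · have := h.hq
      exact ⟨⟨0, by omega⟩, fun h1 => absurd h1 hn⟩
  choose y' hy' using hyex
  obtain ⟨B, hB⟩ : ∃ B, ∀ n, ax i n ∈ F → n ≤ B := by
    obtain ⟨B, hB⟩ := (F3 h i).1.bddAbove
    exact ⟨B, fun n hn => hB hn⟩
  obtain ⟨n0, hn0, hdeg⟩ := F5 h (max i (B + 1))
  have hin0 : i ≤ n0 := (le_max_left _ _).trans hn0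
  have hn0F : ax i n0 ∉ F := fun h1 => by
    have h3 := hB _ h1
    have h4 : B + 1 ≤ n0 := (le_max_right _ _).trans hn0
    omega
  obtain ⟨I, hI⟩ : ∃ I : Set (Ed q), I = {e | P6 F i n0 y' e} := ⟨_, rfl⟩
  have iax : ∀ i' n, ax i' n ∈ I ↔ (i' ≠ i ∧ ax i' n ∈ F) ∨ (i' = i ∧ n = n0) := by
    intro i' n; rw [hI]; exact Iff.rfl
  have ixy : ∀ n j, xy n j ∈ I ↔ xy n j ∈ F ∨ (ax i n ∈ F ∧ j = y' n) := by
    intro n j; rw [hI]; exact Iff.rfl
  have iyz : ∀ n j t, yz n j t ∈ I ↔ yz n j t ∈ F := by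
    intro n j t; rw [hI]; exact Iff.rfl
  have iaxF : ∀ i' n, i' ≠ i → ax i' n ∈ I → ax i' n ∈ F := by
    intro i' n h1 h3
    rcases (iax _ _).1 h3 with h5 | h5
    · exact h5.2
    · exact absurd h5.1 h1
  have hIG : I ⊆ Gs q := by
    intro e he i' n h1
    subst h1
    rcases (iax _ _).1 he with h5 | h5
    · exact h.le h5.2
    · omega
  have hfree : ¬ (Sp D ℓ ⊑ gr I) := by
    refine h.free (fun i' br lf h' => ?_) fun n br lf h' => ?_
    · obtain ⟨f, hf, hf2⟩ := deg_a h'
      by_cases hi : i' = i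
      · obtain ⟨b, b', hbb, _⟩ := h.h2
        have h1 : ∀ b, f b = n0 := by
          intro b
          rcases (iax _ _).1 (hf2 b) with h5 | h5
          · exact absurd hi h5.1
          · exact h5.2
        exact hbb (hf ((h1 b).trans (h1 b').symm))
      · have h1 := inj_le (F3 h i').1 hf (fun b => iaxF _ _ hi (hf2 b))
        have h3 := (F3 h i').2
        unfold att at h3
        omega
    · by_cases hnN : ax i n ∈ F
      · have hnn0 : n ≠ n0 := fun h1 => hn0F (h1 ▸ hnN)
        have hai : ax i n ∉ I := by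
          intro h1
          rcases (iax _ _).1 h1 with h5 | h5
          · exact h5.1 rfl
          · exact hnn0 h5.2
        have hlift : ∀ b, br b ≠ y n (y' n) →
            (gr F).Adj (x n) (br b) ∧ ∀ k, (gr F).Adj (br b) (lf ⟨b, k⟩) := by
          intro b hb
          refine adj_lift h' b ?_ ?_
          · intro i' _ h3 n' h4
            have h5 : i' ≠ i := fun h6 => hai (h6 ▸ h3)
            exact iaxF _ _ h5 h4
          · intro j hj h3
            refine ⟨?_, fun t h4 => (iyz _ _ _).1 h4⟩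
            rcases (ixy _ _).1 h3 with h5 | h5
            · exact h5
            · exact absurd (by rw [hj, h5.2]) hb
        by_cases hb : ∃ b0, br b0 = y n (y' n)
        · obtain ⟨b0, hb0⟩ := hb
          classical
          have hother : ∀ b, b ≠ b0 → br b ≠ y n (y' n) := fun b h1 h3 =>
            h1 (h'.br_inj (h3.trans hb0.symm))
          have hnai : ∀ b, br b ≠ a i := by
            intro b h1
            rcases (adj_x I n _).1 (h'.adj_cb b) with ⟨i', h4, h5⟩ | ⟨j, h4, h5⟩
            · rw [h1] at h4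
              simp only [Vt.a.injEq] at h4
              exact hai (h4 ▸ h5)
            · rw [h1] at h4
              simp at h4
          let ι : Type := {p : (b : Fin D) × Fin (ℓ b) // p.1 = b0}
          let L : Set (Vt q) := lf '' {p | p.1 ≠ b0}
          let A : Set (Vt q) := x '' ({n' | ax i n' ∈ F} \ {n})
          have hAf : A.Finite := ((F3 h i).1.subset Set.sdiff_subset).image _
          have hA : (∑ b, ℓ b) ≤ A.ncard := by
            show _ ≤ (x '' ({n' | ax i n' ∈ F} \ {n}) : Set (Vt q)).ncard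
            rw [Set.ncard_image_of_injective _ (fun i i' hi => by simpa using hi)]
            have h3 := Set.ncard_sdiff_singleton_add_one (a := n) (s := {n' | ax i n' ∈ F}) hnN (F3 h i).1
            unfold att at hcon
            omega
          have hLf : L.Finite := (Set.toFinite _).image _
          have hL : L.ncard + Fintype.card ι = ∑ b, ℓ b := by
            show (lf '' {p | p.1 ≠ b0}).ncard + _ = _
            rw [Set.ncard_image_of_injective _ h'.lf_inj]
            have h1 := Set.ncard_add_ncard_compl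
              {p : (b : Fin D) × Fin (ℓ b) | p.1 ≠ b0} (Set.toFinite _) (Set.toFinite _)
            rw [Nat.card_eq_fintype_card, Fintype.card_sigma] at h1
            simp only [Fintype.card_fin] at h1
            have h3 : Fintype.card ι = ({p : (b : Fin D) × Fin (ℓ b) | p.1 ≠ b0}ᶜ).ncard := by
              have h4 : ({p : (b : Fin D) × Fin (ℓ b) | p.1 ≠ b0}ᶜ) = {p | p.1 = b0} := by
                ext p
                simp
              rw [h4, ← Nat.card_coe_set_eq, ← Nat.card_eq_fintype_card]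
              rfl
            omega
          have hAL : ¬ ((A \ L).Finite ∧ (A \ L).ncard < Fintype.card ι) := by
            rintro ⟨_, h1⟩
            have h3 := Set.ncard_le_ncard_sdiff_add_ncard A L hLf
            omega
          obtain ⟨g, hg, hg2⟩ := choose_inj (fun _ : ι => A \ L) fun _ => hAL
          have hgx : ∀ p : ι, ∃ n', g p = x n' ∧ ax i n' ∈ F ∧ n' ≠ n := by
            intro p
            obtain ⟨n', h1, h3⟩ := (hg2 p).1
            exact ⟨n', h3.symm, h1.1, h1.2⟩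
          refine h.nosp (c := x n) (br := fun b => if b = b0 then a i else br b)
            (lf := fun p => if hp : p.1 = b0 then g ⟨p, hp⟩ else lf p) ⟨?_, ?_, ?_, ?_, ?_, ?_⟩
          · intro b b' hbb
            by_cases h1 : b = b0 <;> by_cases h3 : b' = b0
            · rw [h1, h3]
            · simp only [h1, h3, if_true, if_false] at hbb
              exact absurd hbb.symm (hnai b')
            · simp only [h1, h3, if_true, if_false] at hbb
              exact absurd hbb (hnai b)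
            · simp only [h1, h3, if_false] at hbb
              exact h'.br_inj hbb
          · intro p p' hpp
            by_cases h1 : p.1 = b0 <;> by_cases h3 : p'.1 = b0
            · simp only [h1, h3, dite_true] at hpp
              exact congrArg Subtype.val (hg hpp)
            · simp only [h1, h3, dite_true, dite_false] at hpp
              exact absurd ⟨p', h3, hpp.symm⟩ (hg2 ⟨p, h1⟩).2
            · simp only [h1, h3, dite_true, dite_false] at hpp
              exact absurd ⟨p, h1, hpp⟩ (hg2 ⟨p', h3⟩).2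
            · simp only [h1, h3, dite_false] at hpp
              exact h'.lf_inj hpp
          · intro p
            by_cases h1 : p.1 = b0
            · simp only [h1, dite_true]
              obtain ⟨n', h3, _, h4⟩ := hgx ⟨p, h1⟩
              rw [h3]
              simpa using h4
            · simp only [h1, dite_false]
              exact h'.lf_ne_c p
          · intro p b
            have hb' : (if b = b0 then a i else br b) = a i ∨
                (if b = b0 then a i else br b) = br b := by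
              by_cases h1 : b = b0
              · left; rw [if_pos h1]
              · right; rw [if_neg h1]
            by_cases h1 : p.1 = b0
            · simp only [h1, dite_true]
              obtain ⟨n', h3, _, h4⟩ := hgx ⟨p, h1⟩
              rw [h3]
              rcases hb' with h5 | h5
              · rw [h5]; simp
              · rw [h5]
                intro h6
                rcases (adj_x I n _).1 (h'.adj_cb b) with ⟨i', h7, _⟩ | ⟨j, h7, _⟩
                · rw [h7] at h6; simp at h6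
                · rw [h7] at h6; simp at h6
            · simp only [h1, dite_false]
              rcases hb' with h5 | h5
              · rw [h5]
                rcases leaf_type h' p with ⟨n', h6⟩ | ⟨j, t, h6⟩
                · rw [h6]; simp
                · rw [h6]; simp
              · rw [h5]; exact h'.lf_ne_br p b
          · intro b
            by_cases h1 : b = b0
            · simp only [h1, if_true]
              exact (adj_x F n _).2 (Or.inl ⟨i, rfl, hnN⟩)
            · simp only [h1, if_false]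
              exact (hlift b (hother b h1)).1
          · intro b k
            by_cases h1 : b = b0
            · simp only [h1, if_true, dite_true]
              obtain ⟨n', h3, h5, _⟩ := hgx ⟨⟨b, k⟩, h1⟩
              rw [h3]
              exact (adj_a F i _).2 ⟨n', rfl, h5⟩
            · simp only [h1, if_false, dite_false]
              exact (hlift b (hother b h1)).2 k
        · push Not at hb
          exact h.nosp ⟨h'.br_inj, h'.lf_inj, h'.lf_ne_c, h'.lf_ne_br,
            fun b => (hlift b (hb b)).1, fun b k => (hlift b (hb b)).2 k⟩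
      · have hxyF : ∀ j, xy n j ∈ I → xy n j ∈ F := by
          intro j h3
          rcases (ixy _ _).1 h3 with h5 | h5
          · exact h5
          · exact absurd h5.1 hnN
        have hlift : ∀ b, br b ≠ a i →
            (gr F).Adj (x n) (br b) ∧ ∀ k, (gr F).Adj (br b) (lf ⟨b, k⟩) := by
          intro b hb
          refine adj_lift h' b ?_ ?_
          · intro i' h1 h3 n' h4
            have h5 : i' ≠ i := fun h6 => hb (by rw [h1, h6])
            exact iaxF _ _ h5 h4
          · intro j hj h3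
            exact ⟨hxyF j h3, fun t h4 => (iyz _ _ _).1 h4⟩
        by_cases hb : ∃ b1, br b1 = a i
        · obtain ⟨b1, hb1⟩ := hb
          have hain : ax i n ∈ I := by
            rcases (adj_x I n _).1 (h'.adj_cb b1) with ⟨i', h4, h5⟩ | ⟨j, h4, h5⟩
            · rw [hb1] at h4
              simp only [Vt.a.injEq] at h4
              rw [h4]; exact h5
            · rw [hb1] at h4
              simp at h4
          have hnn0 : n = n0 := by
            rcases (iax _ _).1 hain with h5 | h5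
            · exact absurd rfl h5.1
            · exact h5.2
          have hl0 : ∀ p : (b : Fin D) × Fin (ℓ b), p.1 ≠ b1 := by
            rintro ⟨b, k⟩ hp
            simp only at hp
            subst hp
            have h3 := h'.adj_bl b k
            rw [hb1] at h3
            obtain ⟨n', h6, h7⟩ := (adj_a I i _).1 h3
            have h8 : n' = n0 := by
              rcases (iax _ _).1 h7 with h5 | h5
              · exact absurd rfl h5.1
              · exact h5.2
            exact h'.lf_ne_c _ (by rw [h6, h8, hnn0])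
          have hother : ∀ b, b ≠ b1 → br b ≠ a i := fun b h1 h3 =>
            h1 (h'.br_inj (h3.trans hb1.symm))
          let NB : Set (Vt q) := (a '' {i' | ax i' n ∈ F}) ∪ (y n '' {j | xy n j ∈ F})
          have d : Disjoint (a '' {i' | ax i' n ∈ F} : Set (Vt q)) (y n '' {j | xy n j ∈ F}) := by
            rw [Set.disjoint_left]
            rintro v ⟨i', _, rfl⟩ ⟨j, _, h1⟩
            simp at h1
          have f1 : (a '' {i' | ax i' n ∈ F} : Set (Vt q)).Finite := (h.Tfin n).image _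
          have f2 : (y n '' {j | xy n j ∈ F} : Set (Vt q)).Finite := Set.toFinite _
          have hNB : D ≤ NB.ncard := by
            have h1 := Set.ncard_union_eq d f1 f2
            rw [Set.ncard_image_of_injective _ (fun i i' hi => by simpa using hi),
              Set.ncard_image_of_injective _ (fun i i' hi => by simpa using hi)] at h1
            unfold mm TT at hdeg
            rw [← hnn0] at hdeg
            show _ ≤ (_ ∪ _ : Set (Vt q)).ncard
            omega
          have hOB : (br '' {b | b ≠ b1}).ncard < D := by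
            rw [Set.ncard_image_of_injective _ h'.br_inj]
            have h1 := Set.ncard_add_ncard_compl {b : Fin D | b ≠ b1} (Set.toFinite _)
              (Set.toFinite _)
            rw [Nat.card_eq_fintype_card, Fintype.card_fin] at h1
            have h3 : ({b : Fin D | b ≠ b1}ᶜ) = {b1} := by
              ext b
              simp
            rw [h3, Set.ncard_singleton] at h1
            omega
          obtain ⟨v, hv, hv2⟩ := Set.exists_mem_notMem_of_ncard_lt_ncard
            (s := br '' {b | b ≠ b1}) (t := NB) (by omega) ((Set.toFinite _).image _)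
          have hvF : (gr F).Adj (x n) v := by
            rcases hv with ⟨i', h1, h3⟩ | ⟨j, h1, h3⟩
            · exact (adj_x F n _).2 (Or.inl ⟨i', h3.symm, h1⟩)
            · exact (adj_x F n _).2 (Or.inr ⟨j, h3.symm, h1⟩)
          refine h.nosp (c := x n) (br := fun b => if b = b1 then v else br b) (lf := lf)
            ⟨?_, h'.lf_inj, h'.lf_ne_c, ?_, ?_, ?_⟩
          · intro b b' hbb
            by_cases h1 : b = b1 <;> by_cases h3 : b' = b1
            · rw [h1, h3]
            · simp only [h1, h3, if_true, if_false] at hbb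
              exact absurd ⟨b', h3, hbb.symm⟩ hv2
            · simp only [h1, h3, if_true, if_false] at hbb
              exact absurd ⟨b, h1, hbb⟩ hv2
            · simp only [h1, h3, if_false] at hbb
              exact h'.br_inj hbb
          · intro p b
            by_cases h1 : b = b1
            · simp only [h1, if_true]
              intro h3
              rcases leaf_type h' p with ⟨n', h6⟩ | ⟨j, t, h6⟩
              · rw [h6] at h3
                rcases hv with ⟨i', _, h7⟩ | ⟨j, _, h7⟩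
                · rw [← h7] at h3; simp at h3
                · rw [← h7] at h3; simp at h3
              · rw [h6] at h3
                rcases hv with ⟨i', _, h7⟩ | ⟨j, _, h7⟩
                · rw [← h7] at h3; simp at h3
                · rw [← h7] at h3; simp at h3
            · simp only [h1, if_false]
              exact h'.lf_ne_br p b
          · intro b
            by_cases h1 : b = b1
            · simp only [h1, if_true]
              exact hvF
            · simp only [h1, if_false]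
              exact (hlift b (hother b h1)).1
          · intro b k
            have h1 : b ≠ b1 := hl0 ⟨b, k⟩
            simp only [h1, if_false]
            exact (hlift b (hother b h1)).2 k
        · push Not at hb
          exact h.nosp ⟨h'.br_inj, h'.lf_inj, h'.lf_ne_c, h'.lf_ne_br,
            fun b => (hlift b (hb b)).1, fun b k => (hlift b (hb b)).2 k⟩
  have hd : F \ I ⊆ (fun n => ax i n) '' {n | ax i n ∈ F} := by
    rintro e ⟨h1, h3⟩
    cases e with
    | ax i' n =>
      by_cases hi : i' = i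
      · subst hi
        exact ⟨n, h1, rfl⟩
      · exact absurd ((iax _ _).2 (Or.inl ⟨hi, h1⟩)) h3
    | xy n j => exact absurd ((ixy _ _).2 (Or.inl h1)) h3
    | yz n j t => exact absurd ((iyz _ _ _).2 h1) h3
  have hfi : ((fun n => ax i n) '' {n | ax i n ∈ F} : Set (Ed q)).Finite := (F3 h i).1.image _
  have key := nogain h.hS hIG hfree (hfi.subset hd)
  have h1 : (F \ I).ncard ≤ att F i := by
    refine (Set.ncard_le_ncard hd hfi).trans ?_
    rw [Set.ncard_image_of_injective _ (fun i i' hi => by simpa using hi)]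
    rfl
  have h3 : insert (ax i n0) ((fun n => xy n (y' n)) '' {n | ax i n ∈ F}) ⊆ I \ F := by
    intro e he
    rcases Set.mem_insert_iff.1 he with rfl | ⟨n, hn, rfl⟩
    · exact ⟨(iax _ _).2 (Or.inr ⟨rfl, rfl⟩), hn0F⟩
    · exact ⟨(ixy _ _).2 (Or.inr ⟨hn, rfl⟩), hy' n hn⟩
  have h4 := Set.ncard_le_ncard h3 key.1
  have h5 : (insert (ax i n0) ((fun n => xy n (y' n)) '' {n | ax i n ∈ F}) : Set (Ed q)).ncard =
      att F i + 1 := by
    rw [Set.ncard_insert_of_notMem _ ((F3 h i).1.image _),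
      Set.ncard_image_of_injective _ (fun n n' hn => by
        simp only [Ed.xy.injEq] at hn
        exact hn.1)]
    · rfl
    · rintro ⟨n, _, hn⟩
      simp at hn
  omega

/-! ### (F7) -/

theorem inj_le' {ι α : Type} [Fintype ι] {S : Set α} (hS : S.Finite) {f : ι → α}
    (hf : Function.Injective f) (h : ∀ b, f b ∈ S) : Fintype.card ι ≤ S.ncard := by
  have h1 : (Set.range f).ncard ≤ S.ncard :=
    Set.ncard_le_ncard (by rintro _ ⟨b, rfl⟩; exact h b) hS
  rw [← Set.image_univ, Set.ncard_image_of_injective _ hf, Set.ncard_univ,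
    Nat.card_eq_fintype_card] at h1
  exact h1

theorem ncard_Ico (m s : ℕ) : (Set.Ico m (m + s)).ncard = s := by
  rw [← Finset.coe_Ico, Set.ncard_coe_finset, Nat.card_Ico]
  omega

def P7 (F : Set (Ed q)) (s M : ℕ) : Ed q → Prop
  | .ax i n => (i < M ∧ M ≤ n ∧ n < M + s) ∨ (M + s ≤ i ∧ ax i n ∈ F)
  | .xy n j => n < M ∨ (M + s ≤ n ∧ xy n j ∈ F)
  | .yz n j t => yz n j t ∈ F

theorem F7a (h : Ctx D ℓ F) (M : ℕ) : M * ((∑ b, ℓ b) + q) ≤
    ∑ n ∈ Finset.range (M + ∑ b, ℓ b), (att F n + mm F n) := by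
  obtain ⟨s, hs⟩ : ∃ s, s = ∑ b, ℓ b := ⟨_, rfl⟩
  rw [← hs]
  have hsD : s + 2 ≤ D := by rw [hs]; exact h.hs
  have hqD := h.hq
  have hcard : Fintype.card ((b : Fin D) × Fin (ℓ b)) = s := by
    rw [Fintype.card_sigma, hs]
    simp only [Fintype.card_fin]
  have hs1 : 1 ≤ s := by
    obtain ⟨b, _, _, hb, _⟩ := h.h2
    rw [hs]
    exact hb.trans (Finset.single_le_sum (f := ℓ) (fun _ _ => Nat.zero_le _) (Finset.mem_univ b))
  obtain ⟨I, hI⟩ : ∃ I : Set (Ed q), I = {e | P7 F s M e} := ⟨_, rfl⟩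
  have iax : ∀ i n, ax i n ∈ I ↔ (i < M ∧ M ≤ n ∧ n < M + s) ∨ (M + s ≤ i ∧ ax i n ∈ F) := by
    intro i' n; rw [hI]; exact Iff.rfl
  have ixy : ∀ n j, xy n j ∈ I ↔ n < M ∨ (M + s ≤ n ∧ xy n j ∈ F) := by
    intro n j; rw [hI]; exact Iff.rfl
  have iyz : ∀ n j t, yz n j t ∈ I ↔ yz n j t ∈ F := by
    intro n j t; rw [hI]; exact Iff.rfl
  have hIG : I ⊆ Gs q := by
    intro e he i' n h1
    subst h1
    rcases (iax _ _).1 he with h5 | h5
    · omega
    · exact h.le h5.2
  have hle : ∀ {i n}, ax i n ∈ I → i ≤ n := fun {i n} h1 => hIG h1 i n rfl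
  have hfree : ¬ (Sp D ℓ ⊑ gr I) := by
    refine h.free (fun i br lf h' => ?_) fun n br lf h' => ?_
    · obtain ⟨f, hf, hf2⟩ := deg_a h'
      by_cases hi : i < M
      · have h1 := inj_le (Set.finite_Ico M (M + s)) hf (fun b => by
          rcases (iax _ _).1 (hf2 b) with h5 | h5
          · exact h5.2
          · exact absurd h5.1 (by omega))
        rw [ncard_Ico] at h1
        omega
      · refine h.nosp (lift_a h' fun n h1 => ?_)
        have h3 : M + s ≤ i := by
          rcases (iax _ _).1 h1 with h5 | h5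
          · exact absurd h5.1 hi
          · exact h5.1
        have h4 := hle h1
        constructor
        · intro i' h5
          rcases (iax _ _).1 h5 with h6 | h6
          · exact absurd h6.2.2 (by omega)
          · exact h6.2
        · intro j h5
          rcases (ixy _ _).1 h5 with h6 | h6
          · exact absurd h6 (by omega)
          · exact h6.2
    · by_cases hn : n < M
      · have h1 := deg_x h' fun i hi => by
          rcases (iax _ _).1 hi with h5 | h5
          · exact absurd h5.2.1 (by omega)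
          · exact absurd (hle hi) (by omega)
        omega
      · by_cases hn2 : n < M + s
        · have hlf : ∀ p : (b : Fin D) × Fin (ℓ b), ∃ n', lf p = x n' ∧
              n' ∈ Set.Ico M (M + s) \ {n} := by
            intro p
            have h3 := h'.adj_bl p.1 p.2
            rcases (adj_x I n _).1 (h'.adj_cb p.1) with ⟨i, h4, h5⟩ | ⟨j, h4, h5⟩
            · have hiM : i < M := by
                rcases (iax _ _).1 h5 with h6 | h6
                · exact h6.1
                · exact absurd (hle h5) (by omega)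
              rw [h4] at h3
              obtain ⟨n', h6, h7⟩ := (adj_a I i _).1 h3
              refine ⟨n', h6, ?_, ?_⟩
              · rcases (iax _ _).1 h7 with h8 | h8
                · exact h8.2
                · exact absurd h8.1 (by omega)
              · intro h8
                exact h'.lf_ne_c p (by rw [← Set.mem_singleton_iff.1 h8]; exact h6)
            · exfalso
              rcases (ixy _ _).1 h5 with h6 | h6
              · exact hn h6
              · omega
          choose g hg using hlf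
          have h1 := inj_le' ((Set.finite_Ico M (M + s)).subset Set.sdiff_subset)
            (f := g) (fun p p' hp => h'.lf_inj (by rw [(hg p).1, (hg p').1, hp]))
            (fun p => (hg p).2)
          rw [hcard] at h1
          have h3 := Set.ncard_sdiff_singleton_add_one (a := n) (s := Set.Ico M (M + s))
            ⟨by omega, hn2⟩ (Set.finite_Ico _ _)
          rw [ncard_Ico] at h3
          omega
        · refine h.nosp (lift_x h' ?_ ?_)
          · intro i h1 n' h3
            have h4 : M + s ≤ i := by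
              rcases (iax _ _).1 h1 with h5 | h5
              · exact absurd h5.2.2 hn2
              · exact h5.1
            rcases (iax _ _).1 h3 with h5 | h5
            · exact absurd h5.1 (by omega)
            · exact h5.2
          · intro j h1
            refine ⟨?_, fun t h3 => (iyz _ _ _).1 h3⟩
            rcases (ixy _ _).1 h1 with h5 | h5
            · exact absurd h5 hn
            · exact h5.2
  have hU : ∀ e ∉ U2 q (M + s), e ∈ F ↔ e ∈ I := by
    intro e he
    cases e with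
    | ax i n =>
      have h1 : ¬ i < M + s := fun h1 => he ⟨trivial, h1⟩
      rw [iax]
      constructor
      · exact fun h3 => Or.inr ⟨by omega, h3⟩
      · rintro (h3 | h3)
        · omega
        · exact h3.2
    | xy n j =>
      have h1 : ¬ n < M + s := fun h1 => he ⟨trivial, h1⟩
      rw [ixy]
      constructor
      · exact fun h3 => Or.inr ⟨by omega, h3⟩
      · rintro (h3 | h3)
        · omega
        · exact h3.2
    | yz n j t => exact (iyz _ _ _).symm
  have hIA : ∀ i, {n | ax i n ∈ I}.Finite := by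
    intro i
    refine ((Set.finite_Ico M (M + s)).union (F3 h i).1).subset fun n hn => ?_
    rcases (iax _ _).1 hn with h5 | h5
    · exact Or.inl h5.2
    · exact Or.inr h5.2
  have cF := count2 F (M + s) fun i => (F3 h i).1
  have cI := count2 I (M + s) hIA
  have key := region h.hS hIG hfree (U2 q (M + s)) hU cF.1 cI.1
  rw [cF.2, cI.2] at key
  refine le_trans ?_ key
  have h1 : ∑ n ∈ Finset.range M, (att I n + mm I n) ≤
      ∑ n ∈ Finset.range (M + s), (att I n + mm I n) :=
    Finset.sum_le_sum_of_subset (Finset.range_subset_range.2 (by omega))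
  refine le_trans (le_of_eq ?_) h1
  rw [Finset.sum_congr rfl (g := fun _ => s + q)]
  · rw [Finset.sum_const, Finset.card_range, smul_eq_mul]
  · intro n hn
    have hnM := Finset.mem_range.1 hn
    have e1 : {n' : ℕ | ax n n' ∈ I} = Set.Ico M (M + s) := by
      ext n'
      constructor
      · intro h3
        rcases (iax _ _).1 h3 with h5 | h5
        · exact h5.2
        · exact absurd h5.1 (by omega)
      · intro h3
        exact (iax _ _).2 (Or.inl ⟨hnM, h3.1, h3.2⟩)
    have e2 : {j : Fin q | xy n j ∈ I} = Set.univ := by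
      ext j
      exact ⟨fun _ => trivial, fun _ => (ixy _ _).2 (Or.inl hnM)⟩
    unfold att mm
    rw [e1, e2, ncard_Ico, Set.ncard_univ, Nat.card_eq_fintype_card, Fintype.card_fin]

theorem mm_le (F : Set (Ed q)) (n : ℕ) : mm F n ≤ q := by
  unfold mm
  have h1 := Set.ncard_le_ncard (Set.subset_univ {j : Fin q | xy n j ∈ F})
  rw [Set.ncard_univ, Nat.card_eq_fintype_card, Fintype.card_fin] at h1
  exact h1

theorem F7 (h : Ctx D ℓ F) : False := by
  obtain ⟨s, hs⟩ : ∃ s, s = ∑ b, ℓ b := ⟨_, rfl⟩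
  have hs1 : 1 ≤ s := by
    obtain ⟨b, _, _, hb, _⟩ := h.h2
    rw [hs]
    exact hb.trans (Finset.single_le_sum (f := ℓ) (fun _ _ => Nat.zero_le _) (Finset.mem_univ b))
  have hatt : ∀ i, att F i ≤ s := fun i => hs ▸ F6 h i
  have hinf : {n | att F n + mm F n < s + q}.Infinite := by
    refine Set.infinite_of_forall_exists_gt fun i0 => ?_
    obtain ⟨i, hi0⟩ : ∃ i, i = i0 + 1 := ⟨_, rfl⟩
    by_cases hi : att F i < s
    · refine ⟨i, ?_, by omega⟩
      have := mm_le F i
      show att F i + mm F i < s + q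
      omega
    · have h1 : 0 < att F i := by omega
      obtain ⟨n, hn⟩ := (Set.ncard_pos (F3 h i).1).1 h1
      obtain ⟨j, hj⟩ := F4 h hn
      refine ⟨n, ?_, lt_of_lt_of_le (by omega) (h.le hn)⟩
      have h3 : mm F n < q := by
        unfold mm
        have h4 : {j : Fin q | xy n j ∈ F} ⊂ Set.univ :=
          ⟨Set.subset_univ _, fun h5 => hj (h5 (Set.mem_univ j))⟩
        have h5 := Set.ncard_lt_ncard h4
        rw [Set.ncard_univ, Nat.card_eq_fintype_card, Fintype.card_fin] at h5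
        exact h5
      have := hatt n
      show att F n + mm F n < s + q
      omega
  obtain ⟨t, ht, hc⟩ := Set.Infinite.exists_subset_card_eq hinf (s * (s + q) + 1)
  obtain ⟨M, hM⟩ : ∃ M, ∀ n ∈ t, n < M :=
    ⟨t.sup id + 1, fun n hn => Nat.lt_succ_of_le (Finset.le_sup (f := id) hn)⟩
  have h1 := F7a h M
  rw [← hs] at h1
  have h3 : ∑ n ∈ Finset.range (M + s), (att F n + mm F n) +
      ∑ n ∈ Finset.range (M + s), ((s + q) - (att F n + mm F n)) = (M + s) * (s + q) := by
    rw [← Finset.sum_add_distrib, Finset.sum_congr rfl (g := fun _ => s + q)]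
    · rw [Finset.sum_const, Finset.card_range, smul_eq_mul]
    · intro n _
      have := hatt n
      have := mm_le F n
      omega
  have h4 : t.card ≤ ∑ n ∈ Finset.range (M + s), ((s + q) - (att F n + mm F n)) := by
    calc t.card = ∑ _n ∈ t, 1 := by simp
      _ ≤ ∑ n ∈ t, ((s + q) - (att F n + mm F n)) := by
          refine Finset.sum_le_sum fun n hn => ?_
          have h5 : att F n + mm F n < s + q := ht hn
          omega
      _ ≤ _ := by
          refine Finset.sum_le_sum_of_subset fun n hn => ?_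
          rw [Finset.mem_range]
          have := hM n hn
          omega
  have h5 : (M + s) * (s + q) = M * (s + q) + s * (s + q) := by ring
  omega

end

end T2

open T2 in
theorem typeII : StmTypeII := by
  intro D ℓ h2 hs hgood
  obtain ⟨F, hF⟩ := hgood (Vt (D - 1)) (gr (Gs (D - 1)))
  obtain ⟨h1, h3⟩ := eq_gr hF.1
  rw [h1] at hF
  exact F7 (D := D) (ℓ := ℓ) (F := {e | ed e ∈ F.edgeSet}) ⟨by omega, hs, h2, hF, h3⟩

end Pool.Agent.R709.SM
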