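import Pool.Agent.R709.SM.TypeI3
import Pool.Agent.R709.SM.TypeII
import Pool.Agent.R709.SM.Pendant
import Pool.Agent.R709.SM.Tree
import Pool.Agent.R709.SM.Stars
import Pool.Agent.R709.SM.Disc
import Pool.Agent.R709.SM.K3
import Pool.Agent.R709.SM.KStep
import Pool.Agent.R709.SM.Cycle

/-! Assembly (project SM, problem MP_fc2b6d_co). -/

namespace Pool.Agent.R709.SM

open SimpleGraph

namespace Fo

theorem smax_congr {V W W' : Type} {H : SimpleGraph W} {H' : SimpleGraph W'} (e : H ≃g H')
    {G F : SimpleGraph V} (h : SMax H G F) : SMax H' G F := by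
  refine ⟨h.1, ?_, ?_⟩
  · rw [← isContained_congr_left e]; exact h.2.1
  · intro I hI hf
    rw [← isContained_congr_left e] at hf
    exact h.2.2 I hI hf

theorem good_congr {W W' : Type} {H : SimpleGraph W} {H' : SimpleGraph W'} (e : H ≃g H')
    (h : Good H) : Good H' := fun V G => by
  obtain ⟨F, hF⟩ := h V G
  exact ⟨F, smax_congr e hF⟩

/-- the inner vertices of a path are in the core -/
theorem mem_core_of_path {W : Type} {H : SimpleGraph W} : ∀ {u v : W} (p : H.Walk u v),
    p.IsPath → u ∈ core H → v ∈ core H → ∀ x ∈ p.support, x ∈ core H := by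
  intro u v p
  induction p with
  | nil => intro _ hu _ x hx; simp at hx; subst hx; exact hu
  | @cons u w v h q ih =>
    intro hp hu hv x hx
    rw [Walk.cons_isPath_iff] at hp
    rw [Walk.support_cons, List.mem_cons] at hx
    rcases hx with rfl | hx
    · exact hu
    · refine ih hp.1 ?_ hv x hx
      cases q with
      | nil => exact hv
      | @cons _ w' _ h' q' =>
        refine ⟨u, w', ?_, h.symm, h'⟩
        rintro rfl
        exact hp.2 (by rw [Walk.support_cons]; exact List.mem_cons_of_mem _ (Walk.start_mem_support _))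

theorem card_core_lt {W : Type} [Finite W] {H : SimpleGraph W} (h : core H ≠ Set.univ) :
    Nat.card ↥(core H) < Nat.card W := by
  obtain ⟨x, hx⟩ := (Set.ne_univ_iff_exists_notMem _).1 h
  exact Finite.card_subtype_lt (p := fun x => x ∈ core H) hx

/-- core edges are inherited upwards. -/
theorem hasCoreEdge_mono {W W' : Type} {A : SimpleGraph W} {B : SimpleGraph W'} (h : A ⊑ B)
    (hA : HasCoreEdge A) : HasCoreEdge B := by
  obtain ⟨f⟩ := h
  obtain ⟨u, v, ⟨a, b, hab, ha, hb⟩, ⟨a', b', hab', ha', hb'⟩, huv⟩ := hA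
  exact ⟨f u, f v, ⟨f a, f b, fun h => hab (f.injective h), f.toHom.map_adj ha, f.toHom.map_adj hb⟩,
    ⟨f a', f b', fun h => hab' (f.injective h), f.toHom.map_adj ha', f.toHom.map_adj hb'⟩,
    f.toHom.map_adj huv⟩

/-- a copy between finite graphs of equal size is an isomorphism. -/
theorem iso_of_copy {W W' : Type} [Finite W] [Finite W'] {A : SimpleGraph W} {B : SimpleGraph W'}
    (h : A ⊑ B) (hv : Nat.card W' ≤ Nat.card W) (he : B.edgeSet.ncard ≤ A.edgeSet.ncard) :
    Nonempty (B ≃g A) := by
  obtain ⟨f⟩ := h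
  have hfi : Function.Injective (fun x => f x) := f.injective
  have hcard : Nat.card W = Nat.card W' := le_antisymm (Nat.card_le_card_of_injective _ hfi) hv
  have hbij : Function.Bijective (fun x => f x) := by
    rw [Nat.bijective_iff_injective_and_card]
    exact ⟨hfi, hcard⟩
  have hsub : Sym2.map (fun x => f x) '' A.edgeSet ⊆ B.edgeSet := by
    rintro _ ⟨e, he, rfl⟩
    induction e using Sym2.ind with
    | _ x y => exact f.toHom.map_adj he
  have himg : Sym2.map (fun x => f x) '' A.edgeSet = B.edgeSet := by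
    refine Set.eq_of_subset_of_ncard_le hsub ?_ (Set.toFinite _)
    rw [Set.ncard_image_of_injective _ (Sym2.map.injective hfi)]
    exact he
  let e : W ≃ W' := Equiv.ofBijective _ hbij
  have hiso : ∀ x y, B.Adj (e x) (e y) ↔ A.Adj x y := by
    intro x y
    constructor
    · intro hxy
      have h1 : s(e x, e y) ∈ B.edgeSet := hxy
      rw [← himg] at h1
      obtain ⟨e', he', h2⟩ := h1
      have h3 : Sym2.map (fun x => f x) e' = Sym2.map (fun x => f x) s(x, y) := h2
      have h4 := Sym2.map.injective hfi h3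
      rw [h4] at he'
      exact he'
    · intro hxy
      exact f.toHom.map_adj hxy
  exact ⟨⟨e.symm, by
    intro a b
    have := hiso (e.symm a) (e.symm b)
    simp only [Equiv.apply_symm_apply] at this
    exact this.symm⟩⟩

/-- in a good graph with a core edge some component with a core edge is good. -/
theorem component {W : Type} [Finite W] {H : SimpleGraph W} (hc : HasCoreEdge H) (hg : Good H) :
    ∃ C : H.ConnectedComponent, HasCoreEdge (H.induce C.supp) ∧ Good (H.induce C.supp) := by
  classical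
  -- some component has a core edge
  have hex : ∃ C : H.ConnectedComponent, HasCoreEdge (H.induce C.supp) := by
    obtain ⟨u, v, ⟨a, b, hab, ha, hb⟩, ⟨a', b', hab', ha', hb'⟩, huv⟩ := hc
    have key : ∀ x y, H.Adj x y → x ∈ (H.connectedComponentMk u).supp →
        y ∈ (H.connectedComponentMk u).supp := by
      intro x y hxy hx
      rw [ConnectedComponent.mem_supp_iff] at hx ⊢
      rw [← hx]
      exact ConnectedComponent.sound hxy.symm.reachable
    have hu : u ∈ (H.connectedComponentMk u).supp := rfl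
    have hv := key u v huv hu
    refine ⟨H.connectedComponentMk u, ⟨u, hu⟩, ⟨v, hv⟩, ?_, ?_, huv⟩
    · exact ⟨⟨a, key _ _ ha hu⟩, ⟨b, key _ _ hb hu⟩, fun h => hab (congrArg Subtype.val h), ha, hb⟩
    · exact ⟨⟨a', key _ _ ha' hv⟩, ⟨b', key _ _ hb' hv⟩, fun h => hab' (congrArg Subtype.val h),
        ha', hb'⟩
  -- choose one with the largest measure
  let μ : H.ConnectedComponent → ℕ := fun C =>
    Nat.card ↥C.supp + (H.induce C.supp).edgeSet.ncard
  have : Finite H.ConnectedComponent := Quot.finite _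
  obtain ⟨C, hC, hmax⟩ := Set.exists_max_image
    {C : H.ConnectedComponent | HasCoreEdge (H.induce C.supp)} μ (Set.toFinite _) hex
  refine ⟨C, hC, ?_⟩
  by_contra hbad
  refine disc W H C ?_ ?_ hbad hg
  · obtain ⟨u, v, _, _, huv⟩ := hC
    exact ⟨u, v, u.2, huv⟩
  · intro C' hCC'
    have h1 := hmax C' (hasCoreEdge_mono hCC' hC)
    have hcard : Nat.card ↥C.supp ≤ Nat.card ↥C'.supp := by
      obtain ⟨f⟩ := hCC'
      exact Nat.card_le_card_of_injective (fun x => f x) f.injective
    have hedge : (H.induce C.supp).edgeSet.ncard ≤ (H.induce C'.supp).edgeSet.ncard := by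
      obtain ⟨f⟩ := hCC'
      rw [← Set.ncard_image_of_injective _ (Sym2.map.injective (f.injective :
        Function.Injective (fun x => f x)))]
      refine Set.ncard_le_ncard ?_ (Set.toFinite _)
      rintro _ ⟨e, he, rfl⟩
      induction e using Sym2.ind with
      | _ x y => exact f.toHom.map_adj he
    change Nat.card ↥C'.supp + (H.induce C'.supp).edgeSet.ncard ≤
      Nat.card ↥C.supp + (H.induce C.supp).edgeSet.ncard at h1
    exact iso_of_copy hCC' (by omega) (by omega)

/-- `H` has an edge and all its edges share a vertex: a star and isolated vertices. -/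
def StarLike {W : Type} (H : SimpleGraph W) : Prop :=
  (∃ u v, H.Adj u v) ∧ ∃ c, ∀ u v, H.Adj u v → u = c ∨ v = c

theorem not_coreEdge_of_starLike {W : Type} {H : SimpleGraph W} (h : StarLike H) :
    ¬ HasCoreEdge H := by
  rintro ⟨u, v, ⟨a, b, hab, ha, hb⟩, ⟨a', b', hab', ha', hb'⟩, huv⟩
  obtain ⟨-, c, hc⟩ := h
  have key : ∀ x, x ≠ c → ∀ a b, a ≠ b → H.Adj x a → H.Adj x b → False := by
    intro x hx a b hab ha hb
    rcases hc _ _ ha with h | h
    · exact hx h
    rcases hc _ _ hb with h' | h'
    · exact hx h'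
    exact hab (h.trans h'.symm)
  by_cases hu : u = c
  · have hv : v ≠ c := fun h => huv.ne (hu.trans h.symm)
    exact key v hv a' b' hab' ha' hb'
  · exact key u hu a b hab ha hb

theorem starLike_of_good {W : Type} [Finite W] {H : SimpleGraph W} (hc : ¬ HasCoreEdge H)
    (hg : Good H) : StarLike H := by
  classical
  have hedge : ∃ u v, H.Adj u v := by
    by_contra hno
    push Not at hno
    obtain ⟨F, hF, hfree, -⟩ := hg ℕ ⊥
    apply hfree
    obtain ⟨g⟩ : Nonempty (W ↪ ℕ) := by
      have := Fintype.ofFinite W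
      exact ⟨(Fintype.equivFin W).toEmbedding.trans ⟨Fin.val, Fin.val_injective⟩⟩
    refine ⟨⟨⟨g, ?_⟩, g.injective⟩⟩
    intro a b hab
    exact absurd hab (hno a b)
  refine ⟨hedge, ?_⟩
  have hdis : ∀ a b c d, H.Adj a b → H.Adj c d → ¬ (a ≠ c ∧ a ≠ d ∧ b ≠ c ∧ b ≠ d) := by
    intro a b c d hab hcd hh
    exact stars W H hc ⟨a, b, c, d, hab, hcd, hh⟩ hg
  obtain ⟨x, y, hxy⟩ := hedge
  by_cases hx : ∀ u v, H.Adj u v → u = x ∨ v = x
  · exact ⟨x, hx⟩
  by_cases hy : ∀ u v, H.Adj u v → u = y ∨ v = y
  · exact ⟨y, hy⟩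
  exfalso
  push Not at hx hy
  obtain ⟨u, v, huv, hux, hvx⟩ := hx
  obtain ⟨s, t, hst, hsy, hty⟩ := hy
  -- an edge b y, b ≠ x
  have h1 : ∃ b, H.Adj b y ∧ b ≠ x := by
    by_cases h1 : u = y
    · exact ⟨v, h1 ▸ huv.symm, hvx⟩
    by_cases h2 : v = y
    · exact ⟨u, h2 ▸ huv, hux⟩
    exact absurd ⟨Ne.symm hux, Ne.symm hvx, Ne.symm h1, Ne.symm h2⟩ (hdis x y u v hxy huv)
  have h2 : ∃ a, H.Adj a x ∧ a ≠ y := by
    by_cases h1 : s = x
    · exact ⟨t, h1 ▸ hst.symm, hty⟩
    by_cases h2 : t = x
    · exact ⟨s, h2 ▸ hst, hsy⟩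
    exact absurd ⟨Ne.symm h1, Ne.symm h2, Ne.symm hsy, Ne.symm hty⟩ (hdis x y s t hxy hst)
  obtain ⟨b, hb, hbx⟩ := h1
  obtain ⟨a, ha, hay⟩ := h2
  exact hc ⟨x, y, ⟨a, y, hay, ha.symm, hxy⟩, ⟨b, x, hbx, hb.symm, hxy.symm⟩, hxy⟩

/-- if all edges inside the core share a vertex then the graph is acyclic. -/
theorem acyclic_of {W : Type} {H : SimpleGraph W} (c : W)
    (hc : ∀ u v, u ∈ core H → v ∈ core H → H.Adj u v → u = c ∨ v = c) : H.IsAcyclic := by
  intro v p hp
  have hnb : ∀ x ∈ p.support, ∃ a b, a ≠ b ∧ p.toSubgraph.Adj x a ∧ p.toSubgraph.Adj x b := by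
    intro x hx
    have h2 := hp.ncard_neighborSet_toSubgraph_eq_two hx
    rw [Set.ncard_eq_two] at h2
    obtain ⟨a, b, hab, h3⟩ := h2
    refine ⟨a, b, hab, ?_, ?_⟩
    · have : a ∈ p.toSubgraph.neighborSet x := by rw [h3]; simp
      exact this
    · have : b ∈ p.toSubgraph.neighborSet x := by rw [h3]; simp
      exact this
  have hmem : ∀ x a, p.toSubgraph.Adj x a → a ∈ p.support := by
    intro x a h
    have := p.toSubgraph.edge_vert h.symm
    rwa [Walk.mem_verts_toSubgraph] at this
  have hcore : ∀ x ∈ p.support, x ∈ core H := by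
    intro x hx
    obtain ⟨a, b, hab, ha, hb⟩ := hnb x hx
    exact ⟨a, b, hab, ha.adj_sub, hb.adj_sub⟩
  -- a vertex of the cycle different from c
  have hex : ∃ y ∈ p.support, y ≠ c := by
    obtain ⟨a, b, hab, ha, hb⟩ := hnb v (Walk.start_mem_support p)
    by_cases hac : a = c
    · exact ⟨b, hmem _ _ hb, fun h => hab (hac.trans h.symm)⟩
    · exact ⟨a, hmem _ _ ha, hac⟩
  obtain ⟨y, hy, hyc⟩ := hex
  obtain ⟨a, b, hab, ha, hb⟩ := hnb y hy
  have h1 : a = c := (hc y a (hcore y hy) (hcore a (hmem _ _ ha)) ha.adj_sub).resolve_left hyc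
  have h2 : b = c := (hc y b (hcore y hy) (hcore b (hmem _ _ hb)) hb.adj_sub).resolve_left hyc
  exact hab (h1.trans h2.symm)

/-- the reduction to connected graphs of minimum degree at least two. -/
theorem reduction (tI : StmTypeI) (tII : StmTypeII) : ∀ n : ℕ, ∀ (W : Type) [Finite W]
    (H : SimpleGraph W), Nat.card W = n → Good H → StarLike H ∨
      ∃ (K : Type) (B : SimpleGraph K), Nonempty (B ↪g H) ∧ B.Connected ∧ core B = Set.univ ∧
        Good B := by
  classical
  intro n
  induction n using Nat.strong_induction_on with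
  | _ n ih =>
    intro W _ H hn hg
    by_cases hcE : HasCoreEdge H
    · right
      by_cases hconn : H.Connected
      · by_cases hcore : core H = Set.univ
        · exact ⟨W, H, ⟨Embedding.refl⟩, hconn, hcore, hg⟩
        · -- pass to the core
          have hg' : Good (H.induce (core H)) := by
            by_contra hbad
            exact pendant W H hconn hcE hbad hg
          rcases ih _ (hn ▸ card_core_lt hcore) ↥(core H) (H.induce (core H)) rfl hg' with h | h
          · exfalso
            have hnc := not_coreEdge_of_starLike h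
            obtain ⟨-, ⟨c, hcc⟩, hc⟩ := h
            have hA : H.IsAcyclic := by
              refine acyclic_of c ?_
              intro u v hu hv huv
              rcases hc ⟨u, hu⟩ ⟨v, hv⟩ huv with h | h
              · exact Or.inl (congrArg Subtype.val h)
              · exact Or.inr (congrArg Subtype.val h)
            obtain ⟨D, ℓ, ⟨e⟩, h | h⟩ := tree W H ⟨hconn, hA⟩ hcE hnc
            · exact tI D ℓ h.1 h.2 (good_congr e hg)
            · exact tII D ℓ h.1 h.2 (good_congr e hg)
          · obtain ⟨K, B, ⟨f⟩, h1, h2, h3⟩ := h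
            exact ⟨K, B, ⟨(Embedding.induce (core H)).comp f⟩, h1, h2, h3⟩
      · obtain ⟨C, hC, hCg⟩ := component hcE hg
        have hlt : Nat.card ↥C.supp < n := by
          rw [← hn]
          have hne : C.supp ≠ Set.univ := by
            intro hu
            apply hconn
            rw [connected_iff]
            obtain ⟨x, hx⟩ := C.nonempty_supp
            refine ⟨?_, ⟨x⟩⟩
            intro a b
            have ha : a ∈ C.supp := by rw [hu]; trivial
            have hb : b ∈ C.supp := by rw [hu]; trivial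
            rw [ConnectedComponent.mem_supp_iff] at ha hb
            exact ConnectedComponent.exact (ha.trans hb.symm)
          obtain ⟨x, hx⟩ := (Set.ne_univ_iff_exists_notMem _).1 hne
          exact Finite.card_subtype_lt (p := fun x => x ∈ C.supp) hx
        rcases ih _ hlt ↥C.supp (H.induce C.supp) rfl hCg with h | h
        · exact absurd hC (not_coreEdge_of_starLike h)
        · obtain ⟨K, B, ⟨f⟩, h1, h2, h3⟩ := h
          exact ⟨K, B, ⟨(Embedding.induce C.supp).comp f⟩, h1, h2, h3⟩
    · exact Or.inl (starLike_of_good hcE hg)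

end Fo

end Pool.Agent.R709.SM
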