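import Pool.Agent.R709.SM.Stm3

set_option autoImplicit false

/-! Locally finite hosts: a compactness argument (project SM, problem MP_fc2b6d_co). -/

namespace Pool.Agent.R709.SM

open SimpleGraph Filter

namespace LF

/-- the edge set `S` contains no copy of `H` -/
def Free {V W : Type} (H : SimpleGraph W) (S : Set (Sym2 V)) : Prop :=
  ∀ φ : W → V, Function.Injective φ → ¬ ∀ a b, H.Adj a b → s(φ a, φ b) ∈ S

theorem free_iff {V W : Type} (H : SimpleGraph W) (F : SimpleGraph V) :
    ¬ (H ⊑ F) ↔ Free H F.edgeSet := by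
  constructor
  · intro h φ hφ hall
    exact h ⟨⟨⟨φ, fun {a b} hab => hall a b hab⟩, hφ⟩⟩
  · rintro h ⟨φ⟩
    exact h φ φ.injective fun a b hab => φ.toHom.map_adj hab

theorem Free.mono {V W : Type} {H : SimpleGraph W} {S T : Set (Sym2 V)} (h : S ⊆ T)
    (hT : Free H T) : Free H S :=
  fun φ hφ hall => hT φ hφ fun a b hab => h (hall a b hab)

theorem exists_M {V W : Type} (H : SimpleGraph W) (G : SimpleGraph V) (hH : ∃ a b, H.Adj a b)
    (A : Finset (Sym2 V)) : ∃ M : Finset (Sym2 V), M ⊆ A ∧ (M : Set (Sym2 V)) ⊆ G.edgeSet ∧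
      Free H (M : Set (Sym2 V)) ∧ ∀ B : Finset (Sym2 V), B ⊆ A → (B : Set (Sym2 V)) ⊆ G.edgeSet →
        Free H (B : Set (Sym2 V)) → B.card ≤ M.card := by
  classical
  obtain ⟨a, b, hab⟩ := hH
  obtain ⟨M, hM, hmax⟩ := Finset.exists_max_image
    (A.powerset.filter fun B : Finset (Sym2 V) =>
      (B : Set (Sym2 V)) ⊆ G.edgeSet ∧ Free H (B : Set (Sym2 V)))
    (fun B : Finset (Sym2 V) => B.card) ⟨∅, by
      rw [Finset.mem_filter]
      refine ⟨Finset.empty_mem_powerset A, by simp, fun φ _ h => ?_⟩
      simpa using h a b hab⟩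
  rw [Finset.mem_filter, Finset.mem_powerset] at hM
  refine ⟨M, hM.1, hM.2.1, hM.2.2, fun B h1 h2 h3 => hmax B ?_⟩
  rw [Finset.mem_filter, Finset.mem_powerset]
  exact ⟨h1, h2, h3⟩

/-- balls around a set -/
def ball {V : Type} (G : SimpleGraph V) (S : Set V) : ℕ → Set V
  | 0 => S
  | n + 1 => ball G S n ∪ ⋃ v ∈ ball G S n, G.neighborSet v

theorem ball_fin {V : Type} (G : SimpleGraph V) (hG : ∀ v, (G.neighborSet v).Finite) {S : Set V}
    (hS : S.Finite) (n : ℕ) : (ball G S n).Finite := by
  induction n with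
  | zero => exact hS
  | succ n ih => exact ih.union (ih.biUnion fun v _ => hG v)

theorem ball_mono {V : Type} (G : SimpleGraph V) (S : Set V) {n m : ℕ} (h : n ≤ m) :
    ball G S n ⊆ ball G S m := by
  induction h with
  | refl => exact subset_rfl
  | step _ ih => exact ih.trans Set.subset_union_left

theorem ball_walk {V W : Type} {H : SimpleGraph W} (G : SimpleGraph V) (S : Set V) (φ : W → V)
    (hφ : ∀ a b, H.Adj a b → G.Adj (φ a) (φ b)) {a b : W} (p : H.Walk a b) :
    ∀ k, φ a ∈ ball G S k → φ b ∈ ball G S (k + p.length) := by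
  induction p with
  | nil => intro k h; exact h
  | cons h p ih =>
    intro k hk
    have h1 := ih (k + 1) (Or.inr (Set.mem_biUnion hk (hφ _ _ h)))
    rw [Walk.length_cons]
    have e : k + (p.length + 1) = k + 1 + p.length := by omega
    rw [e]
    exact h1

theorem exists_L {W : Type} [Finite W] {H : SimpleGraph W} (hH : H.Connected) :
    ∃ L : ℕ, ∀ (V : Type) (G : SimpleGraph V) (S : Set V) (φ : W → V),
      (∀ a b, H.Adj a b → G.Adj (φ a) (φ b)) → ∀ a, φ a ∈ S → ∀ w, φ w ∈ ball G S L := by
  have hw : ∀ q : W × W, Nonempty (H.Walk q.1 q.2) := fun q => hH.preconnected q.1 q.2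
  let p := fun q : W × W => (hw q).some
  obtain ⟨L, hL⟩ := Finite.exists_le fun q => (p q).length
  refine ⟨L, fun V G S φ hφ a ha w => ?_⟩
  have h1 := ball_walk G S φ hφ (p (a, w)) 0 ha
  refine ball_mono G S ?_ h1
  have := hL (a, w)
  omega

/-- the ultrafilter limit of the maximum `H`-free subsets of the finite edge sets -/
theorem exists_limit {V W : Type} [Finite W] (H : SimpleGraph W) (G : SimpleGraph V)
    (hconn : H.Connected) (hH : ∃ a b, H.Adj a b) (hG : ∀ v, (G.neighborSet v).Finite) :
    ∃ F : Set (Sym2 V), F ⊆ G.edgeSet ∧ Free H F ∧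
      ∀ P Q : Finset (Sym2 V), (P : Set (Sym2 V)) ⊆ F → (Q : Set (Sym2 V)) ⊆ G.edgeSet →
        (∀ e ∈ Q, e ∉ F) → P.card < Q.card →
        ¬ Free H ((F \ (P : Set (Sym2 V))) ∪ (Q : Set (Sym2 V))) := by
  classical
  choose M hMA hMG hMF hMmax using exists_M H G hH
  let U : Ultrafilter (Finset (Sym2 V)) := Ultrafilter.of atTop
  have hU : (U : Filter (Finset (Sym2 V))) ≤ atTop := Ultrafilter.of_le atTop
  let F : Set (Sym2 V) := {e | ∀ᶠ A in (U : Filter (Finset (Sym2 V))), e ∈ M A}
  have hFG : F ⊆ G.edgeSet := by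
    intro e he
    obtain ⟨A, hA⟩ := Filter.Eventually.exists (he : ∀ᶠ A in (U : Filter _), e ∈ M A)
    exact hMG A hA
  have hFF : Free H F := by
    intro φ hφ hall
    have h1 : ∀ᶠ A in (U : Filter (Finset (Sym2 V))), ∀ a b, H.Adj a b → s(φ a, φ b) ∈ M A := by
      rw [Filter.eventually_all]
      intro a
      rw [Filter.eventually_all]
      intro b
      rw [Filter.eventually_imp_distrib_left]
      exact hall a b
    obtain ⟨A, hA⟩ := h1.exists
    exact hMF A φ hφ fun a b hab => hA a b hab
  refine ⟨F, hFG, hFF, fun P Q hP hQ hQF hcard hfree => ?_⟩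
  obtain ⟨L, hL⟩ := exists_L hconn
  let S : Set V := {v | ∃ e ∈ Q, v ∈ e}
  have hS : S.Finite := by
    have : S = ⋃ e ∈ Q, {v | v ∈ e} := by
      ext v
      simp [S]
    rw [this]
    refine Q.finite_toSet.biUnion fun e _ => ?_
    induction e using Sym2.ind with
    | _ x y =>
      refine (Set.toFinite {x, y}).subset fun v hv => ?_
      simpa using hv
  let N : Finset (Sym2 V) := (ball_fin G hG hS L).toFinset.sym2
  have hN : ∀ e, e ∈ N ↔ ∀ v ∈ e, v ∈ ball G S L := by
    intro e
    rw [Finset.mem_sym2_iff]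
    simp
  have hQN : Q ⊆ N := by
    intro e he
    rw [hN]
    intro v hv
    exact ball_mono G S (Nat.zero_le L) ⟨e, he, hv⟩
  have hev : ∀ᶠ A in (U : Filter (Finset (Sym2 V))), P ∪ Q ⊆ A ∧ ∀ e ∈ N ∪ P, (e ∈ M A ↔ e ∈ F) := by
    refine Filter.Eventually.and (hU (eventually_ge_atTop (P ∪ Q))) ?_
    rw [Filter.eventually_all_finset]
    intro e _
    by_cases he : e ∈ F
    · have he' : ∀ᶠ A in (U : Filter (Finset (Sym2 V))), e ∈ M A := he
      filter_upwards [he'] with A hA
      exact ⟨fun _ => he, fun _ => hA⟩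
    · have he' : ∀ᶠ A in (U : Filter (Finset (Sym2 V))), ¬ e ∈ M A :=
        Ultrafilter.eventually_not.2 he
      filter_upwards [he'] with A hA
      exact ⟨fun h => absurd h hA, fun h => absurd h he⟩
  obtain ⟨A, hA1, hA2⟩ := hev.exists
  have hPM : P ⊆ M A := fun e he => (hA2 e (Finset.mem_union_right _ he)).2 (hP he)
  have hQM : Disjoint (M A \ P) Q := by
    rw [Finset.disjoint_left]
    intro e h1 h2
    exact hQF e h2 ((hA2 e (Finset.mem_union_left _ (hQN h2))).1 (Finset.mem_sdiff.1 h1).1)
  have hlt : (M A).card < ((M A \ P) ∪ Q).card := by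
    rw [Finset.card_union_of_disjoint hQM, Finset.card_sdiff_of_subset hPM]
    have := Finset.card_le_card hPM
    omega
  refine absurd (hMmax A ((M A \ P) ∪ Q) ?_ ?_ ?_) (not_le.2 hlt)
  · refine Finset.union_subset (Finset.sdiff_subset.trans (hMA A)) ?_
    exact (Finset.subset_union_right).trans hA1
  · intro e he
    rw [Finset.mem_coe, Finset.mem_union, Finset.mem_sdiff] at he
    rcases he with he | he
    · exact hMG A he.1
    · exact hQ he
  · intro φ hφ hall
    by_cases hq : ∃ a b, H.Adj a b ∧ s(φ a, φ b) ∈ Q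
    · obtain ⟨a, b, hab, hq⟩ := hq
      have hhom : ∀ a b, H.Adj a b → G.Adj (φ a) (φ b) := by
        intro c d hcd
        have h1 := hall c d hcd
        rw [Finset.mem_coe, Finset.mem_union, Finset.mem_sdiff] at h1
        rw [← mem_edgeSet]
        rcases h1 with h1 | h1
        · exact hMG A h1.1
        · exact hQ h1
      have hloc := hL V G S φ hhom a ⟨_, hq, Sym2.mem_mk_left _ _⟩
      refine hfree φ hφ fun c d hcd => ?_
      have h1 := hall c d hcd
      have h2 : s(φ c, φ d) ∈ N := by
        rw [hN]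
        intro v hv
        rw [Sym2.mem_iff] at hv
        rcases hv with rfl | rfl
        · exact hloc c
        · exact hloc d
      rw [Finset.mem_coe, Finset.mem_union, Finset.mem_sdiff] at h1
      rcases h1 with h1 | h1
      · exact Or.inl ⟨(hA2 _ (Finset.mem_union_left _ h2)).1 h1.1, h1.2⟩
      · exact Or.inr h1
    · refine hMF A φ hφ fun c d hcd => ?_
      have h1 := hall c d hcd
      rw [Finset.mem_coe, Finset.mem_union, Finset.mem_sdiff] at h1
      rcases h1 with h1 | h1
      · exact h1.1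
      · exact absurd ⟨c, d, hcd, h1⟩ hq

/-- the vertex at the end of a sequence of steps -/
def go {V : Type} (nb : V → ℕ → V) : V → List ℕ → V
  | v, [] => v
  | v, i :: l => go nb (nb v i) l

theorem go_append {V : Type} (nb : V → ℕ → V) (l : List ℕ) (i : ℕ) :
    ∀ v, go nb v (l ++ [i]) = nb (go nb v l) i := by
  induction l with
  | nil => intro v; rfl
  | cons j l ih => intro v; exact ih (nb v j)

/-- a set of edges of infinite cardinality `κ` meets components with at most `κ` edges -/
theorem exists_closure {V : Type} (G : SimpleGraph V) (hG : ∀ v, (G.neighborSet v).Finite)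
    (D : Set (Sym2 V)) (hD : Cardinal.aleph0 ≤ Cardinal.mk D) :
    ∃ R : Set V, (∀ e ∈ D, ∀ v ∈ e, v ∈ R) ∧ (∀ u v, G.Adj u v → u ∈ R → v ∈ R) ∧
      Cardinal.mk {e : Sym2 V | ∀ v ∈ e, v ∈ R} ≤ Cardinal.mk D := by
  classical
  have hnb : ∀ v, ∃ f : ℕ → V, ∀ u, G.Adj v u → ∃ i, f i = u := by
    intro v
    rcases (G.neighborSet v).eq_empty_or_nonempty with h | h
    · refine ⟨fun _ => v, fun u hu => ?_⟩
      have : u ∈ G.neighborSet v := hu
      rw [h] at this
      exact absurd this (Set.notMem_empty u)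
    · obtain ⟨f, hf⟩ := (hG v).countable.exists_eq_range h
      refine ⟨f, fun u hu => ?_⟩
      have : u ∈ G.neighborSet v := hu
      rw [hf] at this
      exact this
  choose nb hnb using hnb
  let f : D × (Bool × List ℕ) → V := fun x =>
    go nb (if x.2.1 then (x.1 : Sym2 V).out.1 else (x.1 : Sym2 V).out.2) x.2.2
  have hR : Cardinal.mk (Set.range f) ≤ Cardinal.mk D := by
    refine Cardinal.mk_range_le.trans ?_
    rw [Cardinal.mk_prod, Cardinal.lift_id, Cardinal.lift_id]
    refine (mul_le_mul_right (Cardinal.mk_le_aleph0 (α := Bool × List ℕ)) _).trans ?_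
    rw [Cardinal.mul_aleph0_eq hD]
  refine ⟨Set.range f, ?_, ?_, ?_⟩
  · intro e he v hv
    have h1 : s(e.out.1, e.out.2) = e := Quot.out_eq e
    rw [← h1, Sym2.mem_iff] at hv
    rcases hv with rfl | rfl
    · exact ⟨(⟨e, he⟩, true, []), rfl⟩
    · exact ⟨(⟨e, he⟩, false, []), rfl⟩
  · rintro u v huv ⟨⟨e, b, l⟩, rfl⟩
    obtain ⟨i, hi⟩ := hnb _ _ huv
    refine ⟨(e, b, l ++ [i]), ?_⟩
    simp only [f] at hi ⊢
    rw [go_append]
    exact hi
  · have h1 : Cardinal.mk {e : Sym2 V | ∀ v ∈ e, v ∈ Set.range f} ≤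
        Cardinal.mk (Set.range f × Set.range f) := by
      refine Cardinal.mk_le_of_surjective
        (f := fun x : Set.range f × Set.range f =>
          (⟨s((x.1 : V), (x.2 : V)), by
            intro v hv
            rw [Sym2.mem_iff] at hv
            rcases hv with rfl | rfl
            · exact x.1.2
            · exact x.2.2⟩ : {e : Sym2 V | ∀ v ∈ e, v ∈ Set.range f})) ?_
      rintro ⟨e, he⟩
      induction e using Sym2.ind with
      | _ x y =>
        exact ⟨(⟨x, he x (Sym2.mem_mk_left x y)⟩, ⟨y, he y (Sym2.mem_mk_right x y)⟩), rfl⟩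
    refine h1.trans ?_
    rw [Cardinal.mk_prod, Cardinal.lift_id]
    refine (mul_le_mul' hR hR).trans ?_
    rw [Cardinal.mul_eq_self hD]

end LF

/-- the case of locally finite hosts -/
theorem locfin : StmLF := by
  classical
  intro V W _ H G hconn hH hG
  obtain ⟨F, hFG, hFF, hF⟩ := LF.exists_limit H G hconn hH hG
  have hnd : ∀ S : Set (Sym2 V), S ⊆ G.edgeSet → (fromEdgeSet S).edgeSet = S := by
    intro S hS
    rw [edgeSet_fromEdgeSet]
    ext e
    simp only [Set.mem_sdiff]
    refine ⟨fun h => h.1, fun h => ⟨h, ?_⟩⟩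
    exact G.not_isDiag_of_mem_edgeSet (hS h)
  refine ⟨fromEdgeSet F, ?_, ?_, ?_⟩
  · rw [← edgeSet_subset_edgeSet, hnd F hFG]
    exact hFG
  · rw [LF.free_iff, hnd F hFG]
    exact hFF
  intro I hI hIfree
  rw [hnd F hFG]
  rw [LF.free_iff] at hIfree
  have hJG : I.edgeSet ⊆ G.edgeSet := edgeSet_subset_edgeSet.2 hI
  by_contra hlt
  rw [not_le] at hlt
  rcases lt_or_ge (Cardinal.mk ↥(F \ I.edgeSet)) Cardinal.aleph0 with hfin | hinf
  · -- finite exchange
    have hfin' : (F \ I.edgeSet).Finite := by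
      rwa [Cardinal.lt_aleph0_iff_set_finite] at hfin
    obtain ⟨Q, hQ, hQc⟩ : ∃ Q : Finset (Sym2 V), (Q : Set (Sym2 V)) ⊆ I.edgeSet \ F ∧
        Q.card = hfin'.toFinset.card + 1 := by
      by_cases h : (I.edgeSet \ F).Finite
      · have e1 : Cardinal.mk ↥(F \ I.edgeSet) = ((F \ I.edgeSet).ncard : Cardinal) := by
          rw [← Set.cast_ncard hfin']
        have e2 : Cardinal.mk ↥(I.edgeSet \ F) = ((I.edgeSet \ F).ncard : Cardinal) := by
          rw [← Set.cast_ncard h]
        rw [e1, e2] at hlt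
        have h3 : (F \ I.edgeSet).ncard < (I.edgeSet \ F).ncard := by exact_mod_cast hlt
        rw [Set.ncard_eq_toFinset_card _ hfin', Set.ncard_eq_toFinset_card _ h] at h3
        obtain ⟨Q, hQ, hQc⟩ := Finset.exists_subset_card_eq (Nat.succ_le_of_lt h3)
        refine ⟨Q, fun e he => ?_, hQc⟩
        have := hQ he
        rwa [Set.Finite.mem_toFinset] at this
      · obtain ⟨Q, hQ, hQc⟩ := Set.Infinite.exists_subset_card_eq h (hfin'.toFinset.card + 1)
        exact ⟨Q, hQ, hQc⟩
    refine hF hfin'.toFinset Q ?_ ?_ ?_ (by omega) ?_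
    · intro e he
      rw [Finset.mem_coe, Set.Finite.mem_toFinset] at he
      exact he.1
    · intro e he
      exact hJG (hQ he).1
    · intro e he
      exact (hQ he).2
    · refine LF.Free.mono ?_ hIfree
      rintro e (he | he)
      · by_contra h
        apply he.2
        rw [Finset.mem_coe, Set.Finite.mem_toFinset]
        exact ⟨he.1, h⟩
      · exact (hQ he).1
  · -- infinite exchange
    obtain ⟨R, hR1, hR2, hR3⟩ := LF.exists_closure G hG _ hinf
    have hex : ∃ e ∈ I.edgeSet \ F, ¬ ∀ v ∈ e, v ∈ R := by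
      by_contra hcon
      push Not at hcon
      exact absurd ((Cardinal.mk_le_mk_of_subset fun e he => hcon e he).trans hR3) (not_le.2 hlt)
    obtain ⟨e, he, heR⟩ := hex
    refine hF ∅ {e} (by simp) ?_ ?_ (by simp) ?_
    · intro e' he'
      rw [Finset.coe_singleton, Set.mem_singleton_iff] at he'
      subst he'
      exact hJG he.1
    · intro e' he'
      rw [Finset.mem_singleton] at he'
      subst he'
      exact he.2
    · intro φ hφ hall
      rw [Finset.coe_empty, Set.sdiff_empty, Finset.coe_singleton] at hall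
      have hGe : ∀ a b, H.Adj a b → G.Adj (φ a) (φ b) := by
        intro a b hab
        rw [← mem_edgeSet]
        rcases hall a b hab with h | h
        · exact hFG h
        · rw [Set.mem_singleton_iff] at h
          rw [h]
          exact hJG he.1
      by_cases hq : ∃ a b, H.Adj a b ∧ s(φ a, φ b) = e
      · obtain ⟨a, b, hab, hq⟩ := hq
        have hnR : ∃ a, φ a ∉ R := by
          by_contra hcon
          push Not at hcon
          apply heR
          intro v hv
          rw [← hq, Sym2.mem_iff] at hv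
          rcases hv with rfl | rfl
          · exact hcon a
          · exact hcon b
        obtain ⟨a0, ha0⟩ := hnR
        have hall' : ∀ w, φ w ∉ R := by
          intro w hw
          obtain ⟨p⟩ := hconn.preconnected w a0
          have key : ∀ {x y : W} (_ : H.Walk x y), φ x ∈ R → φ y ∈ R := by
            intro x y q
            induction q with
            | nil => exact fun h => h
            | cons h q ih => exact fun hx => ih (hR2 _ _ (hGe _ _ h) hx)
          exact ha0 (key p hw)
        refine hIfree φ hφ fun c d hcd => ?_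
        rcases hall c d hcd with h | h
        · by_contra hI'
          exact hall' c (hR1 _ ⟨h, hI'⟩ _ (Sym2.mem_mk_left _ _))
        · rw [Set.mem_singleton_iff] at h
          rw [h]
          exact he.1
      · refine hFF φ hφ fun c d hcd => ?_
        rcases hall c d hcd with h | h
        · exact h
        · exact absurd ⟨c, d, hcd, h⟩ hq

end Pool.Agent.R709.SM
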