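import Pool.Agent.R709.SM.Stm4
import Pool.Agent.R709.SM.Pendant

/-! SM-R1 (helper139): the main reduction `StmRed`. -/

namespace Pool.Agent.R709.SM

open SimpleGraph

namespace Redn

open Pend (contained_iff closed_univ)

/-- `J` on `V` together with all gadgets. -/
def jn {V W : Type} (H : SimpleGraph W) (S : Set W) (Q : Type) (J : SimpleGraph V) :
    SimpleGraph (V ⊕ ((S → V) × Q × (Sᶜ : Set W))) where
  Adj x y := match x, y with
    | Sum.inl a, Sum.inl b => J.Adj a b
    | Sum.inl a, Sum.inr p => Function.Injective p.1 ∧ ∃ x : S, a = p.1 x ∧ H.Adj x p.2.2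
    | Sum.inr p, Sum.inl a => Function.Injective p.1 ∧ ∃ x : S, a = p.1 x ∧ H.Adj x p.2.2
    | Sum.inr p, Sum.inr r => Function.Injective p.1 ∧ p.1 = r.1 ∧ p.2.1 = r.2.1 ∧
        H.Adj p.2.2 r.2.2
  symm := by
    constructor
    rintro (a | p) (b | r) h
    · exact SimpleGraph.Adj.symm (G := J) h
    · exact h
    · exact h
    · obtain ⟨h1, h2, h3, h4⟩ := h
      exact ⟨h2 ▸ h1, h2.symm, h3.symm, h4.symm⟩
  loopless := by
    constructor
    rintro (a | p) h
    · exact J.loopless.irrefl a h
    · exact H.loopless.irrefl _ h.2.2.2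

open Classical in
/-- the gadget embedding. -/
noncomputable def e {V W Q : Type} {S : Set W} (s : S → V) (q : Q) (w : W) :
    V ⊕ ((S → V) × Q × (Sᶜ : Set W)) :=
  if h : w ∈ S then Sum.inl (s ⟨w, h⟩) else Sum.inr (s, q, ⟨w, h⟩)

theorem e_in {V W Q : Type} {S : Set W} (s : S → V) (q : Q) {w : W} (h : w ∈ S) :
    e s q w = Sum.inl (s ⟨w, h⟩) := by
  unfold e
  rw [dif_pos h]

theorem e_out {V W Q : Type} {S : Set W} (s : S → V) (q : Q) {w : W} (h : w ∉ S) :
    e s q w = Sum.inr (s, q, ⟨w, h⟩) := by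
  unfold e
  rw [dif_neg h]

theorem e_inj {V W Q : Type} {S : Set W} (s : S → V) (hs : Function.Injective s) (q : Q) :
    Function.Injective (e s q) := by
  intro a b hab
  by_cases ha : a ∈ S <;> by_cases hb : b ∈ S
  · rw [e_in s q ha, e_in s q hb] at hab
    exact congrArg Subtype.val (hs (Sum.inl_injective hab))
  · rw [e_in s q ha, e_out s q hb] at hab
    exact absurd hab (by simp)
  · rw [e_out s q ha, e_in s q hb] at hab
    exact absurd hab (by simp)
  · rw [e_out s q ha, e_out s q hb] at hab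
    have h1 := Sum.inr_injective hab
    simp only [Prod.mk.injEq, true_and] at h1
    exact congrArg Subtype.val h1

theorem adj_e {V W Q : Type} {H : SimpleGraph W} {S : Set W} {J : SimpleGraph V} (s : S → V)
    (hs : Function.Injective s) (q : Q) {c : W} (hc : c ∉ S)
    (y : V ⊕ ((S → V) × Q × (Sᶜ : Set W))) :
    (jn H S Q J).Adj (e s q c) y ↔ ∃ w, H.Adj c w ∧ y = e s q w := by
  rw [e_out s q hc]
  rcases y with a | r
  · constructor
    · rintro ⟨_, x, hx, hxc⟩
      refine ⟨x, hxc.symm, ?_⟩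
      rw [e_in s q x.2, hx]
    · rintro ⟨w, hw, hy⟩
      by_cases hwS : w ∈ S
      · rw [e_in s q hwS] at hy
        exact ⟨hs, ⟨w, hwS⟩, Sum.inl_injective hy, hw.symm⟩
      · rw [e_out s q hwS] at hy
        exact absurd hy (by simp)
  · constructor
    · rintro ⟨_, h1, h2, h3⟩
      refine ⟨r.2.2, h3, ?_⟩
      rw [e_out s q r.2.2.2]
      have h1' : s = r.1 := h1
      have h2' : q = r.2.1 := h2
      rw [h1', h2']
    · rintro ⟨w, hw, hy⟩
      by_cases hwS : w ∈ S
      · rw [e_in s q hwS] at hy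
        exact absurd hy (by simp)
      · rw [e_out s q hwS] at hy
        have h1 := Sum.inr_injective hy
        subst h1
        exact ⟨hs, rfl, rfl, hw⟩

theorem adj_inr_inj {V W Q : Type} {H : SimpleGraph W} {S : Set W} {J : SimpleGraph V}
    {p : (S → V) × Q × (Sᶜ : Set W)} {y : V ⊕ ((S → V) × Q × (Sᶜ : Set W))}
    (h : (jn H S Q J).Adj (Sum.inr p) y) : Function.Injective p.1 := by
  rcases y with a | r
  · exact h.1
  · exact h.1

/-- the main lemma (L). -/
theorem lemL {V W Q : Type} [Finite W] {H : SimpleGraph W} {S : Set W} {d : ℕ}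
    (h1 : ∀ w, d ≤ (H.neighborSet w).ncard) (h2 : ∀ w, w ∉ S → (H.neighborSet w).ncard = d)
    (h3 : (H.induce Sᶜ).Connected) (h4 : ∀ s ∈ S, ∃ c, c ∉ S ∧ H.Adj s c)
    (h5 : ∃ u v, (H.induce S).Adj u v)
    (h6 : ∀ R : SimpleGraph S, Nonempty (glue H S R ≃g H) → (H.induce S) ⊑ R)
    (J : SimpleGraph V) (hJ : ¬ (H.induce S) ⊑ J) : ¬ H ⊑ jn H S Q J := by
  intro hcon
  obtain ⟨f, hf, hadj⟩ := contained_iff.1 hcon
  by_cases hall : ∀ w, ∃ v, f w = Sum.inl v
  · choose g hg using hall
    apply hJ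
    refine contained_iff.2 ⟨fun x => g x, ?_, ?_⟩
    · intro x y hxy
      apply Subtype.ext
      apply hf
      rw [hg, hg]
      exact congrArg Sum.inl hxy
    · intro x y hxy
      have h7 := hadj x y hxy
      rw [hg, hg] at h7
      exact h7
  · push Not at hall
    obtain ⟨w0, hw0⟩ := hall
    obtain ⟨⟨s, q, c0⟩, hp⟩ : ∃ p, f w0 = Sum.inr p := by
      rcases h : f w0 with v | p
      · exact absurd h (hw0 v)
      · exact ⟨p, rfl⟩
    have hd : 0 < d := by
      obtain ⟨u, v, huv⟩ := h5
      obtain ⟨c, hc, huc⟩ := h4 u u.2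
      rw [← h2 c hc, Set.ncard_pos (Set.toFinite _)]
      exact ⟨u, huc.symm⟩
    have hs : Function.Injective s := by
      have h7 : 0 < (H.neighborSet w0).ncard := lt_of_lt_of_le hd (h1 w0)
      rw [Set.ncard_pos (Set.toFinite _)] at h7
      obtain ⟨w1, hw1⟩ := h7
      have h8 := hadj w0 w1 hw1
      rw [hp] at h8
      exact adj_inr_inj h8
    have hei := e_inj s hs q
    -- closure
    have clo : ∀ w c, c ∉ S → f w = e s q c → f '' (H.neighborSet w) = e s q '' (H.neighborSet c) := by
      intro w c hc hfw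
      refine Set.eq_of_subset_of_ncard_le ?_ ?_ (Set.toFinite _)
      · rintro _ ⟨w', hw', rfl⟩
        have h7 := hadj w w' hw'
        rw [hfw, adj_e s hs q hc] at h7
        obtain ⟨x, hx, hxe⟩ := h7
        exact ⟨x, hx, hxe.symm⟩
      · rw [Set.ncard_image_of_injective _ hei, Set.ncard_image_of_injective _ hf, h2 c hc]
        exact h1 w
    have hT : ∀ c : (Sᶜ : Set W), ∃ w, f w = e s q c := by
      intro c
      refine closed_univ h3 (S := {c : (Sᶜ : Set W) | ∃ w, f w = e s q c}) (w := c0) ?_ ?_ c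
      · exact ⟨w0, by rw [hp, e_out s q c0.2]⟩
      · rintro a b hab ⟨w, hw⟩
        have h7 : e s q (b : W) ∈ e s q '' (H.neighborSet (a : W)) := ⟨b, hab, rfl⟩
        rw [← clo w a a.2 hw] at h7
        obtain ⟨w', _, hw'⟩ := h7
        exact ⟨w', hw'⟩
    have hT2 : ∀ a : W, ∃ w, f w = e s q a := by
      intro a
      by_cases ha : a ∈ S
      · obtain ⟨c, hc, hac⟩ := h4 a ha
        obtain ⟨w, hw⟩ := hT ⟨c, hc⟩
        have h7 : e s q a ∈ e s q '' (H.neighborSet c) := ⟨a, hac.symm, rfl⟩
        rw [← clo w c hc hw] at h7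
        obtain ⟨w', _, hw'⟩ := h7
        exact ⟨w', hw'⟩
      · exact hT ⟨a, ha⟩
    choose g hg using hT2
    have hginj : Function.Injective g := by
      intro a b hab
      apply hei
      rw [← hg, ← hg, hab]
    have hgbij : Function.Bijective g := Finite.injective_iff_bijective.1 hginj
    have hout : ∀ a b, a ∉ S → (H.Adj (g a) (g b) ↔ H.Adj a b) := by
      intro a b ha
      constructor
      · intro h
        have h7 := hadj _ _ h
        rw [hg, hg, adj_e s hs q ha] at h7
        obtain ⟨w, hw, hwe⟩ := h7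
        rw [hei hwe]
        exact hw
      · intro h
        have h7 : e s q b ∈ e s q '' (H.neighborSet a) := ⟨b, h, rfl⟩
        rw [← clo (g a) a ha (hg a)] at h7
        obtain ⟨w, hw, hwe⟩ := h7
        rw [← hg b] at hwe
        rw [← hf hwe]
        exact hw
    let R : SimpleGraph S :=
      { Adj := fun x y => H.Adj (g x) (g y)
        symm := ⟨fun x y h => h.symm⟩
        loopless := ⟨fun x h => H.loopless.irrefl _ h⟩ }
    have hiso : Nonempty (glue H S R ≃g H) := by
      refine ⟨⟨Equiv.ofBijective g hgbij, ?_⟩⟩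
      intro a b
      show H.Adj (g a) (g b) ↔ (glue H S R).Adj a b
      constructor
      · intro h
        by_cases hab : a ∈ S ∧ b ∈ S
        · exact Or.inl ⟨hab.1, hab.2, h⟩
        · refine Or.inr ⟨hab, ?_⟩
          by_cases ha : a ∈ S
          · have hb : b ∉ S := fun hb => hab ⟨ha, hb⟩
            exact ((hout b a hb).1 h.symm).symm
          · exact (hout a b ha).1 h
      · rintro (⟨ha, hb, h⟩ | ⟨hab, h⟩)
        · exact h
        · by_cases ha : a ∈ S
          · have hb : b ∉ S := fun hb => hab ⟨ha, hb⟩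
            exact ((hout b a hb).2 h.symm).symm
          · exact (hout a b ha).2 h
    obtain ⟨ψ, hψ, hψa⟩ := contained_iff.1 (h6 R hiso)
    apply hJ
    refine contained_iff.2 ⟨fun x => s (ψ x), hs.comp hψ, fun x y hxy => ?_⟩
    have h7 : H.Adj (g (ψ x)) (g (ψ y)) := hψa x y hxy
    have h8 := hadj _ _ h7
    rw [hg, hg, e_in s q (ψ x).2, e_in s q (ψ y).2] at h8
    exact h8

theorem jn_mono {V W Q : Type} {H : SimpleGraph W} {S : Set W} {J J' : SimpleGraph V}
    (h : J ≤ J') : jn H S Q J ≤ jn H S Q J' := by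
  rintro (a | p) (b | r) hab
  · exact h hab
  · exact hab
  · exact hab
  · exact hab

theorem jn_any {V W Q : Type} {H : SimpleGraph W} {S : Set W} (J J' : SimpleGraph V)
    {p : (S → V) × Q × (Sᶜ : Set W)} {y : V ⊕ ((S → V) × Q × (Sᶜ : Set W))}
    (h : (jn H S Q J).Adj (Sum.inr p) y) : (jn H S Q J').Adj (Sum.inr p) y := by
  rcases y with a | r
  · exact h
  · exact h

end Redn

open Redn Pend in
theorem red : StmRed := by
  classical
  intro W _ H S d h1 h2 h3 h4 h5 h6 hbad hgood
  apply hbad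
  intro V G
  let Q : Type := Set (V ⊕ ℕ)
  have hQ1 : Cardinal.mk (V ⊕ ℕ) < Cardinal.mk Q := by
    rw [Cardinal.mk_set]; exact Cardinal.cantor _
  have hinfin : Cardinal.aleph0 ≤ Cardinal.mk (V ⊕ ℕ) := by
    rw [← Cardinal.mk_nat]
    exact Cardinal.mk_le_of_injective (Sum.inr_injective (α := V))
  have hVV : Cardinal.mk (V × V) < Cardinal.mk Q := by
    refine lt_of_le_of_lt ?_ hQ1
    calc Cardinal.mk (V × V) ≤ Cardinal.mk ((V ⊕ ℕ) × (V ⊕ ℕ)) :=
          Cardinal.mk_le_of_injective (f := Prod.map Sum.inl Sum.inl)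
            (Function.Injective.prodMap Sum.inl_injective Sum.inl_injective)
      _ = Cardinal.mk (V ⊕ ℕ) * Cardinal.mk (V ⊕ ℕ) := by rw [Cardinal.mk_prod]; simp
      _ = Cardinal.mk (V ⊕ ℕ) := Cardinal.mul_eq_self hinfin
  obtain ⟨F', hF'⟩ := hgood _ (jn H S Q G)
  have L : ∀ J : SimpleGraph V, ¬ (H.induce S) ⊑ J → ¬ H ⊑ jn H S Q J := fun J hJ =>
    lemL h1 h2 h3 h4 h5 h6 J hJ
  -- complete gadgets
  have comp : ∀ s : S → V, Function.Injective s → ∃ q : Q, ∀ c (hc : c ∉ S) y,
      (jn H S Q G).Adj (Sum.inr (s, q, ⟨c, hc⟩)) y → F'.Adj (Sum.inr (s, q, ⟨c, hc⟩)) y := by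
    intro s hs
    by_contra hcon
    push Not at hcon
    choose c hc y hy hy' using hcon
    have hbot : ¬ (H.induce S) ⊑ (⊥ : SimpleGraph V) := by
      intro hb
      obtain ⟨ψ, _, hψa⟩ := contained_iff.1 hb
      obtain ⟨u, v, huv⟩ := h5
      exact hψa u v huv
    have hI : jn H S Q (⊥ : SimpleGraph V) ≤ jn H S Q G := jn_mono bot_le
    have hle := hF'.2.2 _ hI (L _ hbot)
    have a1 : Cardinal.mk Q ≤ Cardinal.mk
        ↥((jn H S Q (⊥ : SimpleGraph V)).edgeSet \ F'.edgeSet) := by
      refine Cardinal.mk_le_of_injective (f := fun q : Q =>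
        (⟨s(Sum.inr (s, q, ⟨c q, hc q⟩), y q), ?_, ?_⟩ :
          ↥((jn H S Q (⊥ : SimpleGraph V)).edgeSet \ F'.edgeSet))) ?_
      · rw [mem_edgeSet]
        exact jn_any _ _ (hy q)
      · rw [mem_edgeSet]
        exact hy' q
      · intro q q' hqq
        have h7 := congrArg Subtype.val hqq
        simp only [Sym2.eq_iff] at h7
        rcases h7 with h7 | h7
        · have h8 := Sum.inr_injective h7.1
          simp only [Prod.mk.injEq, true_and] at h8
          exact h8.1
        · have h8 := hy q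
          rw [h7.2] at h8
          exact h8.2.2.1
    have a2 : Cardinal.mk ↥(F'.edgeSet \ (jn H S Q (⊥ : SimpleGraph V)).edgeSet) ≤
        Cardinal.mk (V × V) := by
      have h7 : (F'.edgeSet \ (jn H S Q (⊥ : SimpleGraph V)).edgeSet) ⊆
          Set.range (fun p : V × V =>
            (s(Sum.inl p.1, Sum.inl p.2) : Sym2 (V ⊕ ((S → V) × Q × (Sᶜ : Set W))))) := by
        rintro x ⟨h8, h9⟩
        induction x with
        | _ x y =>
        rw [mem_edgeSet] at h8 h9
        have h10 := hF'.1 h8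
        rcases x with a | p <;> rcases y with b | r
        · exact ⟨(a, b), rfl⟩
        · exact absurd h10 h9
        · exact absurd h10 h9
        · exact absurd h10 h9
      exact (Cardinal.mk_le_mk_of_subset h7).trans Cardinal.mk_range_le
    exact absurd (a1.trans (hle.trans a2)) (not_le.2 hVV)
  refine ⟨F'.comap Sum.inl, ?_, ?_, ?_⟩
  · intro a b hab
    exact hF'.1 hab
  · intro hcon
    obtain ⟨ψ, hψ, hψa⟩ := contained_iff.1 hcon
    obtain ⟨q, hq⟩ := comp ψ hψ
    apply hF'.2.1
    have key : ∀ a b, a ∉ S → H.Adj a b → F'.Adj (e ψ q a) (e ψ q b) := by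
      intro a b ha hab
      have h7 : (jn H S Q G).Adj (e ψ q a) (e ψ q b) := (adj_e ψ hψ q ha _).2 ⟨b, hab, rfl⟩
      rw [e_out ψ q ha] at h7 ⊢
      exact hq a ha _ h7
    refine contained_iff.2 ⟨e ψ q, e_inj ψ hψ q, fun a b hab => ?_⟩
    by_cases ha : a ∈ S
    · by_cases hb : b ∈ S
      · rw [e_in ψ q ha, e_in ψ q hb]
        exact hψa ⟨a, ha⟩ ⟨b, hb⟩ hab
      · exact (key b a hb hab.symm).symm
    · exact key a b ha hab
  · intro J hJ hJfree
    let I : SimpleGraph (V ⊕ ((S → V) × Q × (Sᶜ : Set W))) :=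
      { Adj := fun x y => match x, y with
          | Sum.inl a, Sum.inl b => J.Adj a b
          | Sum.inl a, Sum.inr p => F'.Adj (Sum.inl a) (Sum.inr p)
          | Sum.inr p, Sum.inl a => F'.Adj (Sum.inr p) (Sum.inl a)
          | Sum.inr p, Sum.inr r => F'.Adj (Sum.inr p) (Sum.inr r)
        symm := by
          constructor
          rintro (a | p) (b | q) h
          · exact SimpleGraph.Adj.symm (G := J) h
          · exact SimpleGraph.Adj.symm (G := F') h
          · exact SimpleGraph.Adj.symm (G := F') h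
          · exact SimpleGraph.Adj.symm (G := F') h
        loopless := by
          constructor
          rintro (a | p) h
          · exact J.loopless.irrefl a h
          · exact F'.loopless.irrefl _ h }
    have hIJ : I ≤ jn H S Q J := by
      rintro (a | p) (b | r) h
      · exact h
      · exact hF'.1 h
      · exact hF'.1 h
      · exact hF'.1 h
    have hI : I ≤ jn H S Q G := hIJ.trans (jn_mono hJ)
    have hIfree : ¬ (H ⊑ I) := by
      intro hcon
      apply L J hJfree
      obtain ⟨f, hf, hadj⟩ := contained_iff.1 hcon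
      exact contained_iff.2 ⟨f, hf, fun a b hab => hIJ (hadj a b hab)⟩
    have hle := hF'.2.2 I hI hIfree
    have e1 : I.edgeSet \ F'.edgeSet =
        Sym2.map Sum.inl '' (J.edgeSet \ (F'.comap Sum.inl).edgeSet) := by
      ext x
      constructor
      · rintro ⟨h7, h8⟩
        induction x with
        | _ x y =>
        rw [mem_edgeSet] at h7 h8
        rcases x with a | p <;> rcases y with b | q
        · exact ⟨s(a, b), ⟨h7, h8⟩, rfl⟩
        · exact absurd h7 h8
        · exact absurd h7 h8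
        · exact absurd h7 h8
      · rintro ⟨x', ⟨h7, h8⟩, rfl⟩
        induction x' with
        | _ a b =>
        exact ⟨h7, h8⟩
    have e2 : F'.edgeSet \ I.edgeSet =
        Sym2.map Sum.inl '' ((F'.comap Sum.inl).edgeSet \ J.edgeSet) := by
      ext x
      constructor
      · rintro ⟨h7, h8⟩
        induction x with
        | _ x y =>
        rw [mem_edgeSet] at h7 h8
        rcases x with a | p <;> rcases y with b | q
        · exact ⟨s(a, b), ⟨h7, h8⟩, rfl⟩
        · exact absurd h7 h8
        · exact absurd h7 h8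
        · exact absurd h7 h8
      · rintro ⟨x', ⟨h7, h8⟩, rfl⟩
        induction x' with
        | _ a b =>
        exact ⟨h7, h8⟩
    rw [e1, e2, Cardinal.mk_image_eq (Sym2.map.injective Sum.inl_injective),
      Cardinal.mk_image_eq (Sym2.map.injective Sum.inl_injective)] at hle
    exact hle

end Pool.Agent.R709.SM
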