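import Pool.Agent.R709.SM.Stm

/-! Regular graphs (project SM, problem MP_fc2b6d_co). -/

namespace Pool.Agent.R709.SM

open SimpleGraph

/-- replace the edges of `H` inside `S` by those of `R`. -/
def glue {W : Type} (H : SimpleGraph W) (S : Set W) (R : SimpleGraph S) : SimpleGraph W where
  Adj a b := (∃ (ha : a ∈ S) (hb : b ∈ S), R.Adj ⟨a, ha⟩ ⟨b, hb⟩) ∨
    (¬ (a ∈ S ∧ b ∈ S) ∧ H.Adj a b)
  symm := ⟨by
    rintro a b (⟨ha, hb, h⟩ | ⟨h1, h⟩)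
    · exact Or.inl ⟨hb, ha, h.symm⟩
    · exact Or.inr ⟨fun h' => h1 ⟨h'.2, h'.1⟩, h.symm⟩⟩
  loopless := ⟨by
    rintro a (⟨ha, hb, h⟩ | ⟨h1, h⟩)
    · exact h.ne rfl
    · exact h.ne rfl⟩

/-- the main reduction -/
def StmRed : Prop := ∀ (W : Type) [Finite W] (H : SimpleGraph W) (S : Set W) (d : ℕ),
  (∀ w, d ≤ (H.neighborSet w).ncard) → (∀ w, w ∉ S → (H.neighborSet w).ncard = d) →
  (H.induce Sᶜ).Connected → (∀ s ∈ S, ∃ c, c ∉ S ∧ H.Adj s c) →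
  (∃ u v, (H.induce S).Adj u v) →
  (∀ R : SimpleGraph S, Nonempty (glue H S R ≃g H) → (H.induce S) ⊑ R) →
  ¬ Good (H.induce S) → ¬ Good H

/-- an edge whose ends do not separate -/
def StmEdge : Prop := ∀ (W : Type) [Finite W] (H : SimpleGraph W), H.Connected →
  (∀ w, 2 ≤ (H.neighborSet w).ncard) → ∃ u v, H.Adj u v ∧ (H.induce ({u, v} : Set W)ᶜ).Connected

/-- `S` induces a triangle, or four vertices `a, b, c, d` inducing two disjoint edges, a path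
with three edges or a four-cycle. -/
def Small {W : Type} (H : SimpleGraph W) (S : Set W) : Prop :=
  (∃ a b c, S = {a, b, c} ∧ H.Adj a b ∧ H.Adj a c ∧ H.Adj b c) ∨
  (∃ a b c d, S = {a, b, c, d} ∧ a ≠ c ∧ a ≠ d ∧ b ≠ c ∧ b ≠ d ∧ H.Adj a b ∧ H.Adj c d ∧
    ¬ H.Adj a d ∧ ¬ H.Adj b c)

def StmFind : Prop := StmEdge → ∀ (W : Type) [Finite W] (H : SimpleGraph W) (d : ℕ), 3 ≤ d →
  H.Connected → (∀ w, (H.neighborSet w).ncard = d) → 5 ≤ Nat.card W →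
  ∃ S : Set W, Small H S ∧ (H.induce Sᶜ).Connected

def StmSmall : Prop := ∀ (W : Type) [Finite W] (H : SimpleGraph W) (d : ℕ) (S : Set W), 3 ≤ d →
  (∀ w, (H.neighborSet w).ncard = d) → Small H S →
  (∀ s ∈ S, ∃ c, c ∉ S ∧ H.Adj s c) ∧ (∃ u v, (H.induce S).Adj u v) ∧
    (∀ R : SimpleGraph S, Nonempty (glue H S R ≃g H) → (H.induce S) ⊑ R)

def StmSmallBad : Prop := StmK3 → StmStars → StmTypeI → StmCycle →
  ∀ (W : Type) (H : SimpleGraph W) (S : Set W), Small H S → ¬ Good (H.induce S)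

def StmTwo : Prop := ∀ (W : Type) [Finite W] (H : SimpleGraph W), H.Connected →
  (∀ w, (H.neighborSet w).ncard = 2) → ∃ n, 3 ≤ n ∧ Nonempty (H ≃g cycleGraph n)

end Pool.Agent.R709.SM
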