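import Pool.Agent.R709.SM.Forest
import Pool.Agent.R709.SM.Stm4

/-! Regular graphs: assembly (project SM, problem MP_fc2b6d_co). -/

namespace Pool.Agent.R709.SM

open SimpleGraph

namespace Rg

theorem cycles : ∀ n : ℕ, 3 ≤ n → ¬ Good (cycleGraph n) := by
  intro n hn
  rcases Nat.lt_or_ge n 4 with h | h
  · obtain rfl : n = 3 := by omega
    rw [cycleGraph_three_eq_top]
    exact k3
  · exact cycle n h

theorem mem_core {W : Type} [Finite W] {H : SimpleGraph W} {d : ℕ} (hd : 2 ≤ d)
    (hr : ∀ w, (H.neighborSet w).ncard = d) (w : W) : w ∈ core H := by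
  have h : 1 < (H.neighborSet w).ncard := by rw [hr w]; omega
  obtain ⟨a, ha, b, hb, hab⟩ := Set.one_lt_ncard_iff_nontrivial.1 h
  exact ⟨a, b, hab, ha, hb⟩

theorem reg_conn (hred : StmRed) (hedge : StmEdge) (hfind : StmFind) (hsmall : StmSmall)
    (hbad : StmSmallBad) (htwo : StmTwo) (W : Type) [Finite W] (H : SimpleGraph W) (d : ℕ)
    (hd : 2 ≤ d) (hc : H.Connected) (hr : ∀ w, (H.neighborSet w).ncard = d) : ¬ Good H := by
  classical
  intro hg
  rcases Nat.lt_or_ge d 3 with h | h
  · obtain rfl : d = 2 := by omega
    obtain ⟨n, hn, ⟨e⟩⟩ := htwo W H hc hr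
    exact cycles n hn (Fo.good_congr e hg)
  · by_cases h5 : 5 ≤ Nat.card W
    · obtain ⟨S, hS, hSc⟩ := hfind hedge W H d h hc hr h5
      obtain ⟨h1, h2, h3⟩ := hsmall W H d S h hr hS
      exact hred W H S d (fun w => (hr w).ge) (fun w _ => hr w) hSc h1 h2 h3
        (hbad k3 stars TI.typeI cycle W H S hS) hg
    · -- the complete graph with four vertices
      have hsub : ∀ w, H.neighborSet w ⊆ {w}ᶜ := by
        intro w x hx
        have : H.Adj w x := hx
        exact fun hxw => this.ne hxw.symm
      have hcompl : ∀ w : W, ({w}ᶜ : Set W).ncard = Nat.card W - 1 := by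
        intro w
        rw [Set.ncard_compl, Set.ncard_singleton]
      obtain ⟨w0⟩ := hc.nonempty
      have hle := Set.ncard_le_ncard (hsub w0) (Set.toFinite _)
      rw [hr, hcompl] at hle
      have hcard : Nat.card W = 4 := by omega
      have htop : H = ⊤ := by
        ext a b
        rw [top_adj]
        constructor
        · exact fun hab => hab.ne
        · intro hab
          have heq : H.neighborSet a = {a}ᶜ := by
            refine Set.eq_of_subset_of_ncard_le (hsub a) ?_ (Set.toFinite _)
            rw [hr, hcompl]
            omega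
          have hb : b ∈ H.neighborSet a := by
            rw [heq]
            exact fun h => hab h.symm
          exact hb
      subst htop
      have e : W ≃ Fin 4 := by
        have := Fintype.ofFinite W
        rw [Nat.card_eq_fintype_card] at hcard
        exact Fintype.equivFinOfCardEq hcard
      exact kstep 3 le_rfl k3 (Fo.good_congr (Iso.completeGraph e) hg)

theorem good_edge {W : Type} [Finite W] {H : SimpleGraph W} {d : ℕ}
    (hr : ∀ w, (H.neighborSet w).ncard = d) (h2 : Nat.card W = 2) (hd : d = 1) : Good H := by
  classical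
  subst hd
  obtain ⟨x, y, hxy, huniv⟩ := Nat.card_eq_two_iff.1 h2
  have hall : ∀ w : W, w = x ∨ w = y := by
    intro w
    have : w ∈ ({x, y} : Set W) := by rw [huniv]; trivial
    simpa using this
  have hadj : H.Adj x y := by
    have h1 := hr x
    rw [Set.ncard_eq_one] at h1
    obtain ⟨z, hz⟩ := h1
    have hz' : H.Adj x z := by
      have : z ∈ H.neighborSet x := by rw [hz]; rfl
      exact this
    rcases hall z with rfl | rfl
    · exact absurd hz' (H.irrefl)
    · exact hz'
  intro V G
  refine ⟨⊥, bot_le, ?_, ?_⟩
  · rintro ⟨f⟩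
    exact f.toHom.map_adj hadj
  · intro I _ hI
    have hbot : I = ⊥ := by
      by_contra hne
      apply hI
      obtain ⟨a, b, hab⟩ : ∃ a b, I.Adj a b := by
        by_contra hno
        push Not at hno
        apply hne
        ext a b
        simp [hno a b]
      refine ⟨⟨⟨fun w => if w = x then a else b, ?_⟩, ?_⟩⟩
      · intro u v huv
        rcases hall u with rfl | rfl <;> rcases hall v with rfl | rfl
        · exact absurd huv (H.irrefl)
        · simpa [hxy.symm] using hab
        · simpa [hxy.symm] using hab.symm
        · exact absurd huv (H.irrefl)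
      · intro u v huv
        simp only [RelHom.coeFn_mk] at huv
        rcases hall u with rfl | rfl <;> rcases hall v with rfl | rfl
        · rfl
        · simp [hxy.symm, hab.ne] at huv
        · simp [hxy.symm, hab.ne.symm] at huv
        · rfl
    subst hbot
    simp

theorem regular (hred : StmRed) (hedge : StmEdge) (hfind : StmFind) (hsmall : StmSmall)
    (hbad : StmSmallBad) (htwo : StmTwo) (W : Type) [Finite W] (H : SimpleGraph W) (d : ℕ)
    (hr : ∀ w, (H.neighborSet w).ncard = d) : Good H ↔ (Nat.card W = 2 ∧ d = 1) := by
  classical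
  constructor
  · intro hg
    rcases Nat.lt_or_ge d 2 with h | h
    · have hcore : ¬ HasCoreEdge H := by
        rintro ⟨u, v, ⟨a, b, hab, ha, hb⟩, -⟩
        have h1 : 1 < (H.neighborSet u).ncard :=
          Set.one_lt_ncard_iff_nontrivial.2 ⟨a, ha, b, hb, hab⟩
        rw [hr] at h1
        omega
      obtain ⟨⟨u, v, huv⟩, c, hc⟩ := Fo.starLike_of_good hcore hg
      have hd : d = 1 := by
        have h1 : 0 < (H.neighborSet u).ncard := by
          rw [Set.ncard_pos (Set.toFinite _)]
          exact ⟨v, huv⟩
        rw [hr] at h1
        omega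
      refine ⟨?_, hd⟩
      subst hd
      have h1 := hr c
      rw [Set.ncard_eq_one] at h1
      obtain ⟨z, hz⟩ := h1
      have hcz : H.Adj c z := by
        have : z ∈ H.neighborSet c := by rw [hz]; rfl
        exact this
      rw [Nat.card_eq_two_iff]
      refine ⟨c, z, hcz.ne, ?_⟩
      rw [Set.eq_univ_iff_forall]
      intro w
      obtain ⟨w', hw'⟩ := Set.ncard_eq_one.1 (hr w)
      have hww : H.Adj w w' := by
        have : w' ∈ H.neighborSet w := by rw [hw']; rfl
        exact this
      rcases hc w w' hww with rfl | rfl
      · simp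
      · have : w ∈ H.neighborSet w' := hww.symm
        rw [hz] at this
        simp only [Set.mem_singleton_iff] at this
        simp [this]
    · exfalso
      have hcore : HasCoreEdge H := by
        by_contra hno
        obtain ⟨⟨u, v, huv⟩, -⟩ := Fo.starLike_of_good hno hg
        exact hno ⟨u, v, mem_core h hr u, mem_core h hr v, huv⟩
      obtain ⟨C, -, hCg⟩ := Fo.component hcore hg
      refine reg_conn hred hedge hfind hsmall hbad htwo ↥C.supp (H.induce C.supp) d h
        C.connected_toSimpleGraph ?_ hCg
      intro w
      rw [← hr w.1, ← Set.ncard_image_of_injective _ (Subtype.val_injective (p := fun x => x ∈ C.supp))]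
      congr 1
      ext x
      simp only [Set.mem_image, mem_neighborSet, comap_adj, Function.Embedding.subtype_apply,
        Subtype.exists, exists_and_right, exists_eq_right]
      constructor
      · rintro ⟨_, hx⟩
        exact hx
      · intro hx
        refine ⟨?_, hx⟩
        have hw := w.2
        rw [ConnectedComponent.mem_supp_iff] at hw ⊢
        rw [← hw]
        exact ConnectedComponent.sound hx.symm.reachable
  · rintro ⟨h2, hd⟩
    exact good_edge hr h2 hd

end Rg

end Pool.Agent.R709.SM
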