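import Pool.Agent.R709.SM.Stm4

/-! Project SM (MP_fc2b6d_co), piece SM-R4: the four small graphs are determined by their
degrees. -/

namespace Pool.Agent.R709.SM

namespace SmallAux

open SimpleGraph

variable {W : Type}

open Classical in
theorem deg_eq {n : ℕ} {α : Type} (K : SimpleGraph α) (e : Fin n ≃ α) (i : Fin n) :
    (K.neighborSet (e i)).ncard = ∑ j, (decide (K.Adj (e i) (e j))).toNat := by
  have h1 : K.neighborSet (e i) = e '' {j | K.Adj (e i) (e j)} := by
    ext t
    constructor
    · intro ht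
      exact ⟨e.symm t, by simpa using ht, by simp⟩
    · rintro ⟨j, hj, rfl⟩
      exact hj
  rw [h1, Set.ncard_image_of_injective _ e.injective, Set.ncard_eq_toFinset_card',
    Set.toFinset_ofPred, Finset.card_filter]
  refine Finset.sum_congr rfl fun j _ => ?_
  by_cases h : K.Adj (e i) (e j) <;> simp [h]

theorem deg_glue [Finite W] (H : SimpleGraph W) (S : Set W) (R : SimpleGraph S) {d : ℕ}
    (hd : ∀ w, (H.neighborSet w).ncard = d) (g : glue H S R ≃g H) (s : S) :
    (R.neighborSet s).ncard = ((H.induce S).neighborSet s).ncard := by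
  have h1 : ((glue H S R).neighborSet s.1).ncard = d := by
    rw [← hd (g s.1), ← Nat.card_coe_set_eq, ← Nat.card_coe_set_eq]
    exact Nat.card_congr (g.mapNeighborSet s.1)
  have h2 := hd s.1
  have e1 : (glue H S R).neighborSet s.1 =
      (Subtype.val '' R.neighborSet s) ∪ (H.neighborSet s.1 \ S) := by
    ext t
    constructor
    · rintro (⟨ha, hb, h⟩ | ⟨h1, h⟩)
      · exact Or.inl ⟨⟨t, hb⟩, h, rfl⟩
      · exact Or.inr ⟨h, fun ht => h1 ⟨s.2, ht⟩⟩
    · rintro (⟨x, hx, rfl⟩ | ⟨h, ht⟩)
      · exact Or.inl ⟨s.2, x.2, hx⟩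
      · exact Or.inr ⟨fun h' => ht h'.2, h⟩
  have e2 : H.neighborSet s.1 =
      (Subtype.val '' (H.induce S).neighborSet s) ∪ (H.neighborSet s.1 \ S) := by
    ext t
    constructor
    · intro h
      by_cases ht : t ∈ S
      · exact Or.inl ⟨⟨t, ht⟩, h, rfl⟩
      · exact Or.inr ⟨h, ht⟩
    · rintro (⟨x, hx, rfl⟩ | ⟨h, ht⟩)
      · exact hx
      · exact h
  have dj : ∀ A : Set S, Disjoint (Subtype.val '' A) (H.neighborSet s.1 \ S) := by
    intro A
    rw [Set.disjoint_left]
    rintro _ ⟨x, hx, rfl⟩ h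
    exact h.2 x.2
  rw [e1, Set.ncard_union_eq (dj _) (Set.toFinite _) (Set.toFinite _),
    Set.ncard_image_of_injective _ Subtype.val_injective] at h1
  rw [e2, Set.ncard_union_eq (dj _) (Set.toFinite _) (Set.toFinite _),
    Set.ncard_image_of_injective _ Subtype.val_injective] at h2
  omega

/-- the symmetric relation on `Fin 4` with six given values -/
def M (b01 b02 b03 b12 b13 b23 : Bool) (i j : Fin 4) : Bool :=
  (((i = 0 ∧ j = 1) ∨ (i = 1 ∧ j = 0)) && b01) || (((i = 0 ∧ j = 2) ∨ (i = 2 ∧ j = 0)) && b02) ||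
  (((i = 0 ∧ j = 3) ∨ (i = 3 ∧ j = 0)) && b03) || (((i = 1 ∧ j = 2) ∨ (i = 2 ∧ j = 1)) && b12) ||
  (((i = 1 ∧ j = 3) ∨ (i = 3 ∧ j = 1)) && b13) || (((i = 2 ∧ j = 3) ∨ (i = 3 ∧ j = 2)) && b23)

theorem core4 : ∀ p q b01 b02 b03 b12 b13 b23 : Bool,
    b01.toNat + b02.toNat + b03.toNat = 1 + p.toNat →
    b01.toNat + b12.toNat + b13.toNat = 1 + q.toNat →
    b02.toNat + b12.toNat + b23.toNat = 1 + p.toNat →
    b03.toNat + b13.toNat + b23.toNat = 1 + q.toNat →
    ∃ σ : Equiv.Perm (Fin 4), M b01 b02 b03 b12 b13 b23 (σ 0) (σ 1) = true ∧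
      M b01 b02 b03 b12 b13 b23 (σ 2) (σ 3) = true ∧
      (p = true → M b01 b02 b03 b12 b13 b23 (σ 0) (σ 2) = true) ∧
      (q = true → M b01 b02 b03 b12 b13 b23 (σ 1) (σ 3) = true) := by
  decide +kernel

theorem four {S : Set W} {a b c d : W} (hS : S = {a, b, c, d}) (hab : a ≠ b)
    (hac : a ≠ c) (had : a ≠ d) (hbc : b ≠ c) (hbd : b ≠ d) (hcd : c ≠ d) :
    ∃ e : Fin 4 ≃ S, (e 0 : W) = a ∧ (e 1 : W) = b ∧ (e 2 : W) = c ∧ (e 3 : W) = d := by
  subst hS
  let f : Fin 4 → ({a, b, c, d} : Set W) :=
    ![⟨a, by simp⟩, ⟨b, by simp⟩, ⟨c, by simp⟩, ⟨d, by simp⟩]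
  have hf : Function.Bijective f := by
    constructor
    · intro i j hij
      have h := congrArg Subtype.val hij
      fin_cases i <;> fin_cases j
      all_goals first
        | rfl
        | exact absurd h hab
        | exact absurd h hac
        | exact absurd h had
        | exact absurd h hbc
        | exact absurd h hbd
        | exact absurd h hcd
        | exact absurd h.symm hab
        | exact absurd h.symm hac
        | exact absurd h.symm had
        | exact absurd h.symm hbc
        | exact absurd h.symm hbd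
        | exact absurd h.symm hcd
    · rintro ⟨x, hx⟩
      simp only [Set.mem_insert_iff, Set.mem_singleton_iff] at hx
      rcases hx with rfl | rfl | rfl | rfl
      exacts [⟨0, rfl⟩, ⟨1, rfl⟩, ⟨2, rfl⟩, ⟨3, rfl⟩]
  exact ⟨Equiv.ofBijective f hf, rfl, rfl, rfl, rfl⟩

theorem three {S : Set W} {a b c : W} (hS : S = {a, b, c}) (hab : a ≠ b)
    (hac : a ≠ c) (hbc : b ≠ c) :
    ∃ e : Fin 3 ≃ S, (e 0 : W) = a ∧ (e 1 : W) = b ∧ (e 2 : W) = c := by
  subst hS
  let f : Fin 3 → ({a, b, c} : Set W) := ![⟨a, by simp⟩, ⟨b, by simp⟩, ⟨c, by simp⟩]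
  have hf : Function.Bijective f := by
    constructor
    · intro i j hij
      have h := congrArg Subtype.val hij
      fin_cases i <;> fin_cases j
      all_goals first
        | rfl
        | exact absurd h hab
        | exact absurd h hac
        | exact absurd h hbc
        | exact absurd h.symm hab
        | exact absurd h.symm hac
        | exact absurd h.symm hbc
    · rintro ⟨x, hx⟩
      simp only [Set.mem_insert_iff, Set.mem_singleton_iff] at hx
      rcases hx with rfl | rfl | rfl
      exacts [⟨0, rfl⟩, ⟨1, rfl⟩, ⟨2, rfl⟩]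
  exact ⟨Equiv.ofBijective f hf, rfl, rfl, rfl⟩

theorem three_case {H : SimpleGraph W} {S : Set W} (R : SimpleGraph S) (e : Fin 3 ≃ S)
    (h01 : H.Adj (e 0) (e 1)) (h02 : H.Adj (e 0) (e 2)) (h12 : H.Adj (e 1) (e 2))
    (hdeg : ∀ s, (R.neighborSet s).ncard = ((H.induce S).neighborSet s).ncard) :
    (H.induce S) ⊑ R := by
  classical
  have k01 : (H.induce S).Adj (e 0) (e 1) := h01
  have k02 : (H.induce S).Adj (e 0) (e 2) := h02
  have k12 : (H.induce S).Adj (e 1) (e 2) := h12
  have d0 := hdeg (e 0)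
  have d1 := hdeg (e 1)
  have d2 := hdeg (e 2)
  rw [deg_eq R e, deg_eq _ e, Fin.sum_univ_three, Fin.sum_univ_three] at d0 d1 d2
  simp only [SimpleGraph.irrefl, k01, k02, k12, k01.symm, k02.symm, k12.symm, decide_true,
    decide_false, Bool.toNat_true, Bool.toNat_false] at d0 d1 d2
  have q01 : R.Adj (e 0) (e 1) := by
    by_contra h
    simp only [h, decide_false, Bool.toNat_false] at d0
    have := Bool.toNat_le (decide (R.Adj (e 0) (e 2)))
    omega
  have q02 : R.Adj (e 0) (e 2) := by
    by_contra h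
    simp only [h, decide_false, Bool.toNat_false] at d0
    have := Bool.toNat_le (decide (R.Adj (e 0) (e 1)))
    omega
  have q12 : R.Adj (e 1) (e 2) := by
    by_contra h
    simp only [h, decide_false, Bool.toNat_false] at d1
    have := Bool.toNat_le (decide (R.Adj (e 1) (e 0)))
    omega
  refine ⟨⟨⟨id, ?_⟩, fun _ _ h => h⟩⟩
  intro s t hst
  obtain ⟨i, rfl⟩ := e.surjective s
  obtain ⟨j, rfl⟩ := e.surjective t
  have hij : i ≠ j := by
    rintro rfl
    exact hst.ne rfl
  change R.Adj (e i) (e j)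
  fin_cases i <;> fin_cases j
  all_goals first
    | exact absurd rfl hij
    | exact q01
    | exact q02
    | exact q12
    | exact q01.symm
    | exact q02.symm
    | exact q12.symm

theorem four_case {H : SimpleGraph W} {S : Set W} (R : SimpleGraph S) (e : Fin 4 ≃ S)
    (h01 : H.Adj (e 0) (e 1)) (h23 : H.Adj (e 2) (e 3)) (h03 : ¬ H.Adj (e 0) (e 3))
    (h12 : ¬ H.Adj (e 1) (e 2))
    (hdeg : ∀ s, (R.neighborSet s).ncard = ((H.induce S).neighborSet s).ncard) :
    (H.induce S) ⊑ R := by
  classical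
  have k01 : (H.induce S).Adj (e 0) (e 1) := h01
  have k23 : (H.induce S).Adj (e 2) (e 3) := h23
  have k03 : ¬ (H.induce S).Adj (e 0) (e 3) := h03
  have k12 : ¬ (H.induce S).Adj (e 1) (e 2) := h12
  have k30 : ¬ (H.induce S).Adj (e 3) (e 0) := fun h => k03 h.symm
  have k21 : ¬ (H.induce S).Adj (e 2) (e 1) := fun h => k12 h.symm
  have sy : ∀ (K : SimpleGraph S) (x y : S), decide (K.Adj x y) = decide (K.Adj y x) := by
    intro K x y
    simp [K.adj_comm]
  have d0 := hdeg (e 0)
  have d1 := hdeg (e 1)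
  have d2 := hdeg (e 2)
  have d3 := hdeg (e 3)
  rw [deg_eq R e, deg_eq _ e, Fin.sum_univ_four, Fin.sum_univ_four] at d0 d1 d2 d3
  rw [sy R (e 1) (e 0)] at d1
  rw [sy R (e 2) (e 0), sy R (e 2) (e 1), sy (H.induce S) (e 2) (e 0)] at d2
  rw [sy R (e 3) (e 0), sy R (e 3) (e 1), sy R (e 3) (e 2), sy (H.induce S) (e 3) (e 1)] at d3
  simp only [SimpleGraph.irrefl, k01, k23, k03, k12, k30, k21, k01.symm, k23.symm, decide_true,
    decide_false, Bool.toNat_true, Bool.toNat_false] at d0 d1 d2 d3
  obtain ⟨σ, s01, s23, s02, s13⟩ := core4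
    (@decide ((H.induce S).Adj (e 0) (e 2)) (Classical.propDecidable _))
    (@decide ((H.induce S).Adj (e 1) (e 3)) (Classical.propDecidable _)) (decide (R.Adj (e 0) (e 1)))
    (decide (R.Adj (e 0) (e 2))) (decide (R.Adj (e 0) (e 3))) (decide (R.Adj (e 1) (e 2)))
    (decide (R.Adj (e 1) (e 3))) (decide (R.Adj (e 2) (e 3))) (by omega) (by omega) (by omega)
    (by omega)
  have hM : ∀ i j, M (decide (R.Adj (e 0) (e 1)))
      (decide (R.Adj (e 0) (e 2))) (decide (R.Adj (e 0) (e 3))) (decide (R.Adj (e 1) (e 2)))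
      (decide (R.Adj (e 1) (e 3))) (decide (R.Adj (e 2) (e 3))) i j = true →
      R.Adj (e i) (e j) := by
    intro i j h
    simp only [M, Bool.or_eq_true, Bool.and_eq_true, decide_eq_true_eq] at h
    rcases h with (((((h | h) | h) | h) | h) | h) <;>
      obtain ⟨(⟨rfl, rfl⟩ | ⟨rfl, rfl⟩), h⟩ := h <;> first | exact h | exact h.symm
  have r01 := hM _ _ s01
  have r23 := hM _ _ s23
  have r02 : (H.induce S).Adj (e 0) (e 2) → R.Adj (e (σ 0)) (e (σ 2)) := fun h =>
    hM _ _ (s02 (by simpa using h))
  have r13 : (H.induce S).Adj (e 1) (e 3) → R.Adj (e (σ 1)) (e (σ 3)) := fun h =>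
    hM _ _ (s13 (by simpa using h))
  refine ⟨⟨⟨fun s => e (σ (e.symm s)), ?_⟩, ?_⟩⟩
  · intro s t hst
    obtain ⟨i, rfl⟩ := e.surjective s
    obtain ⟨j, rfl⟩ := e.surjective t
    change R.Adj (e (σ (e.symm (e i)))) (e (σ (e.symm (e j))))
    rw [e.symm_apply_apply, e.symm_apply_apply]
    have hij : i ≠ j := by
      rintro rfl
      exact hst.ne rfl
    fin_cases i <;> fin_cases j
    all_goals first
      | exact absurd rfl hij
      | exact r01
      | exact r01.symm
      | exact r23
      | exact r23.symm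
      | exact absurd hst k03
      | exact absurd hst k30
      | exact absurd hst k12
      | exact absurd hst k21
      | exact r02 hst
      | exact r13 hst
      | exact (r02 hst.symm).symm
      | exact (r13 hst.symm).symm
  · intro s t hst
    exact e.symm.injective (σ.injective (e.injective hst))

/-- a vertex with at most two neighbours in `S` has a neighbour outside `S` -/
theorem out [Finite W] {H : SimpleGraph W} {S : Set W} {d : ℕ} (h3 : 3 ≤ d) {s x y : W}
    (hd : (H.neighborSet s).ncard = d) (h : ∀ t ∈ S, H.Adj s t → t = x ∨ t = y) :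
    ∃ c, c ∉ S ∧ H.Adj s c := by
  by_contra hc
  push Not at hc
  have hsub : H.neighborSet s ⊆ {x, y} := by
    intro t ht
    by_cases htS : t ∈ S
    · exact h t htS ht
    · exact absurd ht (hc t htS)
  have h1 := Set.ncard_le_ncard hsub (Set.toFinite _)
  have h2 : ({x, y} : Set W).ncard ≤ 2 := (Set.ncard_insert_le x {y}).trans (by rw [Set.ncard_singleton])
  omega

end SmallAux

open SimpleGraph SmallAux

theorem small : StmSmall := by
  intro W _ H d S h3 hd hS
  rcases hS with ⟨a, b, c, hS, hab, hac, hbc⟩ | ⟨a, b, c, x, hS, hac, hax, hbc, hbx, hab, hcx, nax, nbc⟩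
  · obtain ⟨e, e0, e1, e2⟩ := three hS hab.ne hac.ne hbc.ne
    refine ⟨?_, ⟨e 0, e 1, ?_⟩, ?_⟩
    · intro s hs
      rw [hS] at hs
      simp only [Set.mem_insert_iff, Set.mem_singleton_iff] at hs
      rcases hs with rfl | rfl | rfl
      · refine out h3 (x := b) (y := c) (hd _) fun t ht hst => ?_
        rw [hS] at ht
        simp only [Set.mem_insert_iff, Set.mem_singleton_iff] at ht
        rcases ht with rfl | rfl | rfl
        · exact absurd rfl hst.ne
        · exact Or.inl rfl
        · exact Or.inr rfl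
      · refine out h3 (x := a) (y := c) (hd _) fun t ht hst => ?_
        rw [hS] at ht
        simp only [Set.mem_insert_iff, Set.mem_singleton_iff] at ht
        rcases ht with rfl | rfl | rfl
        · exact Or.inl rfl
        · exact absurd rfl hst.ne
        · exact Or.inr rfl
      · refine out h3 (x := a) (y := b) (hd _) fun t ht hst => ?_
        rw [hS] at ht
        simp only [Set.mem_insert_iff, Set.mem_singleton_iff] at ht
        rcases ht with rfl | rfl | rfl
        · exact Or.inl rfl
        · exact Or.inr rfl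
        · exact absurd rfl hst.ne
    · change H.Adj (e 0) (e 1)
      rw [e0, e1]; exact hab
    · rintro R ⟨g⟩
      exact three_case R e (by rw [e0, e1]; exact hab) (by rw [e0, e2]; exact hac)
        (by rw [e1, e2]; exact hbc) (deg_glue H S R hd g)
  · obtain ⟨e, e0, e1, e2, e3⟩ := four hS hab.ne hac hax hbc hbx hcx.ne
    refine ⟨?_, ⟨e 0, e 1, ?_⟩, ?_⟩
    · intro s hs
      rw [hS] at hs
      simp only [Set.mem_insert_iff, Set.mem_singleton_iff] at hs
      rcases hs with rfl | rfl | rfl | rfl
      · refine out h3 (x := b) (y := c) (hd _) fun t ht hst => ?_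
        rw [hS] at ht
        simp only [Set.mem_insert_iff, Set.mem_singleton_iff] at ht
        rcases ht with rfl | rfl | rfl | rfl
        · exact absurd rfl hst.ne
        · exact Or.inl rfl
        · exact Or.inr rfl
        · exact absurd hst nax
      · refine out h3 (x := a) (y := x) (hd _) fun t ht hst => ?_
        rw [hS] at ht
        simp only [Set.mem_insert_iff, Set.mem_singleton_iff] at ht
        rcases ht with rfl | rfl | rfl | rfl
        · exact Or.inl rfl
        · exact absurd rfl hst.ne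
        · exact absurd hst nbc
        · exact Or.inr rfl
      · refine out h3 (x := a) (y := x) (hd _) fun t ht hst => ?_
        rw [hS] at ht
        simp only [Set.mem_insert_iff, Set.mem_singleton_iff] at ht
        rcases ht with rfl | rfl | rfl | rfl
        · exact Or.inl rfl
        · exact absurd hst.symm nbc
        · exact absurd rfl hst.ne
        · exact Or.inr rfl
      · refine out h3 (x := b) (y := c) (hd _) fun t ht hst => ?_
        rw [hS] at ht
        simp only [Set.mem_insert_iff, Set.mem_singleton_iff] at ht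
        rcases ht with rfl | rfl | rfl | rfl
        · exact absurd hst.symm nax
        · exact Or.inl rfl
        · exact Or.inr rfl
        · exact absurd rfl hst.ne
    · change H.Adj (e 0) (e 1)
      rw [e0, e1]; exact hab
    · rintro R ⟨g⟩
      exact four_case R e (by rw [e0, e1]; exact hab) (by rw [e2, e3]; exact hcx)
        (by rw [e0, e3]; exact nax) (by rw [e1, e2]; exact nbc) (deg_glue H S R hd g)

end Pool.Agent.R709.SM
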