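import Pool.Agent.R709.SM.Small

/-! Project SM (MP_fc2b6d_co), piece SM-R5: the small graphs are not good. -/

namespace Pool.Agent.R709.SM

namespace SmallBadAux

open SimpleGraph

theorem good_of {W₁ W₂ : Type} {H₁ : SimpleGraph W₁} {H₂ : SimpleGraph W₂} (h12 : H₁ ⊑ H₂)
    (h21 : H₂ ⊑ H₁) (h : Good H₂) : Good H₁ := by
  intro V G
  obtain ⟨F, h1, h2, h3⟩ := h V G
  exact ⟨F, h1, fun c => h2 (h21.trans c), fun I hI hf => h3 I hI fun c => hf (h12.trans c)⟩

variable {W : Type}

theorem fin_copy {n : ℕ} {S : Set W} {H : SimpleGraph W} (e : Fin n ≃ S)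
    (K : SimpleGraph (Fin n)) (h : ∀ i j, K.Adj i j ↔ (H.induce S).Adj (e i) (e j)) :
    Good (H.induce S) → Good K := by
  have i : K ≃g H.induce S := ⟨e, fun {a b} => (h a b).symm⟩
  exact good_of i.isContained i.isContained'

theorem path_case (hI : StmTypeI) {H : SimpleGraph W} {S : Set W} (e : Fin 4 ≃ S)
    (h01 : H.Adj (e 0) (e 1)) (h23 : H.Adj (e 2) (e 3)) (h02 : H.Adj (e 0) (e 2))
    (h03 : ¬ H.Adj (e 0) (e 3)) (h12 : ¬ H.Adj (e 1) (e 2)) (h13 : ¬ H.Adj (e 1) (e 3)) :
    ¬ Good (H.induce S) := by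
  intro hg
  refine hI 2 ![1, 0] le_rfl (by simp) ?_
  have k01 : (H.induce S).Adj (e 0) (e 1) := h01
  have k23 : (H.induce S).Adj (e 2) (e 3) := h23
  have k02 : (H.induce S).Adj (e 0) (e 2) := h02
  have k03 : ¬ (H.induce S).Adj (e 0) (e 3) := h03
  have k12 : ¬ (H.induce S).Adj (e 1) (e 2) := h12
  have k13 : ¬ (H.induce S).Adj (e 1) (e 3) := h13
  have k30 : ¬ (H.induce S).Adj (e 3) (e 0) := fun h => k03 h.symm
  have k21 : ¬ (H.induce S).Adj (e 2) (e 1) := fun h => k12 h.symm
  have k31 : ¬ (H.induce S).Adj (e 3) (e 1) := fun h => k13 h.symm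
  refine good_of ?_ ?_ hg
  · refine SpAt.contained (c := e 0) (br := ![e 2, e 1]) (lf := fun _ => e 3) ?_
    refine ⟨?_, ?_, ?_, ?_, ?_, ?_⟩
    · intro i j hij
      fin_cases i <;> fin_cases j
      · rfl
      · exact absurd (e.injective hij) (by decide)
      · exact absurd (e.injective hij) (by decide)
      · rfl
    · rintro ⟨b, j⟩ ⟨b', j'⟩ _
      fin_cases b <;> fin_cases b'
      · have : j = j' := Subsingleton.elim (α := Fin 1) j j'
        rw [this]
      · exact (IsEmpty.false (α := Fin 0) j').elim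
      · exact (IsEmpty.false (α := Fin 0) j).elim
      · exact (IsEmpty.false (α := Fin 0) j).elim
    · intro _ h
      exact absurd (e.injective h) (by decide)
    · intro _ b h
      fin_cases b
      · exact absurd (e.injective h) (by decide)
      · exact absurd (e.injective h) (by decide)
    · intro b
      fin_cases b
      · exact k02
      · exact k01
    · intro b j
      fin_cases b
      · exact k23
      · exact (IsEmpty.false (α := Fin 0) j).elim
  · let f : Fin 4 → SpV 2 ![1, 0] := ![none, some ⟨1, none⟩, some ⟨0, none⟩,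
      some ⟨0, some (0 : Fin 1)⟩]
    let g : SpV 2 ![1, 0] → ℕ := fun v => match v with
      | none => 0
      | some ⟨b, none⟩ => 1 + b.val
      | some ⟨_, some _⟩ => 5
    have hf : Function.Injective f := by
      intro i j hij
      have hg' : g (f i) = g (f j) := congrArg g hij
      fin_cases i <;> fin_cases j <;> first | rfl | exact absurd hg' (by decide)
    have a01 : (Sp 2 ![1, 0]).Adj (f 0) (f 1) := sp_adj_cb (ℓ := ![1, 0]) 1
    have a02 : (Sp 2 ![1, 0]).Adj (f 0) (f 2) := sp_adj_cb (ℓ := ![1, 0]) 0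
    have a23 : (Sp 2 ![1, 0]).Adj (f 2) (f 3) := sp_adj_bl (ℓ := ![1, 0]) 0 (0 : Fin 1)
    refine ⟨⟨⟨fun s => f (e.symm s), ?_⟩, ?_⟩⟩
    · intro s t hst
      obtain ⟨i, rfl⟩ := e.surjective s
      obtain ⟨j, rfl⟩ := e.surjective t
      rw [e.symm_apply_apply, e.symm_apply_apply]
      have hij : i ≠ j := by
        rintro rfl
        exact hst.ne rfl
      fin_cases i <;> fin_cases j
      all_goals first
        | exact absurd rfl hij
        | exact absurd hst k03
        | exact absurd hst k30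
        | exact absurd hst k12
        | exact absurd hst k21
        | exact absurd hst k13
        | exact absurd hst k31
        | exact a01
        | exact a01.symm
        | exact a02
        | exact a02.symm
        | exact a23
        | exact a23.symm
    · intro s t hst
      exact e.symm.injective (hf hst)

theorem matching_case (hStars : StmStars) {H : SimpleGraph W} {S : Set W} (e : Fin 4 ≃ S)
    (h01 : H.Adj (e 0) (e 1)) (h23 : H.Adj (e 2) (e 3)) (h02 : ¬ H.Adj (e 0) (e 2))
    (h03 : ¬ H.Adj (e 0) (e 3)) (h12 : ¬ H.Adj (e 1) (e 2)) (h13 : ¬ H.Adj (e 1) (e 3)) :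
    ¬ Good (H.induce S) := by
  have k01 : (H.induce S).Adj (e 0) (e 1) := h01
  have k23 : (H.induce S).Adj (e 2) (e 3) := h23
  have k02 : ¬ (H.induce S).Adj (e 0) (e 2) := h02
  have k03 : ¬ (H.induce S).Adj (e 0) (e 3) := h03
  have k12 : ¬ (H.induce S).Adj (e 1) (e 2) := h12
  have k13 : ¬ (H.induce S).Adj (e 1) (e 3) := h13
  have k20 : ¬ (H.induce S).Adj (e 2) (e 0) := fun h => k02 h.symm
  have k30 : ¬ (H.induce S).Adj (e 3) (e 0) := fun h => k03 h.symm
  have k21 : ¬ (H.induce S).Adj (e 2) (e 1) := fun h => k12 h.symm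
  have k31 : ¬ (H.induce S).Adj (e 3) (e 1) := fun h => k13 h.symm
  have : Finite S := Finite.of_equiv _ e
  have hp : ∀ i j, (H.induce S).Adj (e i) (e j) →
      (i = 0 ∧ j = 1) ∨ (i = 1 ∧ j = 0) ∨ (i = 2 ∧ j = 3) ∨ (i = 3 ∧ j = 2) := by
    intro i j hst
    have hij : i ≠ j := by
      rintro rfl
      exact hst.ne rfl
    fin_cases i <;> fin_cases j
    all_goals first
      | exact absurd rfl hij
      | exact absurd hst k02
      | exact absurd hst k20
      | exact absurd hst k03
      | exact absurd hst k30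
      | exact absurd hst k12
      | exact absurd hst k21
      | exact absurd hst k13
      | exact absurd hst k31
      | simp
  refine hStars S (H.induce S) ?_ ⟨e 0, e 1, e 2, e 3, k01, k23, ?_, ?_, ?_, ?_⟩
  · rintro ⟨u, v, ⟨x, y, hxy, hx, hy⟩, -, -⟩
    obtain ⟨i, rfl⟩ := e.surjective u
    obtain ⟨j, rfl⟩ := e.surjective x
    obtain ⟨k, rfl⟩ := e.surjective y
    apply hxy
    have h1 := hp i j hx
    have h2 := hp i k hy
    congr 1
    omega
  all_goals
    intro h
    exact absurd (e.injective h) (by decide)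

theorem cycle_case (hC : StmCycle) {H : SimpleGraph W} {S : Set W} (e : Fin 4 ≃ S)
    (h01 : H.Adj (e 0) (e 1)) (h23 : H.Adj (e 2) (e 3)) (h02 : H.Adj (e 0) (e 2))
    (h03 : ¬ H.Adj (e 0) (e 3)) (h12 : ¬ H.Adj (e 1) (e 2)) (h13 : H.Adj (e 1) (e 3)) :
    ¬ Good (H.induce S) := by
  have k01 : (H.induce S).Adj (e 0) (e 1) := h01
  have k23 : (H.induce S).Adj (e 2) (e 3) := h23
  have k02 : (H.induce S).Adj (e 0) (e 2) := h02
  have k03 : ¬ (H.induce S).Adj (e 0) (e 3) := h03
  have k12 : ¬ (H.induce S).Adj (e 1) (e 2) := h12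
  have k13 : (H.induce S).Adj (e 1) (e 3) := h13
  have k30 : ¬ (H.induce S).Adj (e 3) (e 0) := fun h => k03 h.symm
  have k21 : ¬ (H.induce S).Adj (e 2) (e 1) := fun h => k12 h.symm
  intro hg
  refine hC 4 le_rfl (fin_copy ((Equiv.swap (2 : Fin 4) 3).trans e) _ ?_ hg)
  have s0 : (Equiv.swap (2 : Fin 4) 3) 0 = 0 := by decide
  have s1 : (Equiv.swap (2 : Fin 4) 3) 1 = 1 := by decide
  have s2 : (Equiv.swap (2 : Fin 4) 3) 2 = 3 := by decide
  have s3 : (Equiv.swap (2 : Fin 4) 3) 3 = 2 := by decide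
  have c01 : (cycleGraph 4).Adj 0 1 := by decide
  have c12 : (cycleGraph 4).Adj 1 2 := by decide
  have c23 : (cycleGraph 4).Adj 2 3 := by decide
  have c03 : (cycleGraph 4).Adj 0 3 := by decide
  have c02 : ¬ (cycleGraph 4).Adj 0 2 := by decide
  have c13 : ¬ (cycleGraph 4).Adj 1 3 := by decide
  have c20 : ¬ (cycleGraph 4).Adj 2 0 := by decide
  have c31 : ¬ (cycleGraph 4).Adj 3 1 := by decide
  intro i j
  rw [Equiv.trans_apply, Equiv.trans_apply]
  fin_cases i <;> fin_cases j
  · exact iff_of_false (SimpleGraph.irrefl _) (SimpleGraph.irrefl _)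
  · exact iff_of_true c01 k01
  · exact iff_of_false c02 k03
  · exact iff_of_true c03 k02
  · exact iff_of_true c01.symm k01.symm
  · exact iff_of_false (SimpleGraph.irrefl _) (SimpleGraph.irrefl _)
  · exact iff_of_true c12 k13
  · exact iff_of_false c13 k12
  · exact iff_of_false c20 k30
  · exact iff_of_true c12.symm k13.symm
  · exact iff_of_false (SimpleGraph.irrefl _) (SimpleGraph.irrefl _)
  · exact iff_of_true c23 k23.symm
  · exact iff_of_true c03.symm k02.symm
  · exact iff_of_false c31 k21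
  · exact iff_of_true c23.symm k23
  · exact iff_of_false (SimpleGraph.irrefl _) (SimpleGraph.irrefl _)

theorem triangle_case (hK : StmK3) {H : SimpleGraph W} {S : Set W} (e : Fin 3 ≃ S)
    (h01 : H.Adj (e 0) (e 1)) (h02 : H.Adj (e 0) (e 2)) (h12 : H.Adj (e 1) (e 2)) :
    ¬ Good (H.induce S) := by
  have k01 : (H.induce S).Adj (e 0) (e 1) := h01
  have k02 : (H.induce S).Adj (e 0) (e 2) := h02
  have k12 : (H.induce S).Adj (e 1) (e 2) := h12
  intro hg
  refine hK (fin_copy e _ ?_ hg)
  intro i j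
  rw [SimpleGraph.top_adj]
  constructor
  · intro hij
    fin_cases i <;> fin_cases j
    all_goals first
      | exact absurd rfl hij
      | exact k01
      | exact k01.symm
      | exact k02
      | exact k02.symm
      | exact k12
      | exact k12.symm
  · rintro h rfl
    exact h.ne rfl

end SmallBadAux

open SimpleGraph SmallAux SmallBadAux

theorem smallBad : StmSmallBad := by
  intro hK hStars hI hC W H S hS
  rcases hS with ⟨a, b, c, hS, hab, hac, hbc⟩ | ⟨a, b, c, x, hS, hac, hax, hbc, hbx, hab, hcx, nax, nbc⟩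
  · obtain ⟨e, e0, e1, e2⟩ := three hS hab.ne hac.ne hbc.ne
    exact triangle_case hK e (by rw [e0, e1]; exact hab) (by rw [e0, e2]; exact hac)
      (by rw [e1, e2]; exact hbc)
  · obtain ⟨e, e0, e1, e2, e3⟩ := four hS hab.ne hac hax hbc hbx hcx.ne
    by_cases p : H.Adj a c
    · by_cases q : H.Adj b x
      · exact cycle_case hC e (by rw [e0, e1]; exact hab) (by rw [e2, e3]; exact hcx)
          (by rw [e0, e2]; exact p) (by rw [e0, e3]; exact nax) (by rw [e1, e2]; exact nbc)
          (by rw [e1, e3]; exact q)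
      · exact path_case hI e (by rw [e0, e1]; exact hab) (by rw [e2, e3]; exact hcx)
          (by rw [e0, e2]; exact p) (by rw [e0, e3]; exact nax) (by rw [e1, e2]; exact nbc)
          (by rw [e1, e3]; exact q)
    · by_cases q : H.Adj b x
      · have hS' : S = {b, a, x, c} := by
          rw [hS]; ext y; simp only [Set.mem_insert_iff, Set.mem_singleton_iff]; tauto
        obtain ⟨e', f0, f1, f2, f3⟩ := four hS' hab.ne.symm hbx hbc hax hac hcx.ne.symm
        exact path_case hI e' (by rw [f0, f1]; exact hab.symm) (by rw [f2, f3]; exact hcx.symm)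
          (by rw [f0, f2]; exact q) (by rw [f0, f3]; exact nbc) (by rw [f1, f2]; exact nax)
          (by rw [f1, f3]; exact p)
      · exact matching_case hStars e (by rw [e0, e1]; exact hab) (by rw [e2, e3]; exact hcx)
          (by rw [e0, e2]; exact p) (by rw [e0, e3]; exact nax) (by rw [e1, e2]; exact nbc)
          (by rw [e1, e3]; exact q)

end Pool.Agent.R709.SM
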