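import Pool.Agent.R709.SM.Stm4

/-! Connected 2-regular graphs are cycles (project SM, problem MP_fc2b6d_co). -/

namespace Pool.Agent.R709.SM

open SimpleGraph

namespace Two

theorem cyc_nbr (n : ℕ) (hn : 3 ≤ n) (v : Fin n) : ((cycleGraph n).neighborSet v).ncard = 2 := by
  obtain ⟨m, rfl⟩ : ∃ m, n = m + 3 := ⟨n - 3, by omega⟩
  have h := cycleGraph_degree_three_le (n := m) (v := v)
  rw [← card_neighborSet_eq_degree, ← Nat.card_eq_fintype_card] at h
  exact h

/-- an injective homomorphism between two regular graphs of the same degree is onto the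
neighbourhoods. -/
theorem onto {α β : Type} [Finite α] [Finite β] {A : SimpleGraph α} {B : SimpleGraph β} (d : ℕ)
    (hA : ∀ a, (A.neighborSet a).ncard = d) (hB : ∀ b, (B.neighborSet b).ncard = d)
    (f : Copy A B) (a : α) : f '' (A.neighborSet a) = B.neighborSet (f a) := by
  refine Set.eq_of_subset_of_ncard_le ?_ ?_ (Set.toFinite _)
  · rintro _ ⟨x, hx, rfl⟩
    exact f.toHom.map_adj hx
  · have hinj : Function.Injective (f : α → β) := f.injective
    rw [Set.ncard_image_of_injective _ hinj, hA, hB]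

theorem iso_of_copy {α β : Type} [Finite α] [Finite β] {A : SimpleGraph α} {B : SimpleGraph β}
    (d : ℕ) (hA : ∀ a, (A.neighborSet a).ncard = d) (hB : ∀ b, (B.neighborSet b).ncard = d)
    (hc : B.Connected) (a0 : α) (f : Copy A B) : Nonempty (A ≃g B) := by
  have hsurj : Function.Surjective f := by
    intro b
    obtain ⟨p⟩ := hc.preconnected (f a0) b
    have key : ∀ {x y : β} (_ : B.Walk x y), (∃ a, f a = x) → ∃ a, f a = y := by
      intro x y p
      induction p with
      | nil => exact id
      | cons h p ih =>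
        rintro ⟨a, rfl⟩
        apply ih
        have h2 := onto d hA hB f a
        have h3 : _ ∈ B.neighborSet (f a) := h
        rw [← h2] at h3
        obtain ⟨c, -, hc⟩ := h3
        exact ⟨c, hc⟩
    exact key p ⟨a0, rfl⟩
  refine ⟨⟨Equiv.ofBijective f ⟨f.injective, hsurj⟩, ?_⟩⟩
  intro x y
  constructor
  · intro h
    have h2 := onto d hA hB f x
    have h3 : f y ∈ B.neighborSet (f x) := h
    rw [← h2] at h3
    obtain ⟨c, hc, hcy⟩ := h3
    rw [← f.injective hcy]
    exact hc
  · intro h
    exact f.toHom.map_adj h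

end Two

theorem two : StmTwo := by
  intro W _ H hc hd
  have hcyc : H.IsCycles := fun v _ => hd v
  obtain ⟨v⟩ := hc.nonempty
  have hn : (H.neighborSet v).Nonempty := by
    refine Set.nonempty_of_ncard_ne_zero ?_
    rw [hd v]
    decide
  obtain ⟨p, hp, -⟩ := hcyc.exists_cycle_toSubgraph_verts_eq_connectedComponentSupp
    (c := H.connectedComponentMk v) rfl hn
  have h3 := hp.three_le_length
  obtain ⟨f⟩ := (cycleGraph_isContained_iff (G := H) (n := p.length) h3).2 ⟨v, p, hp, rfl⟩
  refine ⟨p.length, h3, ?_⟩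
  obtain ⟨e⟩ := Two.iso_of_copy 2 (Two.cyc_nbr _ h3) hd hc ⟨0, by omega⟩ f
  exact ⟨e.symm⟩

end Pool.Agent.R709.SM
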