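import Pool.Agent.R709.SM.Reg
import Pool.Agent.R709.SM.Red
import Pool.Agent.R709.SM.Edge
import Pool.Agent.R709.SM.Find
import Pool.Agent.R709.SM.Small
import Pool.Agent.R709.SM.SmallBad
import Pool.Agent.R709.SM.Two

namespace Pool.Agent.R709.SM

open SimpleGraph

theorem regular (W : Type) [Finite W] (H : SimpleGraph W) (d : ℕ)
    (hr : ∀ w, (H.neighborSet w).ncard = d) : Good H ↔ (Nat.card W = 2 ∧ d = 1) :=
  Rg.regular red edge find small smallBad two W H d hr

end Pool.Agent.R709.SM
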