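import Pool.Agent.R709.SM.Defs

/-! Exact statements of the pieces (project SM, problem MP_fc2b6d_co). -/

namespace Pool.Agent.R709.SM

open SimpleGraph

/-- vertices with at least two neighbours (non-leaf, non-isolated vertices). -/
def core {W : Type} (H : SimpleGraph W) : Set W := {w | ∃ a b, a ≠ b ∧ H.Adj w a ∧ H.Adj w b}

def HasCoreEdge {W : Type} (H : SimpleGraph W) : Prop :=
  ∃ u v, u ∈ core H ∧ v ∈ core H ∧ H.Adj u v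

def StmTypeI : Prop := ∀ (D : ℕ) (ℓ : Fin D → ℕ), 2 ≤ D → D ≤ (∑ b, ℓ b) + 1 → ¬ Good (Sp D ℓ)

def StmTypeII : Prop := ∀ (D : ℕ) (ℓ : Fin D → ℕ),
  (∃ b b' : Fin D, b ≠ b' ∧ 1 ≤ ℓ b ∧ 1 ≤ ℓ b') → (∑ b, ℓ b) + 2 ≤ D → ¬ Good (Sp D ℓ)

def StmPendant : Prop := ∀ (W : Type) [Finite W] (H : SimpleGraph W), H.Connected →
  HasCoreEdge H → ¬ Good (H.induce (core H)) → ¬ Good H

def StmTree : Prop := ∀ (W : Type) [Finite W] (H : SimpleGraph W), H.IsTree →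
  HasCoreEdge H → ¬ HasCoreEdge (H.induce (core H)) →
  ∃ (D : ℕ) (ℓ : Fin D → ℕ), Nonempty (H ≃g Sp D ℓ) ∧
    ((2 ≤ D ∧ D ≤ (∑ b, ℓ b) + 1) ∨
      ((∃ b b' : Fin D, b ≠ b' ∧ 1 ≤ ℓ b ∧ 1 ≤ ℓ b') ∧ (∑ b, ℓ b) + 2 ≤ D))

def StmStars : Prop := ∀ (W : Type) [Finite W] (H : SimpleGraph W), ¬ HasCoreEdge H →
  (∃ a b c d, H.Adj a b ∧ H.Adj c d ∧ a ≠ c ∧ a ≠ d ∧ b ≠ c ∧ b ≠ d) → ¬ Good H

def StmDisc : Prop := ∀ (W : Type) [Finite W] (H : SimpleGraph W) (C : H.ConnectedComponent),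
  (∃ u v, u ∈ C.supp ∧ H.Adj u v) →
  (∀ C' : H.ConnectedComponent, (H.induce C.supp) ⊑ (H.induce C'.supp) →
    Nonempty ((H.induce C'.supp) ≃g (H.induce C.supp))) →
  ¬ Good (H.induce C.supp) → ¬ Good H

def StmK3 : Prop := ¬ Good (⊤ : SimpleGraph (Fin 3))

def StmKStep : Prop := ∀ n : ℕ, 3 ≤ n →
  ¬ Good (⊤ : SimpleGraph (Fin n)) → ¬ Good (⊤ : SimpleGraph (Fin (n + 1)))

def StmCycle : Prop := ∀ n : ℕ, 4 ≤ n → ¬ Good (cycleGraph n)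

end Pool.Agent.R709.SM
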