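import Pool.Agent.R709.SM.Stm

/-! Statements for the star direction (project SM, problem MP_fc2b6d_co): if the path with two edges
has the property, then every star with some isolated vertices has it. -/

namespace Pool.Agent.R709.SM

open SimpleGraph

/-- all degrees of `F` are at most `c`. -/
def DegLe {V : Type} (F : SimpleGraph V) (c : ℕ) : Prop := ∀ v, (F.neighborSet v).encard ≤ c

/-- every graph has a strongly maximal spanning subgraph with all degrees at most `c`. -/
def BGood (c : ℕ) : Prop := ∀ (V : Type) (G : SimpleGraph V), ∃ F : SimpleGraph V, F ≤ G ∧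
  DegLe F c ∧ ∀ I : SimpleGraph V, I ≤ G → DegLe I c →
    Cardinal.mk ↥(I.edgeSet \ F.edgeSet) ≤ Cardinal.mk ↥(F.edgeSet \ I.edgeSet)

def StmB1 : Prop := BGood 1 → ∀ c : ℕ, BGood c

def StmB2 : Prop := (∀ c : ℕ, BGood c) → ∀ (W : Type) [Finite W] (H : SimpleGraph W) (c : W),
  (∃ v, H.Adj c v) → (∀ u v, H.Adj u v → u = c ∨ v = c) → Good H

def StmB3 : Prop := Good (pathGraph 3) → BGood 1

end Pool.Agent.R709.SM
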