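import Pool.Agent.R709.SM.Stm2

/-! Locally finite hosts (project SM, problem MP_fc2b6d_co). -/

namespace Pool.Agent.R709.SM

open SimpleGraph

/-- a locally finite graph has a strongly maximal `H`-free edge set for every finite connected
graph `H` with an edge. -/
def StmLF : Prop := ∀ (V W : Type) [Finite W] (H : SimpleGraph W) (G : SimpleGraph V),
  H.Connected → (∃ a b, H.Adj a b) → (∀ v, (G.neighborSet v).Finite) → ∃ F : SimpleGraph V, SMax H G F

end Pool.Agent.R709.SM
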