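import Pool.Agent.R709.SM.Stm

/-! Blocks which occur only once (project SM, problem MP_fc2b6d_co). -/

namespace Pool.Agent.R709.SM

open SimpleGraph

/-- `A` induces a 2-connected subgraph of `H`, every component of `H - A` is attached to at most
one vertex of `A` (the vertex `at w`), and `H` with all but one vertex of `A` deleted contains no
copy of `H.induce A`. -/
def UniqueBlock {W : Type} (H : SimpleGraph W) (A : Set W) : Prop :=
  (∃ a b c, a ∈ A ∧ b ∈ A ∧ c ∈ A ∧ a ≠ b ∧ a ≠ c ∧ b ≠ c) ∧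
  (H.induce A).Connected ∧
  (∀ v ∈ A, (H.induce (A \ {v})).Connected) ∧
  (∃ at' : W → W, (∀ w, at' w ∈ A) ∧
    (∀ w w', w ∉ A → w' ∉ A → H.Adj w w' → at' w = at' w') ∧
    (∀ w a, w ∉ A → a ∈ A → H.Adj w a → a = at' w)) ∧
  (∀ a ∈ A, ¬ ((H.induce A) ⊑ (H.induce (insert a Aᶜ))))

def StmBlock : Prop := ∀ (W : Type) [Finite W] (H : SimpleGraph W) (A : Set W),
  UniqueBlock H A → ¬ Good (H.induce A) → ¬ Good H

end Pool.Agent.R709.SM
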