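import Pool.Agent.R709.SM.Stm

namespace Pool.Agent.R709.SM.TI

open SimpleGraph Pool.Agent.R709.SM

/-- host vertices -/
inductive HV (p : ℕ) : Type
  | a (i : ℕ) : HV p
  | x (n : ℕ) : HV p
  | w (n : ℕ) (j : Fin p) : HV p

namespace HV
def idx {p : ℕ} : HV p → ℕ
  | a i => i
  | x n => n
  | w n _ => n
def isA {p : ℕ} : HV p → Prop
  | a _ => True
  | x _ => False
  | w _ _ => False
end HV

open HV

inductive HR (p : ℕ) : HV p → HV p → Prop
  | ax (i n : ℕ) (h : i ≤ n) : HR p (a i) (x n)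
  | xw (n : ℕ) (j : Fin p) : HR p (x n) (w n j)
  | ww (n : ℕ) (j j' : Fin p) (h : j ≠ j') : HR p (w n j) (w n j')

def HG (p : ℕ) : SimpleGraph (HV p) := SimpleGraph.fromRel (HR p)

theorem hg_ax {p i n : ℕ} : (HG p).Adj (a i) (x n) ↔ i ≤ n := by
  rw [HG, fromRel_adj]
  constructor
  · rintro ⟨_, h | h⟩
    · cases h; assumption
    · cases h
  · intro h
    exact ⟨by simp, Or.inl (HR.ax i n h)⟩

theorem hg_xw {p n n' : ℕ} {j : Fin p} : (HG p).Adj (x n) (w n' j) ↔ n = n' := by
  rw [HG, fromRel_adj]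
  constructor
  · rintro ⟨_, h | h⟩
    · cases h; rfl
    · cases h
  · rintro rfl
    exact ⟨by simp, Or.inl (HR.xw n j)⟩

theorem hg_ww {p n n' : ℕ} {j j' : Fin p} : (HG p).Adj (w n j) (w n' j') ↔ n = n' ∧ j ≠ j' := by
  rw [HG, fromRel_adj]
  constructor
  · rintro ⟨_, h | h⟩
    · cases h; exact ⟨rfl, by assumption⟩
    · cases h; exact ⟨rfl, by rename_i h; exact fun e => h e.symm⟩
  · rintro ⟨rfl, h⟩
    exact ⟨by simpa using h, Or.inl (HR.ww n j j' h)⟩

theorem hg_aa {p i i' : ℕ} : ¬ (HG p).Adj (a i) (a i') := by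
  rw [HG, fromRel_adj]
  rintro ⟨_, h | h⟩ <;> cases h

theorem hg_xx {p i i' : ℕ} : ¬ (HG p).Adj (x i) (x i') := by
  rw [HG, fromRel_adj]
  rintro ⟨_, h | h⟩ <;> cases h

theorem hg_aw {p i n : ℕ} {j : Fin p} : ¬ (HG p).Adj (a i) (w n j) := by
  rw [HG, fromRel_adj]
  rintro ⟨_, h | h⟩ <;> cases h

/-- the vertices of block `n`. -/
def blk {p : ℕ} (n : ℕ) (v : HV p) : Prop := ¬ v.isA ∧ v.idx = n

theorem blk_iff {p n : ℕ} {v : HV p} : blk n v ↔ v = x n ∨ ∃ j, v = w n j := by
  rcases v with i | n' | ⟨n', j⟩ <;> simp [blk, isA, idx]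

/-- a block has `p+1` vertices: no injection from a bigger type -/
theorem blk_card {p n : ℕ} {α : Type} [Fintype α] (f : α → HV p) (hf : Function.Injective f)
    (h : ∀ t, blk n (f t)) : Fintype.card α ≤ p + 1 := by
  classical
  let g : α → Option (Fin p) := fun t => match f t with
    | a _ => none
    | x _ => none
    | w _ j => some j
  have hg : Function.Injective g := by
    intro t t' htt
    apply hf
    have h1 := blk_iff.1 (h t)
    have h2 := blk_iff.1 (h t')
    rcases h1 with h1 | ⟨j, h1⟩ <;> rcases h2 with h2 | ⟨j', h2⟩ <;>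
      simp only [g, h1, h2] at htt ⊢
    · simp at htt
    · simp at htt
    · simp only [Option.some.injEq] at htt; rw [htt]
  have := Fintype.card_le_of_injective g hg
  simpa using this


variable {D : ℕ} {ℓ : Fin D → ℕ}

theorem br_ne_lf {b b' : Fin D} {j : Fin (ℓ b')} :
    (some ⟨b, none⟩ : SpV D ℓ) ≠ some ⟨b', some j⟩ := by
  intro h
  simp only [Option.some.injEq, Sigma.mk.injEq] at h
  obtain ⟨rfl, h2⟩ := h
  simp at h2

theorem card_leaves : Fintype.card ((b : Fin D) × Fin (ℓ b)) = ∑ b, ℓ b := by simp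

theorem card_spV : Fintype.card (SpV D ℓ) = 1 + D + ∑ b, ℓ b := by
  simp [SpV, Fintype.card_option, Finset.sum_add_distrib]
  omega

/-- closed sets: a copy with centre in a closed set stays inside; else outside. -/
theorem spAt_mono {V : Type} {F I : SimpleGraph V} {c : V} {br : Fin D → V}
    {lf : ((b : Fin D) × Fin (ℓ b)) → V} (h : SpAt D ℓ I c br lf)
    (h1 : ∀ b, F.Adj c (br b)) (h2 : ∀ b j, F.Adj (br b) (lf ⟨b, j⟩)) : SpAt D ℓ F c br lf :=
  ⟨h.br_inj, h.lf_inj, h.lf_ne_c, h.lf_ne_br, h1, h2⟩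

/-- the injection of all vertices of a copy. -/
def allV {V : Type} (c : V) (br : Fin D → V) (lf : ((b : Fin D) × Fin (ℓ b)) → V) :
    SpV D ℓ → V
  | none => c
  | some ⟨b, none⟩ => br b
  | some ⟨b, some j⟩ => lf ⟨b, j⟩

theorem allV_inj {V : Type} {F : SimpleGraph V} {c : V} {br : Fin D → V}
    {lf : ((b : Fin D) × Fin (ℓ b)) → V} (h : SpAt D ℓ F c br lf) :
    Function.Injective (allV c br lf) := by
  intro u v huv
  rcases u with _ | ⟨b, _ | j⟩ <;> rcases v with _ | ⟨b', _ | j'⟩ <;> simp only [allV] at huv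
  · rfl
  · exact absurd huv (h.adj_cb b').ne
  · exact absurd huv.symm (h.lf_ne_c _)
  · exact absurd huv.symm (h.adj_cb b).ne
  · have : b = b' := h.br_inj huv
    subst this; rfl
  · exact absurd huv.symm (h.lf_ne_br _ _)
  · exact absurd huv (h.lf_ne_c _)
  · exact absurd huv (h.lf_ne_br _ _)
  · have := h.lf_inj huv
    cases this; rfl

/-- no copy of `Sp` inside one block when `p + 1 = D + s`. -/
theorem no_copy_in_block {p n : ℕ} {I : SimpleGraph (HV p)} (hp : p + 1 = D + ∑ b, ℓ b)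
    (hclosed : ∀ u v, blk n u → I.Adj u v → blk n v) {c br lf} (h : SpAt D ℓ I c br lf)
    (hc : blk n c) : False := by
  have hb : ∀ b, blk n (br b) := fun b => hclosed _ _ hc (h.adj_cb b)
  have hl : ∀ t, blk n (lf t) := fun t => hclosed _ _ (hb t.1) (h.adj_bl t.1 t.2)
  have := blk_card (allV c br lf) (allV_inj h) (n := n) (by
    intro t
    rcases t with _ | ⟨b, _ | j⟩
    · exact hc
    · exact hb b
    · exact hl _)
  rw [card_spV] at this
  omega

/-- a complete block with an attached `a` contains the tree. -/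
theorem copy_of_complete {p n i : ℕ} {F : SimpleGraph (HV p)} (hp : p + 1 = D + ∑ b, ℓ b)
    (hs : 1 ≤ ∑ b, ℓ b)
    (hcomp : ∀ u v : HV p, blk n u → blk n v → u ≠ v → F.Adj u v)
    (hai : F.Adj (a i) (x n)) : Sp D ℓ ⊑ F := by
  classical
  obtain ⟨b0, -, hb0⟩ : ∃ b0 ∈ Finset.univ, ℓ b0 ≠ 0 := by
    apply Finset.exists_ne_zero_of_sum_ne_zero; omega
  have hpos : 0 < ℓ b0 := Nat.pos_of_ne_zero hb0
  let j0 : Fin (ℓ b0) := ⟨0, hpos⟩
  let vb : SpV D ℓ := some ⟨b0, none⟩
  let vl : SpV D ℓ := some ⟨b0, some j0⟩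
  have hne : vb ≠ vl := by simp [vb, vl]
  have hcard : Fintype.card {v : SpV D ℓ // v ≠ vb ∧ v ≠ vl} = Fintype.card (Fin p) := by
    rw [Fintype.card_subtype, Fintype.card_fin]
    have e : (Finset.univ.filter fun v : SpV D ℓ => v ≠ vb ∧ v ≠ vl) =
        (Finset.univ.erase vb).erase vl := by
      ext v; simp [and_comm]
    rw [e, Finset.card_erase_of_mem (by simp [hne.symm]), Finset.card_erase_of_mem (by simp),
      Finset.card_univ, card_spV]
    omega
  obtain ⟨e⟩ := Fintype.card_eq.1 hcard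
  let φ : SpV D ℓ → HV p := fun v =>
    if h1 : v = vb then x n else if h2 : v = vl then a i else w n (e ⟨v, h1, h2⟩)
  have φb : φ vb = x n := by simp [φ]
  have φl : φ vl = a i := by simp [φ, hne.symm]
  have φo : ∀ v (h1 : v ≠ vb) (h2 : v ≠ vl), φ v = w n (e ⟨v, h1, h2⟩) := by
    intro v h1 h2; simp [φ, h1, h2]
  have hinj : Function.Injective φ := by
    intro u v huv
    by_cases u1 : u = vb
    · by_cases v1 : v = vb
      · rw [u1, v1]
      · by_cases v2 : v = vl
        · rw [u1, v2, φb, φl] at huv; cases huv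
        · rw [u1, φb, φo v v1 v2] at huv; cases huv
    · by_cases u2 : u = vl
      · by_cases v1 : v = vb
        · rw [u2, v1, φb, φl] at huv; cases huv
        · by_cases v2 : v = vl
          · rw [u2, v2]
          · rw [u2, φl, φo v v1 v2] at huv; cases huv
      · by_cases v1 : v = vb
        · rw [v1, φb, φo u u1 u2] at huv; cases huv
        · by_cases v2 : v = vl
          · rw [v2, φl, φo u u1 u2] at huv; cases huv
          · rw [φo u u1 u2, φo v v1 v2] at huv
            have h3 : e ⟨u, u1, u2⟩ = e ⟨v, v1, v2⟩ := by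
              injection huv
            have := e.injective h3
            exact congrArg Subtype.val this
  have hblk : ∀ v, v ≠ vl → blk n (φ v) := by
    intro v hv
    rw [blk_iff]
    by_cases h1 : v = vb
    · left; rw [h1, φb]
    · right; exact ⟨_, φo v h1 hv⟩
  have hadj : ∀ u v, u ≠ v → u ≠ vl → v ≠ vl → F.Adj (φ u) (φ v) := fun u v huv hu hv =>
    hcomp _ _ (hblk u hu) (hblk v hv) (fun e => huv (hinj e))
  refine SpAt.contained (c := φ none) (br := fun b => φ (some ⟨b, none⟩))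
    (lf := fun t => φ (some ⟨t.1, some t.2⟩)) ⟨?_, ?_, ?_, ?_, ?_, ?_⟩
  · intro b b' h
    have := hinj h
    simp only [Option.some.injEq, Sigma.mk.injEq] at this
    exact this.1
  · rintro ⟨b, j⟩ ⟨b', j'⟩ h
    have := hinj h
    simp only [Option.some.injEq, Sigma.mk.injEq] at this
    obtain ⟨rfl, h2⟩ := this
    simpa using h2
  · intro t h
    have := hinj h
    simp at this
  · intro t b h
    have := hinj h
    simp only [Option.some.injEq, Sigma.mk.injEq] at this
    obtain ⟨rfl, h2⟩ := this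
    simp at h2
  · intro b
    exact hadj _ _ (by simp) (by simp [vl]) br_ne_lf
  · intro b j
    by_cases h : (some ⟨b, some j⟩ : SpV D ℓ) = vl
    · have hb : b = b0 := by
        simp only [vl, Option.some.injEq, Sigma.mk.injEq] at h
        exact h.1
      subst hb
      simp only [h]
      rw [φl]
      have : φ (some ⟨b, none⟩) = x n := φb
      rw [this]
      exact hai.symm
    · exact hadj _ _ br_ne_lf br_ne_lf h


theorem blk_adj {p n : ℕ} {u v : HV p} (hu : blk n u) (hv : blk n v) (h : u ≠ v) :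
    (HG p).Adj u v := by
  rw [blk_iff] at hu hv
  rcases hu with rfl | ⟨j, rfl⟩ <;> rcases hv with rfl | ⟨j', rfl⟩
  · exact absurd rfl h
  · exact hg_xw.2 rfl
  · exact (hg_xw.2 rfl).symm
  · exact hg_ww.2 ⟨rfl, fun e => h (by rw [e])⟩

/-- attached `a`'s at block `n` -/
def att (p : ℕ) (F : SimpleGraph (HV p)) (n : ℕ) : Set ℕ := {i | F.Adj (a i) (x n)}

/-- missing `x n - w n j` edges -/
def missW (p : ℕ) (F : SimpleGraph (HV p)) (n : ℕ) : Set (Fin p) := {j | ¬ F.Adj (x n) (w n j)}

theorem att_finite {p : ℕ} {F : SimpleGraph (HV p)} (hF : F ≤ HG p) (n : ℕ) :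
    (att p F n).Finite := by
  refine (Set.finite_Iic n).subset ?_
  intro i hi
  exact hg_ax.1 (hF hi)

/-- resetting block `n` cannot gain. -/
theorem reset {p : ℕ} {F : SimpleGraph (HV p)} (hp : p + 1 = D + ∑ b, ℓ b)
    (h : SMax (Sp D ℓ) (HG p) F) (n : ℕ) :
    (missW p F n).ncard ≤ (att p F n).ncard := by
  classical
  let I : SimpleGraph (HV p) :=
    { Adj := fun u v => (F.Adj u v ∧ ¬ blk n u ∧ ¬ blk n v) ∨ (u ≠ v ∧ blk n u ∧ blk n v)
      symm := ⟨by
        intro u v huv
        rcases huv with ⟨h1, h2, h3⟩ | ⟨h1, h2, h3⟩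
        · exact Or.inl ⟨h1.symm, h3, h2⟩
        · exact Or.inr ⟨h1.symm, h3, h2⟩⟩
      loopless := ⟨by
        intro u hu
        rcases hu with ⟨h1, _, _⟩ | ⟨h1, _, _⟩
        · exact h1.ne rfl
        · exact h1 rfl⟩ }
  have hI : I ≤ HG p := by
    intro u v huv
    rcases huv with ⟨h1, h2, h3⟩ | ⟨h1, h2, h3⟩
    · exact h.1 h1
    · exact blk_adj h2 h3 h1
  have hfree : ¬ (Sp D ℓ ⊑ I) := by
    intro hc
    obtain ⟨c, br, lf, hs⟩ := exists_spAt hc
    by_cases hcb : blk n c
    · refine no_copy_in_block hp ?_ hs hcb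
      intro u v hu huv
      rcases huv with ⟨_, h2, _⟩ | ⟨_, _, h3⟩
      · exact absurd hu h2
      · exact h3
    · have hb : ∀ b, F.Adj c (br b) ∧ ¬ blk n (br b) := by
        intro b
        rcases hs.adj_cb b with ⟨h1, _, h3⟩ | ⟨_, h2, _⟩
        · exact ⟨h1, h3⟩
        · exact absurd h2 hcb
      refine h.2.1 (spAt_mono hs (fun b => (hb b).1) ?_).contained
      intro b j
      rcases hs.adj_bl b j with ⟨h1, _, h3⟩ | ⟨_, h2, _⟩
      · exact h1
      · exact absurd h2 (hb b).2
  -- removed edges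
  have hrem : F.edgeSet \ I.edgeSet ⊆ (fun i => (s(a i, x n) : Sym2 (HV p))) '' (att p F n) := by
    intro e
    induction e using Sym2.ind with
    | _ u v =>
      rintro ⟨h1, h2⟩
      rw [mem_edgeSet] at h1 h2
      have h3 : ¬ (¬ blk n u ∧ ¬ blk n v) := fun h4 => h2 (Or.inl ⟨h1, h4⟩)
      have h4 : ¬ (blk n u ∧ blk n v) := fun h4 => h2 (Or.inr ⟨h1.ne, h4⟩)
      have key : ∀ u v : HV p, F.Adj u v → blk n u → ¬ blk n v →
          ∃ i, F.Adj (a i) (x n) ∧ u = x n ∧ v = a i := by
        intro u v huv hu hv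
        have hG := h.1 huv
        rw [blk_iff] at hu hv
        rcases hu with rfl | ⟨j, rfl⟩
        · rcases v with i | n' | ⟨n', j'⟩
          · exact ⟨i, huv.symm, rfl, rfl⟩
          · exact absurd hG hg_xx
          · have := hg_xw.1 hG
            subst this
            exact absurd (Or.inr ⟨j', rfl⟩) hv
        · rcases v with i | n' | ⟨n', j'⟩
          · exact absurd hG.symm hg_aw
          · have := hg_xw.1 hG.symm
            subst this
            exact absurd (Or.inl rfl) hv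
          · obtain ⟨rfl, _⟩ := hg_ww.1 hG
            exact absurd (Or.inr ⟨j', rfl⟩) hv
      by_cases hu : blk n u
      · have hv : ¬ blk n v := fun hv => h4 ⟨hu, hv⟩
        obtain ⟨i, hi, rfl, rfl⟩ := key u v h1 hu hv
        exact ⟨i, hi, Sym2.eq_swap⟩
      · have hv : blk n v := by
          by_contra hv; exact h3 ⟨hu, hv⟩
        obtain ⟨i, hi, rfl, rfl⟩ := key v u h1.symm hv hu
        exact ⟨i, hi, rfl⟩
  have hfinr : ((fun i => (s(a i, x n) : Sym2 (HV p))) '' (att p F n)).Finite := (att_finite h.1 n).image _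
  have hgain := h.no_gain hI hfree (hfinr.subset hrem)
  have hadd : (fun j => (s(x n, w n j) : Sym2 (HV p))) '' (missW p F n) ⊆ I.edgeSet \ F.edgeSet := by
    rintro _ ⟨j, hj, rfl⟩
    refine ⟨?_, ?_⟩
    · exact Or.inr ⟨by simp, blk_iff.2 (Or.inl rfl), blk_iff.2 (Or.inr ⟨j, rfl⟩)⟩
    · exact hj
  have hinj : Function.Injective (fun j : Fin p => s(x n, w n j)) := by
    intro j j' hjj
    simpa using hjj
  calc (missW p F n).ncard = ((fun j => (s(x n, w n j) : Sym2 (HV p))) '' (missW p F n)).ncard := by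
        rw [Set.ncard_image_of_injective _ hinj]
    _ ≤ (I.edgeSet \ F.edgeSet).ncard := Set.ncard_le_ncard hadd hgain.1
    _ ≤ (F.edgeSet \ I.edgeSet).ncard := hgain.2
    _ ≤ ((fun i => (s(a i, x n) : Sym2 (HV p))) '' (att p F n)).ncard := Set.ncard_le_ncard hrem hfinr
    _ ≤ (att p F n).ncard := Set.ncard_image_le (att_finite h.1 n)


/-- blocks attached to `a i` -/
def attI (p : ℕ) (F : SimpleGraph (HV p)) (i : ℕ) : Set ℕ := {n | F.Adj (a i) (x n)}

theorem nbr_finset {p : ℕ} {F : SimpleGraph (HV p)} (hF : F ≤ HG p) {i n : ℕ}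
    (hr : (missW p F n).ncard ≤ (att p F n).ncard) (hin : F.Adj (a i) (x n)) :
    ∃ N : Finset (HV p), p - 1 ≤ N.card ∧
      ∀ v ∈ N, F.Adj (x n) v ∧ v ≠ a i ∧ ∀ n', v ≠ x n' := by
  classical
  have hfin := att_finite hF n
  let A : Finset ℕ := hfin.toFinset.erase i
  let B : Finset (Fin p) := Finset.univ.filter fun j => F.Adj (x n) (w n j)
  have hA : A.card = (att p F n).ncard - 1 := by
    rw [Finset.card_erase_of_mem (hfin.mem_toFinset.2 hin), Set.ncard_eq_toFinset_card _ hfin]
  have hpos : 1 ≤ (att p F n).ncard := by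
    rw [Nat.one_le_iff_ne_zero, ← Nat.pos_iff_ne_zero, Set.ncard_pos hfin]
    exact ⟨i, hin⟩
  have hB : p ≤ B.card + (missW p F n).ncard := by
    have h1 : (missW p F n).ncard = (Finset.univ.filter fun j => ¬ F.Adj (x n) (w n j)).card := by
      rw [← Set.ncard_coe_finset]
      congr 1
      ext j; simp [missW]
    rw [h1]
    have := Finset.card_filter_add_card_filter_not (s := (Finset.univ : Finset (Fin p)))
      (fun j => F.Adj (x n) (w n j))
    simp only [Finset.card_univ, Fintype.card_fin] at this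
    exact this.ge
  refine ⟨A.image a ∪ B.image (w n), ?_, ?_⟩
  · rw [Finset.card_union_of_disjoint, Finset.card_image_of_injective,
      Finset.card_image_of_injective]
    · omega
    · intro j j' h; injection h
    · intro j j' h; injection h
    · rw [Finset.disjoint_left]
      intro v h1 h2
      simp only [Finset.mem_image] at h1 h2
      obtain ⟨j, _, rfl⟩ := h1
      obtain ⟨j', _, h⟩ := h2
      cases h
  · intro v hv
    rw [Finset.mem_union, Finset.mem_image, Finset.mem_image] at hv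
    rcases hv with ⟨i', hi', rfl⟩ | ⟨j, hj, rfl⟩
    · simp only [A, Finset.mem_erase, Set.Finite.mem_toFinset] at hi'
      refine ⟨(show F.Adj (a i') (x n) from hi'.2).symm, ?_, ?_⟩
      · intro h; injection h with h; exact hi'.1 h
      · intro n' h; cases h
    · simp only [B, Finset.mem_filter] at hj
      refine ⟨hj.2, ?_, ?_⟩
      · intro h; cases h
      · intro n' h; cases h

theorem attI_le {p : ℕ} {F : SimpleGraph (HV p)} (hp : p + 1 = D + ∑ b, ℓ b) (hD : 2 ≤ D)
    (h : SMax (Sp D ℓ) (HG p) F) (i : ℕ) :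
    (attI p F i).Finite ∧ (attI p F i).ncard ≤ D - 1 := by
  classical
  by_contra hcon
  have hT : ∃ T : Finset ℕ, (T : Set ℕ) ⊆ attI p F i ∧ T.card = D := by
    by_cases hf : (attI p F i).Finite
    · have hge : D ≤ hf.toFinset.card := by
        rw [← Set.ncard_eq_toFinset_card _ hf]
        by_contra h2
        exact hcon ⟨hf, by omega⟩
      obtain ⟨T, h1, h2⟩ := Finset.exists_subset_card_eq hge
      refine ⟨T, ?_, h2⟩
      intro t ht
      have := h1 ht
      simpa using this
    · exact Set.Infinite.exists_subset_card_eq hf D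
  obtain ⟨T, hTs, hTc⟩ := hT
  let e := (T.equivFinOfCardEq hTc).symm
  have hadj : ∀ b, F.Adj (a i) (x (e b).1) := fun b => hTs (e b).2
  have hN : ∀ b, ∃ N : Finset (HV p), p - 1 ≤ N.card ∧
      ∀ v ∈ N, F.Adj (x (e b).1) v ∧ v ≠ a i ∧ ∀ n', v ≠ x n' := fun b =>
    nbr_finset h.1 (reset hp h _) (hadj b)
  choose N hNc hNm using hN
  obtain ⟨lf, hlf1, hlf2⟩ := (Finset.all_card_le_biUnion_card_iff_exists_injective
    (fun t : (b : Fin D) × Fin (ℓ b) => N t.1)).1 (by
      intro S
      rcases S.eq_empty_or_nonempty with rfl | ⟨t, ht⟩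
      · simp
      · calc S.card ≤ Fintype.card ((b : Fin D) × Fin (ℓ b)) := Finset.card_le_univ _
          _ = ∑ b, ℓ b := card_leaves
          _ ≤ p - 1 := by omega
          _ ≤ (N t.1).card := hNc _
          _ ≤ _ := Finset.card_le_card (Finset.subset_biUnion_of_mem
                (fun t : (b : Fin D) × Fin (ℓ b) => N t.1) ht))
  refine h.2.1 (SpAt.contained (c := a i) (br := fun b => x (e b).1) (lf := lf)
    ⟨?_, hlf1, ?_, ?_, hadj, ?_⟩)
  · intro b b' hbb
    simp only [HV.x.injEq] at hbb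
    exact e.injective (Subtype.ext hbb)
  · intro t; exact (hNm _ _ (hlf2 t)).2.1
  · intro t b; exact (hNm _ _ (hlf2 t)).2.2 _
  · intro b j; exact (hNm _ _ (hlf2 ⟨b, j⟩)).1

end Pool.Agent.R709.SM.TI
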