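import Pool.Agent.R709.SM.TypeI

namespace Pool.Agent.R709.SM.TI

open SimpleGraph Pool.Agent.R709.SM HV

variable {D : ℕ} {ℓ : Fin D → ℕ}

def Ihub (p m K : ℕ) (u v : HV p) : Prop := ∃ i r, i < m ∧ r < K ∧ u = a i ∧ v = x (m + r)

/-- the improved edge set -/
def Im {p : ℕ} (F : SimpleGraph (HV p)) (m K : ℕ) : SimpleGraph (HV p) where
  Adj u v := (F.Adj u v ∧ m + K ≤ u.idx ∧ m + K ≤ v.idx) ∨
    ((HG p).Adj u v ∧ (¬ u.isA ∧ ¬ v.isA) ∧ u.idx < m ∧ v.idx < m) ∨ Ihub p m K u v ∨ Ihub p m K v u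
  symm := ⟨by
    rintro u v (⟨h1, h2, h3⟩ | ⟨h1, h2, h3, h4⟩ | h | h)
    · exact Or.inl ⟨h1.symm, h3, h2⟩
    · exact Or.inr (Or.inl ⟨h1.symm, h2.symm, h4, h3⟩)
    · exact Or.inr (Or.inr (Or.inr h))
    · exact Or.inr (Or.inr (Or.inl h))⟩
  loopless := ⟨by
    rintro u (⟨h1, h2, h3⟩ | ⟨h1, h2, h3, h4⟩ | ⟨i, r, h1, h2, h3, h4⟩ | ⟨i, r, h1, h2, h3, h4⟩)
    · exact h1.ne rfl
    · exact h1.ne rfl
    · rw [h3] at h4; cases h4
    · rw [h3] at h4; cases h4⟩

theorem im_le {p : ℕ} {F : SimpleGraph (HV p)} (hF : F ≤ HG p) (m K : ℕ) : Im F m K ≤ HG p := by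
  rintro u v (⟨h1, h2, h3⟩ | ⟨h1, h2, h3, h4⟩ | ⟨i, r, h1, h2, h3, h4⟩ | ⟨i, r, h1, h2, h3, h4⟩)
  · exact hF h1
  · exact h1
  · subst h3; subst h4; exact hg_ax.2 (by omega)
  · subst h3; subst h4; exact (hg_ax.2 (by omega)).symm

theorem im_a {p m K i : ℕ} {F : SimpleGraph (HV p)} {v : HV p} (hi : i < m + K)
    (h : (Im F m K).Adj (a i) v) : ∃ r, r < K ∧ v = x (m + r) := by
  rcases h with ⟨h1, h2, h3⟩ | ⟨h1, h2, h3, h4⟩ | ⟨i', r, h1, h2, h3, h4⟩ | ⟨i', r, h1, h2, h3, h4⟩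
  · simp only [idx] at h2; omega
  · exact absurd trivial h2.1
  · exact ⟨r, h2, h4⟩
  · cases h4

theorem im_x {p m K n : ℕ} {F : SimpleGraph (HV p)} {v : HV p} (hn : n < m + K) (hn' : m ≤ n)
    (h : (Im F m K).Adj (x n) v) : ∃ i, i < m ∧ v = a i := by
  rcases h with ⟨h1, h2, h3⟩ | ⟨h1, h2, h3, h4⟩ | ⟨i', r, h1, h2, h3, h4⟩ | ⟨i', r, h1, h2, h3, h4⟩
  · simp only [idx] at h2; omega
  · simp only [idx] at h3; omega
  · cases h3
  · exact ⟨i', h1, h3⟩

theorem im_closed {p m K n : ℕ} {F : SimpleGraph (HV p)} (hn : n < m) (u v : HV p)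
    (hu : blk n u) (h : (Im F m K).Adj u v) : blk n v := by
  rw [blk_iff] at hu
  rcases h with ⟨h1, h2, h3⟩ | ⟨h1, h2, h3, h4⟩ | ⟨i', r, h1, h2, h3, h4⟩ | ⟨i', r, h1, h2, h3, h4⟩
  · rcases hu with rfl | ⟨j, rfl⟩ <;> simp only [idx] at h2 <;> omega
  · rw [blk_iff]
    rcases hu with rfl | ⟨j, rfl⟩
    · rcases v with i | n' | ⟨n', j'⟩
      · exact absurd trivial h2.2
      · exact absurd h1 hg_xx
      · have := hg_xw.1 h1; subst this; exact Or.inr ⟨j', rfl⟩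
    · rcases v with i | n' | ⟨n', j'⟩
      · exact absurd trivial h2.2
      · have := hg_xw.1 h1.symm; subst this; exact Or.inl rfl
      · obtain ⟨rfl, _⟩ := hg_ww.1 h1; exact Or.inr ⟨j', rfl⟩
  · rcases hu with rfl | ⟨j, rfl⟩ <;> cases h3
  · rcases hu with rfl | ⟨j, rfl⟩
    · injection h4 with h5; omega
    · cases h4

theorem im_free {p : ℕ} {F : SimpleGraph (HV p)} (hp : p + 1 = D + ∑ b, ℓ b) (hD : 2 ≤ D)
    (hs : D ≤ (∑ b, ℓ b) + 1) (hF : ¬ (Sp D ℓ ⊑ F)) (m : ℕ) :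
    ¬ (Sp D ℓ ⊑ Im F m (D - 1)) := by
  classical
  intro hcop
  obtain ⟨c, br, lf, h⟩ := exists_spAt hcop
  by_cases hfar : m + (D - 1) ≤ c.idx
  · have key : ∀ u v : HV p, m + (D - 1) ≤ u.idx → (Im F m (D - 1)).Adj u v →
        F.Adj u v ∧ m + (D - 1) ≤ v.idx := by
      rintro u v hu (⟨h1, h2, h3⟩ | ⟨h1, h2, h3, h4⟩ | ⟨i', r, h1, h2, h3, h4⟩ | ⟨i', r, h1, h2, h3, h4⟩)
      · exact ⟨h1, h3⟩
      · omega
      · subst h3; simp only [idx] at hu; omega
      · subst h4; simp only [idx] at hu; omega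
    exact hF (spAt_mono h (fun b => (key _ _ hfar (h.adj_cb b)).1)
      (fun b j => (key _ _ (key _ _ hfar (h.adj_cb b)).2 (h.adj_bl b j)).1)).contained
  push Not at hfar
  rcases c with i | n | ⟨n, j⟩
  · simp only [idx] at hfar
    have h1 : ∀ b, ∃ r, r < D - 1 ∧ br b = x (m + r) := fun b => im_a hfar (h.adj_cb b)
    choose r hr1 hr2 using h1
    have hinj : Function.Injective (fun b : Fin D => (⟨r b, hr1 b⟩ : Fin (D - 1))) := by
      intro b b' hbb
      simp only [Fin.mk.injEq] at hbb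
      exact h.br_inj (by rw [hr2, hr2, hbb])
    have := Fintype.card_le_of_injective _ hinj
    simp at this
    omega
  · simp only [idx] at hfar
    by_cases hn : n < m
    · exact no_copy_in_block hp (im_closed hn) h (blk_iff.2 (Or.inl rfl))
    · push Not at hn
      have h1 : ∀ b, ∃ i, i < m ∧ br b = a i := fun b => im_x hfar hn (h.adj_cb b)
      choose i hi1 hi2 using h1
      have h2 : ∀ t : (b : Fin D) × Fin (ℓ b), ∃ r, r < D - 1 ∧ lf t = x (m + r) := by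
        intro t
        have := h.adj_bl t.1 t.2
        rw [hi2] at this
        exact im_a (by have := hi1 t.1; omega) this
      choose r hr1 hr2 using h2
      let g : Option ((b : Fin D) × Fin (ℓ b)) → Fin (D - 1) := fun t => match t with
        | none => ⟨n - m, by omega⟩
        | some t => ⟨r t, hr1 t⟩
      have hg : Function.Injective g := by
        intro t t' htt
        rcases t with _ | t <;> rcases t' with _ | t' <;> simp only [g, Fin.mk.injEq] at htt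
        · rfl
        · exfalso
          apply h.lf_ne_c t'
          rw [hr2]
          congr 1
          omega
        · exfalso
          apply h.lf_ne_c t
          rw [hr2]
          congr 1
          omega
        · have : t = t' := h.lf_inj (by rw [hr2, hr2, htt])
          rw [this]
      have := Fintype.card_le_of_injective _ hg
      rw [Fintype.card_option, card_leaves, Fintype.card_fin] at this
      omega
  · simp only [idx] at hfar
    by_cases hn : n < m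
    · exact no_copy_in_block hp (im_closed hn) h (blk_iff.2 (Or.inr ⟨j, rfl⟩))
    · rcases h.adj_cb ⟨0, by omega⟩ with ⟨h1, h2, h3⟩ | ⟨h1, h2, h3, h4⟩ | ⟨i', r, h1, h2, h3, h4⟩ |
        ⟨i', r, h1, h2, h3, h4⟩
      · simp only [idx] at h2; omega
      · simp only [idx] at h3; omega
      · cases h3
      · cases h4

/-- all edges of block `n` -/
noncomputable def Bf (p n : ℕ) : Finset (Sym2 (HV p)) := by
  classical
  exact (Finset.univ.image fun j : Fin p => (s(x n, w n j) : Sym2 (HV p))) ∪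
    ((Finset.univ.filter fun q : Fin p × Fin p => q.1 ≠ q.2).image
      fun q => (s(w n q.1, w n q.2) : Sym2 (HV p)))

theorem Bf_card (p n : ℕ) : (Bf p n).card ≤ p + p * p := by
  classical
  unfold Bf
  refine (Finset.card_union_le _ _).trans (Nat.add_le_add ?_ ?_)
  · refine Finset.card_image_le.trans ?_
    simp
  · refine Finset.card_image_le.trans ((Finset.card_filter_le _ _).trans ?_)
    simp

theorem mem_Bf {p n : ℕ} {u v : HV p} : s(u, v) ∈ Bf p n ↔ u ≠ v ∧ blk n u ∧ blk n v := by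
  classical
  unfold Bf
  simp only [Finset.mem_union, Finset.mem_image, Finset.mem_univ, true_and, Finset.mem_filter,
    Prod.exists, blk_iff]
  constructor
  · rintro (⟨j, h⟩ | ⟨j, j', hjj, h⟩)
    · rw [Sym2.eq_iff] at h
      rcases h with ⟨rfl, rfl⟩ | ⟨rfl, rfl⟩
      · exact ⟨by simp, Or.inl rfl, Or.inr ⟨j, rfl⟩⟩
      · exact ⟨by simp, Or.inr ⟨j, rfl⟩, Or.inl rfl⟩
    · rw [Sym2.eq_iff] at h
      rcases h with ⟨rfl, rfl⟩ | ⟨rfl, rfl⟩
      · exact ⟨by simpa using hjj, Or.inr ⟨j, rfl⟩, Or.inr ⟨j', rfl⟩⟩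
      · exact ⟨by simpa using fun e => hjj e.symm, Or.inr ⟨j', rfl⟩, Or.inr ⟨j, rfl⟩⟩
  · rintro ⟨hne, h1, h2⟩
    rcases h1 with rfl | ⟨j, rfl⟩ <;> rcases h2 with rfl | ⟨j', rfl⟩
    · exact absurd rfl hne
    · exact Or.inl ⟨j', rfl⟩
    · exact Or.inl ⟨j, Sym2.eq_swap⟩
    · exact Or.inr ⟨j, j', fun e => hne (by rw [e]), rfl⟩

end Pool.Agent.R709.SM.TI
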