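import Pool.Agent.R709.SM.TypeI2

namespace Pool.Agent.R709.SM.TI

open SimpleGraph Pool.Agent.R709.SM HV

variable {D : ℕ} {ℓ : Fin D → ℕ}

/-- a bounded sum of natural numbers is eventually zero -/
theorem eventually_zero {f : ℕ → ℕ} {C : ℕ} (h : ∀ m, ∑ i ∈ Finset.range m, f i ≤ C) :
    ∃ m0, ∀ i ≥ m0, f i = 0 := by
  by_contra hcon
  push Not at hcon
  have : ∀ c : ℕ, ∃ m, c ≤ ∑ i ∈ Finset.range m, f i := by
    intro c
    induction c with
    | zero => exact ⟨0, by simp⟩
    | succ c ih =>
      obtain ⟨m, hm⟩ := ih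
      obtain ⟨i, hi, hfi⟩ := hcon m
      refine ⟨i + 1, ?_⟩
      rw [Finset.sum_range_succ]
      have h1 : ∑ j ∈ Finset.range m, f j ≤ ∑ j ∈ Finset.range i, f j :=
        Finset.sum_le_sum_of_subset (Finset.range_subset_range.2 hi)
      omega
  obtain ⟨m, hm⟩ := this (C + 1)
  have := h m
  omega

theorem count {p : ℕ} {F : SimpleGraph (HV p)} (hp : p + 1 = D + ∑ b, ℓ b) (hD : 2 ≤ D)
    (hs : D ≤ (∑ b, ℓ b) + 1) (h : SMax (Sp D ℓ) (HG p) F) (m : ℕ) :
    m * (D - 1) + ∑ n ∈ Finset.range m, (Bf p n).card ≤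
      ∑ i ∈ Finset.range (m + (D - 1)), (attI p F i).ncard +
      ∑ n ∈ Finset.range (m + (D - 1)), ((Bf p n : Set (Sym2 (HV p))) ∩ F.edgeSet).ncard := by
  classical
  set K := D - 1 with hK
  let U : Set (Sym2 (HV p)) := {e | ∃ v ∈ e, v.idx < m + K}
  have hUuv : ∀ u v : HV p, s(u, v) ∈ U ↔ u.idx < m + K ∨ v.idx < m + K := by
    intro u v
    simp [U]
  have hattf : ∀ i, (attI p F i).Finite := fun i => (attI_le hp hD h i).1
  let FA : Finset (Sym2 (HV p)) := (Finset.range (m + K)).biUnion fun i =>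
    (hattf i).toFinset.image fun n => (s(a i, x n) : Sym2 (HV p))
  let FB : Finset (Sym2 (HV p)) := (Finset.range (m + K)).biUnion fun n =>
    (Bf p n).filter (· ∈ F.edgeSet)
  let IA : Finset (Sym2 (HV p)) := ((Finset.range m) ×ˢ (Finset.range K)).image
    fun q => (s(a q.1, x (m + q.2)) : Sym2 (HV p))
  let IB : Finset (Sym2 (HV p)) := (Finset.range m).biUnion (Bf p)
  have hFsub : F.edgeSet ∩ U ⊆ ↑(FA ∪ FB) := by
    intro e
    induction e using Sym2.ind with
    | _ u v =>
      rintro ⟨h1, h2⟩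
      rw [mem_edgeSet] at h1
      rw [hUuv] at h2
      have hG := h.1 h1
      rw [Finset.mem_coe, Finset.mem_union]
      have keyA : ∀ i n, F.Adj (a i) (x n) → i < m + K → s(a i, x n) ∈ FA := by
        intro i n hin hi
        simp only [FA, Finset.mem_biUnion, Finset.mem_range, Finset.mem_image]
        exact ⟨i, hi, n, (hattf i).mem_toFinset.2 hin, rfl⟩
      have keyB : ∀ n, ∀ u v : HV p, blk n u → blk n v → F.Adj u v → n < m + K → s(u, v) ∈ FB := by
        intro n u v hu hv huv hn
        simp only [FB, Finset.mem_biUnion, Finset.mem_range, Finset.mem_filter]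
        exact ⟨n, hn, mem_Bf.2 ⟨huv.ne, hu, hv⟩, huv⟩
      rcases u with i | n | ⟨n, j⟩ <;> rcases v with i' | n' | ⟨n', j'⟩
      · exact absurd hG hg_aa
      · have := hg_ax.1 hG
        simp only [idx] at h2
        exact Or.inl (keyA _ _ h1 (by omega))
      · exact absurd hG hg_aw
      · have := hg_ax.1 hG.symm
        simp only [idx] at h2
        rw [Sym2.eq_swap]
        exact Or.inl (keyA _ _ h1.symm (by omega))
      · exact absurd hG hg_xx
      · have := hg_xw.1 hG
        subst this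
        simp only [idx, or_self] at h2
        exact Or.inr (keyB n _ _ (blk_iff.2 (Or.inl rfl)) (blk_iff.2 (Or.inr ⟨_, rfl⟩)) h1 h2)
      · exact absurd hG.symm hg_aw
      · have := hg_xw.1 hG.symm
        subst this
        simp only [idx, or_self] at h2
        exact Or.inr (keyB _ _ _ (blk_iff.2 (Or.inr ⟨_, rfl⟩)) (blk_iff.2 (Or.inl rfl)) h1 h2)
      · obtain ⟨rfl, _⟩ := hg_ww.1 hG
        simp only [idx, or_self] at h2
        exact Or.inr (keyB n _ _ (blk_iff.2 (Or.inr ⟨_, rfl⟩)) (blk_iff.2 (Or.inr ⟨_, rfl⟩)) h1 h2)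
  have hIsub : (Im F m K).edgeSet ∩ U ⊆ ↑(IA ∪ IB) := by
    intro e
    induction e using Sym2.ind with
    | _ u v =>
      rintro ⟨h1, h2⟩
      rw [mem_edgeSet] at h1
      rw [hUuv] at h2
      rw [Finset.mem_coe, Finset.mem_union]
      have keyA : ∀ u v : HV p, Ihub p m K u v → s(u, v) ∈ IA := by
        rintro u v ⟨i, r, hi, hr, rfl, rfl⟩
        simp only [IA, Finset.mem_image, Finset.mem_product, Finset.mem_range, Prod.exists]
        exact ⟨i, r, ⟨hi, hr⟩, rfl⟩
      rcases h1 with ⟨g1, g2, g3⟩ | ⟨g1, g2, g3, g4⟩ | g | g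
      · omega
      · right
        simp only [IB, Finset.mem_biUnion, Finset.mem_range]
        refine ⟨u.idx, g3, mem_Bf.2 ⟨g1.ne, ⟨g2.1, rfl⟩, ?_⟩⟩
        have : (Im F (u.idx + 1) K).Adj u v := by
          refine Or.inr (Or.inl ⟨g1, g2, by omega, ?_⟩)
          rcases u with i | n | ⟨n, j⟩ <;> rcases v with i' | n' | ⟨n', j'⟩
          · exact absurd g1 hg_aa
          · exact absurd trivial g2.1
          · exact absurd trivial g2.1
          · exact absurd trivial g2.2
          · exact absurd g1 hg_xx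
          · have := hg_xw.1 g1; simp only [idx]; omega
          · exact absurd trivial g2.2
          · have := hg_xw.1 g1.symm; simp only [idx]; omega
          · have := (hg_ww.1 g1).1; simp only [idx]; omega
        exact im_closed (Nat.lt_succ_self _) u v ⟨g2.1, rfl⟩ this
      · exact Or.inl (keyA _ _ g)
      · rw [Sym2.eq_swap]; exact Or.inl (keyA _ _ g)
  have hIsup : (↑(IA ∪ IB) : Set (Sym2 (HV p))) ⊆ (Im F m K).edgeSet ∩ U := by
    intro e he
    rw [Finset.mem_coe, Finset.mem_union] at he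
    rcases he with he | he
    · simp only [IA, Finset.mem_image, Finset.mem_product, Finset.mem_range, Prod.exists] at he
      obtain ⟨i, r, ⟨hi, hr⟩, rfl⟩ := he
      refine ⟨?_, ?_⟩
      · rw [mem_edgeSet]
        exact Or.inr (Or.inr (Or.inl ⟨i, r, hi, hr, rfl, rfl⟩))
      · rw [hUuv]; left; simp only [idx]; omega
    · simp only [IB, Finset.mem_biUnion, Finset.mem_range] at he
      obtain ⟨n, hn, he⟩ := he
      revert he
      induction e using Sym2.ind with
      | _ u v =>
        intro he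
        obtain ⟨g1, g2, g3⟩ := mem_Bf.1 he
        refine ⟨?_, ?_⟩
        · rw [mem_edgeSet]
          exact Or.inr (Or.inl ⟨blk_adj g2 g3 g1, ⟨g2.1, g3.1⟩, by rw [g2.2]; exact hn,
            by rw [g3.2]; exact hn⟩)
        · rw [hUuv]; left; rw [g2.2]; omega
  have hagree : ∀ e ∉ U, e ∈ F.edgeSet ↔ e ∈ (Im F m K).edgeSet := by
    intro e
    induction e using Sym2.ind with
    | _ u v =>
      intro he
      rw [hUuv] at he
      push Not at he
      rw [mem_edgeSet, mem_edgeSet]
      constructor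
      · intro hf
        exact Or.inl ⟨hf, he.1, he.2⟩
      · rintro (⟨g1, g2, g3⟩ | ⟨g1, g2, g3, g4⟩ | ⟨i, r, hi, hr, rfl, rfl⟩ | ⟨i, r, hi, hr, rfl, rfl⟩)
        · exact g1
        · omega
        · have := he.1; simp only [idx] at this; omega
        · have := he.2; simp only [idx] at this; omega
  have hreg := h.region (im_le h.1 m K) (im_free hp hD hs h.2.1 m) U hagree
    ((Finset.finite_toSet _).subset hFsub) ((Finset.finite_toSet _).subset hIsub)
  have hIAc : IA.card = m * K := by
    rw [Finset.card_image_of_injOn]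
    · simp
    · rintro ⟨i, r⟩ _ ⟨i', r'⟩ _ hh
      simp only [Sym2.eq_iff, HV.a.injEq, HV.x.injEq, Nat.add_left_cancel_iff, reduceCtorEq,
        false_and, or_false] at hh
      rw [Prod.mk.injEq]; exact hh
  have hIBc : IB.card = ∑ n ∈ Finset.range m, (Bf p n).card := by
    apply Finset.card_biUnion
    intro n _ n' _ hnn
    change Disjoint (Bf p n) (Bf p n')
    rw [Finset.disjoint_left]
    intro e
    induction e using Sym2.ind with
    | _ u v =>
      intro h1 h2
      have g1 := (mem_Bf.1 h1).2.1.2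
      have g2 := (mem_Bf.1 h2).2.1.2
      exact hnn (g1.symm.trans g2)
  have hdisj : Disjoint IA IB := by
    rw [Finset.disjoint_left]
    intro e he he2
    simp only [IA, Finset.mem_image, Finset.mem_product, Finset.mem_range, Prod.exists] at he
    obtain ⟨i, r, ⟨hi, hr⟩, rfl⟩ := he
    simp only [IB, Finset.mem_biUnion, Finset.mem_range] at he2
    obtain ⟨n, hn, he2⟩ := he2
    exact (mem_Bf.1 he2).2.1.1 trivial
  have hlow : m * K + ∑ n ∈ Finset.range m, (Bf p n).card ≤ ((Im F m K).edgeSet ∩ U).ncard := by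
    rw [← hIAc, ← hIBc, ← Finset.card_union_of_disjoint hdisj, ← Set.ncard_coe_finset]
    exact Set.ncard_le_ncard hIsup ((Finset.finite_toSet _).subset hIsub)
  have hup : (F.edgeSet ∩ U).ncard ≤ ∑ i ∈ Finset.range (m + K), (attI p F i).ncard +
      ∑ n ∈ Finset.range (m + K), ((Bf p n : Set (Sym2 (HV p))) ∩ F.edgeSet).ncard := by
    calc (F.edgeSet ∩ U).ncard ≤ (↑(FA ∪ FB) : Set (Sym2 (HV p))).ncard :=
          Set.ncard_le_ncard hFsub (Finset.finite_toSet _)
      _ = (FA ∪ FB).card := Set.ncard_coe_finset _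
      _ ≤ FA.card + FB.card := Finset.card_union_le _ _
      _ ≤ _ := by
        refine Nat.add_le_add ?_ ?_
        · refine Finset.card_biUnion_le.trans (Finset.sum_le_sum fun i _ => ?_)
          refine Finset.card_image_le.trans ?_
          rw [Set.ncard_eq_toFinset_card _ (hattf i)]
        · refine Finset.card_biUnion_le.trans (Finset.sum_le_sum fun n _ => ?_)
          rw [← Set.ncard_coe_finset]
          apply le_of_eq
          congr 1
          ext e
          simp
  omega

theorem typeI : StmTypeI := by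
  intro D ℓ hD hs hgood
  classical
  obtain ⟨p, hp⟩ : ∃ p, p + 1 = D + ∑ b, ℓ b := ⟨D + ∑ b, ℓ b - 1, by omega⟩
  obtain ⟨F, h⟩ := hgood (HV p) (HG p)
  have hs1 : 1 ≤ ∑ b, ℓ b := by omega
  set K := D - 1 with hK
  let C := p + p * p
  let inn : ℕ → ℕ := fun n => ((Bf p n : Set (Sym2 (HV p))) ∩ F.edgeSet).ncard
  have hinn : ∀ n, inn n ≤ (Bf p n).card := by
    intro n
    rw [← Set.ncard_coe_finset]
    exact Set.ncard_le_ncard Set.inter_subset_left (Finset.finite_toSet _)
  have hatt : ∀ i, (attI p F i).ncard ≤ K := fun i => (attI_le hp hD h i).2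
  let f : ℕ → ℕ := fun i => (K - (attI p F i).ncard) + ((Bf p i).card - inn i)
  have hf : ∀ m, ∑ i ∈ Finset.range m, f i ≤ K * K + K * C := by
    intro m
    have h1 := count hp hD hs h m
    rw [← hK, Finset.sum_range_add, Finset.sum_range_add] at h1
    have h2 : ∑ r ∈ Finset.range K, (attI p F (m + r)).ncard ≤ K * K := by
      calc _ ≤ ∑ r ∈ Finset.range K, K := Finset.sum_le_sum fun r _ => hatt _
        _ = K * K := by simp
    have h3 : ∑ r ∈ Finset.range K, inn (m + r) ≤ K * C := by
      calc _ ≤ ∑ r ∈ Finset.range K, C :=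
            Finset.sum_le_sum fun r _ => (hinn _).trans (Bf_card _ _)
        _ = K * C := by simp
    have h4 : ∑ i ∈ Finset.range m, f i + (∑ i ∈ Finset.range m, (attI p F i).ncard +
        ∑ i ∈ Finset.range m, inn i) = m * K + ∑ i ∈ Finset.range m, (Bf p i).card := by
      have : m * K = ∑ i ∈ Finset.range m, K := by simp
      rw [this, ← Finset.sum_add_distrib, ← Finset.sum_add_distrib, ← Finset.sum_add_distrib]
      refine Finset.sum_congr rfl fun i _ => ?_
      have := hatt i
      have := hinn i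
      simp only [f]
      omega
    change m * K + _ ≤ (_ + _) + (∑ n ∈ Finset.range m, inn n + ∑ r ∈ Finset.range K, inn (m + r)) at h1
    omega
  obtain ⟨m0, hm0⟩ := eventually_zero hf
  have hz := hm0 m0 le_rfl
  have hatt0 : (attI p F m0).ncard = K := by
    have := hatt m0
    simp only [f] at hz
    omega
  have hne : (attI p F m0).Nonempty := by
    rw [← Set.ncard_pos (attI_le hp hD h m0).1, hatt0]
    omega
  obtain ⟨n, hn⟩ := hne
  have hmn : m0 ≤ n := hg_ax.1 (h.1 hn)
  have hz2 := hm0 n hmn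
  have hfull : (Bf p n : Set (Sym2 (HV p))) ∩ F.edgeSet = (Bf p n : Set (Sym2 (HV p))) := by
    apply Set.eq_of_subset_of_ncard_le Set.inter_subset_left _ (Finset.finite_toSet _)
    rw [Set.ncard_coe_finset]
    have := hinn n
    simp only [f, inn] at hz2 this ⊢
    omega
  refine h.2.1 (copy_of_complete (n := n) (i := m0) hp hs1 ?_ hn)
  intro u v hu hv huv
  have : s(u, v) ∈ (Bf p n : Set (Sym2 (HV p))) := by
    rw [Finset.mem_coe]; exact mem_Bf.2 ⟨huv, hu, hv⟩
  rw [← hfull] at this
  exact this.2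

end Pool.Agent.R709.SM.TI
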